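import Pool.Agent.Lib.MP_d2f538_an.Foli

/-!
# Lifted angles of secants and tangents of leaves
-/

open Set Filter Topology MeasureTheory

namespace MPd2f538

section lift

lemma isSimplyConnected_univ3 : IsSimplyConnected (univ : Set (ℝ × ℝ × ℝ)) := by
  have h : ContractibleSpace (univ : Set (ℝ × ℝ × ℝ)) :=
    convex_univ.contractibleSpace ⟨0, trivial⟩
  show SimplyConnectedSpace (univ : Set (ℝ × ℝ × ℝ))
  infer_instance

/-- Continuous polar angle of a nowhere vanishing map, normalised to be `π/4` where the first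
coordinate of the parameter is `1`. -/
lemma exists_angle (G : ℝ × ℝ × ℝ → ℝ × ℝ) (hG : Continuous G) (hG0 : ∀ p, G p ≠ 0) (l : ℝ)
    (hl : 0 < l) (hG1 : ∀ q, G (1, q) = (l, l)) :
    ∃ Θ : ℝ × ℝ × ℝ → ℝ, Continuous Θ ∧ (∀ q, Θ (1, q) = Real.pi / 4) ∧
      ∀ p, ∃ r > 0, (G p).1 = r * Real.cos (Θ p) ∧ (G p).2 = r * Real.sin (Θ p) := by
  set g : ℝ × ℝ × ℝ → ℂ := fun p => ⟨(G p).1, (G p).2⟩ with hg
  have hgc : Continuous g := by
    have : g = fun p => (((G p).1 : ℝ) : ℂ) + (((G p).2 : ℝ) : ℂ) * Complex.I := by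
      ext p
      apply Complex.ext <;> simp [hg]
    rw [this]
    fun_prop
  have hg0 : (0 : ℂ) ∉ g '' univ := by
    rintro ⟨p, -, hp⟩
    apply hG0 p
    have h1 := congrArg Complex.re hp
    have h2 := congrArg Complex.im hp
    simp only [hg, Complex.zero_re, Complex.zero_im] at h1 h2
    exact Prod.ext h1 h2
  obtain ⟨f, hfc, hf⟩ := Complex.exists_continuousOn_eqOn_exp_comp isSimplyConnected_univ3
    isOpen_univ hgc.continuousOn hg0
  have hfc' : Continuous f := continuousOn_univ.1 hfc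
  have hre : ∀ p, (G p).1 = Real.exp (f p).re * Real.cos (f p).im := by
    intro p
    have := hf (mem_univ p)
    simp only [Function.comp_apply] at this
    have h1 := congrArg Complex.re this
    rw [Complex.exp_re] at h1
    exact h1.symm
  have him : ∀ p, (G p).2 = Real.exp (f p).re * Real.sin (f p).im := by
    intro p
    have := hf (mem_univ p)
    simp only [Function.comp_apply] at this
    have h1 := congrArg Complex.im this
    rw [Complex.exp_im] at h1
    exact h1.symm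
  have h1 : ∀ q, Real.cos ((f (1, q)).im - Real.pi / 4) = 1 ∧
      Real.sin ((f (1, q)).im - Real.pi / 4) = 0 := by
    intro q
    have hr := hre (1, q)
    have hi := him (1, q)
    rw [hG1] at hr hi
    simp only at hr hi
    set E := Real.exp (f (1, q)).re with hE
    have hEpos : 0 < E := Real.exp_pos _
    set c := Real.cos (f (1, q)).im
    set s := Real.sin (f (1, q)).im
    have hcs : c = s := by
      have : E * c = E * s := by rw [← hr, ← hi]
      exact mul_left_cancel₀ hEpos.ne' this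
    have hcpos : 0 < c := by
      by_contra hc
      push Not at hc
      have : E * c ≤ 0 := mul_nonpos_of_nonneg_of_nonpos hEpos.le hc
      linarith
    have hsq : c ^ 2 + s ^ 2 = 1 := Real.cos_sq_add_sin_sq _
    have hc2 : 2 * c ^ 2 = 1 := by rw [← hcs] at hsq; linarith
    have hcv : c = √2 / 2 := by
      have h2 : (0:ℝ) ≤ √2 / 2 := by positivity
      have h3 : (√2 / 2) ^ 2 = c ^ 2 := by
        rw [div_pow, Real.sq_sqrt (by norm_num)]
        linarith
      exact ((pow_left_inj₀ h2 hcpos.le two_ne_zero).1 h3).symm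
    constructor
    · rw [Real.cos_sub, Real.cos_pi_div_four, Real.sin_pi_div_four]
      change c * (√2 / 2) + s * (√2 / 2) = 1
      rw [← hcs, ← hcv]
      nlinarith
    · rw [Real.sin_sub, Real.cos_pi_div_four, Real.sin_pi_div_four]
      change s * (√2 / 2) - c * (√2 / 2) = 0
      rw [← hcs]
      ring
  refine ⟨fun p => (f p).im - ((f (1, p.2)).im - Real.pi / 4), ?_, ?_, ?_⟩
  · fun_prop
  · intro q
    simp
  · intro p
    refine ⟨Real.exp (f p).re, Real.exp_pos _, ?_, ?_⟩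
    · rw [Real.cos_sub, (h1 p.2).1, (h1 p.2).2, hre p]
      ring
    · rw [Real.sin_sub, (h1 p.2).1, (h1 p.2).2, him p]
      ring

end lift

section
variable {l : ℝ} {L L1 L2 L11 L12 L22 : ℝ × ℝ → ℝ} {Φ : ℝ × ℝ → ℝ × ℝ}

/-- averaged tangent of a leaf; for `p.1 ≠ 0` it is a secant slope -/
noncomputable def GG (Φ : ℝ × ℝ → ℝ × ℝ) (p : ℝ × ℝ × ℝ) : ℝ × ℝ :=
  ∫ θ in (0:ℝ)..1, fderiv ℝ Φ (p.2.1 + θ * p.1, p.2.2) (1, 0)

namespace Fol

section
variable (hF : Fol l L1 L2 Φ)
include hF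

lemma cont_tan : Continuous fun p : ℝ × ℝ => fderiv ℝ Φ p (1, 0) :=
  (hF.cd.continuous_fderiv (by norm_num)).clm_apply continuous_const

lemma cont_GG : Continuous (GG Φ) := by
  unfold GG
  apply intervalIntegral.continuous_parametric_intervalIntegral_of_continuous'
  have := hF.cont_tan
  unfold Function.uncurry
  exact this.comp (by fun_prop : Continuous fun q : (ℝ × ℝ × ℝ) × ℝ =>
    ((q.1.2.1 + q.2 * q.1.1, q.1.2.2) : ℝ × ℝ))

lemma hasDerivAt_leaf (s a : ℝ) :
    HasDerivAt (fun s => Φ (s, a)) (fderiv ℝ Φ (s, a) (1, 0)) s := by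
  have h1 : HasFDerivAt Φ (fderiv ℝ Φ (s, a)) (s, a) :=
    (hF.cd.differentiable (by norm_num) (s, a)).hasFDerivAt
  have h2 : HasDerivAt (fun s : ℝ => ((s, a) : ℝ × ℝ)) (1, 0) s :=
    (hasDerivAt_id s).prodMk (hasDerivAt_const s a)
  exact h1.comp_hasDerivAt s h2

lemma smul_GG (h s a : ℝ) : h • GG Φ (h, s, a) = Φ (s + h, a) - Φ (s, a) := by
  have h1 : ∀ θ : ℝ, HasDerivAt (fun θ => Φ (s + θ * h, a))
      (h • fderiv ℝ Φ (s + θ * h, a) (1, 0)) θ := by
    intro θ
    have h2 := hF.hasDerivAt_leaf (s + θ * h) a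
    have h3 : HasDerivAt (fun θ : ℝ => s + θ * h) h θ := by
      simpa using ((hasDerivAt_id θ).mul_const h).const_add s
    exact h2.scomp θ h3
  have h4 := intervalIntegral.integral_eq_sub_of_hasDerivAt (a := 0) (b := 1)
    (fun θ _ => h1 θ) (by
      apply Continuous.intervalIntegrable
      have hc : Continuous fun θ : ℝ => fderiv ℝ Φ (s + θ * h, a) (1, 0) :=
        hF.cont_tan.comp (by fun_prop : Continuous fun θ : ℝ => ((s + θ * h, a) : ℝ × ℝ))
      exact hc.const_smul h)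
  rw [intervalIntegral.integral_smul] at h4
  rw [GG, h4]
  simp

lemma tan_ne_zero (p : ℝ × ℝ) : fderiv ℝ Φ p (1, 0) ≠ 0 := by
  intro h0
  set e := ContinuousLinearMap.toContinuousLinearEquivOfDetNeZero (fderiv ℝ Φ p) (hF.det p) with he
  have h1 : e (1, 0) = 0 := by
    rw [he]
    simpa using h0
  have : ((1:ℝ), (0:ℝ)) = 0 := by
    rw [← e.map_zero] at h1
    exact e.injective h1
  simp at this

omit hF in
lemma GG_zero (s a : ℝ) : GG Φ (0, s, a) = fderiv ℝ Φ (s, a) (1, 0) := by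
  unfold GG
  simp

lemma GG_ne_zero (p : ℝ × ℝ × ℝ) : GG Φ p ≠ 0 := by
  obtain ⟨h, s, a⟩ := p
  by_cases hh : h = 0
  · subst hh
    rw [GG_zero]
    exact hF.tan_ne_zero _
  · intro h0
    have := hF.smul_GG h s a
    rw [h0, smul_zero] at this
    have h2 := hF.inj (sub_eq_zero.1 this.symm)
    simp only [Prod.mk.injEq, add_eq_left, and_true] at h2
    exact hh h2

lemma GG_one (q : ℝ × ℝ) : GG Φ (1, q) = (l, l) := by
  have := hF.smul_GG 1 q.1 q.2
  rw [one_smul, hF.per] at this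
  rw [Prod.mk.eta] at this
  rw [this]
  simp

lemma GG_add_one (h s a : ℝ) : GG Φ (h, s + 1, a) = GG Φ (h, s, a) := by
  unfold GG
  congr 1
  ext1 θ
  have h1 := (hF.hasDerivAt_leaf (s + 1 + θ * h) a)
  have h2 := (hF.hasDerivAt_leaf (s + θ * h) a)
  have h3 : HasDerivAt (fun t => Φ (t + 1, a)) (fderiv ℝ Φ (s + 1 + θ * h, a) (1, 0))
      (s + θ * h) := by
    have : s + 1 + θ * h = s + θ * h + 1 := by ring
    rw [this] at h1 ⊢
    exact h1.comp_add_const (s + θ * h) 1
  have h4 : (fun t => Φ (t + 1, a)) = fun t => Φ (t, a) + (l, l) := by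
    ext1 t
    exact hF.per t a
  rw [h4] at h3
  exact h3.unique (h2.add_const _)

end

/-- The data of lifted angles. -/
structure IsAngle (Φ : ℝ × ℝ → ℝ × ℝ) (Θ : ℝ × ℝ × ℝ → ℝ) : Prop where
  cont : Continuous Θ
  one : ∀ q, Θ (1, q) = Real.pi / 4
  polar : ∀ p, ∃ r > 0, (GG Φ p).1 = r * Real.cos (Θ p) ∧ (GG Φ p).2 = r * Real.sin (Θ p)

lemma exists_isAngle (h : TwistGen l L L1 L2 L11 L12 L22) (hF : Fol l L1 L2 Φ) :
    ∃ Θ, IsAngle Φ Θ := by
  obtain ⟨Θ, h1, h2, h3⟩ := exists_angle (GG Φ) hF.cont_GG hF.GG_ne_zero l h.lpos hF.GG_one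
  exact ⟨Θ, h1, h2, h3⟩

end Fol
end

end MPd2f538
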