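import Pool.Agent.Lib.MP_d2f538_an.Wirtinger

open MeasureTheory Set Real Complex

namespace Pool.Agent.MP_d2f538_an

theorem eq_zero_of_integral_nonpos {ℓ : ℝ} (hℓ : 0 < ℓ) {F : ℝ → ℝ} (hF : Continuous F)
    (h0 : ∀ x, 0 ≤ F x) (hint : ∫ x in (0 : ℝ)..ℓ, F x ≤ 0) : ∀ x ∈ Icc 0 ℓ, F x = 0 := by
  by_contra hcon
  push Not at hcon
  obtain ⟨x, hx, hne⟩ := hcon
  have hpos : 0 < ∫ x in (0 : ℝ)..ℓ, F x := by
    apply intervalIntegral.integral_pos hℓ hF.continuousOn (fun y _ => h0 y)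
    exact ⟨x, hx, lt_of_le_of_ne (h0 x) (Ne.symm hne)⟩
  linarith

/-- Hurwitz's computation. -/
theorem hurwitz {ℓ : ℝ} (hℓ : 0 < ℓ) {z z' : ℝ → ℂ}
    (hz : ∀ x, HasDerivAt z (z' x) x) (hz' : Continuous z') (hunit : ∀ x, ‖z' x‖ = 1)
    (hper : ∀ x, z (x + ℓ) = z x) :
    ∫ x in (0 : ℝ)..ℓ, ‖z' x - ((2 * π / ℓ : ℝ) : ℂ) * I *
        (z x - (ℓ : ℂ)⁻¹ * ∫ x in (0 : ℝ)..ℓ, z x)‖ ^ 2 ≤
      2 * ℓ - 2 * (2 * π / ℓ) * ∫ x in (0 : ℝ)..ℓ, ((starRingEnd ℂ) (z x) * z' x).im := by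
  have hcz : Continuous z := continuous_iff_continuousAt.2 fun x => (hz x).continuousAt
  set c : ℂ := (ℓ : ℂ)⁻¹ * ∫ x in (0 : ℝ)..ℓ, z x with hc
  set w : ℝ → ℂ := fun x => z x - c with hw
  have hcw : Continuous w := hcz.sub continuous_const
  have hℓC : (ℓ : ℂ) ≠ 0 := by exact_mod_cast hℓ.ne'
  have hz0 : z ℓ = z 0 := by have := hper 0; rwa [zero_add] at this
  have hwd : ∀ x, HasDerivAt w (z' x) x := fun x => (hz x).sub_const c
  have hmean : ∫ x in (0 : ℝ)..ℓ, w x = 0 := by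
    rw [hw, intervalIntegral.integral_sub (hcz.intervalIntegrable _ _)
      (continuous_const.intervalIntegrable _ _)]
    simp only [intervalIntegral.integral_const, sub_zero]
    rw [hc, Complex.real_smul]
    field_simp
    simp
  have hW := wirtinger hℓ hwd hz' (by simp only [hw, hz0]) hmean
  have hz'int : ∫ x in (0 : ℝ)..ℓ, ‖z' x‖ ^ 2 = ℓ := by
    simp [hunit]
  rw [hz'int, sub_zero] at hW
  -- the area integral is unchanged by translation
  have hz'0 : ∫ x in (0 : ℝ)..ℓ, z' x = 0 := by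
    rw [intervalIntegral.integral_eq_sub_of_hasDerivAt (fun x _ => hz x)
      (hz'.intervalIntegrable _ _), hz0, sub_self]
  have harea : ∫ x in (0 : ℝ)..ℓ, ((starRingEnd ℂ) (w x) * z' x).im =
      ∫ x in (0 : ℝ)..ℓ, ((starRingEnd ℂ) (z x) * z' x).im := by
    have e1 : ∀ x, ((starRingEnd ℂ) (w x) * z' x).im = ((starRingEnd ℂ) (z x) * z' x).im
        - ((starRingEnd ℂ) c * z' x).im := by
      intro x
      simp only [hw, map_sub, sub_mul, Complex.sub_im]
    simp_rw [e1]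
    rw [intervalIntegral.integral_sub]
    · have : ∫ x in (0 : ℝ)..ℓ, ((starRingEnd ℂ) c * z' x).im = 0 := by
        have e2 : ∫ x in (0 : ℝ)..ℓ, ((starRingEnd ℂ) c * z' x).im =
            (∫ x in (0 : ℝ)..ℓ, (starRingEnd ℂ) c * z' x).im := by
          have := Complex.imCLM.intervalIntegral_comp_comm
            ((continuous_const.mul hz').intervalIntegrable (μ := volume) (a := 0) (b := ℓ)
              (u := fun x => (starRingEnd ℂ) c * z' x))
          simpa using this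
        rw [e2, intervalIntegral.integral_const_mul, hz'0, mul_zero, Complex.zero_im]
      rw [this, sub_zero]
    · exact (Complex.continuous_im.comp ((Complex.continuous_conj.comp hcz).mul hz')).intervalIntegrable _ _
    · exact (Complex.continuous_im.comp (continuous_const.mul hz')).intervalIntegrable _ _
  set ω : ℝ := 2 * π / ℓ with hω
  have hωpos : 0 < ω := by positivity
  have hF : ∀ x, ‖z' x - (ω : ℂ) * I * w x‖ ^ 2 =
      ‖z' x‖ ^ 2 - 2 * ω * ((starRingEnd ℂ) (w x) * z' x).im + ω ^ 2 * ‖w x‖ ^ 2 := by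
    intro x
    rw [← Complex.normSq_eq_norm_sq, ← Complex.normSq_eq_norm_sq, ← Complex.normSq_eq_norm_sq]
    simp only [Complex.normSq_apply, Complex.sub_re, Complex.sub_im, Complex.mul_re,
      Complex.mul_im, Complex.ofReal_re, Complex.ofReal_im, Complex.I_re, Complex.I_im,
      Complex.conj_re, Complex.conj_im]
    ring
  have hcF : Continuous fun x => ‖z' x - (ω : ℂ) * I * w x‖ ^ 2 := by fun_prop
  have hcA : Continuous fun x => ((starRingEnd ℂ) (w x) * z' x).im := by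
    exact Complex.continuous_im.comp ((Complex.continuous_conj.comp hcw).mul hz')
  show ∫ x in (0 : ℝ)..ℓ, ‖z' x - (ω : ℂ) * I * w x‖ ^ 2 ≤
      2 * ℓ - 2 * ω * ∫ x in (0 : ℝ)..ℓ, ((starRingEnd ℂ) (z x) * z' x).im
  simp_rw [hF]
  rw [intervalIntegral.integral_add, intervalIntegral.integral_sub,
    intervalIntegral.integral_const_mul, intervalIntegral.integral_const_mul, hz'int, harea]
  · have h1 : ω ^ 2 * ∫ x in (0 : ℝ)..ℓ, ‖w x‖ ^ 2 ≤ ℓ := by
      calc ω ^ 2 * ∫ x in (0 : ℝ)..ℓ, ‖w x‖ ^ 2 ≤ ω ^ 2 * ((ℓ / (2 * π)) ^ 2 * ℓ) := by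
            apply mul_le_mul_of_nonneg_left hW (by positivity)
        _ = ℓ := by rw [hω]; field_simp
    linarith
  · exact (hz'.norm.pow 2).intervalIntegrable _ _
  · exact (continuous_const.mul hcA).intervalIntegrable _ _
  · exact ((hz'.norm.pow 2).sub (continuous_const.mul hcA)).intervalIntegrable _ _
  · exact (continuous_const.mul (hcw.norm.pow 2)).intervalIntegrable _ _

/-- The isoperimetric inequality. -/
theorem isoper_ineq {ℓ : ℝ} (hℓ : 0 < ℓ) {z z' : ℝ → ℂ}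
    (hz : ∀ x, HasDerivAt z (z' x) x) (hz' : Continuous z') (hunit : ∀ x, ‖z' x‖ = 1)
    (hper : ∀ x, z (x + ℓ) = z x) :
    2 * π * ∫ x in (0 : ℝ)..ℓ, ((starRingEnd ℂ) (z x) * z' x).im ≤ ℓ ^ 2 := by
  have h1 := hurwitz hℓ hz hz' hunit hper
  have h2 : (0 : ℝ) ≤ ∫ x in (0 : ℝ)..ℓ, ‖z' x - ((2 * π / ℓ : ℝ) : ℂ) * I *
        (z x - (ℓ : ℂ)⁻¹ * ∫ x in (0 : ℝ)..ℓ, z x)‖ ^ 2 :=
    intervalIntegral.integral_nonneg hℓ.le fun x _ => by positivity
  set A := ∫ x in (0 : ℝ)..ℓ, ((starRingEnd ℂ) (z x) * z' x).im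
  have h3 : 2 * (2 * π / ℓ) * A ≤ 2 * ℓ := by linarith
  have h4 : 2 * (2 * π / ℓ) * A = 2 * (2 * π * A) / ℓ := by ring
  rw [h4, div_le_iff₀ hℓ] at h3
  nlinarith

/-- Hurwitz: equality in the isoperimetric inequality forces a circle. -/
theorem circle_of_isoper {ℓ : ℝ} (hℓ : 0 < ℓ) {z z' : ℝ → ℂ}
    (hz : ∀ x, HasDerivAt z (z' x) x) (hz' : Continuous z') (hunit : ∀ x, ‖z' x‖ = 1)
    (hper : ∀ x, z (x + ℓ) = z x) (hper' : ∀ x, z' (x + ℓ) = z' x)
    (hiso : ℓ ^ 2 ≤ 2 * π * ∫ x in (0 : ℝ)..ℓ, ((starRingEnd ℂ) (z x) * z' x).im) :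
    ∃ c : ℂ, ∃ r : ℝ, 0 < r ∧ range z = Metric.sphere c r := by
  have hcz : Continuous z := continuous_iff_continuousAt.2 fun x => (hz x).continuousAt
  set c : ℂ := (ℓ : ℂ)⁻¹ * ∫ x in (0 : ℝ)..ℓ, z x with hc
  set w : ℝ → ℂ := fun x => z x - c with hw
  have hcw : Continuous w := hcz.sub continuous_const
  have hwd : ∀ x, HasDerivAt w (z' x) x := fun x => (hz x).sub_const c
  set ω : ℝ := 2 * π / ℓ with hω
  have hωpos : 0 < ω := by positivity
  have hcF : Continuous fun x => ‖z' x - (ω : ℂ) * I * w x‖ ^ 2 := by fun_prop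
  have hFint : ∫ x in (0 : ℝ)..ℓ, ‖z' x - (ω : ℂ) * I * w x‖ ^ 2 ≤ 0 := by
    have h1 := hurwitz hℓ hz hz' hunit hper
    rw [← hc, ← hω] at h1
    refine h1.trans ?_
    have h2 : 2 * ℓ ≤ 2 * ω * ∫ x in (0 : ℝ)..ℓ, ((starRingEnd ℂ) (z x) * z' x).im := by
      have : 2 * ω * ∫ x in (0 : ℝ)..ℓ, ((starRingEnd ℂ) (z x) * z' x).im =
          (2 / ℓ) * (2 * π * ∫ x in (0 : ℝ)..ℓ, ((starRingEnd ℂ) (z x) * z' x).im) := by
        rw [hω]; ring
      rw [this]
      calc 2 * ℓ = (2 / ℓ) * ℓ ^ 2 := by field_simp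
        _ ≤ _ := mul_le_mul_of_nonneg_left hiso (by positivity)
    linarith
  have hzero := eq_zero_of_integral_nonpos hℓ hcF (fun x => by positivity) hFint
  have hzero' : ∀ x, z' x = (ω : ℂ) * I * w x := by
    intro x
    have hwper : Function.Periodic (fun x => ‖z' x - (ω : ℂ) * I * w x‖ ^ 2) ℓ := by
      intro x
      simp only [hw, hper, hper']
    obtain ⟨y, hy, hyx⟩ := hwper.exists_mem_Ico₀ hℓ x
    have h1 := hzero y (Ico_subset_Icc_self hy)
    rw [h1] at hyx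
    have : z' x - (ω : ℂ) * I * w x = 0 := by
      have := pow_eq_zero_iff (two_ne_zero) |>.1 hyx
      exact norm_eq_zero.1 this
    exact sub_eq_zero.1 this
  -- solve the ODE
  have hode : ∀ x, w x * Complex.exp (-(ω : ℂ) * I * x) = w 0 := by
    have hd : ∀ x : ℝ, HasDerivAt (fun x : ℝ => w x * Complex.exp (-(ω : ℂ) * I * x)) 0 x := by
      intro x
      have h1 : HasDerivAt (fun x : ℝ => -(ω : ℂ) * I * (x : ℂ)) (-(ω : ℂ) * I) x := by
        simpa using (Complex.ofRealCLM.hasDerivAt (x := x)).const_mul (-(ω : ℂ) * I)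
      have h2 := (hwd x).mul h1.cexp
      have h3 : z' x * cexp (-(ω : ℂ) * I * x) + w x * (cexp (-(ω : ℂ) * I * x) *
          (-(ω : ℂ) * I)) = 0 := by
        rw [hzero' x]
        ring
      rw [h3] at h2
      exact h2
    have hconst : ∀ x y : ℝ, w x * Complex.exp (-(ω : ℂ) * I * x) =
        w y * Complex.exp (-(ω : ℂ) * I * y) :=
      is_const_of_deriv_eq_zero (fun x => (hd x).differentiableAt) (fun x => (hd x).deriv)
    intro x
    rw [hconst x 0]
    simp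
  have hsol : ∀ x : ℝ, z x = c + w 0 * Complex.exp ((ω * x : ℝ) * I) := by
    intro x
    have h1 := hode x
    have h2 : w x = w 0 * Complex.exp ((ω * x : ℝ) * I) := by
      rw [← h1, mul_assoc, ← Complex.exp_add]
      rw [show -(ω : ℂ) * I * x + (ω * x : ℝ) * I = 0 by push_cast; ring, Complex.exp_zero, mul_one]
    have h3 : z x = c + w x := by simp [hw]
    rw [h3, h2]
  have hr : ‖w 0‖ = 1 / ω := by
    have h1 := hunit 0
    rw [hzero' 0, norm_mul, norm_mul, Complex.norm_I, Complex.norm_real, Real.norm_eq_abs,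
      abs_of_pos hωpos, mul_one] at h1
    field_simp
    linarith
  refine ⟨c, 1 / ω, by positivity, ?_⟩
  ext p
  simp only [mem_range, Metric.mem_sphere, dist_eq_norm]
  constructor
  · rintro ⟨x, rfl⟩
    rw [hsol x, add_sub_cancel_left, norm_mul, Complex.norm_exp_ofReal_mul_I, mul_one, hr]
  · intro hp
    have hw0 : w 0 ≠ 0 := by
      rw [← norm_ne_zero_iff, hr]; positivity
    set q : ℂ := (p - c) / w 0 with hq
    have hq1 : ‖q‖ = 1 := by rw [hq, norm_div, hp, hr, div_self]; positivity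
    refine ⟨Complex.arg q / ω, ?_⟩
    rw [hsol, mul_div_cancel₀ _ hωpos.ne']
    have : Complex.exp ((Complex.arg q : ℝ) * I) = q := by
      have := Complex.norm_mul_exp_arg_mul_I q
      rwa [hq1, Complex.ofReal_one, one_mul] at this
    rw [this, hq, mul_div_cancel₀ _ hw0]
    ring

end Pool.Agent.MP_d2f538_an
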