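import Pool.Agent.Lib.MP_d2f538_an.Total
import Pool.Agent.Lib.MP_d2f538_an.Isoper

open MeasureTheory Set Real Filter Topology

namespace Pool.Agent.MP_d2f538_an

variable {ℓ : ℝ} {γ γ' γ'' : ℝ → ℂ} {ψ k : ℝ → ℝ} {g : ℂ → ℝ} {h h' h'' : ℝ → ℝ}

theorem NormData.int_pos (N : NormData g h h' h'') :
    0 < ∫ φ in (0 : ℝ)..(2 * π), (h φ + h'' φ) ^ 2 := by
  have hch := N.ch
  have hch'' := N.c2
  apply intervalIntegral.integral_pos (by positivity)
  · exact Continuous.continuousOn (by fun_prop)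
  · intro x _; positivity
  · obtain ⟨c, hc, hpos⟩ := N.dense 0 (2 * π) (by positivity)
    exact ⟨c, Ioo_subset_Icc_self hc, by positivity⟩

/-- mean value of the norm -/
noncomputable def hmean (h : ℝ → ℝ) : ℝ := (2 * π)⁻¹ * ∫ φ in (0 : ℝ)..(2 * π), h φ

theorem NormData.wirtinger_h (N : NormData g h h' h'') :
    ∫ φ in (0 : ℝ)..(2 * π), (h φ - hmean h) ^ 2 ≤ ∫ φ in (0 : ℝ)..(2 * π), h' φ ^ 2 := by
  have hch := N.ch
  have hch' := N.ch'
  have h0 : (0 : ℝ) < 2 * π := by positivity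
  have hend : h (2 * π) = h 0 := by have := N.per 0; rwa [zero_add] at this
  have hW := wirtinger h0 (f := fun x => ((h x - hmean h : ℝ) : ℂ)) (f' := fun x => (h' x : ℂ))
    (fun x => ((N.d1 x).sub_const _).ofReal_comp) (by fun_prop) (by simp only [hend]) ?_
  · simp only [sub_zero, Complex.norm_real, Real.norm_eq_abs, sq_abs] at hW
    rw [div_self h0.ne', one_pow, one_mul] at hW
    exact hW
  · have h1 : ∫ x in (0 : ℝ)..(2 * π), (h x - hmean h) = 0 := by
      rw [intervalIntegral.integral_sub (hch.intervalIntegrable _ _)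
        (continuous_const.intervalIntegrable _ _), intervalIntegral.integral_const, hmean,
        smul_eq_mul, sub_zero, ← mul_assoc, mul_inv_cancel₀ h0.ne', one_mul, sub_self]
    rw [intervalIntegral.integral_ofReal, h1, Complex.ofReal_zero]

theorem NormData.int_le (N : NormData g h h' h'') :
    (∫ φ in (0 : ℝ)..(2 * π), h φ * (h φ + h'' φ)) +
        ∫ φ in (0 : ℝ)..(2 * π), (h φ + h'' φ - hmean h) ^ 2 ≤
      ∫ φ in (0 : ℝ)..(2 * π), (h φ + h'' φ) ^ 2 := by
  have hch := N.ch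
  have hch' := N.ch'
  have hch'' := N.c2
  have h0 : (0 : ℝ) < 2 * π := by positivity
  have hend : h (2 * π) = h 0 := by have := N.per 0; rwa [zero_add] at this
  have hend' : h' (2 * π) = h' 0 := by have := N.per' 0; rwa [zero_add] at this
  have h1 : ∫ φ in (0 : ℝ)..(2 * π), (h' φ ^ 2 + h φ * h'' φ) = 0 := by
    have hd : ∀ x, HasDerivAt (fun x => h x * h' x) (h' x ^ 2 + h x * h'' x) x := by
      intro x
      refine ((N.d1 x).fun_mul (N.d2 x)).congr_deriv ?_
      ring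
    rw [intervalIntegral.integral_eq_sub_of_hasDerivAt (fun x _ => hd x)
        (Continuous.intervalIntegrable (by fun_prop) _ _), hend, hend', sub_self]
  have h2 := N.wirtinger_h
  set m := hmean h with hm
  have hmI : ∫ φ in (0 : ℝ)..(2 * π), h φ = 2 * π * m := by
    rw [hm, hmean]; field_simp
  have hmI' : ∫ φ in (0 : ℝ)..(2 * π), h'' φ = 0 := by
    rw [intervalIntegral.integral_eq_sub_of_hasDerivAt (fun x _ => N.d2 x)
        (hch''.intervalIntegrable _ _), hend', sub_self]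
  rw [intervalIntegral.integral_add (Continuous.intervalIntegrable (by fun_prop) _ _)
    (Continuous.intervalIntegrable (by fun_prop) _ _)] at h1
  have h3 : ∀ φ, (h φ + h'' φ - m) ^ 2 = (h φ + h'' φ) ^ 2 - 2 * m * h φ - 2 * m * h'' φ + m ^ 2 := by
    intro φ; ring
  have h4 : ∀ φ, h φ * (h φ + h'' φ) = (h φ - m) ^ 2 + 2 * m * h φ - m ^ 2 + h φ * h'' φ := by
    intro φ; ring
  have e3 : ∫ φ in (0 : ℝ)..(2 * π), (h φ + h'' φ - m) ^ 2 =
      (∫ φ in (0 : ℝ)..(2 * π), (h φ + h'' φ) ^ 2) - 2 * m * (2 * π * m) - 2 * m * 0 +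
        2 * π * m ^ 2 := by
    simp_rw [h3]
    rw [intervalIntegral.integral_add (Continuous.intervalIntegrable (by fun_prop) _ _)
      (Continuous.intervalIntegrable (by fun_prop) _ _),
      intervalIntegral.integral_sub (Continuous.intervalIntegrable (by fun_prop) _ _)
      (Continuous.intervalIntegrable (by fun_prop) _ _),
      intervalIntegral.integral_sub (Continuous.intervalIntegrable (by fun_prop) _ _)
      (Continuous.intervalIntegrable (by fun_prop) _ _),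
      intervalIntegral.integral_const_mul, intervalIntegral.integral_const_mul, hmI, hmI',
      intervalIntegral.integral_const, smul_eq_mul, sub_zero]
  have e4 : ∫ φ in (0 : ℝ)..(2 * π), h φ * (h φ + h'' φ) =
      (∫ φ in (0 : ℝ)..(2 * π), (h φ - m) ^ 2) + 2 * m * (2 * π * m) - 2 * π * m ^ 2 +
        ∫ φ in (0 : ℝ)..(2 * π), h φ * h'' φ := by
    simp_rw [h4]
    rw [intervalIntegral.integral_add (Continuous.intervalIntegrable (by fun_prop) _ _)
      (Continuous.intervalIntegrable (by fun_prop) _ _),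
      intervalIntegral.integral_sub (Continuous.intervalIntegrable (by fun_prop) _ _)
      (Continuous.intervalIntegrable (by fun_prop) _ _),
      intervalIntegral.integral_add (Continuous.intervalIntegrable (by fun_prop) _ _)
      (Continuous.intervalIntegrable (by fun_prop) _ _),
      intervalIntegral.integral_const_mul, hmI,
      intervalIntegral.integral_const, smul_eq_mul, sub_zero]
  rw [e3, e4]
  nlinarith

/-- the master inequality -/
theorem master_ineq (D : AngleData ℓ γ γ' γ'' ψ k) (N : NormData g h h' h'')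
    (hiso : ∫ x in (0 : ℝ)..ℓ, (γ' x) ^ 2 = 0) (hA : 0 < area2 ℓ γ γ')
    (hle : ∀ c, ∫ q in Ioc 0 ℓ ×ˢ Ioo 0 ℓ, HH γ γ' ψ k h h' h'' c (q.1, q.1 + q.2) ≤ 0) :
    ℓ ^ 2 / (2 * area2 ℓ γ γ') * (∫ φ in (0 : ℝ)..(2 * π), (h φ + h'' φ) ^ 2) ≤
      π * ∫ φ in (0 : ℝ)..(2 * π), h φ * (h φ + h'' φ) := by
  have h1 := hle (ℓ / area2 ℓ γ γ')
  rw [(HH_integral D N _).2, PP_total D N hiso] at h1
  set A := area2 ℓ γ γ'
  have e1 : ℓ / A * ℓ - (ℓ / A) ^ 2 * (A / 2) = ℓ ^ 2 / (2 * A) := by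
    field_simp; ring
  rw [e1] at h1
  linarith

theorem isoper_of_ineq (D : AngleData ℓ γ γ' γ'' ψ k) (N : NormData g h h' h'')
    (hiso : ∫ x in (0 : ℝ)..ℓ, (γ' x) ^ 2 = 0) (hA : 0 < area2 ℓ γ γ')
    (hle : ∀ c, ∫ q in Ioc 0 ℓ ×ˢ Ioo 0 ℓ, HH γ γ' ψ k h h' h'' c (q.1, q.1 + q.2) ≤ 0) :
    ℓ ^ 2 ≤ 2 * π * area2 ℓ γ γ' := by
  have h1 := master_ineq D N hiso hA hle
  have hIW := N.int_le
  have hsq : 0 ≤ ∫ φ in (0 : ℝ)..(2 * π), (h φ + h'' φ - hmean h) ^ 2 :=
    intervalIntegral.integral_nonneg (by positivity) fun x _ => by positivity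
  have hIpos := N.int_pos
  set A := area2 ℓ γ γ'
  set I := ∫ φ in (0 : ℝ)..(2 * π), (h φ + h'' φ) ^ 2 with hI
  set W := ∫ φ in (0 : ℝ)..(2 * π), h φ * (h φ + h'' φ) with hW
  have hWI : W ≤ I := by linarith
  have h2 : ℓ ^ 2 / (2 * A) * I ≤ π * I := by
    have := mul_le_mul_of_nonneg_left hWI pi_pos.le
    linarith
  have h3 : ℓ ^ 2 / (2 * A) ≤ π := le_of_mul_le_mul_right h2 hIpos
  rw [div_le_iff₀ (by positivity)] at h3
  linarith

/-- The radius of curvature of the polar body is constant. -/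
theorem radius_const (D : AngleData ℓ γ γ' γ'' ψ k) (N : NormData g h h' h'')
    (hiso : ∫ x in (0 : ℝ)..ℓ, (γ' x) ^ 2 = 0) (hA : 0 < area2 ℓ γ γ')
    (hle : ∀ c, ∫ q in Ioc 0 ℓ ×ˢ Ioo 0 ℓ, HH γ γ' ψ k h h' h'' c (q.1, q.1 + q.2) ≤ 0) :
    ∀ φ, h φ + h'' φ = hmean h := by
  have hch := N.ch
  have hch'' := N.c2
  have h1 := master_ineq D N hiso hA hle
  have hIW := N.int_le
  have hIpos := N.int_pos
  have hiso' : 2 * π * area2 ℓ γ γ' ≤ ℓ ^ 2 := isoper_ineq D.pos D.d1 D.cγ' D.unit D.per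
  have h2π : (0 : ℝ) < 2 * π := by positivity
  have h2 : π ≤ ℓ ^ 2 / (2 * area2 ℓ γ γ') := by
    rw [le_div_iff₀ (by positivity)]; linarith
  have h3 : π * (∫ φ in (0 : ℝ)..(2 * π), (h φ + h'' φ) ^ 2) ≤
      π * ∫ φ in (0 : ℝ)..(2 * π), h φ * (h φ + h'' φ) :=
    (mul_le_mul_of_nonneg_right h2 hIpos.le).trans h1
  have h4 := le_of_mul_le_mul_left h3 pi_pos
  have h5 : ∫ φ in (0 : ℝ)..(2 * π), (h φ + h'' φ - hmean h) ^ 2 ≤ 0 := by linarith
  have h6 := eq_zero_of_integral_nonpos h2π (F := fun φ => (h φ + h'' φ - hmean h) ^ 2)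
    (by fun_prop) (fun x => by positivity) h5
  intro φ
  have hper : Function.Periodic (fun φ => (h φ + h'' φ - hmean h) ^ 2) (2 * π) := by
    intro x; simp only [N.per, N.per'']
  obtain ⟨y, hy, hyx⟩ := hper.exists_mem_Ico₀ h2π φ
  have h7 := h6 y (Ico_subset_Icc_self hy)
  rw [h7] at hyx
  have := pow_eq_zero_iff (two_ne_zero) |>.1 hyx
  linarith

/-- hence the norm is affine in `cos` and `sin` -/
theorem h_form (N : NormData g h h' h'') {m : ℝ} (hm : ∀ φ, h φ + h'' φ = m) :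
    ∃ α β : ℝ, ∀ φ, h φ = m + α * Real.cos φ + β * Real.sin φ := by
  have d1 : ∀ x, HasDerivAt (fun x => h x * Real.cos x - h' x * Real.sin x - m * Real.cos x) 0 x := by
    intro x
    have := (((N.d1 x).fun_mul (Real.hasDerivAt_cos x)).fun_sub
      ((N.d2 x).fun_mul (Real.hasDerivAt_sin x))).fun_sub ((Real.hasDerivAt_cos x).const_mul m)
    refine this.congr_deriv ?_
    rw [← hm x]; ring
  have d2 : ∀ x, HasDerivAt (fun x => h x * Real.sin x + h' x * Real.cos x - m * Real.sin x) 0 x := by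
    intro x
    have := (((N.d1 x).fun_mul (Real.hasDerivAt_sin x)).fun_add
      ((N.d2 x).fun_mul (Real.hasDerivAt_cos x))).fun_sub ((Real.hasDerivAt_sin x).const_mul m)
    refine this.congr_deriv ?_
    rw [← hm x]; ring
  have c1 := is_const_of_deriv_eq_zero (fun x => (d1 x).differentiableAt) (fun x => (d1 x).deriv)
  have c2 := is_const_of_deriv_eq_zero (fun x => (d2 x).differentiableAt) (fun x => (d2 x).deriv)
  refine ⟨h 0 * Real.cos 0 - h' 0 * Real.sin 0 - m * Real.cos 0,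
    h 0 * Real.sin 0 + h' 0 * Real.cos 0 - m * Real.sin 0, ?_⟩
  intro φ
  have e1 := c1 φ 0
  have e2 := c2 φ 0
  rw [← e1, ← e2]
  have hs := Real.sin_sq_add_cos_sq φ
  linear_combination (m - h φ) * hs

/-- The curve is a circle centred at the origin as soon as the integral inequality holds. -/
theorem circle_of_ineq (D : AngleData ℓ γ γ' γ'' ψ k) (N : NormData g h h' h'')
    (hg : ∀ x, g (γ x) = 1)
    (hiso : ∫ x in (0 : ℝ)..ℓ, (γ' x) ^ 2 = 0) (hA : 0 < area2 ℓ γ γ')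
    (hle : ∀ c, ∫ q in Ioc 0 ℓ ×ˢ Ioo 0 ℓ, HH γ γ' ψ k h h' h'' c (q.1, q.1 + q.2) ≤ 0) :
    ∃ r : ℝ, 0 < r ∧ range γ = Metric.sphere 0 r := by
  obtain ⟨c, r, hr, hrange⟩ :=
    circle_of_isoper D.pos D.d1 D.cγ' D.unit D.per D.per' (isoper_of_ineq D N hiso hA hle)
  obtain ⟨α, β, hform⟩ := h_form N (radius_const D N hiso hA hle)
  set m := hmean h with hm
  have hmpos : 0 < m := by
    obtain ⟨φ, _, hφ⟩ := N.dense 0 1 one_pos
    rwa [radius_const D N hiso hA hle φ] at hφ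
  -- the equation of the curve
  have hcurve : ∀ p ∈ Metric.sphere c r, m * ‖p‖ + (α * p.re + β * p.im) = 1 := by
    intro p hp
    rw [← hrange] at hp
    obtain ⟨x, rfl⟩ := hp
    have h1 := hg x
    have h2 := Complex.norm_mul_exp_arg_mul_I (γ x)
    have h3 := N.hom ‖γ x‖ (Complex.arg (γ x)) (norm_nonneg _)
    rw [h2, h1, hform] at h3
    have h4 : (γ x).re = ‖γ x‖ * Real.cos (Complex.arg (γ x)) := by
      have := congrArg Complex.re h2
      rw [Complex.re_ofReal_mul, Complex.exp_ofReal_mul_I_re] at this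
      exact this.symm
    have h5 : (γ x).im = ‖γ x‖ * Real.sin (Complex.arg (γ x)) := by
      have := congrArg Complex.im h2
      rw [Complex.im_ofReal_mul, Complex.exp_ofReal_mul_I_im] at this
      exact this.symm
    have h6 : ‖γ x‖ * m + α * (‖γ x‖ * Real.cos (Complex.arg (γ x))) +
        β * (‖γ x‖ * Real.sin (Complex.arg (γ x))) = 1 := by
      rw [h3]; ring
    rw [← h4, ← h5] at h6
    linarith
  -- squared, on the four points `c ± r`, `c ± i r`
  have hsq : ∀ u v : ℝ, u ^ 2 + v ^ 2 = r ^ 2 →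
      m ^ 2 * ((c.re + u) ^ 2 + (c.im + v) ^ 2) =
        (1 - (α * (c.re + u) + β * (c.im + v))) ^ 2 := by
    intro u v huv
    have hp : c + ⟨u, v⟩ ∈ Metric.sphere c r := by
      rw [Metric.mem_sphere, dist_eq_norm, add_sub_cancel_left]
      have h1 : ‖(⟨u, v⟩ : ℂ)‖ ^ 2 = r ^ 2 := by
        rw [← Complex.normSq_eq_norm_sq, Complex.normSq_apply, ← huv]; ring
      have h2 : 0 ≤ ‖(⟨u, v⟩ : ℂ)‖ := norm_nonneg _
      nlinarith
    have h1 := hcurve _ hp
    have h3 : ‖c + ⟨u, v⟩‖ ^ 2 = (c.re + u) ^ 2 + (c.im + v) ^ 2 := by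
      rw [← Complex.normSq_eq_norm_sq, Complex.normSq_apply]
      simp only [Complex.add_re, Complex.add_im]; ring
    simp only [Complex.add_re, Complex.add_im] at h1
    rw [← h3, ← mul_pow]
    congr 1
    linarith
  have a1 := hsq r 0 (by ring)
  have a2 := hsq (-r) 0 (by ring)
  have a3 := hsq 0 r (by ring)
  have a4 := hsq 0 (-r) (by ring)
  have hs2 : (r / Real.sqrt 2) ^ 2 = r ^ 2 / 2 := by
    rw [div_pow, Real.sq_sqrt (by norm_num)]
  have a5 := hsq (r / Real.sqrt 2) (r / Real.sqrt 2) (by rw [hs2]; ring)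
  have a6 := hsq (-(r / Real.sqrt 2)) (-(r / Real.sqrt 2)) (by rw [neg_sq, hs2]; ring)
  set q := r / Real.sqrt 2 with hq
  have hαβ : α ^ 2 = β ^ 2 := by
    have : r ^ 2 * (α ^ 2 - β ^ 2) = 0 := by linear_combination (-1 / 2) * (a1 + a2 - a3 - a4)
    have hr2 : r ^ 2 ≠ 0 := by positivity
    have := (mul_eq_zero.1 this).resolve_left hr2
    linarith
  have hαβ' : α * β = 0 := by
    have : r ^ 2 * (α * β) = 0 := by
      linear_combination (-1 / 2) * (a5 + a6 - a1 - a2) + (m ^ 2 * 2 - (α + β) ^ 2) * hs2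
        + (r ^ 2 / 2) * hαβ
    have hr2 : r ^ 2 ≠ 0 := by positivity
    exact (mul_eq_zero.1 this).resolve_left hr2
  have hα : α = 0 := by
    rcases mul_eq_zero.1 hαβ' with h1 | h1
    · exact h1
    · rw [h1] at hαβ; exact pow_eq_zero_iff (two_ne_zero) |>.1 (by linarith)
  have hβ : β = 0 := by
    rw [hα] at hαβ; exact pow_eq_zero_iff (two_ne_zero) |>.1 (by linarith)
  rw [hα, hβ] at a1 a2 a3 a4
  have hm2 : m ^ 2 * r ≠ 0 := by positivity
  have hcre : c.re = 0 := by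
    have : (m ^ 2 * r) * c.re = 0 := by linear_combination (1 / 4) * (a1 - a2)
    exact (mul_eq_zero.1 this).resolve_left hm2
  have hcim : c.im = 0 := by
    have : (m ^ 2 * r) * c.im = 0 := by linear_combination (1 / 4) * (a3 - a4)
    exact (mul_eq_zero.1 this).resolve_left hm2
  have hc : c = 0 := Complex.ext hcre hcim
  rw [hc] at hrange
  exact ⟨r, hr, hrange⟩

end Pool.Agent.MP_d2f538_an
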