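import Mathlib

open Set Topology

namespace Pool.Agent.MP_d2f538_an

/-- `γ : ℝ → ℂ = ℝ²` is a `C²` closed curve of period `ℓ`, parametrised by `g_K`-arc length
(`g_K = gauge K`), which bounds the open, bounded, strictly convex domain `K`, and the origin lies
in `K`. No symmetry of `K` and no orientation of `γ` is assumed. -/
structure IsTable (K : Set ℂ) (γ : ℝ → ℂ) (ℓ : ℝ) : Prop where
  isOpen : IsOpen K
  convex : Convex ℝ K
  isBounded : Bornology.IsBounded K
  zero_mem : (0 : ℂ) ∈ K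
  strictConvex : StrictConvex ℝ (closure K)
  period_pos : 0 < ℓ
  contDiff : ContDiff ℝ 2 γ
  periodic : Function.Periodic γ ℓ
  simple : InjOn γ (Ico 0 ℓ)
  boundary : range γ = frontier K
  arclength : ∀ t, gauge K (deriv γ t) = 1

/-- The length, in the (possibly asymmetric) norm with unit ball `K`, of the oriented chord from
`γ t` to `γ t₁`: the generating function `L(t, t₁)` of the Minkowski billiard map `T`. -/
noncomputable def chordLength (K : Set ℂ) (γ : ℝ → ℂ) (t t₁ : ℝ) : ℝ := gauge K (γ t₁ - γ t)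

/-- `T (t₀, t₁) = (t₁, t₂)`, that is, `∂₂L(t₀, t₁) + ∂₁L(t₁, t₂) = 0`. -/
def Reflects (K : Set ℂ) (γ : ℝ → ℂ) (t₀ t₁ t₂ : ℝ) : Prop :=
  deriv (fun t => chordLength K γ t₀ t) t₁ + deriv (fun t => chordLength K γ t t₂) t₁ = 0

/-- The universal cover of the phase cylinder of a closed curve of period `ℓ`: pairs `(t, t₁)` of
parameters with `t < t₁ < t + ℓ`. The phase cylinder is its quotient by the translation by
`(ℓ, ℓ)`. -/
def Chords (ℓ : ℝ) : Set (ℝ × ℝ) := {p | p.1 < p.2 ∧ p.2 < p.1 + ℓ}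

/-- `leaves` is a `C¹` foliation of the phase cylinder by rotational curves; everything is lifted
to the universal cover `Chords ℓ`, so each leaf is the full preimage of a closed curve.
* The leaves partition `Chords ℓ`.
* Each leaf is the lift of a simple closed curve that winds once around the cylinder.
* Each point has a neighbourhood `U` with a `C¹` function `F` on `U`, of nonzero derivative at the
  point, whose level sets in `U` are contained in leaves. -/
structure IsRotationalFoliation (ℓ : ℝ) (leaves : Set (Set (ℝ × ℝ))) : Prop where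
  subset : ∀ C ∈ leaves, C ⊆ Chords ℓ
  partition : ∀ p ∈ Chords ℓ, ∃! C, C ∈ leaves ∧ p ∈ C
  rotational : ∀ C ∈ leaves, ∃ c : ℝ → ℝ × ℝ, Continuous c ∧ Function.Injective c ∧
    (∀ s, c (s + 1) = c s + (ℓ, ℓ)) ∧ range c = C
  chart : ∀ p ∈ Chords ℓ, ∃ F : ℝ × ℝ → ℝ, ∃ U ∈ 𝓝 p, ContDiffOn ℝ 1 F U ∧ fderiv ℝ F p ≠ 0 ∧
    ∀ q ∈ U, ∀ q' ∈ U, F q = F q' → ∀ C ∈ leaves, q ∈ C → q' ∈ C

/-- The Minkowski billiard map of `K` is totally integrable in the whole phase cylinder: the
cylinder has a `C¹` foliation by rotational curves invariant under `T`. -/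
def TotallyIntegrable (K : Set ℂ) (γ : ℝ → ℂ) (ℓ : ℝ) : Prop :=
  ∃ leaves : Set (Set (ℝ × ℝ)), IsRotationalFoliation ℓ leaves ∧
    ∀ C ∈ leaves, ∀ t₀ t₁ t₂ : ℝ, (t₀, t₁) ∈ C → (t₁, t₂) ∈ Chords ℓ →
      Reflects K γ t₀ t₁ t₂ → (t₁, t₂) ∈ C

end Pool.Agent.MP_d2f538_an
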