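import Pool.Agent.Lib.MP_d2f538_an.Calib

/-!
# The E. Hopf type inequality
-/

open Set Filter Topology MeasureTheory

namespace MPd2f538

/-- the quadratic form of the second differential -/
def QQ (L11 L12 L22 : ℝ × ℝ → ℝ) (q : ℝ × ℝ) (W : ℝ × ℝ) : ℝ :=
  L11 q * W.1 ^ 2 + 2 * L12 q * W.1 * W.2 + L22 q * W.2 ^ 2

/-- one-dimensional second order comparison -/
lemma nonneg_of_second_deriv {φ φ' φ'' : ℝ → ℝ} {e : ℝ} (he : 0 < e)
    (h1 : ∀ t ∈ Icc 0 e, HasDerivAt φ (φ' t) t) (h2 : ∀ t ∈ Icc 0 e, HasDerivAt φ' (φ'' t) t)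
    (h3 : ∀ t ∈ Icc 0 e, 0 ≤ φ'' t) (h4 : φ' 0 = 0) (h5 : φ 0 = 0) : 0 ≤ φ e := by
  have key : ∀ t ∈ Icc 0 e, 0 ≤ φ' t := by
    intro t ht
    rcases eq_or_lt_of_le ht.1 with h | h
    · rw [← h, h4]
    · obtain ⟨c, hc, hce⟩ := exists_hasDerivAt_eq_slope φ' φ'' h
        (fun x hx => (h2 x ⟨hx.1, hx.2.trans ht.2⟩).continuousAt.continuousWithinAt)
        (fun x hx => h2 x ⟨hx.1.le, hx.2.le.trans ht.2⟩)
      have := h3 c ⟨hc.1.le, hc.2.le.trans ht.2⟩
      rw [hce, h4] at this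
      have h6 : 0 < t - 0 := by linarith
      rw [le_div_iff₀ h6] at this
      linarith
  obtain ⟨c, hc, hce⟩ := exists_hasDerivAt_eq_slope φ φ' he
    (fun x hx => (h1 x hx).continuousAt.continuousWithinAt)
    (fun x hx => h1 x ⟨hx.1.le, hx.2.le⟩)
  have := key c ⟨hc.1.le, hc.2.le⟩
  rw [hce, h5] at this
  have h6 : 0 < e - 0 := by linarith
  rw [le_div_iff₀ h6] at this
  linarith

section
variable {l : ℝ} {L L1 L2 L11 L12 L22 : ℝ × ℝ → ℝ} {Φ : ℝ × ℝ → ℝ × ℝ}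

namespace TwistGen
variable (h : TwistGen l L L1 L2 L11 L12 L22)
include h

lemma contOn_QQ {w : ℝ → ℝ} (hw : Continuous w) :
    ContinuousOn (fun p => QQ L11 L12 L22 p (w p.1, w p.2)) (Sig l) := by
  unfold QQ
  have h1 := h.c11
  have h2 := h.c12
  have h3 := h.c22
  have h4 : ContinuousOn (fun p : ℝ × ℝ => w p.1) (Sig l) := (hw.comp continuous_fst).continuousOn
  have h5 : ContinuousOn (fun p : ℝ × ℝ => w p.2) (Sig l) := (hw.comp continuous_snd).continuousOn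
  exact ((h1.mul (h4.pow 2)).add (((continuousOn_const.mul h2).mul h4).mul h5)).add
    (h3.mul (h5.pow 2))

lemma per_QQ {w : ℝ → ℝ} (hwp : ∀ x, w (x + l) = w x) (p : ℝ × ℝ) (hp : p ∈ Sig l) :
    QQ L11 L12 L22 (p + (l, l)) (w (p + (l, l)).1, w (p + (l, l)).2) =
      QQ L11 L12 L22 p (w p.1, w p.2) := by
  unfold QQ
  simp only [Prod.fst_add, Prod.snd_add, hwp, h.p11 p hp, h.p12 p hp, h.p22 p hp]

/-- the second difference along a direction -/
lemma second_diff {p W : ℝ × ℝ} {e c : ℝ} (he : 0 < e)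
    (hS : ∀ t ∈ Icc (-e) e, p + t • W ∈ Sig l)
    (hQ : ∀ t ∈ Icc (-e) e, c ≤ QQ L11 L12 L22 (p + t • W) W) :
    e ^ 2 * c ≤ L (p + e • W) + L (p + (-e) • W) - 2 * L p := by
  have dline : ∀ t : ℝ, HasDerivAt (fun t : ℝ => p + t • W) W t := by
    intro t
    simpa using ((hasDerivAt_id t).smul_const W).const_add p
  have dL : ∀ t ∈ Icc (-e) e, HasDerivAt (fun t : ℝ => L (p + t • W))
      (L1 (p + t • W) * W.1 + L2 (p + t • W) * W.2) t := by
    intro t ht
    have := (h.dL _ (hS t ht)).comp_hasDerivAt t (dline t)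
    simpa [Function.comp_def] using this
  have dL1 : ∀ t ∈ Icc (-e) e, HasDerivAt (fun t : ℝ => L1 (p + t • W))
      (L11 (p + t • W) * W.1 + L12 (p + t • W) * W.2) t := by
    intro t ht
    have := (h.dL1 _ (hS t ht)).comp_hasDerivAt t (dline t)
    simpa [Function.comp_def] using this
  have dL2 : ∀ t ∈ Icc (-e) e, HasDerivAt (fun t : ℝ => L2 (p + t • W))
      (L12 (p + t • W) * W.1 + L22 (p + t • W) * W.2) t := by
    intro t ht
    have := (h.dL2 _ (hS t ht)).comp_hasDerivAt t (dline t)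
    simpa [Function.comp_def] using this
  have dA : ∀ t ∈ Icc (-e) e, HasDerivAt
      (fun t : ℝ => L1 (p + t • W) * W.1 + L2 (p + t • W) * W.2) (QQ L11 L12 L22 (p + t • W) W) t := by
    intro t ht
    have := ((dL1 t ht).mul_const W.1).add ((dL2 t ht).mul_const W.2)
    refine this.congr_deriv ?_
    unfold QQ
    ring
  have hneg : ∀ t ∈ Icc 0 e, -t ∈ Icc (-e) e := fun t ht => ⟨by linarith [ht.2], by linarith [ht.1]⟩
  have hpos : ∀ t ∈ Icc 0 e, t ∈ Icc (-e) e := fun t ht => ⟨by linarith [ht.1], ht.2⟩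
  have key := nonneg_of_second_deriv (e := e) he
    (φ := fun t => L (p + t • W) + L (p + (-t) • W) - 2 * L p - t ^ 2 * c)
    (φ' := fun t => (L1 (p + t • W) * W.1 + L2 (p + t • W) * W.2) -
      (L1 (p + (-t) • W) * W.1 + L2 (p + (-t) • W) * W.2) - 2 * t * c)
    (φ'' := fun t => QQ L11 L12 L22 (p + t • W) W + QQ L11 L12 L22 (p + (-t) • W) W - 2 * c)
    (by
      intro t ht
      have d1 := dL t (hpos t ht)
      have d2 := (dL (-t) (hneg t ht)).scomp t (hasDerivAt_neg t)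
      have d3 := ((d1.add d2).sub_const (2 * L p)).sub ((hasDerivAt_pow 2 t).mul_const c)
      refine d3.congr_deriv ?_
      simp
      ring)
    (by
      intro t ht
      have d1 := dA t (hpos t ht)
      have d2 := (dA (-t) (hneg t ht)).scomp t (hasDerivAt_neg t)
      have d3 := (d1.sub d2).sub (((hasDerivAt_id t).const_mul 2).mul_const c)
      refine d3.congr_deriv ?_
      simp)
    (by
      intro t ht
      have := hQ t (hpos t ht)
      have := hQ (-t) (hneg t ht)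
      linarith)
    (by simp)
    (by simp; ring)
  linarith

lemma exists_unif {w : ℝ → ℝ} (hw : Continuous w) {δ : ℝ} (hδ : 0 < δ) {ε : ℝ} (hε : 0 < ε) :
    ∃ e : ℝ, 0 < e ∧ ∀ p ∈ Core l δ, p.1 ∈ Icc 0 l → ∀ t ∈ Icc (-e) e,
      p + t • (w p.1, w p.2) ∈ Sig l ∧
      QQ L11 L12 L22 p (w p.1, w p.2) - ε ≤
        QQ L11 L12 L22 (p + t • (w p.1, w p.2)) (w p.1, w p.2) := by
  have hK : IsCompact (Core l δ ∩ {p | p.1 ∈ Icc 0 l}) := by
    have hsub : Core l δ ∩ {p | p.1 ∈ Icc 0 l} ⊆ Icc 0 l ×ˢ Icc 0 (2 * l) := by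
      rintro p ⟨hp, hp1⟩
      refine ⟨hp1, ?_, ?_⟩
      · have := hp.1; have := hp1.1; linarith
      · have := hp.2; have := hp1.2; linarith
    apply (isCompact_Icc.prod isCompact_Icc).of_isClosed_subset _ hsub
    exact (isClosed_Core l δ).inter (isClosed_Icc.preimage continuous_fst)
  have hcl : Continuous fun z : ℝ × (ℝ × ℝ) => z.2 + z.1 • ((w z.2.1, w z.2.2) : ℝ × ℝ) := by
    fun_prop
  have hev := hK.eventually_forall_of_forall_eventually (x₀ := (0:ℝ))
    (P := fun t p => p + t • ((w p.1, w p.2) : ℝ × ℝ) ∈ Sig l ∧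
      QQ L11 L12 L22 p (w p.1, w p.2) - ε ≤
        QQ L11 L12 L22 (p + t • (w p.1, w p.2)) (w p.1, w p.2)) (by
    rintro p ⟨hp, hp1⟩
    have hpS : p ∈ Sig l := Core_subset hδ hp
    have hz : (fun z : ℝ × (ℝ × ℝ) => z.2 + z.1 • ((w z.2.1, w z.2.2) : ℝ × ℝ)) (0, p) = p := by
      simp
    have hS : ∀ᶠ z : ℝ × (ℝ × ℝ) in 𝓝 (0, p), z.2 + z.1 • ((w z.2.1, w z.2.2) : ℝ × ℝ) ∈ Sig l := by
      apply hcl.continuousAt
      rw [hz]
      exact (isOpen_Sig l).mem_nhds hpS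
    have cA : ∀ {F : ℝ × ℝ → ℝ}, ContinuousOn F (Sig l) → ContinuousAt
        (fun z : ℝ × (ℝ × ℝ) => F (z.2 + z.1 • ((w z.2.1, w z.2.2) : ℝ × ℝ))) (0, p) := by
      intro F hF
      have h1 : ContinuousAt F ((fun z : ℝ × (ℝ × ℝ) => z.2 + z.1 • ((w z.2.1, w z.2.2) : ℝ × ℝ))
          (0, p)) := by
        rw [hz]; exact hF.continuousAt ((isOpen_Sig l).mem_nhds hpS)
      exact ContinuousAt.comp h1 hcl.continuousAt
    have cB : ∀ {F : ℝ × ℝ → ℝ}, ContinuousOn F (Sig l) → ContinuousAt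
        (fun z : ℝ × (ℝ × ℝ) => F z.2) (0, p) := by
      intro F hF
      have h1 : ContinuousAt F ((fun z : ℝ × (ℝ × ℝ) => z.2) (0, p)) :=
        hF.continuousAt ((isOpen_Sig l).mem_nhds hpS)
      exact ContinuousAt.comp (f := fun z : ℝ × (ℝ × ℝ) => z.2) h1 continuousAt_snd
    have hw1 : ContinuousAt (fun z : ℝ × (ℝ × ℝ) => w z.2.1) (0, p) := by fun_prop
    have hw2 : ContinuousAt (fun z : ℝ × (ℝ × ℝ) => w z.2.2) (0, p) := by fun_prop
    have hc : ContinuousAt (fun z : ℝ × (ℝ × ℝ) =>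
        QQ L11 L12 L22 (z.2 + z.1 • (w z.2.1, w z.2.2)) (w z.2.1, w z.2.2) -
        QQ L11 L12 L22 z.2 (w z.2.1, w z.2.2)) (0, p) := by
      unfold QQ
      exact (((cA h.c11).mul (hw1.pow 2)).add
        ((((continuousAt_const).mul (cA h.c12)).mul hw1).mul hw2) |>.add
        ((cA h.c22).mul (hw2.pow 2))).sub
        ((((cB h.c11).mul (hw1.pow 2)).add
        ((((continuousAt_const).mul (cB h.c12)).mul hw1).mul hw2)).add
        ((cB h.c22).mul (hw2.pow 2)))
    have hQ := hc.eventually_const_lt (u := -ε) (by simp [hε])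
    filter_upwards [hS, hQ] with z hz1 hz2
    exact ⟨hz1, by linarith⟩)
  obtain ⟨e, he, hball⟩ := Metric.eventually_nhds_iff.1 hev
  refine ⟨e / 2, by positivity, ?_⟩
  intro p hp hp1 t ht
  apply hball _ p ⟨hp, hp1⟩
  rw [Real.dist_eq, sub_zero, abs_lt]
  constructor <;> linarith [ht.1, ht.2]

end TwistGen

lemma II_nonneg' {l : ℝ} (hl : 0 < l) {f : ℝ × ℝ → ℝ}
    (h0 : ∀ p ∈ Sig l, p.1 ∈ Icc 0 l → 0 ≤ f p) : 0 ≤ II l f := by
  rw [II_congr hl.le (f := f) (g := (Sig l).indicator f)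
      (fun p hp => (indicator_of_mem hp f).symm)]
  unfold II
  apply intervalIntegral.integral_nonneg hl.le
  intro x hx
  apply intervalIntegral.integral_nonneg hl.le
  intro u _
  by_cases hq : (x, x + u) ∈ Sig l
  · rw [indicator_of_mem hq]; exact h0 _ hq hx
  · rw [indicator_of_notMem hq]

lemma II_const_mul (l c : ℝ) (f : ℝ × ℝ → ℝ) : II l (fun p => c * f p) = c * II l f := by
  unfold II
  simp_rw [intervalIntegral.integral_const_mul]

namespace Fol
variable (h : TwistGen l L L1 L2 L11 L12 L22) (hF : Fol l L1 L2 Φ)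
include h hF

lemma cont_prim : Continuous fun p : ℝ × ℝ => prim L1 Φ p.1 p.2 := by
  unfold prim
  have h1 : Continuous (Function.uncurry fun (a t : ℝ) => mom L1 Φ t a) :=
    (hF.cont_mom h).comp continuous_swap
  have h2 := intervalIntegral.continuous_parametric_primitive_of_continuous (μ := volume)
    (a₀ := 0) h1
  exact h2.comp continuous_swap

lemma prim_add (x a : ℝ) : prim L1 Φ (x + l) a = prim L1 Φ x a + prim L1 Φ l a := by
  unfold prim
  have hc : Continuous fun t : ℝ => mom L1 Φ t a :=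
    (hF.cont_mom h).comp (continuous_id.prodMk continuous_const)
  have hper : Function.Periodic (fun t => mom L1 Φ t a) l := fun t => hF.mom_add h t a
  have h1 := hper.intervalIntegral_add_eq x 0
  rw [zero_add] at h1
  rw [← h1]
  exact (intervalIntegral.integral_add_adjacent_intervals (hc.intervalIntegrable _ _)
    (hc.intervalIntegrable _ _)).symm

omit h hF in
/-- displacement of the primitive -/
noncomputable def _root_.MPd2f538.dsp (L1 : ℝ × ℝ → ℝ) (Φ : ℝ × ℝ → ℝ × ℝ) (w : ℝ → ℝ) (e : ℝ)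
    (p : ℝ × ℝ) : ℝ :=
  prim L1 Φ (p.1 + e * w p.1) (inv' Φ p).2 - prim L1 Φ p.1 (inv' Φ p).2

lemma cont_dsp {w : ℝ → ℝ} (hw : Continuous w) (e : ℝ) :
    ContinuousOn (dsp L1 Φ w e) (Sig l) := by
  unfold dsp
  have h1 : ContinuousOn (fun p => (inv' Φ p).2) (Sig l) :=
    continuous_snd.comp_continuousOn hF.contOn_inv'
  have h2 : ContinuousOn (fun p : ℝ × ℝ => p.1 + e * w p.1) (Sig l) := by
    apply Continuous.continuousOn; fun_prop
  exact ((hF.cont_prim h).comp_continuousOn (h2.prodMk h1)).sub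
    ((hF.cont_prim h).comp_continuousOn (continuousOn_fst.prodMk h1))

lemma per_dsp {w : ℝ → ℝ} (hwp : ∀ x, w (x + l) = w x) (e : ℝ) (p : ℝ × ℝ) (hp : p ∈ Sig l) :
    dsp L1 Φ w e (p + (l, l)) = dsp L1 Φ w e p := by
  unfold dsp
  rw [hF.inv'_shift hp]
  simp only [Prod.fst_add, Prod.snd_add, add_zero, hwp]
  rw [show p.1 + l + e * w p.1 = p.1 + e * w p.1 + l by ring, hF.prim_add h, hF.prim_add h]
  ring

/-- calibration inequality in terms of `dsp` -/
lemma calib' {w : ℝ → ℝ} {e : ℝ} {p : ℝ × ℝ} (hp : p ∈ Sig l)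
    (hq : p + e • ((w p.1, w p.2) : ℝ × ℝ) ∈ Sig l) :
    L (p + e • ((w p.1, w p.2) : ℝ × ℝ)) - L p ≤
      dsp L1 Φ w e (TT l L1 L2 p) - dsp L1 Φ w e p := by
  have h1 := hF.calib h (inv' Φ p).2 (inv' Φ p).1 hq
  rw [Prod.mk.eta, hF.inv'_right hp] at h1
  unfold dsp
  rw [hF.inv'_T hp, TT_fst]
  simpa [smul_eq_mul] using h1

/-- The Hopf inequality with a cut-off in the leaf index. -/
lemma hopf_bump {w : ℝ → ℝ} (hw : Continuous w) (hwp : ∀ x, w (x + l) = w x) {n δ : ℝ}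
    (hδ0 : 0 < δ) (hδ : ∀ q ∈ Sig l, q ∉ Core l δ → bump n (inv' Φ q).2 = 0) :
    II l (fun p => QQ L11 L12 L22 p (w p.1, w p.2) * bump n (inv' Φ p).2 * L12 p) ≤ 0 := by
  have hone : IsCore l δ (fun p => (1:ℝ) * bump n (inv' Φ p).2) :=
    hF.isCore_bump hδ (g := fun _ => (1:ℝ)) continuousOn_const (fun _ _ => rfl)
  have hcQ : IsCore l δ (fun p => QQ L11 L12 L22 p (w p.1, w p.2) * bump n (inv' Φ p).2) :=
    hF.isCore_bump hδ (h.contOn_QQ hw) (h.per_QQ hwp)
  have key : ∀ ε > 0, II l (fun p => QQ L11 L12 L22 p (w p.1, w p.2) * bump n (inv' Φ p).2 *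
      L12 p) ≤ ε * II l (fun p => (1:ℝ) * bump n (inv' Φ p).2 * L12 p) := by
    intro ε hε
    obtain ⟨e, he, hunif⟩ := h.exists_unif hw hδ0 hε
    set g : ℝ × ℝ → ℝ := fun p => dsp L1 Φ w e p + dsp L1 Φ w (-e) p with hg
    have hgc : ContinuousOn g (Sig l) := (hF.cont_dsp h hw e).add (hF.cont_dsp h hw (-e))
    have hgp : ∀ p ∈ Sig l, g (p + (l, l)) = g p := by
      intro p hp
      simp only [hg, hF.per_dsp h hwp _ p hp]
    have hc1 := (hF.isCore_bump hδ hgc hgp).mul_right h.c12 h.p12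
    have hc2 := (hF.isCore_bump_T h hδ hgc hgp).mul_right h.c12 h.p12
    have htr := hF.transfer_bump h hδ0 hδ hgc hgp
    have hcA := hcQ.mul_right h.c12 h.p12
    have hcB : IsCore l δ (fun p => ε * ((1:ℝ) * bump n (inv' Φ p).2 * L12 p)) :=
      (hone.mul_right h.c12 h.p12).mul_left (g := fun _ => ε) continuousOn_const (fun _ _ => rfl)
    have hcC := hcA.sub hcB
    have hcD : IsCore l δ (fun p => e ^ 2 * (QQ L11 L12 L22 p (w p.1, w p.2) *
        bump n (inv' Φ p).2 * L12 p - ε * ((1:ℝ) * bump n (inv' Φ p).2 * L12 p))) :=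
      hcC.mul_left (g := fun _ => e ^ 2) continuousOn_const (fun _ _ => rfl)
    have hnn := II_nonneg' h.lpos (f := fun p =>
      (g (TT l L1 L2 p) * bump n (inv' Φ p).2 * L12 p - g p * bump n (inv' Φ p).2 * L12 p) -
      e ^ 2 * (QQ L11 L12 L22 p (w p.1, w p.2) * bump n (inv' Φ p).2 * L12 p -
        ε * ((1:ℝ) * bump n (inv' Φ p).2 * L12 p))) (by
      intro p hp hp1
      by_cases hpc : p ∈ Core l δ
      · have hu := hunif p hpc hp1
        have hsd := h.second_diff (p := p) (W := (w p.1, w p.2)) he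
          (c := QQ L11 L12 L22 p (w p.1, w p.2) - ε) (fun t ht => (hu t ht).1)
          (fun t ht => (hu t ht).2)
        have c1 := hF.calib' h (w := w) (e := e) hp (hu e ⟨by linarith, le_rfl⟩).1
        have c2 := hF.calib' h (w := w) (e := -e) hp (hu (-e) ⟨le_rfl, by linarith⟩).1
        have hb := bump_nonneg n (inv' Φ p).2
        have hL := h.L12_nonneg hp
        have hmain : 0 ≤ (g (TT l L1 L2 p) - g p) -
            e ^ 2 * (QQ L11 L12 L22 p (w p.1, w p.2) - ε) := by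
          simp only [hg]
          linarith
        have := mul_nonneg (mul_nonneg hmain hb) hL
        linarith
      · rw [hδ p hp hpc]
        simp)
    rw [II_sub h.lpos hδ0 (hc2.sub hc1) hcD, II_sub h.lpos hδ0 hc2 hc1, htr, sub_self,
      II_const_mul, II_sub h.lpos hδ0 hcA hcB, II_const_mul] at hnn
    have he2 : 0 < e ^ 2 := by positivity
    by_contra hcon
    push Not at hcon
    have h3 := mul_lt_mul_of_pos_left hcon he2
    linarith
  set A := II l (fun p => QQ L11 L12 L22 p (w p.1, w p.2) * bump n (inv' Φ p).2 * L12 p) with hA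
  set B := II l (fun p => (1:ℝ) * bump n (inv' Φ p).2 * L12 p) with hB
  by_contra hcon
  push Not at hcon
  have hBpos : 0 < B := by
    have := key 1 one_pos
    linarith
  have := key (A / (2 * B)) (by positivity)
  have h2 : A / (2 * B) * B = A / 2 := by field_simp
  rw [h2] at this
  linarith

end Fol

lemma measurableSet_rect (l : ℝ) : MeasurableSet (Ioc (0:ℝ) l ×ˢ Ioo (0:ℝ) l) :=
  measurableSet_Ioc.prod measurableSet_Ioo

lemma contOn_rect {l : ℝ} {g : ℝ × ℝ → ℝ} (hg : ContinuousOn g (Sig l)) :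
    ContinuousOn (fun q : ℝ × ℝ => g (q.1, q.1 + q.2)) (Ioc (0:ℝ) l ×ˢ Ioo (0:ℝ) l) := by
  apply hg.comp
  · apply Continuous.continuousOn; fun_prop
  · intro q hq
    exact mem_Sig_add hq.2

lemma setIntegral_eq_II {l : ℝ} (hl : 0 < l) {g : ℝ × ℝ → ℝ}
    (hg : IntegrableOn (fun q : ℝ × ℝ => g (q.1, q.1 + q.2)) (Ioc (0:ℝ) l ×ˢ Ioo (0:ℝ) l)) :
    ∫ q in Ioc (0:ℝ) l ×ˢ Ioo (0:ℝ) l, g (q.1, q.1 + q.2) = II l g := by
  rw [Measure.volume_eq_prod] at hg ⊢
  rw [setIntegral_prod _ hg]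
  unfold II
  rw [intervalIntegral.integral_of_le hl.le]
  congr 1
  ext x
  rw [intervalIntegral.integral_of_le hl.le, integral_Ioc_eq_integral_Ioo]

/-- **Hopf inequality** for `C¹` foliations by invariant curves, with a weight and a minorant. -/
theorem hopf_ineq (h : TwistGen l L L1 L2 L11 L12 L22) (hΦ : InvFol l L1 L2 Φ)
    {w : ℝ → ℝ} (hw : Continuous w) (hwp : ∀ x, w (x + l) = w x)
    {H : ℝ × ℝ → ℝ} (hHc : ContinuousOn H (Sig l)) (hHp : ∀ p ∈ Sig l, H (p + (l, l)) = H p)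
    (hHle : ∀ p ∈ Sig l, H p ≤ QQ L11 L12 L22 p (w p.1, w p.2) * L12 p)
    (hHi : IntegrableOn (fun q : ℝ × ℝ => H (q.1, q.1 + q.2)) (Ioc (0:ℝ) l ×ˢ Ioo (0:ℝ) l)) :
    ∫ q in Ioc (0:ℝ) l ×ˢ Ioo (0:ℝ) l, H (q.1, q.1 + q.2) ≤ 0 := by
  have hF := Fol.of_InvFol h hΦ
  set Ψ : ℝ × ℝ → ℝ × ℝ := fun p => Φ (p.1, kap p.2) with hΨ
  have hbc : ∀ n : ℝ, ContinuousOn (fun p => bump n (Fol.inv' Ψ p).2) (Sig l) := fun n =>
    (cont_bump n).comp_continuousOn (continuous_snd.comp_continuousOn hF.contOn_inv')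
  have hint : ∀ n : ℕ, IntegrableOn (fun q : ℝ × ℝ => H (q.1, q.1 + q.2) *
      bump n (Fol.inv' Ψ (q.1, q.1 + q.2)).2) (Ioc (0:ℝ) l ×ˢ Ioo (0:ℝ) l) := by
    intro n
    apply Integrable.mono hHi
    · exact (contOn_rect (hHc.mul (hbc n))).aestronglyMeasurable (measurableSet_rect l)
    · refine Filter.Eventually.of_forall fun q => ?_
      rw [norm_mul]
      have h1 : ‖bump n (Fol.inv' Ψ (q.1, q.1 + q.2)).2‖ ≤ 1 := by
        rw [Real.norm_eq_abs, abs_of_nonneg (bump_nonneg _ _)]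
        exact bump_le_one _ _
      exact mul_le_of_le_one_right (norm_nonneg _) h1
  have hle : ∀ n : ℕ, ∫ q in Ioc (0:ℝ) l ×ˢ Ioo (0:ℝ) l, H (q.1, q.1 + q.2) *
      bump n (Fol.inv' Ψ (q.1, q.1 + q.2)).2 ≤ 0 := by
    intro n
    rw [setIntegral_eq_II h.lpos (g := fun p => H p * bump n (Fol.inv' Ψ p).2) (hint n)]
    obtain ⟨δ, hδ0, hδ⟩ := hF.exists_core' n
    have h1 := hF.hopf_bump h hw hwp hδ0 hδ
    have hcH := hF.isCore_bump hδ hHc hHp
    have hcQ := (hF.isCore_bump hδ (h.contOn_QQ hw) (h.per_QQ hwp)).mul_right h.c12 h.p12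
    refine le_trans (II_mono h.lpos hδ0 hcH hcQ ?_) h1
    intro p hp
    have h2 := hHle p hp
    have h3 := bump_nonneg n (Fol.inv' Ψ p).2
    have h4 := mul_le_mul_of_nonneg_right h2 h3
    linarith
  have hlim : Tendsto (fun n : ℕ => ∫ q in Ioc (0:ℝ) l ×ˢ Ioo (0:ℝ) l, H (q.1, q.1 + q.2) *
      bump n (Fol.inv' Ψ (q.1, q.1 + q.2)).2) atTop
      (𝓝 (∫ q in Ioc (0:ℝ) l ×ˢ Ioo (0:ℝ) l, H (q.1, q.1 + q.2))) := by
    apply tendsto_integral_of_dominated_convergence (fun q => ‖H (q.1, q.1 + q.2)‖)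
    · intro n
      exact (hint n).aestronglyMeasurable
    · exact hHi.norm
    · intro n
      refine Filter.Eventually.of_forall fun q => ?_
      rw [norm_mul]
      have h1 : ‖bump n (Fol.inv' Ψ (q.1, q.1 + q.2)).2‖ ≤ 1 := by
        rw [Real.norm_eq_abs, abs_of_nonneg (bump_nonneg _ _)]
        exact bump_le_one _ _
      exact mul_le_of_le_one_right (norm_nonneg _) h1
    · refine Filter.Eventually.of_forall fun q => ?_
      apply tendsto_const_nhds.congr'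
      have hev := tendsto_natCast_atTop_atTop (R := ℝ) |>.eventually_ge_atTop
        (|(Fol.inv' Ψ (q.1, q.1 + q.2)).2| + 1)
      filter_upwards [hev] with n hn
      rw [bump_one hn, mul_one]
  exact le_of_tendsto' hlim hle

end

end MPd2f538
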