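import Pool.Agent.Lib.MP_d2f538_an.Reduce
import Pool.Agent.Lib.MP_d2f538_an.Circle
import Pool.Agent.Lib.MP_d2f538_an.Hopf
import Pool.Agent.Lib.MP_d2f538_an.Defs

open MeasureTheory Set Real Filter Topology

namespace Pool.Agent.MP_d2f538_an

variable {K : Set ℂ} {ℓ : ℝ} {γ γ' γ'' : ℝ → ℂ} {ψ k : ℝ → ℝ} {g : ℂ → ℝ} {h h' h'' : ℝ → ℝ}

theorem twistGen (D : AngleData ℓ γ γ' γ'' ψ k) (N : NormData g h h' h'') :
    MPd2f538.TwistGen ℓ (genL γ γ' ψ h) (genL1 γ γ' ψ h h') (genL2 γ γ' ψ h h')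
      (genL11 γ γ' ψ k h h' h'') (genL12 γ γ' ψ h h'') (genL22 γ γ' ψ k h h' h'') where
  lpos := D.pos
  dL _ hp := hasFDerivAt_genL D N hp
  dL1 _ hp := hasFDerivAt_genL1 D N hp
  dL2 _ hp := hasFDerivAt_genL2 D N hp
  c11 := continuousOn_genL11 D N
  c12 := continuousOn_genL12 D N
  c22 := continuousOn_genL22 D N
  pL p _ := genL_add D N p
  pL1 p _ := genL1_add D N p
  pL2 p _ := genL2_add D N p
  p11 p _ := genL11_add D N p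
  p12 p _ := genL12_add D N p
  p22 p _ := genL22_add D N p
  mono1 := strictMonoOn_genL1 D N
  mono2 := strictMonoOn_genL2 D N
  ex_next _ hp := exists_next D N hp
  ex_prev _ hp := exists_prev D N hp

theorem continuousOn_HH (D : AngleData ℓ γ γ' γ'' ψ k) (N : NormData g h h' h'') (c : ℝ) :
    ContinuousOn (HH γ γ' ψ k h h' h'' c) (Sig ℓ) := by
  have hP := continuous_PP D N c
  exact ((hP.comp_continuousOn (continuous_fst.continuousOn.prodMk D.continuousOn_ph)).mul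
    D.csl1).add ((hP.comp_continuousOn
      (continuous_snd.continuousOn.prodMk D.continuousOn_ph)).mul D.csl)

theorem HH_add (D : AngleData ℓ γ γ' γ'' ψ k) (N : NormData g h h' h'') (c : ℝ) (p : ℝ × ℝ) :
    HH γ γ' ψ k h h' h'' c (p + (ℓ, ℓ)) = HH γ γ' ψ k h h' h'' c p := by
  simp only [HH, D.al_add, D.al1_add, D.lam_add, D.ph_add, Prod.fst_add, Prod.snd_add,
    PP_period' D, PP_period D N]

/-- circle from a foliation, in normalised position -/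
theorem circle_of_fol (D : AngleData ℓ γ γ' γ'' ψ k) (N : NormData g h h' h'')
    (hg : ∀ x, g (γ x) = 1) (hiso : ∫ x in (0 : ℝ)..ℓ, (γ' x) ^ 2 = 0) (hA : 0 < area2 ℓ γ γ')
    {Φ : ℝ × ℝ → ℝ × ℝ}
    (hΦ : MPd2f538.InvFol ℓ (genL1 γ γ' ψ h h') (genL2 γ γ' ψ h h') Φ) :
    ∃ r : ℝ, 0 < r ∧ range γ = Metric.sphere 0 r := by
  apply circle_of_ineq D N hg hiso hA
  intro c
  refine MPd2f538.hopf_ineq (twistGen D N) hΦ (w := fun _ => 1) continuous_const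
    (fun _ => rfl) (continuousOn_HH D N c) (fun p _ => HH_add D N c p) ?_
    (HH_integral D N c).1
  intro p hp
  refine (HH_le D c hp).trans (le_of_eq ?_)
  simp only [MPd2f538.QQ]
  ring

theorem area2_pos (hℓ : 0 < ℓ) (hc : Continuous γ) (hc' : Continuous γ')
    (ho : ∀ x, 0 < ((starRingEnd ℂ) (γ x) * γ' x).im) : 0 < area2 ℓ γ γ' := by
  apply intervalIntegral.intervalIntegral_pos_of_pos _ ho hℓ
  exact (Complex.continuous_im.comp ((Complex.continuous_conj.comp hc).mul hc')).intervalIntegrable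
    _ _

/-- All the data of the normalised problem. -/
structure Setup (K : Set ℂ) (ℓ : ℝ) (γ : ℝ → ℂ) (S : ℂ ≃L[ℝ] ℂ) (ℓ' : ℝ) (σ τ n : ℝ → ℝ)
    (Γ Γ' Γ'' : ℝ → ℂ) (ψ k h h' h'' : ℝ → ℝ) : Prop where
  R : Repar ℓ ℓ' σ τ n
  D : AngleData ℓ' Γ Γ' Γ'' ψ k
  N : NormData (gauge (S '' K)) h h' h''
  iso : ∫ x in (0 : ℝ)..ℓ', (Γ' x) ^ 2 = 0
  area : 0 < area2 ℓ' Γ Γ'
  eq : ∀ t, Γ (σ t) = S (γ t)
  g1 : ∀ x, gauge (S '' K) (Γ x) = 1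

theorem exists_setup (T : Table K ℓ γ γ' γ'') :
    ∃ (S : ℂ ≃L[ℝ] ℂ) (ℓ' : ℝ) (σ τ n : ℝ → ℝ) (Γ Γ' Γ'' : ℝ → ℂ) (ψ k h h' h'' : ℝ → ℝ),
      Setup K ℓ γ S ℓ' σ τ n Γ Γ' Γ'' ψ k h h' h'' := by
  obtain ⟨a, b, ha, hab, hiso⟩ := exists_isotropic T.pos T.cγ' T.ne T.span
  set S := SL a b hab with hS
  have T1 : Table (S '' K) ℓ (fun t => S (γ t)) (fun t => S (γ' t)) (fun t => S (γ'' t)) :=
    T.image hab
  set V : ℝ → ℂ := fun t => S (γ' t) with hV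
  have hcV : Continuous V := T1.cγ'
  have hVn : ∀ t, 0 < ‖V t‖ := fun t => norm_pos_iff.2 (T1.ne t)
  obtain ⟨ℓ', σ, τ, R, hℓ', hσ0⟩ := exists_repar T.pos (n := fun t => ‖V t‖) hcV.norm hVn
    (fun t => by simp only [hV, T.γ'_per])
  obtain ⟨Γ'', T2⟩ := T1.repar R
  have hunit : ∀ x, ‖((‖V (τ x)‖⁻¹ : ℝ) : ℂ) * V (τ x)‖ = 1 := by
    intro x
    rw [norm_mul, Complex.norm_real, Real.norm_eq_abs, abs_of_pos (inv_pos.2 (hVn _)),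
      inv_mul_cancel₀ (hVn _).ne']
  obtain ⟨ψ, k, D⟩ := T2.angleData hunit
  refine ⟨S, ℓ', σ, τ, _, _, _, Γ'', ψ, k, _, _, _, R, D, T2.normData, ?_, ?_, ?_,
    T2.gauge_γ⟩
  · have hg : Continuous fun x => (((‖V (τ x)‖⁻¹ : ℝ) : ℂ) * V (τ x)) ^ 2 := T2.cγ'.pow 2
    have h1 := intervalIntegral.integral_deriv_smul_comp (a := 0) (b := ℓ)
      (fun x _ => R.dσ x) R.cn.continuousOn hg
    have h2 : σ ℓ = ℓ' := by have := R.add 0; rwa [zero_add, hσ0, zero_add] at this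
    rw [hσ0, h2] at h1
    show ∫ x in (0 : ℝ)..ℓ', (((‖V (τ x)‖⁻¹ : ℝ) : ℂ) * V (τ x)) ^ 2 = 0
    rw [← h1, ← hiso]
    apply intervalIntegral.integral_congr
    intro t _
    simp only [Function.comp, R.τσ, Complex.real_smul]
    have h3 : (‖V t‖ : ℂ) ≠ 0 := Complex.ofReal_ne_zero.2 (hVn t).ne'
    have h4 : V t = a * γ' t + b * (starRingEnd ℂ) (γ' t) := rfl
    rw [← h4]
    push_cast
    field_simp
  · exact area2_pos T2.pos T2.cγ T2.cγ' T2.orient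
  · intro t
    simp only [R.τσ]

section transfer

variable {S : ℂ ≃L[ℝ] ℂ} {ℓ' : ℝ} {σ τ n : ℝ → ℝ} {Γ Γ' Γ'' : ℝ → ℂ}

theorem Repar.mem_Sig {ℓ ℓ' : ℝ} {σ τ n : ℝ → ℝ} (R : Repar ℓ ℓ' σ τ n) {t t₁ : ℝ} :
    (σ t, σ t₁) ∈ Sig ℓ' ↔ (t, t₁) ∈ Sig ℓ := by
  simp only [Sig, mem_ofPred_eq]
  rw [← R.add, R.mono.lt_iff_lt, R.mono.lt_iff_lt]

theorem Setup.chord (U : Setup K ℓ γ S ℓ' σ τ n Γ Γ' Γ'' ψ k h h' h'') (t t₁ : ℝ) :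
    chordLength K γ t t₁ = genL Γ Γ' ψ h (σ t, σ t₁) := by
  rw [gen_eq U.D U.N, chordLength]
  simp only [U.eq]
  rw [← map_sub, gauge_image]

theorem Setup.reflects_iff (U : Setup K ℓ γ S ℓ' σ τ n Γ Γ' Γ'' ψ k h h' h'') {t₀ t₁ t₂ : ℝ}
    (h01 : (t₀, t₁) ∈ Sig ℓ) (h12 : (t₁, t₂) ∈ Sig ℓ) :
    Reflects K γ t₀ t₁ t₂ ↔
      genL2 Γ Γ' ψ h h' (σ t₀, σ t₁) + genL1 Γ Γ' ψ h h' (σ t₁, σ t₂) = 0 := by
  have d1 : HasDerivAt (fun t => chordLength K γ t₀ t)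
      (n t₁ * genL2 Γ Γ' ψ h h' (σ t₀, σ t₁)) t₁ := by
    have e1 : (fun t => chordLength K γ t₀ t) = fun t => genL Γ Γ' ψ h (σ t₀, σ t) :=
      funext fun t => U.chord t₀ t
    rw [e1]
    have a1 : HasDerivAt (fun t => (σ t₀, σ t)) ((0 : ℝ), n t₁) t₁ :=
      (hasDerivAt_const t₁ (σ t₀)).prodMk (U.R.dσ t₁)
    have a2 := (hasFDerivAt_genL U.D U.N (U.R.mem_Sig.2 h01)).comp_hasDerivAt t₁ a1
    refine a2.congr_deriv ?_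
    simp [mul_comm]
  have d2 : HasDerivAt (fun t => chordLength K γ t t₂)
      (n t₁ * genL1 Γ Γ' ψ h h' (σ t₁, σ t₂)) t₁ := by
    have e1 : (fun t => chordLength K γ t t₂) = fun t => genL Γ Γ' ψ h (σ t, σ t₂) :=
      funext fun t => U.chord t t₂
    rw [e1]
    have a1 : HasDerivAt (fun t => (σ t, σ t₂)) (n t₁, (0 : ℝ)) t₁ :=
      (U.R.dσ t₁).prodMk (hasDerivAt_const t₁ (σ t₂))
    have a2 := (hasFDerivAt_genL U.D U.N (U.R.mem_Sig.2 h12)).comp_hasDerivAt t₁ a1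
    refine a2.congr_deriv ?_
    simp [mul_comm]
  rw [Reflects, d1.deriv, d2.deriv, ← mul_add]
  have := U.R.pos t₁
  constructor
  · intro h0
    rcases mul_eq_zero.1 h0 with h1 | h1
    · exact absurd h1 this.ne'
    · exact h1
  · intro h0
    rw [h0, mul_zero]

/-- the product reparametrisation -/
def prodMap2 (σ : ℝ → ℝ) (p : ℝ × ℝ) : ℝ × ℝ := (σ p.1, σ p.2)

theorem Repar.bijOn {ℓ ℓ' : ℝ} {σ τ n : ℝ → ℝ} (R : Repar ℓ ℓ' σ τ n) :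
    BijOn (prodMap2 σ) (Sig ℓ) (Sig ℓ') := by
  refine ⟨fun p hp => R.mem_Sig.2 hp, ?_, ?_⟩
  · intro p _ q _ hpq
    simp only [prodMap2, Prod.mk.injEq] at hpq
    exact Prod.ext (R.mono.injective hpq.1) (R.mono.injective hpq.2)
  · intro q hq
    refine ⟨(τ q.1, τ q.2), ?_, ?_⟩
    · rw [← R.mem_Sig, R.στ, R.στ]; exact hq
    · simp only [prodMap2, R.στ]

theorem Repar.hasFDerivAt {ℓ ℓ' : ℝ} {σ τ n : ℝ → ℝ} (R : Repar ℓ ℓ' σ τ n) (p : ℝ × ℝ) :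
    HasFDerivAt (prodMap2 σ)
      ((n p.1 • ContinuousLinearMap.fst ℝ ℝ ℝ).prod (n p.2 • ContinuousLinearMap.snd ℝ ℝ ℝ)) p := by
  have h1 := (R.dσ p.1).hasFDerivAt.comp p (hasFDerivAt_fst (𝕜 := ℝ) (p := p))
  have h2 := (R.dσ p.2).hasFDerivAt.comp p (hasFDerivAt_snd (𝕜 := ℝ) (p := p))
  have h3 := h1.prodMk h2
  refine h3.congr_fderiv ?_
  ext <;> simp

theorem det_prodMap_ne {a b : ℝ} (ha : a ≠ 0) (hb : b ≠ 0) :
    ((a • ContinuousLinearMap.fst ℝ ℝ ℝ).prod (b • ContinuousLinearMap.snd ℝ ℝ ℝ) :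
      ℝ × ℝ →L[ℝ] ℝ × ℝ).det ≠ 0 := by
  apply MPd2f538.det_ne_zero_of_comp_eq_id (A := (a⁻¹ • ContinuousLinearMap.fst ℝ ℝ ℝ).prod
    (b⁻¹ • ContinuousLinearMap.snd ℝ ℝ ℝ))
  ext <;> simp [ha, hb]

theorem transfer_fol (U : Setup K ℓ γ S ℓ' σ τ n Γ Γ' Γ'' ψ k h h' h'') {Φ : ℝ × ℝ → ℝ × ℝ}
    (cd : ContDiffOn ℝ 1 Φ (univ ×ˢ Ioo 0 1))
    (det : ∀ p ∈ (univ : Set ℝ) ×ˢ Ioo (0 : ℝ) 1, (fderiv ℝ Φ p).det ≠ 0)
    (bij : BijOn Φ (univ ×ˢ Ioo 0 1) (Sig ℓ))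
    (per : ∀ s, ∀ a ∈ Ioo (0 : ℝ) 1, Φ (s + 1, a) = Φ (s, a) + (ℓ, ℓ))
    (inv : ∀ s, ∀ a ∈ Ioo (0 : ℝ) 1, ∀ z, (Φ (s, a)).2 < z → z < (Φ (s, a)).2 + ℓ →
      Reflects K γ (Φ (s, a)).1 (Φ (s, a)).2 z → ∃ s', Φ (s', a) = ((Φ (s, a)).2, z)) :
    MPd2f538.InvFol ℓ' (genL1 Γ Γ' ψ h h') (genL2 Γ Γ' ψ h h') (prodMap2 σ ∘ Φ) where
  cd := by
    have h1 : ContDiff ℝ 1 σ := by
      rw [contDiff_one_iff_deriv, show deriv σ = n from funext fun t => (U.R.dσ t).deriv]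
      exact ⟨fun t => (U.R.dσ t).differentiableAt, U.R.cn⟩
    have h2 : ContDiff ℝ 1 (prodMap2 σ) :=
      (h1.comp contDiff_fst).prodMk (h1.comp contDiff_snd)
    exact h2.comp_contDiffOn cd
  det := by
    intro p hp
    have ho : (univ : Set ℝ) ×ˢ Ioo (0 : ℝ) 1 ∈ 𝓝 p :=
      (isOpen_univ.prod isOpen_Ioo).mem_nhds hp
    have h1 : HasFDerivAt Φ (fderiv ℝ Φ p) p :=
      ((cd.contDiffAt ho).differentiableAt (by norm_num)).hasFDerivAt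
    have h2 := (U.R.hasFDerivAt (Φ p)).comp p h1
    rw [h2.fderiv, MPd2f538.det_comp']
    exact mul_ne_zero (det_prodMap_ne (U.R.pos _).ne' (U.R.pos _).ne') (det p hp)
  bij := U.R.bijOn.comp bij
  per := by
    intro s a ha
    simp only [Function.comp, per s a ha, prodMap2, Prod.fst_add, Prod.snd_add, U.R.add]
    rfl
  inv := by
    intro s a ha z hz1 hz2 hrel
    simp only [Function.comp, prodMap2] at hz1 hz2 hrel ⊢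
    set p := Φ (s, a) with hp
    have hpS : p ∈ Sig ℓ := bij.mapsTo ⟨mem_univ _, ha⟩
    have hz : z = σ (τ z) := (U.R.στ z).symm
    have hS : (p.2, τ z) ∈ Sig ℓ := by
      rw [← U.R.mem_Sig, U.R.στ]; exact ⟨hz1, hz2⟩
    rw [hz] at hrel
    have h1 := (U.reflects_iff (t₀ := p.1) hpS hS).2 hrel
    obtain ⟨s', hs'⟩ := inv s a ha (τ z) hS.1 hS.2 h1
    refine ⟨s', ?_⟩
    rw [hs']
    simp only [U.R.στ, hp]

end transfer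

/-- positively oriented case -/
theorem ellipse_pos (T : Table K ℓ γ γ' γ'') {Φ : ℝ × ℝ → ℝ × ℝ}
    (cd : ContDiffOn ℝ 1 Φ (univ ×ˢ Ioo 0 1))
    (det : ∀ p ∈ (univ : Set ℝ) ×ˢ Ioo (0 : ℝ) 1, (fderiv ℝ Φ p).det ≠ 0)
    (bij : BijOn Φ (univ ×ˢ Ioo 0 1) (Sig ℓ))
    (per : ∀ s, ∀ a ∈ Ioo (0 : ℝ) 1, Φ (s + 1, a) = Φ (s, a) + (ℓ, ℓ))
    (inv : ∀ s, ∀ a ∈ Ioo (0 : ℝ) 1, ∀ z, (Φ (s, a)).2 < z → z < (Φ (s, a)).2 + ℓ →
      Reflects K γ (Φ (s, a)).1 (Φ (s, a)).2 z → ∃ s', Φ (s', a) = ((Φ (s, a)).2, z)) :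
    ∃ (S : ℂ ≃L[ℝ] ℂ) (r : ℝ), 0 < r ∧ S '' range γ = Metric.sphere 0 r := by
  obtain ⟨S, ℓ', σ, τ, n, Γ, Γ', Γ'', ψ, k, h, h', h'', U⟩ := exists_setup T
  obtain ⟨r, hr, hrange⟩ := circle_of_fol U.D U.N U.g1 U.iso U.area
    (transfer_fol U cd det bij per inv)
  refine ⟨S, r, hr, ?_⟩
  rw [← hrange]
  ext z
  constructor
  · rintro ⟨_, ⟨t, rfl⟩, rfl⟩
    exact ⟨σ t, U.eq t⟩
  · rintro ⟨x, rfl⟩
    refine ⟨γ (τ x), ⟨τ x, rfl⟩, ?_⟩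
    rw [← U.eq, U.R.στ]

end Pool.Agent.MP_d2f538_an
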