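import Pool.Agent.Lib.MP_d2f538_an.Mono3

/-!
# Calibration along a leaf
-/

open Set Filter Topology MeasureTheory

namespace MPd2f538

section
variable {l : ℝ} {L L1 L2 L11 L12 L22 : ℝ × ℝ → ℝ} {Φ : ℝ × ℝ → ℝ × ℝ}

namespace Fol

variable (h : TwistGen l L L1 L2 L11 L12 L22) (hF : Fol l L1 L2 Φ)
include h hF

omit h in
lemma hasDerivAt_X (s a : ℝ) :
    HasDerivAt (fun s => (Φ (s, a)).1) (fderiv ℝ Φ (s, a) (1, 0)).1 s := by
  have h1 : HasFDerivAt (Prod.fst : ℝ × ℝ → ℝ) (ContinuousLinearMap.fst ℝ ℝ ℝ) (Φ (s, a)) :=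
    hasFDerivAt_fst
  exact h1.comp_hasDerivAt s (hF.hasDerivAt_leaf s a)

omit h in
lemma hasDerivAt_Y (s a : ℝ) :
    HasDerivAt (fun s => (Φ (s, a)).2) (fderiv ℝ Φ (s, a) (1, 0)).2 s := by
  have h1 : HasFDerivAt (Prod.snd : ℝ × ℝ → ℝ) (ContinuousLinearMap.snd ℝ ℝ ℝ) (Φ (s, a)) :=
    hasFDerivAt_snd
  exact h1.comp_hasDerivAt s (hF.hasDerivAt_leaf s a)

lemma mono_X (a : ℝ) : Monotone fun s => (Φ (s, a)).1 :=
  monotone_of_hasDerivAt_nonneg (fun s => hF.hasDerivAt_X s a) (fun s => (hF.tan_nonneg h s a).1)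

lemma mono_Y (a : ℝ) : Monotone fun s => (Φ (s, a)).2 :=
  monotone_of_hasDerivAt_nonneg (fun s => hF.hasDerivAt_Y s a) (fun s => (hF.tan_nonneg h s a).2)

lemma strictMono_X (a : ℝ) : StrictMono fun s => (Φ (s, a)).1 := by
  intro s1 s2 hlt
  refine lt_of_le_of_ne (hF.mono_X h a hlt.le) ?_
  intro he
  simp only at he
  have hY : (Φ (s1, a)).2 < (Φ (s2, a)).2 := by
    refine lt_of_le_of_ne (hF.mono_Y h a hlt.le) ?_
    intro he2
    have := hF.inj (Prod.ext he he2)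
    simp only [Prod.mk.injEq, and_true] at this
    linarith
  obtain ⟨t1, ht1⟩ := hF.sg_surj h s1 a
  obtain ⟨t2, ht2⟩ := hF.sg_surj h s2 a
  have ht : t1 < t2 := by
    rw [← (hF.sg_mono h a).lt_iff_lt]
    simp only [ht1, ht2]
    exact hlt
  have e1 := hF.sg_spec t1 a
  have e2 := hF.sg_spec t2 a
  rw [ht1] at e1
  rw [ht2] at e2
  have m1 := hF.maps (t1, a)
  have m2 := hF.maps (t2, a)
  have n1 := hF.maps (s1, a)
  have n2 := hF.maps (s2, a)
  have q1 := h.T_eq m1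
  have q2 := h.T_eq m2
  rw [← e1] at q1
  rw [← e2] at q2
  have hx1 : (Φ (s1, a)).1 = (Φ (t1, a)).2 := by rw [e1]; rfl
  have hx2 : (Φ (s2, a)).1 = (Φ (t2, a)).2 := by rw [e2]; rfl
  have hL1 : L1 (Φ (s1, a)) < L1 (Φ (s2, a)) := by
    have h1 : ((Φ (s1, a)).1, (Φ (s1, a)).2) ∈ Sig l := n1
    have h2 : ((Φ (s1, a)).1, (Φ (s2, a)).2) ∈ Sig l := by rw [he]; exact n2
    have := (h.L1_lt h1 h2).2 hY
    have e3 : ((Φ (s1, a)).1, (Φ (s2, a)).2) = Φ (s2, a) := by rw [he]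
    rw [e3] at this
    exact this
  have hL2 : L2 (Φ (t2, a)) < L2 (Φ (t1, a)) := by linarith
  have hYt : (Φ (t1, a)).2 = (Φ (t2, a)).2 := by rw [← hx1, ← hx2, he]
  have h1 : ((Φ (t1, a)).1, (Φ (t2, a)).2) ∈ Sig l := by rw [← hYt]; exact m1
  have h2 : ((Φ (t2, a)).1, (Φ (t2, a)).2) ∈ Sig l := m2
  have e3 : ((Φ (t1, a)).1, (Φ (t2, a)).2) = Φ (t1, a) := by rw [← hYt]
  have h3 := (h.L2_lt h2 h1).1 (by rw [e3]; exact hL2)
  have := hF.mono_X h a ht.le
  simp only at this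
  linarith

lemma strictMono_Y (a : ℝ) : StrictMono fun s => (Φ (s, a)).2 := by
  intro s1 s2 hlt
  have h1 := hF.strictMono_X h a (hF.sg_mono h a hlt)
  simp only [hF.sg_spec, TT_fst] at h1
  exact h1

omit h in
lemma X_add_int (s a : ℝ) (n : ℤ) : (Φ (s + n, a)).1 = (Φ (s, a)).1 + n * l := by
  induction n using Int.induction_on with
  | zero => simp
  | succ n ih =>
    have := hF.per (s + n) a
    push_cast at ih ⊢
    rw [← add_assoc, this, Prod.fst_add, ih]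
    ring
  | pred n ih =>
    have := hF.per (s + (-n - 1)) a
    rw [show s + (-(n:ℝ) - 1) + 1 = s + -(n:ℝ) by ring] at this
    push_cast at ih ⊢
    rw [this, Prod.fst_add] at ih
    linarith

lemma X_surj (x a : ℝ) : ∃ s, (Φ (s, a)).1 = x := by
  obtain ⟨k, ⟨hk1, hk2⟩, -⟩ := existsUnique_zsmul_near_of_pos h.lpos (x - (Φ (0, a)).1)
  have hc : Continuous fun s : ℝ => (Φ (s, a)).1 := by have := hF.cont; fun_prop
  have e1 := hF.X_add_int 0 a k
  have e2 := hF.X_add_int 0 a (k + 1)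
  rw [zsmul_eq_mul] at hk1 hk2
  have hle : (0:ℝ) + (k:ℝ) ≤ 0 + ((k + 1 : ℤ) : ℝ) := by push_cast; linarith
  obtain ⟨s, -, hs⟩ := intermediate_value_Icc hle hc.continuousOn
    (show x ∈ Icc _ _ from ⟨by simp only [e1]; linarith, by simp only [e2]; linarith⟩)
  exact ⟨s, hs⟩

/-- the parameter of the point over `x` on a leaf -/
noncomputable def _root_.MPd2f538.xi (Φ : ℝ × ℝ → ℝ × ℝ) (x a : ℝ) : ℝ :=
  Function.invFun (fun s => (Φ (s, a)).1) x

lemma xi_spec (x a : ℝ) : (Φ (xi Φ x a, a)).1 = x :=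
  Function.invFun_eq (f := fun s => (Φ (s, a)).1) (hF.X_surj h x a)

lemma xi_eq (s a : ℝ) : xi Φ (Φ (s, a)).1 a = s :=
  (hF.strictMono_X h a).injective (hF.xi_spec h _ a)

lemma cont_xi : Continuous fun p : ℝ × ℝ => xi Φ p.1 p.2 := by
  rw [continuous_iff_continuousAt]
  rintro ⟨x0, a0⟩
  rw [ContinuousAt]
  simp only
  set s0 := xi Φ x0 a0 with hs0
  have hx0 := hF.xi_spec h x0 a0
  apply tendsto_order.2
  constructor
  · intro c hc
    have h1 : (Φ (c, a0)).1 < x0 := by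
      rw [← hx0]; exact hF.strictMono_X h a0 hc
    have h2 : Continuous fun p : ℝ × ℝ => (Φ (c, p.2)).1 - p.1 := by have := hF.cont; fun_prop
    have h3 : ∀ᶠ p : ℝ × ℝ in 𝓝 (x0, a0), (Φ (c, p.2)).1 - p.1 < 0 :=
      h2.continuousAt.eventually_lt_const (by simp only; linarith)
    filter_upwards [h3] with p hp
    rw [← (hF.strictMono_X h p.2).lt_iff_lt]
    simp only [hF.xi_spec h]
    linarith
  · intro c hc
    have h1 : x0 < (Φ (c, a0)).1 := by
      rw [← hx0]; exact hF.strictMono_X h a0 hc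
    have h2 : Continuous fun p : ℝ × ℝ => (Φ (c, p.2)).1 - p.1 := by have := hF.cont; fun_prop
    have h3 : ∀ᶠ p : ℝ × ℝ in 𝓝 (x0, a0), 0 < (Φ (c, p.2)).1 - p.1 :=
      h2.continuousAt.eventually_const_lt (by simp only; linarith)
    filter_upwards [h3] with p hp
    rw [← (hF.strictMono_X h p.2).lt_iff_lt]
    simp only [hF.xi_spec h]
    linarith

lemma xi_add (x a : ℝ) : xi Φ (x + l) a = xi Φ x a + 1 := by
  apply (hF.strictMono_X h a).injective
  simp only [hF.xi_spec h, hF.per, Prod.fst_add]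

omit h hF in
/-- momentum on a leaf -/
noncomputable def _root_.MPd2f538.mom (L1 : ℝ × ℝ → ℝ) (Φ : ℝ × ℝ → ℝ × ℝ) (x a : ℝ) : ℝ :=
  - L1 (Φ (xi Φ x a, a))

lemma cont_mom : Continuous fun p : ℝ × ℝ => mom L1 Φ p.1 p.2 := by
  unfold mom
  have h1 : Continuous fun p : ℝ × ℝ => Φ (xi Φ p.1 p.2, p.2) :=
    hF.cont.comp ((hF.cont_xi h).prodMk continuous_snd)
  exact (h.contL1.comp_continuous h1 (fun p => hF.maps _)).neg

lemma mom_add (x a : ℝ) : mom L1 Φ (x + l) a = mom L1 Φ x a := by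
  unfold mom
  rw [hF.xi_add h, hF.per, h.pL1 _ (hF.maps _)]

lemma mom_fst (s a : ℝ) : mom L1 Φ (Φ (s, a)).1 a = - L1 (Φ (s, a)) := by
  unfold mom
  rw [hF.xi_eq h]

lemma mom_snd (s a : ℝ) : mom L1 Φ (Φ (s, a)).2 a = L2 (Φ (s, a)) := by
  have h1 := hF.mom_fst h (sg l L1 L2 Φ s a) a
  rw [hF.sg_spec, TT_fst] at h1
  rw [h1]
  linarith [h.T_eq (hF.maps (s, a))]

omit h hF in
/-- primitive of the momentum -/
noncomputable def _root_.MPd2f538.prim (L1 : ℝ × ℝ → ℝ) (Φ : ℝ × ℝ → ℝ × ℝ) (x a : ℝ) : ℝ :=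
  ∫ t in (0:ℝ)..x, mom L1 Φ t a

lemma hasDerivAt_prim (x a : ℝ) :
    HasDerivAt (fun x => prim L1 Φ x a) (mom L1 Φ x a) x := by
  have hc : Continuous fun t : ℝ => mom L1 Φ t a :=
    (hF.cont_mom h).comp (continuous_id.prodMk continuous_const)
  exact intervalIntegral.integral_hasDerivAt_right (hc.intervalIntegrable _ _)
    (hc.stronglyMeasurableAtFilter _ _) hc.continuousAt

/-- the calibration is constant along the leaf -/
lemma calib_const (a s t : ℝ) :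
    L (Φ (s, a)) - prim L1 Φ (Φ (s, a)).2 a + prim L1 Φ (Φ (s, a)).1 a =
    L (Φ (t, a)) - prim L1 Φ (Φ (t, a)).2 a + prim L1 Φ (Φ (t, a)).1 a := by
  have hd : ∀ s, HasDerivAt (fun s => L (Φ (s, a)) - prim L1 Φ (Φ (s, a)).2 a +
      prim L1 Φ (Φ (s, a)).1 a) 0 s := by
    intro s
    have d1 := (h.dL _ (hF.maps (s, a))).comp_hasDerivAt s (hF.hasDerivAt_leaf s a)
    have d2 := (hF.hasDerivAt_prim h (Φ (s, a)).2 a).comp s (hF.hasDerivAt_Y s a)
    have d3 := (hF.hasDerivAt_prim h (Φ (s, a)).1 a).comp s (hF.hasDerivAt_X s a)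
    have := (d1.sub d2).add d3
    refine this.congr_deriv ?_
    rw [hF.mom_fst h, hF.mom_snd h]
    simp
  exact is_const_of_deriv_eq_zero (fun s => (hd s).differentiableAt) (fun s => (hd s).deriv) s t

/-- maximum over the second variable -/
lemma calib_max_snd (a : ℝ) {q : ℝ × ℝ} (hq : q ∈ Sig l) :
    L q - prim L1 Φ q.2 a ≤
      L (Φ (xi Φ q.1 a, a)) - prim L1 Φ (Φ (xi Φ q.1 a, a)).2 a := by
  obtain ⟨x, y⟩ := q
  simp only
  set P := Φ (xi Φ x a, a) with hP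
  have hP1 : P.1 = x := hF.xi_spec h x a
  have hPS : P ∈ Sig l := hF.maps _
  have hPe : P = (x, P.2) := Prod.ext hP1 rfl
  rw [hPe]
  simp only
  set τ := P.2 with hτ
  have hτS : (x, τ) ∈ Sig l := by rw [← hPe]; exact hPS
  -- derivative
  have hder : ∀ c, (x, c) ∈ Sig l → HasDerivAt (fun y => L (x, y) - prim L1 Φ y a)
      (L2 (x, c) - mom L1 Φ c a) c := fun c hc =>
    (h.hasDerivAt_L_snd hc).sub (hF.hasDerivAt_prim h c a)
  -- sign of derivative
  have hsgn : ∀ c, (x, c) ∈ Sig l → (c < τ → 0 < L2 (x, c) - mom L1 Φ c a) ∧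
      (τ < c → L2 (x, c) - mom L1 Φ c a < 0) := by
    intro c hc
    -- point of the leaf with second coordinate c
    obtain ⟨t, ht⟩ := hF.sg_surj h (xi Φ c a) a
    have e1 := hF.sg_spec t a
    rw [ht] at e1
    have e2 : (Φ (t, a)).2 = c := by
      rw [← TT_fst (l := l) (L1 := L1) (L2 := L2) (Φ (t, a)), ← e1]
      exact hF.xi_spec h c a
    have hm := hF.mom_snd h t a
    rw [e2] at hm
    rw [hm]
    have hts : (Φ (t, a)) = ((Φ (t, a)).1, c) := Prod.ext rfl e2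
    have htS : ((Φ (t, a)).1, c) ∈ Sig l := by rw [← hts]; exact hF.maps _
    constructor
    · intro hlt
      have h1 : t < xi Φ x a := by
        rw [← (hF.strictMono_Y h a).lt_iff_lt]
        rw [e2]
        exact hlt
      have h2 := hF.strictMono_X h a h1
      simp only [hF.xi_spec h] at h2
      have h3 := (h.L2_lt htS hc).2 h2
      rw [← hts] at h3
      linarith
    · intro hlt
      have h1 : xi Φ x a < t := by
        rw [← (hF.strictMono_Y h a).lt_iff_lt]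
        rw [e2]
        exact hlt
      have h2 := hF.strictMono_X h a h1
      simp only [hF.xi_spec h] at h2
      have h3 := (h.L2_lt hc htS).2 h2
      rw [← hts] at h3
      linarith
  rcases lt_trichotomy y τ with hlt | heq | hgt
  · have hin : ∀ c ∈ Icc y τ, (x, c) ∈ Sig l := fun c hc =>
      ⟨hq.1.trans_le hc.1, hc.2.trans_lt hτS.2⟩
    obtain ⟨c, hc, he⟩ := exists_hasDerivAt_eq_slope (fun y => L (x, y) - prim L1 Φ y a)
      (fun c => L2 (x, c) - mom L1 Φ c a) hlt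
      (fun c hc => (hder c (hin c hc)).continuousAt.continuousWithinAt)
      (fun c hc => hder c (hin c ⟨hc.1.le, hc.2.le⟩))
    have h1 := (hsgn c (hin c ⟨hc.1.le, hc.2.le⟩)).1 hc.2
    rw [he, lt_div_iff₀ (by linarith)] at h1
    linarith
  · rw [heq]
  · have hin : ∀ c ∈ Icc τ y, (x, c) ∈ Sig l := fun c hc =>
      ⟨hτS.1.trans_le hc.1, hc.2.trans_lt hq.2⟩
    obtain ⟨c, hc, he⟩ := exists_hasDerivAt_eq_slope (fun y => L (x, y) - prim L1 Φ y a)
      (fun c => L2 (x, c) - mom L1 Φ c a) hgt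
      (fun c hc => (hder c (hin c hc)).continuousAt.continuousWithinAt)
      (fun c hc => hder c (hin c ⟨hc.1.le, hc.2.le⟩))
    have h1 := (hsgn c (hin c ⟨hc.1.le, hc.2.le⟩)).2 hc.1
    rw [he, div_lt_iff₀ (by linarith)] at h1
    linarith

/-- the calibration inequality -/
lemma calib (a s : ℝ) {q : ℝ × ℝ} (hq : q ∈ Sig l) :
    L q - L (Φ (s, a)) ≤ (prim L1 Φ q.2 a - prim L1 Φ (Φ (s, a)).2 a) -
      (prim L1 Φ q.1 a - prim L1 Φ (Φ (s, a)).1 a) := by
  have h1 := hF.calib_max_snd h a hq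
  have h2 := hF.calib_const h a s (xi Φ q.1 a)
  rw [hF.xi_spec h] at h2
  linarith

end Fol
end

end MPd2f538
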