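import Mathlib

open MeasureTheory Set Real Filter Topology

namespace Pool.Agent.MP_d2f538_an

/-- A `C²` unit speed closed curve of period `ℓ` which is strictly convex and positively
oriented. -/
structure CurveData (ℓ : ℝ) (γ γ' γ'' : ℝ → ℂ) : Prop where
  pos : 0 < ℓ
  d1 : ∀ x, HasDerivAt γ (γ' x) x
  d2 : ∀ x, HasDerivAt γ' (γ'' x) x
  c2 : Continuous γ''
  unit : ∀ x, ‖γ' x‖ = 1
  per : ∀ x, γ (x + ℓ) = γ x
  convex : ∀ x y, x < y → y < x + ℓ → 0 < ((starRingEnd ℂ) (γ' x) * (γ y - γ x)).im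

/-- Universal cover of the phase cylinder. -/
def Sig (ℓ : ℝ) : Set (ℝ × ℝ) := {p | p.1 < p.2 ∧ p.2 < p.1 + ℓ}

theorem isOpen_Sig (ℓ : ℝ) : IsOpen (Sig ℓ) :=
  (isOpen_lt continuous_fst continuous_snd).inter
    (isOpen_lt continuous_snd (continuous_fst.add continuous_const))

/-- An angle function for a unit speed `C²` curve. -/
theorem exists_angle {γ' γ'' : ℝ → ℂ} (d2 : ∀ x, HasDerivAt γ' (γ'' x) x)
    (c2 : Continuous γ'') (unit : ∀ x, ‖γ' x‖ = 1) :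
    ∃ ψ k : ℝ → ℝ, Continuous k ∧ (∀ x, HasDerivAt ψ (k x) x) ∧
      ∀ x, γ' x = Complex.exp (ψ x * Complex.I) := by
  have cγ' : Continuous γ' := continuous_iff_continuousAt.2 fun x => (d2 x).continuousAt
  set k : ℝ → ℝ := fun x => ((starRingEnd ℂ) (γ' x) * γ'' x).im with hk
  have ck : Continuous k :=
    Complex.continuous_im.comp ((Complex.continuous_conj.comp cγ').mul c2)
  set ψ : ℝ → ℝ := fun x => Complex.arg (γ' 0) + ∫ t in (0 : ℝ)..x, k t with hψ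
  have dψ : ∀ x, HasDerivAt ψ (k x) x := by
    intro x
    exact (intervalIntegral.integral_hasDerivAt_right (ck.intervalIntegrable _ _)
      (ck.stronglyMeasurableAtFilter _ _) ck.continuousAt).const_add _
  refine ⟨ψ, k, ck, dψ, ?_⟩
  have hsq : ∀ x, (starRingEnd ℂ) (γ' x) * γ' x = 1 := by
    intro x
    rw [mul_comm, Complex.mul_conj, Complex.normSq_eq_norm_sq, unit x]; simp
  -- the real part of conj γ' * γ'' vanishes
  have hre : ∀ x, ((starRingEnd ℂ) (γ' x) * γ'' x).re = 0 := by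
    intro x
    have h1 : HasDerivAt (fun x => (γ' x).re ^ 2 + (γ' x).im ^ 2)
        (2 * (γ' x).re * (γ'' x).re + 2 * (γ' x).im * (γ'' x).im) x := by
      have hr : HasDerivAt (fun x => (γ' x).re) (γ'' x).re x :=
        (Complex.reCLM.hasFDerivAt.comp_hasDerivAt x (d2 x))
      have hi : HasDerivAt (fun x => (γ' x).im) (γ'' x).im x :=
        (Complex.imCLM.hasFDerivAt.comp_hasDerivAt x (d2 x))
      have := (hr.fun_pow 2).fun_add (hi.fun_pow 2)
      refine this.congr_deriv ?_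
      push_cast
      ring
    have h2 : (fun x => (γ' x).re ^ 2 + (γ' x).im ^ 2) = fun _ => (1 : ℝ) := by
      funext x
      have h3 := Complex.normSq_eq_norm_sq (γ' x)
      rw [unit x, Complex.normSq_apply] at h3
      nlinarith [h3]
    rw [h2] at h1
    have h3 := h1.unique (hasDerivAt_const x (1 : ℝ))
    simp only [Complex.mul_re, Complex.conj_re, Complex.conj_im]
    linarith
  have hγ'' : ∀ x, γ'' x = k x * Complex.I * γ' x := by
    intro x
    have h1 : (starRingEnd ℂ) (γ' x) * γ'' x = k x * Complex.I := by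
      apply Complex.ext
      · rw [hre]; simp
      · simp [hk]
    calc γ'' x = ((starRingEnd ℂ) (γ' x) * γ' x) * γ'' x := by rw [hsq, one_mul]
      _ = ((starRingEnd ℂ) (γ' x) * γ'' x) * γ' x := by ring
      _ = _ := by rw [h1]
  have hd : ∀ x : ℝ, HasDerivAt (fun x : ℝ => γ' x * Complex.exp (-(ψ x * Complex.I))) 0 x := by
    intro x
    have h1 : HasDerivAt (fun x : ℝ => -((ψ x : ℂ) * Complex.I)) (-((k x : ℂ) * Complex.I)) x :=
      ((dψ x).ofReal_comp.mul_const Complex.I).neg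
    have h2 := (d2 x).mul h1.cexp
    have h3 : γ'' x * Complex.exp (-(ψ x * Complex.I)) +
        γ' x * (Complex.exp (-(ψ x * Complex.I)) * -(k x * Complex.I)) = 0 := by
      rw [hγ'' x]; ring
    rw [h3] at h2
    exact h2
  have hconst : ∀ x y : ℝ, γ' x * Complex.exp (-(ψ x * Complex.I)) =
      γ' y * Complex.exp (-(ψ y * Complex.I)) :=
    is_const_of_deriv_eq_zero (fun x => (hd x).differentiableAt) (fun x => (hd x).deriv)
  intro x
  have h0 : γ' 0 * Complex.exp (-(ψ 0 * Complex.I)) = 1 := by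
    have e1 : ψ 0 = Complex.arg (γ' 0) := by simp [hψ]
    have e2 := Complex.norm_mul_exp_arg_mul_I (γ' 0)
    rw [unit, Complex.ofReal_one, one_mul] at e2
    rw [e1]
    nth_rewrite 1 [← e2]
    rw [← Complex.exp_add]
    simp
  have h1 := hconst x 0
  rw [h0] at h1
  calc γ' x = (γ' x * Complex.exp (-(ψ x * Complex.I))) * Complex.exp (ψ x * Complex.I) := by
        rw [mul_assoc, ← Complex.exp_add]; simp
    _ = _ := by rw [h1, one_mul]

/-- Curve data together with an angle function. -/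
structure AngleData (ℓ : ℝ) (γ γ' γ'' : ℝ → ℂ) (ψ k : ℝ → ℝ) : Prop
    extends CurveData ℓ γ γ' γ'' where
  ck : Continuous k
  dψ : ∀ x, HasDerivAt ψ (k x) x
  hψ : ∀ x, γ' x = Complex.exp (ψ x * Complex.I)

/-- chord in the moving frame -/
noncomputable def wch (γ γ' : ℝ → ℂ) (p : ℝ × ℝ) : ℂ :=
  (starRingEnd ℂ) (γ' p.1) * (γ p.2 - γ p.1)

/-- angle between tangent at the first point and the chord -/
noncomputable def al (γ γ' : ℝ → ℂ) (p : ℝ × ℝ) : ℝ := Complex.arg (wch γ γ' p)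

/-- direction of the chord -/
noncomputable def ph (γ γ' : ℝ → ℂ) (ψ : ℝ → ℝ) (p : ℝ × ℝ) : ℝ := ψ p.1 + al γ γ' p

/-- angle between the chord and the tangent at the second point -/
noncomputable def al1 (γ γ' : ℝ → ℂ) (ψ : ℝ → ℝ) (p : ℝ × ℝ) : ℝ := ψ p.2 - ph γ γ' ψ p

/-- length of the chord -/
noncomputable def lam (γ : ℝ → ℂ) (p : ℝ × ℝ) : ℝ := ‖γ p.2 - γ p.1‖

section chord

variable {ℓ : ℝ} {γ γ' γ'' : ℝ → ℂ} {ψ k : ℝ → ℝ}

theorem CurveData.cγ (D : CurveData ℓ γ γ' γ'') : Continuous γ :=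
  continuous_iff_continuousAt.2 fun x => (D.d1 x).continuousAt

theorem CurveData.cγ' (D : CurveData ℓ γ γ' γ'') : Continuous γ' :=
  continuous_iff_continuousAt.2 fun x => (D.d2 x).continuousAt

theorem CurveData.per' (D : CurveData ℓ γ γ' γ'') (x : ℝ) : γ' (x + ℓ) = γ' x := by
  have h1 : HasDerivAt (fun x => γ (x + ℓ)) (γ' (x + ℓ)) x := (D.d1 (x + ℓ)).comp_add_const x ℓ
  have h2 : (fun x => γ (x + ℓ)) = γ := funext D.per
  rw [h2] at h1
  exact h1.unique (D.d1 x)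

theorem CurveData.im_wch (D : CurveData ℓ γ γ' γ'') {p : ℝ × ℝ} (hp : p ∈ Sig ℓ) :
    0 < (wch γ γ' p).im := D.convex p.1 p.2 hp.1 hp.2

theorem CurveData.wch_slit (D : CurveData ℓ γ γ' γ'') {p : ℝ × ℝ} (hp : p ∈ Sig ℓ) :
    wch γ γ' p ∈ Complex.slitPlane := Or.inr (D.im_wch hp).ne'

theorem CurveData.conj_mul (D : CurveData ℓ γ γ' γ'') (x : ℝ) :
    γ' x * (starRingEnd ℂ) (γ' x) = 1 := by
  rw [Complex.mul_conj, Complex.normSq_eq_norm_sq, D.unit x]; simp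

theorem CurveData.lam_pos (D : CurveData ℓ γ γ' γ'') {p : ℝ × ℝ} (hp : p ∈ Sig ℓ) :
    0 < lam γ p := by
  rw [lam, norm_pos_iff]
  intro h
  have := D.im_wch hp
  rw [wch, h, mul_zero] at this
  simp at this

theorem CurveData.norm_wch (D : CurveData ℓ γ γ' γ'') (p : ℝ × ℝ) :
    ‖wch γ γ' p‖ = lam γ p := by
  rw [wch, norm_mul, RCLike.norm_conj, D.unit, one_mul, lam]

theorem CurveData.al_mem (D : CurveData ℓ γ γ' γ'') {p : ℝ × ℝ} (hp : p ∈ Sig ℓ) :
    al γ γ' p ∈ Ioo 0 π := by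
  have h := D.im_wch hp
  constructor
  · rcases lt_or_eq_of_le (Complex.arg_nonneg_iff.2 h.le) with h1 | h1
    · exact h1
    · exfalso
      have h2 := Complex.arg_eq_zero_iff.1 h1.symm
      rw [h2.2] at h
      exact lt_irrefl _ h
  · rcases lt_or_eq_of_le (Complex.arg_le_pi (wch γ γ' p)) with h1 | h1
    · exact h1
    · exfalso
      have h2 := Complex.arg_eq_pi_iff.1 h1
      rw [h2.2] at h
      exact lt_irrefl _ h

theorem AngleData.chord_eq (D : AngleData ℓ γ γ' γ'' ψ k) (p : ℝ × ℝ) :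
    γ p.2 - γ p.1 = lam γ p * Complex.exp (ph γ γ' ψ p * Complex.I) := by
  have h1 : γ p.2 - γ p.1 = γ' p.1 * wch γ γ' p := by
    rw [wch, ← mul_assoc, D.conj_mul, one_mul]
  have h2 := Complex.norm_mul_exp_arg_mul_I (wch γ γ' p)
  rw [D.norm_wch] at h2
  rw [h1, ← h2, D.hψ, ph, al]
  rw [Complex.ofReal_add, add_mul, Complex.exp_add]
  ring

theorem AngleData.cψ (D : AngleData ℓ γ γ' γ'' ψ k) : Continuous ψ :=
  continuous_iff_continuousAt.2 fun x => (D.dψ x).continuousAt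

theorem AngleData.d2' (D : AngleData ℓ γ γ' γ'' ψ k) (x : ℝ) :
    HasDerivAt γ' (k x * Complex.I * γ' x) x := by
  have h1 : HasDerivAt (fun x : ℝ => (ψ x : ℂ) * Complex.I) ((k x : ℂ) * Complex.I) x :=
    (D.dψ x).ofReal_comp.mul_const Complex.I
  have h2 := h1.cexp
  have h3 : γ' = fun x : ℝ => Complex.exp (ψ x * Complex.I) := funext D.hψ
  have h4 : Complex.exp (ψ x * Complex.I) * ((k x : ℂ) * Complex.I) = k x * Complex.I * γ' x := by
    rw [D.hψ x]; ring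
  rw [h4, ← h3] at h2
  exact h2

/-- the two components of the logarithmic derivative -/
theorem AngleData.hasFDerivAt_log (D : AngleData ℓ γ γ' γ'' ψ k) {p : ℝ × ℝ} (hp : p ∈ Sig ℓ) :
    HasFDerivAt (fun p => Complex.log (wch γ γ' p))
      ((ContinuousLinearMap.fst ℝ ℝ ℝ).smulRight
          (-(k p.1 * Complex.I) - γ' p.1 / (γ p.2 - γ p.1)) +
        (ContinuousLinearMap.snd ℝ ℝ ℝ).smulRight (γ' p.2 / (γ p.2 - γ p.1))) p := by
  have hne : γ p.2 - γ p.1 ≠ 0 := by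
    have := D.lam_pos hp
    rwa [lam, norm_pos_iff] at this
  have hγne : ∀ x, (starRingEnd ℂ) (γ' x) ≠ 0 := by
    intro x h
    have := D.conj_mul x
    rw [h, mul_zero] at this
    exact zero_ne_one this
  have hw := Complex.hasDerivAt_log (D.wch_slit hp)
  have d1a : HasFDerivAt (fun p : ℝ × ℝ => γ p.1)
      ((ContinuousLinearMap.fst ℝ ℝ ℝ).smulRight (γ' p.1)) p := by
    have := (D.d1 p.1).hasFDerivAt.comp p (hasFDerivAt_fst (𝕜 := ℝ) (p := p))
    refine this.congr_fderiv ?_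
    ext <;> simp
  have d1b : HasFDerivAt (fun p : ℝ × ℝ => γ p.2)
      ((ContinuousLinearMap.snd ℝ ℝ ℝ).smulRight (γ' p.2)) p := by
    have := (D.d1 p.2).hasFDerivAt.comp p (hasFDerivAt_snd (𝕜 := ℝ) (p := p))
    refine this.congr_fderiv ?_
    ext <;> simp
  have d2a : HasFDerivAt (fun p : ℝ × ℝ => (starRingEnd ℂ) (γ' p.1))
      ((ContinuousLinearMap.fst ℝ ℝ ℝ).smulRight
        ((starRingEnd ℂ) (k p.1 * Complex.I * γ' p.1))) p := by
    have h0 : HasDerivAt (fun x => (starRingEnd ℂ) (γ' x))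
        ((starRingEnd ℂ) (k p.1 * Complex.I * γ' p.1)) p.1 :=
      (Complex.conjCLE.toContinuousLinearMap.hasFDerivAt.comp_hasDerivAt p.1 (D.d2' p.1))
    have := h0.hasFDerivAt.comp p (hasFDerivAt_fst (𝕜 := ℝ) (p := p))
    refine this.congr_fderiv ?_
    ext <;> simp
  have h1 := d2a.mul (d1b.sub d1a)
  have h2 := hw.complexToReal_fderiv.comp p h1
  refine h2.congr_fderiv ?_
  have hc : (starRingEnd ℂ) (k p.1 * Complex.I * γ' p.1) =
      -(k p.1 * Complex.I) * (starRingEnd ℂ) (γ' p.1) := by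
    simp
  ext
  · simp only [ContinuousLinearMap.comp_apply, add_apply,
      smul_apply, sub_apply,
      ContinuousLinearMap.smulRight_apply, ContinuousLinearMap.inl_apply,
      ContinuousLinearMap.coe_fst', ContinuousLinearMap.coe_snd', one_apply_eq_self,
      smul_eq_mul, one_smul, zero_smul, hc, wch, Pi.sub_apply]
    have := hγne p.1
    field_simp
    ring
  · simp only [ContinuousLinearMap.comp_apply, add_apply,
      smul_apply, sub_apply,
      ContinuousLinearMap.smulRight_apply, ContinuousLinearMap.inr_apply,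
      ContinuousLinearMap.coe_fst', ContinuousLinearMap.coe_snd', one_apply_eq_self,
      smul_eq_mul, one_smul, zero_smul, hc, wch, Pi.sub_apply]
    have := hγne p.1
    field_simp
    ring

theorem AngleData.chord_ne (D : AngleData ℓ γ γ' γ'' ψ k) {p : ℝ × ℝ} (hp : p ∈ Sig ℓ) :
    γ p.2 - γ p.1 ≠ 0 := by
  have := D.lam_pos hp
  rwa [lam, norm_pos_iff] at this

theorem AngleData.div_fst (D : AngleData ℓ γ γ' γ'' ψ k) {p : ℝ × ℝ} (hp : p ∈ Sig ℓ) :
    γ' p.1 / (γ p.2 - γ p.1) =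
      (Real.cos (al γ γ' p) / lam γ p : ℝ) - (Real.sin (al γ γ' p) / lam γ p : ℝ) * Complex.I := by
  have hl := D.lam_pos hp
  rw [D.chord_eq p, D.hψ p.1]
  have h1 : ((ψ p.1 : ℝ) : ℂ) = (ph γ γ' ψ p : ℂ) - (al γ γ' p : ℂ) := by
    rw [ph]; push_cast; ring
  have h2 : Complex.exp (ψ p.1 * Complex.I) = Complex.exp (ph γ γ' ψ p * Complex.I) *
      (Complex.cos (al γ γ' p) - Complex.sin (al γ γ' p) * Complex.I) := by
    rw [h1, sub_mul, Complex.exp_sub, div_eq_mul_inv, ← Complex.exp_neg]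
    congr 1
    rw [← neg_mul, Complex.exp_mul_I, Complex.cos_neg, Complex.sin_neg]
    ring
  rw [h2]
  have h3 : Complex.exp (ph γ γ' ψ p * Complex.I) ≠ 0 := Complex.exp_ne_zero _
  have h4 : (lam γ p : ℂ) ≠ 0 := by exact_mod_cast hl.ne'
  push_cast
  field_simp

theorem AngleData.div_snd (D : AngleData ℓ γ γ' γ'' ψ k) {p : ℝ × ℝ} (hp : p ∈ Sig ℓ) :
    γ' p.2 / (γ p.2 - γ p.1) =
      (Real.cos (al1 γ γ' ψ p) / lam γ p : ℝ) +
        (Real.sin (al1 γ γ' ψ p) / lam γ p : ℝ) * Complex.I := by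
  have hl := D.lam_pos hp
  rw [D.chord_eq p, D.hψ p.2]
  have h1 : ((ψ p.2 : ℝ) : ℂ) = (ph γ γ' ψ p : ℂ) + (al1 γ γ' ψ p : ℂ) := by
    rw [al1]; push_cast; ring
  have h2 : Complex.exp (ψ p.2 * Complex.I) = Complex.exp (ph γ γ' ψ p * Complex.I) *
      (Complex.cos (al1 γ γ' ψ p) + Complex.sin (al1 γ γ' ψ p) * Complex.I) := by
    rw [h1, add_mul, Complex.exp_add, ← Complex.exp_mul_I (al1 γ γ' ψ p : ℂ)]
  rw [h2]
  have h3 : Complex.exp (ph γ γ' ψ p * Complex.I) ≠ 0 := Complex.exp_ne_zero _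
  have h4 : (lam γ p : ℂ) ≠ 0 := by exact_mod_cast hl.ne'
  push_cast
  field_simp

/-- derivative of the chord direction -/
theorem AngleData.hasFDerivAt_ph (D : AngleData ℓ γ γ' γ'' ψ k) {p : ℝ × ℝ} (hp : p ∈ Sig ℓ) :
    HasFDerivAt (ph γ γ' ψ)
      ((Real.sin (al γ γ' p) / lam γ p) • ContinuousLinearMap.fst ℝ ℝ ℝ +
        (Real.sin (al1 γ γ' ψ p) / lam γ p) • ContinuousLinearMap.snd ℝ ℝ ℝ) p := by
  have h1 : HasFDerivAt (fun p : ℝ × ℝ => ψ p.1) ((k p.1) • ContinuousLinearMap.fst ℝ ℝ ℝ) p := by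
    have := (D.dψ p.1).hasFDerivAt.comp p (hasFDerivAt_fst (𝕜 := ℝ) (p := p))
    refine this.congr_fderiv ?_
    ext <;> simp
  have h2 := Complex.imCLM.hasFDerivAt.comp p (D.hasFDerivAt_log hp)
  have h3 := h1.add h2
  have h4 : ((fun p : ℝ × ℝ => ψ p.1) + Complex.imCLM ∘ fun p => Complex.log (wch γ γ' p)) =
      ph γ γ' ψ := by
    funext q
    simp [ph, al, Complex.log_im]
  rw [h4] at h3
  refine h3.congr_fderiv ?_
  rw [D.div_fst hp, D.div_snd hp]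
  ext
  · simp [Complex.sin_ofReal_re]
  · simp [Complex.sin_ofReal_re]

/-- derivative of the chord length -/
theorem AngleData.hasFDerivAt_lam (D : AngleData ℓ γ γ' γ'' ψ k) {p : ℝ × ℝ} (hp : p ∈ Sig ℓ) :
    HasFDerivAt (lam γ)
      ((-Real.cos (al γ γ' p)) • ContinuousLinearMap.fst ℝ ℝ ℝ +
        (Real.cos (al1 γ γ' ψ p)) • ContinuousLinearMap.snd ℝ ℝ ℝ) p := by
  have hl := D.lam_pos hp
  have h2 := (Complex.reCLM.hasFDerivAt.comp p (D.hasFDerivAt_log hp)).exp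
  have h4 : (fun q => Real.exp ((Complex.reCLM ∘ fun p => Complex.log (wch γ γ' p)) q)) =ᶠ[𝓝 p]
      lam γ := by
    filter_upwards [(isOpen_Sig ℓ).mem_nhds hp] with q hq
    simp only [Function.comp, Complex.reCLM_apply, Complex.log_re, D.norm_wch]
    rw [Real.exp_log (D.lam_pos hq)]
  have h5 := h2.congr_of_eventuallyEq h4.symm
  refine h5.congr_fderiv ?_
  have h6 : Real.exp ((Complex.reCLM ∘ fun p => Complex.log (wch γ γ' p)) p) = lam γ p :=
    h4.self_of_nhds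
  rw [h6, D.div_fst hp, D.div_snd hp]
  ext
  · simp [Complex.cos_ofReal_re]
    field_simp
  · simp [Complex.cos_ofReal_re]
    field_simp

theorem AngleData.sin_al_pos (D : AngleData ℓ γ γ' γ'' ψ k) {p : ℝ × ℝ} (hp : p ∈ Sig ℓ) :
    0 < Real.sin (al γ γ' p) := by
  have h := D.al_mem hp
  exact Real.sin_pos_of_pos_of_lt_pi h.1 h.2

theorem AngleData.sin_al1_pos (D : AngleData ℓ γ γ' γ'' ψ k) {p : ℝ × ℝ} (hp : p ∈ Sig ℓ) :
    0 < Real.sin (al1 γ γ' ψ p) := by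
  have hl := D.lam_pos hp
  have h1 := D.convex p.2 (p.1 + ℓ) hp.2 (by linarith [hp.1])
  rw [D.per] at h1
  have h2 := congrArg Complex.im (D.div_snd hp)
  have h3 : (γ' p.2 / (γ p.2 - γ p.1)).im = Real.sin (al1 γ γ' ψ p) / lam γ p := by
    rw [h2]; simp only [Complex.add_im, Complex.ofReal_im, Complex.mul_im, Complex.ofReal_re,
      Complex.I_im, Complex.I_re]; ring
  have h4 : 0 < (γ' p.2 / (γ p.2 - γ p.1)).im := by
    rw [div_eq_mul_inv, Complex.inv_def]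
    have h5 : (γ' p.2 * ((starRingEnd ℂ) (γ p.2 - γ p.1) *
        ((Complex.normSq (γ p.2 - γ p.1))⁻¹ : ℝ))).im =
        ((starRingEnd ℂ) (γ' p.2) * (γ p.1 - γ p.2)).im *
          (Complex.normSq (γ p.2 - γ p.1))⁻¹ := by
      simp only [Complex.mul_im, Complex.conj_re, Complex.conj_im, Complex.sub_re, Complex.sub_im,
        Complex.mul_re, Complex.ofReal_re, Complex.ofReal_im]
      ring
    rw [h5]
    apply mul_pos h1
    rw [inv_pos, Complex.normSq_pos]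
    exact D.chord_ne hp
  rw [h3] at h4
  have := mul_pos h4 hl
  rwa [div_mul_cancel₀ _ hl.ne'] at this

theorem AngleData.tendsto_al_left (D : AngleData ℓ γ γ' γ'' ψ k) (x : ℝ) :
    Tendsto (fun y => al γ γ' (x, y)) (𝓝[>] x) (𝓝 0) := by
  have h1 : Tendsto (slope γ x) (𝓝[>] x) (𝓝 (γ' x)) :=
    (D.d1 x).tendsto_slope.mono_left (nhdsWithin_mono _ (fun y hy => ne_of_gt hy))
  have h2 : Tendsto (fun y => (starRingEnd ℂ) (γ' x) * slope γ x y) (𝓝[>] x) (𝓝 1) := by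
    have := h1.const_mul ((starRingEnd ℂ) (γ' x))
    rwa [mul_comm _ (γ' x), D.conj_mul] at this
  have h3 : Tendsto (fun y => Complex.arg ((starRingEnd ℂ) (γ' x) * slope γ x y))
      (𝓝[>] x) (𝓝 (Complex.arg 1)) :=
    (Complex.continuousAt_arg Complex.one_mem_slitPlane).tendsto.comp h2
  rw [Complex.arg_one] at h3
  refine h3.congr' ?_
  filter_upwards [self_mem_nhdsWithin] with y hy
  have hy' : 0 < y - x := sub_pos.2 hy
  have h4 : (starRingEnd ℂ) (γ' x) * slope γ x y = ((y - x)⁻¹ : ℝ) * wch γ γ' (x, y) := by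
    rw [slope_def_module, wch, Complex.real_smul]; ring
  rw [h4, Complex.arg_real_mul _ (inv_pos.2 hy'), al]

theorem AngleData.tendsto_al_right (D : AngleData ℓ γ γ' γ'' ψ k) (x : ℝ) :
    Tendsto (fun y => al γ γ' (x, y)) (𝓝[<] (x + ℓ)) (𝓝 π) := by
  have h1 : Tendsto (slope γ (x + ℓ)) (𝓝[<] (x + ℓ)) (𝓝 (γ' x)) := by
    have := (D.d1 (x + ℓ)).tendsto_slope.mono_left
      (nhdsWithin_mono (x + ℓ) (s := Iio (x + ℓ)) (fun y hy => ne_of_lt hy))
    rwa [D.per'] at this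
  have h2 : Tendsto (fun y => -((starRingEnd ℂ) (γ' x) * slope γ (x + ℓ) y))
      (𝓝[<] (x + ℓ)) (𝓝 (-1)) := by
    have := (h1.const_mul ((starRingEnd ℂ) (γ' x))).neg
    rwa [mul_comm _ (γ' x), D.conj_mul] at this
  have h4 : ∀ y < x + ℓ, -((starRingEnd ℂ) (γ' x) * slope γ (x + ℓ) y) =
      ((x + ℓ - y)⁻¹ : ℝ) * wch γ γ' (x, y) := by
    intro y hy
    rw [slope_def_module, wch, Complex.real_smul, D.per]
    have : ((y - (x + ℓ))⁻¹ : ℝ) = -(x + ℓ - y)⁻¹ := by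
      rw [← neg_sub, inv_neg]
    rw [this]; push_cast; ring
  have h2' : Tendsto (fun y => -((starRingEnd ℂ) (γ' x) * slope γ (x + ℓ) y))
      (𝓝[<] (x + ℓ)) (𝓝[{z | 0 ≤ z.im}] (-1)) := by
    apply tendsto_nhdsWithin_of_tendsto_nhds_of_eventually_within _ h2
    have hx : x < x + ℓ := by linarith [D.pos]
    filter_upwards [Ioo_mem_nhdsLT hx] with y hy
    rw [h4 y hy.2]
    have h5 := D.im_wch (p := (x, y)) ⟨hy.1, hy.2⟩
    have h6 : (0 : ℝ) < (x + ℓ - y)⁻¹ := inv_pos.2 (by linarith [hy.2])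
    show 0 ≤ ((((x + ℓ - y)⁻¹ : ℝ) : ℂ) * wch γ γ' (x, y)).im
    rw [Complex.im_ofReal_mul]
    positivity
  have h3 := (Complex.tendsto_arg_nhdsWithin_im_nonneg_of_re_neg_of_im_zero (z := -1)
    (by simp) (by simp)).comp h2'
  refine h3.congr' ?_
  filter_upwards [self_mem_nhdsWithin] with y hy
  have hy' : 0 < x + ℓ - y := sub_pos.2 hy
  simp only [Function.comp]
  rw [h4 y hy, Complex.arg_real_mul _ (inv_pos.2 hy'), al]

theorem AngleData.continuousOn_ph (D : AngleData ℓ γ γ' γ'' ψ k) :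
    ContinuousOn (ph γ γ' ψ) (Sig ℓ) :=
  fun _ hp => (D.hasFDerivAt_ph hp).continuousAt.continuousWithinAt

theorem AngleData.continuousOn_al (D : AngleData ℓ γ γ' γ'' ψ k) :
    ContinuousOn (al γ γ') (Sig ℓ) := by
  have : al γ γ' = fun p => ph γ γ' ψ p - ψ p.1 := by
    funext p; simp [ph]
  rw [this]
  exact D.continuousOn_ph.sub (D.cψ.comp continuous_fst).continuousOn

theorem AngleData.continuousOn_al1 (D : AngleData ℓ γ γ' γ'' ψ k) :
    ContinuousOn (al1 γ γ' ψ) (Sig ℓ) :=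
  (D.cψ.comp continuous_snd).continuousOn.sub D.continuousOn_ph

theorem AngleData.continuousOn_lam (D : AngleData ℓ γ γ' γ'' ψ k) :
    ContinuousOn (lam γ) (Sig ℓ) :=
  fun _ hp => (D.hasFDerivAt_lam hp).continuousAt.continuousWithinAt

theorem AngleData.tendsto_al1_left (D : AngleData ℓ γ γ' γ'' ψ k) (x : ℝ) :
    Tendsto (fun y => al1 γ γ' ψ (x, y)) (𝓝[>] x) (𝓝 0) := by
  have h1 : Tendsto (fun y => ψ y - (ψ x + al γ γ' (x, y))) (𝓝[>] x) (𝓝 (ψ x - (ψ x + 0))) :=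
    ((D.cψ.tendsto x).mono_left nhdsWithin_le_nhds).sub
      (tendsto_const_nhds.add (D.tendsto_al_left x))
  rw [add_zero, sub_self] at h1
  exact h1

theorem AngleData.al1_mem' (D : AngleData ℓ γ γ' γ'' ψ k) {x y : ℝ} (hxy : x < y)
    (hyx : y < x + ℓ) : al1 γ γ' ψ (x, y) ∈ Ioo 0 π := by
  have hcont : ContinuousOn (fun y => al1 γ γ' ψ (x, y)) (Ioo x (x + ℓ)) :=
    D.continuousOn_al1.comp (continuous_const.prodMk continuous_id).continuousOn
      (fun y hy => ⟨hy.1, hy.2⟩)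
  have hsin : ∀ y ∈ Ioo x (x + ℓ), 0 < Real.sin (al1 γ γ' ψ (x, y)) :=
    fun y hy => D.sin_al1_pos (p := (x, y)) ⟨hy.1, hy.2⟩
  have hpre : IsPreconnected ((fun y => al1 γ γ' ψ (x, y)) '' Ioo x (x + ℓ)) :=
    isPreconnected_Ioo.image _ hcont
  -- a point near x
  have hx : x < x + ℓ := by linarith [D.pos]
  have h1 : ∀ᶠ y in 𝓝[>] x, al1 γ γ' ψ (x, y) ∈ Ioo (-π) π :=
    (D.tendsto_al1_left x) (Ioo_mem_nhds (by linarith [pi_pos]) pi_pos)
  obtain ⟨y0, hy0, hy0'⟩ := (h1.and (Ioo_mem_nhdsGT hx)).exists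
  have hy0pos : 0 < al1 γ γ' ψ (x, y0) := by
    by_contra hcon
    push Not at hcon
    have := Real.sin_nonpos_of_nonpos_of_neg_pi_le hcon hy0.1.le
    linarith [hsin y0 hy0']
  have hmem0 : al1 γ γ' ψ (x, y0) ∈ (fun y => al1 γ γ' ψ (x, y)) '' Ioo x (x + ℓ) :=
    ⟨y0, hy0', rfl⟩
  have hmem : al1 γ γ' ψ (x, y) ∈ (fun y => al1 γ γ' ψ (x, y)) '' Ioo x (x + ℓ) :=
    ⟨y, ⟨hxy, hyx⟩, rfl⟩
  have hord := hpre.ordConnected
  constructor
  · by_contra hcon
    push Not at hcon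
    have : (0 : ℝ) ∈ (fun y => al1 γ γ' ψ (x, y)) '' Ioo x (x + ℓ) :=
      hord.out hmem hmem0 ⟨hcon, hy0pos.le⟩
    obtain ⟨z, hz, hz0⟩ := this
    have := hsin z hz
    simp only at hz0
    rw [hz0, Real.sin_zero] at this
    exact lt_irrefl _ this
  · by_contra hcon
    push Not at hcon
    have : π ∈ (fun y => al1 γ γ' ψ (x, y)) '' Ioo x (x + ℓ) :=
      hord.out hmem0 hmem ⟨hy0.2.le, hcon⟩
    obtain ⟨z, hz, hz0⟩ := this
    have := hsin z hz
    simp only at hz0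
    rw [hz0, Real.sin_pi] at this
    exact lt_irrefl _ this

theorem AngleData.al1_mem (D : AngleData ℓ γ γ' γ'' ψ k) {p : ℝ × ℝ} (hp : p ∈ Sig ℓ) :
    al1 γ γ' ψ p ∈ Ioo 0 π := D.al1_mem' hp.1 hp.2

theorem AngleData.ψ_add (D : AngleData ℓ γ γ' γ'' ψ k) (x : ℝ) : ψ (x + ℓ) = ψ x + 2 * π := by
  have h1 : Tendsto (fun y => al1 γ γ' ψ (x, y)) (𝓝[<] (x + ℓ)) (𝓝 (ψ (x + ℓ) - (ψ x + π))) :=
    ((D.cψ.tendsto (x + ℓ)).mono_left nhdsWithin_le_nhds).sub
      (tendsto_const_nhds.add (D.tendsto_al_right x))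
  have hx : x < x + ℓ := by linarith [D.pos]
  have : (𝓝[<] (x + ℓ)).NeBot := nhdsLT_neBot _
  have hev : ∀ᶠ y in 𝓝[<] (x + ℓ), al1 γ γ' ψ (x, y) ∈ Ioo 0 π := by
    filter_upwards [Ioo_mem_nhdsLT hx] with y hy
    exact D.al1_mem' hy.1 hy.2
  have h2 : 0 ≤ ψ (x + ℓ) - (ψ x + π) := ge_of_tendsto h1 (hev.mono fun y hy => hy.1.le)
  have h3 : ψ (x + ℓ) - (ψ x + π) ≤ π := le_of_tendsto h1 (hev.mono fun y hy => hy.2.le)
  have h4 : Complex.exp (ψ (x + ℓ) * Complex.I) = Complex.exp (ψ x * Complex.I) := by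
    rw [← D.hψ, ← D.hψ, D.per']
  obtain ⟨n, hn⟩ := Complex.exp_eq_exp_iff_exists_int.1 h4
  have h5 : ψ (x + ℓ) = ψ x + n * (2 * π) := by
    have := congrArg Complex.im hn
    simpa using this
  have h6 : n = 1 := by
    have hpi := pi_pos
    have a1 : (0 : ℝ) < n := by nlinarith
    have a2 : (n : ℝ) < 2 := by nlinarith
    have b1 : 0 < n := by exact_mod_cast a1
    have b2 : n < 2 := by exact_mod_cast a2
    omega
  rw [h5, h6]; simp

theorem AngleData.ph_mem (D : AngleData ℓ γ γ' γ'' ψ k) {p : ℝ × ℝ} (hp : p ∈ Sig ℓ) :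
    ph γ γ' ψ p ∈ Ioo (ψ p.1) (ψ p.1 + π) := by
  have h := D.al_mem hp
  rw [ph]
  exact ⟨by linarith [h.1], by linarith [h.2]⟩

theorem AngleData.ph_mem' (D : AngleData ℓ γ γ' γ'' ψ k) {p : ℝ × ℝ} (hp : p ∈ Sig ℓ) :
    ph γ γ' ψ p ∈ Ioo (ψ p.2 - π) (ψ p.2) := by
  have h := D.al1_mem hp
  rw [al1] at h
  exact ⟨by linarith [h.2], by linarith [h.1]⟩

theorem AngleData.hasDerivAt_ph_snd (D : AngleData ℓ γ γ' γ'' ψ k) {x y : ℝ}
    (hp : (x, y) ∈ Sig ℓ) :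
    HasDerivAt (fun y => ph γ γ' ψ (x, y)) (Real.sin (al1 γ γ' ψ (x, y)) / lam γ (x, y)) y := by
  have h1 : HasDerivAt (fun y : ℝ => (x, y)) ((0 : ℝ), (1 : ℝ)) y :=
    (hasDerivAt_const y x).prodMk (hasDerivAt_id y)
  have h2 := (D.hasFDerivAt_ph hp).comp_hasDerivAt y h1
  refine h2.congr_deriv ?_
  simp

theorem AngleData.hasDerivAt_ph_fst (D : AngleData ℓ γ γ' γ'' ψ k) {x y : ℝ}
    (hp : (x, y) ∈ Sig ℓ) :
    HasDerivAt (fun x => ph γ γ' ψ (x, y)) (Real.sin (al γ γ' (x, y)) / lam γ (x, y)) x := by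
  have h1 : HasDerivAt (fun x : ℝ => (x, y)) ((1 : ℝ), (0 : ℝ)) x :=
    (hasDerivAt_id x).prodMk (hasDerivAt_const x y)
  have h2 := (D.hasFDerivAt_ph hp).comp_hasDerivAt x h1
  refine h2.congr_deriv ?_
  simp

theorem AngleData.strictMonoOn_ph (D : AngleData ℓ γ γ' γ'' ψ k) (x : ℝ) :
    StrictMonoOn (fun y => ph γ γ' ψ (x, y)) (Ioo x (x + ℓ)) := by
  apply strictMonoOn_of_deriv_pos (convex_Ioo _ _)
  · exact fun y hy => (D.hasDerivAt_ph_snd ⟨hy.1, hy.2⟩).continuousAt.continuousWithinAt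
  · intro y hy
    rw [interior_Ioo] at hy
    rw [(D.hasDerivAt_ph_snd ⟨hy.1, hy.2⟩).deriv]
    exact div_pos (D.sin_al1_pos (p := (x, y)) ⟨hy.1, hy.2⟩)
      (D.lam_pos (p := (x, y)) ⟨hy.1, hy.2⟩)

theorem AngleData.image_ph (D : AngleData ℓ γ γ' γ'' ψ k) (x : ℝ) :
    (fun y => ph γ γ' ψ (x, y)) '' Ioo x (x + ℓ) = Ioo (ψ x) (ψ x + π) := by
  apply Subset.antisymm
  · rintro _ ⟨y, hy, rfl⟩
    exact D.ph_mem (p := (x, y)) ⟨hy.1, hy.2⟩
  · intro c hc
    have hx : x < x + ℓ := by linarith [D.pos]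
    have hcont : ContinuousOn (fun y => ph γ γ' ψ (x, y)) (Ioo x (x + ℓ)) :=
      fun y hy => (D.hasDerivAt_ph_snd ⟨hy.1, hy.2⟩).continuousAt.continuousWithinAt
    have hord := (isPreconnected_Ioo.image _ hcont).ordConnected
    have h1 : ∀ᶠ y in 𝓝[>] x, al γ γ' (x, y) < c - ψ x :=
      (D.tendsto_al_left x) (Iio_mem_nhds (by linarith [hc.1]))
    have h2 : ∀ᶠ y in 𝓝[<] (x + ℓ), c - ψ x < al γ γ' (x, y) :=
      (D.tendsto_al_right x) (Ioi_mem_nhds (by linarith [hc.2]))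
    obtain ⟨y1, hy1, hy1'⟩ := (h1.and (Ioo_mem_nhdsGT hx)).exists
    obtain ⟨y2, hy2, hy2'⟩ := (h2.and (Ioo_mem_nhdsLT hx)).exists
    refine hord.out ⟨y1, hy1', rfl⟩ ⟨y2, hy2', rfl⟩ ⟨?_, ?_⟩
    · simp only [ph]; linarith
    · simp only [ph]; linarith

/-- passing to the complementary chord -/
theorem AngleData.al_swap (D : AngleData ℓ γ γ' γ'' ψ k) {x y : ℝ} (hp : (x, y) ∈ Sig ℓ) :
    al γ γ' (y, x + ℓ) = π - al1 γ γ' ψ (x, y) := by
  have h1 := D.al1_mem hp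
  have h2 := D.chord_eq (x, y)
  simp only at h2
  have h3 : wch γ γ' (y, x + ℓ) = (lam γ (x, y) : ℂ) *
      (Complex.cos ((π - al1 γ γ' ψ (x, y) : ℝ) : ℂ) +
        Complex.sin ((π - al1 γ γ' ψ (x, y) : ℝ) : ℂ) * Complex.I) := by
    have h4 : wch γ γ' (y, x + ℓ) = -((starRingEnd ℂ) (γ' y) * (γ y - γ x)) := by
      rw [wch]; simp only [D.per]; ring
    have h6 : (starRingEnd ℂ) (γ' y) = Complex.exp (-(ψ y * Complex.I)) := by
      rw [D.hψ, ← Complex.exp_conj]; simp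
    rw [h4, h2, h6, ← Complex.exp_mul_I]
    have h5 : ((π - al1 γ γ' ψ (x, y) : ℝ) : ℂ) * Complex.I = π * Complex.I +
        (-(ψ y * Complex.I) + ph γ γ' ψ (x, y) * Complex.I) := by
      rw [al1]; push_cast; ring
    rw [h5, Complex.exp_add, Complex.exp_pi_mul_I, Complex.exp_add]
    ring
  rw [al, h3, Complex.arg_mul_cos_add_sin_mul_I (D.lam_pos hp)]
  exact ⟨by linarith [h1.2, pi_pos], by linarith [h1.1]⟩

theorem AngleData.ph_swap (D : AngleData ℓ γ γ' γ'' ψ k) {x y : ℝ} (hp : (x, y) ∈ Sig ℓ) :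
    ph γ γ' ψ (y, x + ℓ) = ph γ γ' ψ (x, y) + π := by
  rw [ph, D.al_swap hp, al1]; ring

theorem AngleData.al1_swap (D : AngleData ℓ γ γ' γ'' ψ k) {x y : ℝ} (hp : (x, y) ∈ Sig ℓ) :
    al1 γ γ' ψ (y, x + ℓ) = π - al γ γ' (x, y) := by
  rw [al1, D.ph_swap hp, ph]; simp only [D.ψ_add]; ring

theorem AngleData.lam_swap (D : AngleData ℓ γ γ' γ'' ψ k) (x y : ℝ) :
    lam γ (y, x + ℓ) = lam γ (x, y) := by
  rw [lam, lam, D.per, norm_sub_rev]

end chord

end Pool.Agent.MP_d2f538_an
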