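import Pool.Agent.Lib.MP_d2f538_an.Transfer

/-!
# Foliations by invariant curves: parametrisation over the whole plane, leaf map
-/

open Set Filter Topology MeasureTheory

namespace MPd2f538

/-- An invariant `C¹` foliation, leaves indexed by `ℝ`. -/
structure Fol (l : ℝ) (L1 L2 : ℝ × ℝ → ℝ) (Φ : ℝ × ℝ → ℝ × ℝ) : Prop where
  cd : ContDiff ℝ 1 Φ
  det : ∀ p, (fderiv ℝ Φ p).det ≠ 0
  maps : ∀ p, Φ p ∈ Sig l
  inj : Function.Injective Φ
  surj : ∀ q ∈ Sig l, ∃ p, Φ p = q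
  per : ∀ s a, Φ (s + 1, a) = Φ (s, a) + (l, l)
  inv : ∀ s a, ∃ s', Φ (s', a) = TT l L1 L2 (Φ (s, a))

section reparam

/-- diffeomorphism from `ℝ` to `(0,1)` -/
noncomputable def kap (b : ℝ) : ℝ := 1 / 2 + Real.arctan b / Real.pi

lemma kap_mem (b : ℝ) : kap b ∈ Ioo (0 : ℝ) 1 := by
  have h1 := Real.neg_pi_div_two_lt_arctan b
  have h2 := Real.arctan_lt_pi_div_two b
  have h3 := Real.pi_pos
  unfold kap
  constructor
  · have : -(1/2) < Real.arctan b / Real.pi := by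
      rw [lt_div_iff₀ h3]; linarith
    linarith
  · have : Real.arctan b / Real.pi < 1/2 := by
      rw [div_lt_iff₀ h3]; linarith
    linarith

lemma kap_inj : Function.Injective kap := by
  intro a b hab
  unfold kap at hab
  have h3 := Real.pi_pos
  have : Real.arctan a = Real.arctan b := by
    field_simp at hab
    linarith
  exact Real.arctan_injective this

lemma kap_surj {c : ℝ} (hc : c ∈ Ioo (0 : ℝ) 1) : ∃ b, kap b = c := by
  have h3 := Real.pi_pos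
  refine ⟨Real.tan ((c - 1/2) * Real.pi), ?_⟩
  unfold kap
  rw [Real.arctan_tan]
  · field_simp; ring
  · nlinarith [hc.1]
  · nlinarith [hc.2]

lemma hasDerivAt_kap (b : ℝ) : HasDerivAt kap ((1 / (1 + b ^ 2)) / Real.pi) b := by
  unfold kap
  exact ((Real.hasDerivAt_arctan b).div_const _).const_add _

lemma contDiff_kap : ContDiff ℝ 1 kap := by
  unfold kap
  exact contDiff_const.add (Real.contDiff_arctan.div_const _)

variable {l : ℝ} {L L1 L2 L11 L12 L22 : ℝ × ℝ → ℝ} {Φ : ℝ × ℝ → ℝ × ℝ}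

lemma det_comp' (A B : (ℝ × ℝ) →L[ℝ] (ℝ × ℝ)) : (A.comp B).det = A.det * B.det :=
  LinearMap.det_comp (A : (ℝ × ℝ) →ₗ[ℝ] (ℝ × ℝ)) (B : (ℝ × ℝ) →ₗ[ℝ] (ℝ × ℝ))

lemma det_ne_zero_of_comp_eq_id {A B : (ℝ × ℝ) →L[ℝ] (ℝ × ℝ)}
    (hAB : A.comp B = ContinuousLinearMap.id ℝ (ℝ × ℝ)) : B.det ≠ 0 := by
  have h1 : (A.comp B).det = A.det * B.det := det_comp' A B
  rw [hAB] at h1
  have h2 : (ContinuousLinearMap.id ℝ (ℝ × ℝ)).det = 1 := by
    simp [ContinuousLinearMap.det]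
  rw [h2] at h1
  intro hB
  rw [hB, mul_zero] at h1
  exact one_ne_zero h1

lemma Fol.of_InvFol (h : TwistGen l L L1 L2 L11 L12 L22) (hF : InvFol l L1 L2 Φ) :
    Fol l L1 L2 (fun p => Φ (p.1, kap p.2)) := by
  have hopen : IsOpen ((univ : Set ℝ) ×ˢ Ioo (0 : ℝ) 1) := isOpen_univ.prod isOpen_Ioo
  have hmem : ∀ p : ℝ × ℝ, (p.1, kap p.2) ∈ (univ : Set ℝ) ×ˢ Ioo (0 : ℝ) 1 :=
    fun p => ⟨trivial, kap_mem p.2⟩
  have hK : ContDiff ℝ 1 (fun p : ℝ × ℝ => (p.1, kap p.2)) :=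
    contDiff_fst.prodMk (contDiff_kap.comp contDiff_snd)
  refine ⟨?_, ?_, ?_, ?_, ?_, ?_, ?_⟩
  · rw [← contDiffOn_univ]
    exact hF.cd.comp hK.contDiffOn (fun p _ => hmem p)
  · intro p
    have hd : DifferentiableAt ℝ Φ (p.1, kap p.2) :=
      (hF.cd.differentiableOn (by norm_num)).differentiableAt (hopen.mem_nhds (hmem p))
    set c : ℝ := (1 / (1 + p.2 ^ 2)) / Real.pi with hc
    have hcne : c ≠ 0 := by
      have : (0:ℝ) < 1 + p.2 ^ 2 := by positivity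
      have := Real.pi_pos
      positivity
    have hKd : HasFDerivAt (fun p : ℝ × ℝ => (p.1, kap p.2))
        ((ContinuousLinearMap.fst ℝ ℝ ℝ).prod (c • ContinuousLinearMap.snd ℝ ℝ ℝ)) p := by
      apply HasFDerivAt.prodMk
      · exact hasFDerivAt_fst
      · have := (hasDerivAt_kap p.2).comp_hasFDerivAt p (hasFDerivAt_snd (𝕜 := ℝ) (p := p))
        exact this
    have hcomp := hd.hasFDerivAt.comp p hKd
    have hfd : fderiv ℝ (fun p : ℝ × ℝ => Φ (p.1, kap p.2)) p = _ := hcomp.fderiv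
    rw [hfd]
    rw [det_comp']
    refine mul_ne_zero (hF.det _ (hmem p)) ?_
    apply det_ne_zero_of_comp_eq_id
      (A := (ContinuousLinearMap.fst ℝ ℝ ℝ).prod (c⁻¹ • ContinuousLinearMap.snd ℝ ℝ ℝ))
    ext <;> simp [hcne]
  · intro p
    exact hF.bij.mapsTo (hmem p)
  · intro p q hpq
    have := hF.bij.injOn (hmem p) (hmem q) hpq
    simp only [Prod.mk.injEq] at this
    exact Prod.ext this.1 (kap_inj this.2)
  · intro q hq
    obtain ⟨⟨s, c⟩, hp, hpq⟩ := hF.bij.surjOn hq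
    obtain ⟨b, hb⟩ := kap_surj hp.2
    exact ⟨(s, b), by simpa [hb] using hpq⟩
  · intro s a
    exact hF.per s _ (kap_mem a)
  · intro s a
    have hs : Φ (s, kap a) ∈ Sig l := hF.bij.mapsTo (hmem (s, a))
    have hn := h.nx_mem hs
    exact hF.inv s (kap a) (kap_mem a) _ hn.1 hn.2 (h.nx_eq hs)

end reparam

section
variable {l : ℝ} {L L1 L2 L11 L12 L22 : ℝ × ℝ → ℝ} {Φ : ℝ × ℝ → ℝ × ℝ}

namespace Fol

/-- inverse of the foliation chart -/
noncomputable def inv' (Φ : ℝ × ℝ → ℝ × ℝ) : ℝ × ℝ → ℝ × ℝ := Function.invFun Φ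

section
variable (hF : Fol l L1 L2 Φ)
include hF

lemma inv'_left (p : ℝ × ℝ) : inv' Φ (Φ p) = p := Function.leftInverse_invFun hF.inj p

lemma inv'_right {q : ℝ × ℝ} (hq : q ∈ Sig l) : Φ (inv' Φ q) = q :=
  Function.invFun_eq (hF.surj q hq)

lemma contAt_inv' {q : ℝ × ℝ} (hq : q ∈ Sig l) : ContinuousAt (inv' Φ) q := by
  obtain ⟨p, rfl⟩ := hF.surj q hq
  have hs : HasStrictFDerivAt Φ (fderiv ℝ Φ p) p :=
    hF.cd.contDiffAt.hasStrictFDerivAt (by norm_num)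
  set e := ContinuousLinearMap.toContinuousLinearEquivOfDetNeZero (fderiv ℝ Φ p) (hF.det p) with he
  have hs' : HasStrictFDerivAt Φ (e : (ℝ × ℝ) →L[ℝ] (ℝ × ℝ)) p := by
    rw [he, ContinuousLinearMap.coe_toContinuousLinearEquivOfDetNeZero]
    exact hs
  have hmap := hs'.map_nhds_eq_of_equiv
  rw [ContinuousAt, hF.inv'_left, ← hmap, Filter.tendsto_map'_iff]
  have : inv' Φ ∘ Φ = id := by
    ext x <;> simp [hF.inv'_left]
  rw [this]
  exact tendsto_id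

lemma contOn_inv' : ContinuousOn (inv' Φ) (Sig l) :=
  fun _ hq => (hF.contAt_inv' hq).continuousWithinAt

lemma inv'_shift {q : ℝ × ℝ} (hq : q ∈ Sig l) : inv' Φ (q + (l, l)) = inv' Φ q + (1, 0) := by
  obtain ⟨⟨s, a⟩, rfl⟩ := hF.surj q hq
  rw [← hF.per, hF.inv'_left, hF.inv'_left]
  simp

lemma cont : Continuous Φ := hF.cd.continuous

lemma exists_core (a1 a2 : ℝ) : ∃ δ > 0, ∀ s, ∀ a ∈ Icc a1 a2, Φ (s, a) ∈ Core l δ := by
  by_cases ha : a1 ≤ a2
  swap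
  · exact ⟨1, one_pos, fun s a h => absurd (h.1.trans h.2) ha⟩
  have hc : IsCompact (Icc (0:ℝ) 1 ×ˢ Icc a1 a2) := isCompact_Icc.prod isCompact_Icc
  have hne : (Icc (0:ℝ) 1 ×ˢ Icc a1 a2).Nonempty := ⟨(0, a1), ⟨by simp, by simp [ha]⟩⟩
  have hcont : Continuous fun p : ℝ × ℝ =>
      min ((Φ p).2 - (Φ p).1) (l - ((Φ p).2 - (Φ p).1)) := by
    have := hF.cont
    fun_prop
  obtain ⟨p0, hp0, hmin⟩ := hc.exists_isMinOn hne hcont.continuousOn
  refine ⟨min ((Φ p0).2 - (Φ p0).1) (l - ((Φ p0).2 - (Φ p0).1)), ?_, ?_⟩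
  · have := hF.maps p0
    apply lt_min
    · linarith [this.1]
    · linarith [this.2]
  · intro s a ha
    have hper : Function.Periodic (fun s : ℝ => (Φ (s, a)).2 - (Φ (s, a)).1) 1 := by
      intro s
      simp [hF.per s a]
    obtain ⟨s', hs', he⟩ := hper.exists_mem_Ico₀ one_pos s
    have hm : (s', a) ∈ Icc (0:ℝ) 1 ×ˢ Icc a1 a2 := ⟨⟨hs'.1, hs'.2.le⟩, ha⟩
    have := hmin hm
    simp only [mem_ofPred_eq] at this
    constructor
    · rw [he]
      exact this.trans (min_le_left _ _)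
    · rw [he]
      have := this.trans (min_le_right _ _)
      linarith

end

/-- leaf map -/
noncomputable def sg (l : ℝ) (L1 L2 : ℝ × ℝ → ℝ) (Φ : ℝ × ℝ → ℝ × ℝ) (s a : ℝ) : ℝ :=
  (inv' Φ (TT l L1 L2 (Φ (s, a)))).1

variable (h : TwistGen l L L1 L2 L11 L12 L22) (hF : Fol l L1 L2 Φ)
include hF

lemma sg_spec (s a : ℝ) : Φ (sg l L1 L2 Φ s a, a) = TT l L1 L2 (Φ (s, a)) := by
  obtain ⟨s', hs'⟩ := hF.inv s a
  rw [sg, ← hs', hF.inv'_left]

lemma inv'_T {q : ℝ × ℝ} (hq : q ∈ Sig l) :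
    inv' Φ (TT l L1 L2 q) = (sg l L1 L2 Φ (inv' Φ q).1 (inv' Φ q).2, (inv' Φ q).2) := by
  have h1 := hF.sg_spec (inv' Φ q).1 (inv' Φ q).2
  rw [Prod.mk.eta, hF.inv'_right hq] at h1
  rw [← h1, hF.inv'_left]

include h

lemma cont_sg : Continuous fun p : ℝ × ℝ => sg l L1 L2 Φ p.1 p.2 := by
  unfold sg
  rw [continuous_iff_continuousAt]
  intro p
  apply continuousAt_fst.comp
  have h1 : TT l L1 L2 (Φ (p.1, p.2)) ∈ Sig l := h.T_mem (hF.maps _)
  have h2 : ContinuousAt (TT l L1 L2) (Φ (p.1, p.2)) := h.contAt_T (hF.maps _)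
  have h3 : ContinuousAt (fun p : ℝ × ℝ => Φ (p.1, p.2)) p := by
    have := hF.cont
    fun_prop
  exact ContinuousAt.comp (hF.contAt_inv' h1) (ContinuousAt.comp h2 h3)

lemma sg_inj (a : ℝ) : Function.Injective fun s => sg l L1 L2 Φ s a := by
  intro s t hst
  simp only at hst
  have h1 := hF.sg_spec s a
  have h2 := hF.sg_spec t a
  rw [hst, h2] at h1
  have := h.T_inj (hF.maps _) (hF.maps _) h1
  have := hF.inj this
  simpa using this.symm

lemma sg_add_one (s a : ℝ) : sg l L1 L2 Φ (s + 1) a = sg l L1 L2 Φ s a + 1 := by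
  have h1 := hF.sg_spec (s + 1) a
  rw [hF.per, h.T_shift (hF.maps _), ← hF.sg_spec, ← hF.per] at h1
  have := hF.inj h1
  simpa using this

lemma sg_mono (a : ℝ) : StrictMono fun s => sg l L1 L2 Φ s a := by
  have hc : Continuous fun s => sg l L1 L2 Φ s a :=
    (hF.cont_sg h).comp (continuous_id.prodMk continuous_const)
  rcases hc.strictMono_of_inj (hF.sg_inj h a) with hm | hm
  · exact hm
  · exfalso
    have := hm (show (0:ℝ) < 0 + 1 by norm_num)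
    simp only at this
    rw [hF.sg_add_one h] at this
    linarith

lemma sg_surj (s a : ℝ) : ∃ t, sg l L1 L2 Φ t a = s := by
  obtain ⟨q, hq, hTq⟩ := h.T_surj (hF.maps (s, a))
  obtain ⟨⟨t, b⟩, rfl⟩ := hF.surj q hq
  rw [← hF.sg_spec] at hTq
  have := hF.inj hTq
  simp only [Prod.mk.injEq] at this
  obtain ⟨h1, rfl⟩ := this
  exact ⟨t, h1⟩

end Fol
end

end MPd2f538
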