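import Pool.Agent.Lib.MP_d2f538_an.LeafMono
import Pool.Agent.Lib.MP_d2f538_an.Calib

/-!
# Foliations by increasing graphs
-/

open Set Filter Topology MeasureTheory

namespace MPd2f538

/-- A continuous foliation of the strip by invariant increasing graphs. -/
structure GFol (l : ℝ) (L1 L2 : ℝ × ℝ → ℝ) (Φ : ℝ × ℝ → ℝ × ℝ) : Prop where
  cont : Continuous Φ
  maps : ∀ p, Φ p ∈ Sig l
  inj : Function.Injective Φ
  surj : ∀ q ∈ Sig l, ∃ p, Φ p = q
  cinv : ContinuousOn (Fol.inv' Φ) (Sig l)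
  per : ∀ s a, Φ (s + 1, a) = Φ (s, a) + (l, l)
  inv : ∀ s a, ∃ s', Φ (s', a) = TT l L1 L2 (Φ (s, a))
  sX : ∀ a, StrictMono fun s => (Φ (s, a)).1
  sY : ∀ a, StrictMono fun s => (Φ (s, a)).2

lemma GFol.of_Fol {l : ℝ} {L L1 L2 L11 L12 L22 : ℝ × ℝ → ℝ} {Φ : ℝ × ℝ → ℝ × ℝ}
    (h : TwistGen l L L1 L2 L11 L12 L22) (hF : Fol l L1 L2 Φ) : GFol l L1 L2 Φ where
  cont := hF.cont
  maps := hF.maps
  inj := hF.inj
  surj := hF.surj
  cinv := hF.contOn_inv'
  per := hF.per
  inv := hF.inv
  sX := hF.strictMono_X h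
  sY := hF.strictMono_Y h

/-- joint continuity from separate continuity and monotonicity -/
lemma continuous_of_mono_sep {f : ℝ → ℝ → ℝ} (hx : ∀ a, Continuous fun x => f x a)
    (ha : ∀ x, Continuous fun a => f x a) (hm : ∀ x, Monotone fun a => f x a) :
    Continuous fun p : ℝ × ℝ => f p.1 p.2 := by
  rw [continuous_iff_continuousAt]
  rintro ⟨x0, a0⟩
  rw [ContinuousAt]
  simp only
  apply tendsto_order.2
  constructor
  · intro c hc
    have h1 : ∀ᶠ a in 𝓝 a0, c < f x0 a := (ha x0).continuousAt.eventually_const_lt hc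
    have h1' : ∀ᶠ a in 𝓝[<] a0, c < f x0 a ∧ a < a0 :=
      (h1.filter_mono nhdsWithin_le_nhds).and self_mem_nhdsWithin
    obtain ⟨a1, ha1, ha1'⟩ := h1'.exists
    have h2 : ∀ᶠ x in 𝓝 x0, c < f x a1 := (hx a1).continuousAt.eventually_const_lt ha1
    have h3 : ∀ᶠ a in 𝓝 a0, a1 < a := Ioi_mem_nhds ha1'
    rw [nhds_prod_eq]
    filter_upwards [h2.prod_inl (𝓝 a0), h3.prod_inr (𝓝 x0)] with p hp1 hp2
    exact hp1.trans_le (hm p.1 hp2.le)
  · intro c hc
    have h1 : ∀ᶠ a in 𝓝 a0, f x0 a < c := (ha x0).continuousAt.eventually_lt_const hc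
    have h1' : ∀ᶠ a in 𝓝[>] a0, f x0 a < c ∧ a0 < a :=
      (h1.filter_mono nhdsWithin_le_nhds).and self_mem_nhdsWithin
    obtain ⟨a1, ha1, ha1'⟩ := h1'.exists
    have h2 : ∀ᶠ x in 𝓝 x0, f x a1 < c := (hx a1).continuousAt.eventually_lt_const ha1
    have h3 : ∀ᶠ a in 𝓝 a0, a < a1 := Iio_mem_nhds ha1'
    rw [nhds_prod_eq]
    filter_upwards [h2.prod_inl (𝓝 a0), h3.prod_inr (𝓝 x0)] with p hp1 hp2
    exact (hm p.1 hp2.le).trans_lt hp1

/-- a strictly increasing function onto an open interval is continuous -/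
lemma continuous_of_strictMono_Ioo {f : ℝ → ℝ} (hf : StrictMono f) {u v : ℝ}
    (hm : ∀ a, f a ∈ Ioo u v) (hs : ∀ y ∈ Ioo u v, ∃ a, f a = y) : Continuous f := by
  rw [continuous_iff_continuousAt]
  intro a0
  apply tendsto_order.2
  constructor
  · intro c hc
    obtain ⟨y, hy1, hy2⟩ := exists_between (max_lt hc (hm a0).1)
    obtain ⟨a1, ha1⟩ := hs y ⟨(le_max_right _ _).trans_lt hy1, hy2.trans (hm a0).2⟩
    have h1 : a1 < a0 := by rw [← hf.lt_iff_lt, ha1]; exact hy2
    filter_upwards [Ioi_mem_nhds h1] with a ha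
    have := hf (mem_Ioi.1 ha)
    rw [ha1] at this
    exact ((le_max_left _ _).trans_lt hy1).trans this
  · intro c hc
    obtain ⟨y, hy1, hy2⟩ := exists_between (lt_min hc (hm a0).2)
    obtain ⟨a1, ha1⟩ := hs y ⟨(hm a0).1.trans hy1, hy2.trans_le (min_le_right _ _)⟩
    have h1 : a0 < a1 := by rw [← hf.lt_iff_lt, ha1]; exact hy1
    filter_upwards [Iio_mem_nhds h1] with a ha
    have := hf (mem_Iio.1 ha)
    rw [ha1] at this
    exact this.trans (hy2.trans_le (min_le_left _ _))

/-- continuity of the root of a jointly continuous, strictly increasing family -/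
lemma continuousAt_root {P : Type*} [TopologicalSpace P] {p0 : P} {F : P → ℝ → ℝ}
    {r : P → ℝ} (hF : ∀ a, ContinuousAt (fun p => F p a) p0)
    (hm : ∀ᶠ p in 𝓝 p0, StrictMono (F p)) (hr : ∀ᶠ p in 𝓝 p0, F p (r p) = 0)
    (hm0 : StrictMono (F p0)) (hr0 : F p0 (r p0) = 0) : ContinuousAt r p0 := by
  apply tendsto_order.2
  constructor
  · intro c hc
    have h1 : F p0 c < 0 := by rw [← hr0]; exact hm0 hc
    filter_upwards [(hF c).eventually_lt_const h1, hm, hr] with p h2 h3 h4
    rw [← h3.lt_iff_lt, h4]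
    exact h2
  · intro c hc
    have h1 : 0 < F p0 c := by rw [← hr0]; exact hm0 hc
    filter_upwards [(hF c).eventually_const_lt h1, hm, hr] with p h2 h3 h4
    rw [← h3.lt_iff_lt, h4]
    exact h2

/-- continuous strictly increasing maps commuting with shifts are onto -/
lemma surj_of_shift {f : ℝ → ℝ} {l : ℝ} (hl : 0 < l) (hf : Continuous f)
    (hp : ∀ s, f (s + 1) = f s + l) (x : ℝ) : ∃ s, f s = x := by
  have hint : ∀ (s : ℝ) (n : ℤ), f (s + n) = f s + n * l := by
    intro s n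
    induction n using Int.induction_on with
    | zero => simp
    | succ n ih =>
      have := hp (s + n)
      push_cast at ih ⊢
      rw [← add_assoc, this, ih]
      ring
    | pred n ih =>
      have := hp (s + (-n - 1))
      rw [show s + (-(n:ℝ) - 1) + 1 = s + -(n:ℝ) by ring] at this
      push_cast at ih ⊢
      rw [this] at ih
      linarith
  obtain ⟨k, ⟨hk1, hk2⟩, -⟩ := existsUnique_zsmul_near_of_pos hl (x - f 0)
  have e1 := hint 0 k
  have e2 := hint 0 (k + 1)
  rw [zsmul_eq_mul] at hk1 hk2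
  have hle : (0:ℝ) + (k:ℝ) ≤ 0 + ((k + 1 : ℤ) : ℝ) := by push_cast; linarith
  obtain ⟨s, -, hs⟩ := intermediate_value_Icc hle hf.continuousOn
    (show x ∈ Icc _ _ from ⟨by rw [e1]; linarith, by rw [e2]; linarith⟩)
  exact ⟨s, hs⟩

section
variable {l : ℝ} {L L1 L2 L11 L12 L22 : ℝ × ℝ → ℝ} {leaves : Set (Set (ℝ × ℝ))}
  (hT : TwistGen l L L1 L2 L11 L12 L22) (h : IsRotationalFoliation l L1 L2 leaves)
  {B : ℝ} (hB : ∀ p ∈ Sig l, |L2 p| ≤ B)
include hT h hB

/-- Each leaf is the graph of a continuous increasing function. -/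
lemma leaf_graph {C : Set (ℝ × ℝ)} (hC : C ∈ leaves) :
    ∃ τ : ℝ → ℝ, Continuous τ ∧ StrictMono τ ∧ (∀ x, τ (x + l) = τ x + l) ∧
      ∀ p, p ∈ C ↔ p.2 = τ p.1 := by
  obtain ⟨c, h1, h2, h3, h4⟩ := h.rotational C hC
  have hc : Rot l c := ⟨h1, h2, h3⟩
  obtain ⟨sX, sY⟩ := leaf_strictMono hT h hB hc (by rw [h4]; exact hC)
  have hXc : Continuous fun s => (c s).1 := by fun_prop
  have hYc : Continuous fun s => (c s).2 := by fun_prop
  have hXs : ∀ x, ∃ s, (c s).1 = x := surj_of_shift hT.lpos hXc (fun s => by simp [h3])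
  choose ξ hξ using hXs
  have hξX : ∀ s, ξ (c s).1 = s := fun s => sX.injective (hξ _)
  have hξm : StrictMono ξ := by
    intro x y hxy
    rw [← sX.lt_iff_lt]
    simp only [hξ]
    exact hxy
  have hξc : Continuous ξ := by
    rw [continuous_iff_continuousAt]
    intro x0
    apply continuousAt_root (F := fun x s => (c s).1 - x)
    · intro a
      fun_prop
    · exact Eventually.of_forall fun x s t hst => by
        have := sX hst
        simp only at this ⊢
        linarith
    · exact Eventually.of_forall fun x => by simp [hξ]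
    · intro s t hst
      have := sX hst
      simp only at this ⊢
      linarith
    · simp [hξ]
  refine ⟨fun x => (c (ξ x)).2, hYc.comp hξc, sY.comp hξm, ?_, ?_⟩
  · intro x
    have : ξ (x + l) = ξ x + 1 := by
      apply sX.injective
      simp only [hξ, h3, Prod.fst_add]
    simp only [this, h3, Prod.snd_add]
  · intro p
    rw [← h4]
    constructor
    · rintro ⟨s, rfl⟩
      show (c s).2 = (c (ξ (c s).1)).2
      rw [hξX]
    · intro hp
      refine ⟨ξ p.1, ?_⟩
      ext
      · exact hξ _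
      · exact hp.symm

/-- The graph function of the leaf through a point. -/
lemma exists_tau : ∃ τ : ℝ × ℝ → ℝ → ℝ, ∀ p ∈ Sig l, Continuous (τ p) ∧ StrictMono (τ p) ∧
    (∀ x, τ p (x + l) = τ p x + l) ∧ {q : ℝ × ℝ | q.2 = τ p q.1} ∈ leaves ∧ p.2 = τ p p.1 := by
  classical
  have key : ∀ p : Sig l, ∃ τ : ℝ → ℝ, Continuous τ ∧ StrictMono τ ∧ (∀ x, τ (x + l) = τ x + l) ∧
      {q : ℝ × ℝ | q.2 = τ q.1} ∈ leaves ∧ (p : ℝ × ℝ).2 = τ (p : ℝ × ℝ).1 := by
    intro p
    obtain ⟨C, ⟨hC, hpC⟩, -⟩ := h.partition p p.2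
    obtain ⟨τ, t1, t2, t3, t4⟩ := leaf_graph hT h hB hC
    refine ⟨τ, t1, t2, t3, ?_, (t4 _).1 hpC⟩
    have : {q : ℝ × ℝ | q.2 = τ q.1} = C := by
      ext q
      exact (t4 q).symm
    rw [this]
    exact hC
  choose τ hτ using key
  refine ⟨fun p => if hp : p ∈ Sig l then τ ⟨p, hp⟩ else id, ?_⟩
  intro p hp
  simp only [dif_pos hp]
  exact hτ ⟨p, hp⟩

lemma exists_GFol : ∃ Φ, GFol l L1 L2 Φ := by
  have hl := hT.lpos
  obtain ⟨τ, hτ⟩ := exists_tau hT h hB
  have tc := fun p hp => (hτ p hp).1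
  have tm := fun p hp => (hτ p hp).2.1
  have tp := fun p hp => (hτ p hp).2.2.1
  have tl := fun p hp => (hτ p hp).2.2.2.1
  have tv := fun p hp => (hτ p hp).2.2.2.2
  -- two leaves which meet coincide
  have teq : ∀ p ∈ Sig l, ∀ q ∈ Sig l, ∀ x, τ p x = τ q x → τ p = τ q := by
    intro p hp q hq x hx
    have hxS : (x, τ p x) ∈ Sig l := h.subset _ (tl p hp) (show (x, τ p x).2 = τ p (x, τ p x).1 from rfl)
    have := (h.partition _ hxS).unique ⟨tl p hp, show (x, τ p x).2 = τ p (x, τ p x).1 from rfl⟩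
      ⟨tl q hq, show (x, τ p x).2 = τ q (x, τ p x).1 from hx⟩
    funext y
    have hy : ((y, τ p y) : ℝ × ℝ) ∈ {q' : ℝ × ℝ | q'.2 = τ p q'.1} := rfl
    rw [this] at hy
    exact hy
  have tS : ∀ p ∈ Sig l, ∀ x, (x, τ p x) ∈ Sig l := by
    intro p hp x
    exact h.subset _ (tl p hp) (show (x, τ p x).2 = τ p (x, τ p x).1 from rfl)
  -- ordering
  have tord : ∀ p ∈ Sig l, ∀ q ∈ Sig l, ∀ x y, τ p x < τ q x → τ p y < τ q y := by
    intro p hp q hq x y hxy
    by_contra hcon
    push Not at hcon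
    have hc : Continuous fun z => τ q z - τ p z := (tc q hq).sub (tc p hp)
    have hoc : (range fun z => τ q z - τ p z).OrdConnected := (isPreconnected_range hc).ordConnected
    obtain ⟨z, hz⟩ := hoc.out (mem_range_self y) (mem_range_self x)
      (show (0:ℝ) ∈ Icc _ _ from ⟨by linarith, by linarith⟩)
    simp only at hz
    have := teq p hp q hq z (by linarith)
    rw [this] at hxy
    exact lt_irrefl _ hxy
  -- base points
  have hb : ∀ a : ℝ, ((0:ℝ), l * kap a) ∈ Sig l := by
    intro a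
    have := kap_mem a
    constructor
    · simp only; exact mul_pos hl this.1
    · simp only; nlinarith [this.2]
  set f : ℝ → ℝ → ℝ := fun x a => τ (0, l * kap a) x with hf
  have hkm : StrictMono kap := by
    have h1 : Monotone kap := by
      intro a b hab
      unfold kap
      have := Real.arctan_strictMono.monotone hab
      have := Real.pi_pos
      gcongr
    exact h1.strictMono_of_injective kap_inj
  have hfm : ∀ x, StrictMono fun a => f x a := by
    intro x a b hab
    apply tord _ (hb a) _ (hb b) 0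
    rw [← tv _ (hb a), ← tv _ (hb b)]
    exact mul_lt_mul_of_pos_left (hkm hab) hl
  have hfS : ∀ x a, (x, f x a) ∈ Sig l := fun x a => tS _ (hb a) x
  have hfs : ∀ q ∈ Sig l, ∃ a, τ (0, l * kap a) = τ q := by
    intro q hq
    have h0 := tS q hq 0
    have hk : τ q 0 / l ∈ Ioo (0:ℝ) 1 := by
      constructor
      · exact div_pos h0.1 hl
      · rw [div_lt_one hl]
        have := h0.2
        simp only at this
        linarith
    obtain ⟨a, ha⟩ := kap_surj hk
    refine ⟨a, ?_⟩
    apply teq _ (hb a) _ hq 0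
    rw [← tv _ (hb a)]
    simp only [ha]
    field_simp
  have hfa : ∀ x, Continuous fun a => f x a := by
    intro x
    apply continuous_of_strictMono_Ioo (hfm x) (u := x) (v := x + l)
    · intro a
      exact hfS x a
    · intro y hy
      obtain ⟨a, ha⟩ := hfs (x, y) hy
      refine ⟨a, ?_⟩
      simp only [hf, ha]
      exact (tv (x, y) hy).symm
  have hfc : Continuous fun p : ℝ × ℝ => f p.1 p.2 :=
    continuous_of_mono_sep (fun a => tc _ (hb a)) hfa (fun x => (hfm x).monotone)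
  set Φ : ℝ × ℝ → ℝ × ℝ := fun p => (p.1 * l, f (p.1 * l) p.2) with hΦ
  have hΦc : Continuous Φ := by
    apply Continuous.prodMk (by fun_prop)
    exact hfc.comp (by fun_prop : Continuous fun p : ℝ × ℝ => ((p.1 * l, p.2) : ℝ × ℝ))
  have hΦm : ∀ p, Φ p ∈ Sig l := fun p => hfS _ _
  have hΦi : Function.Injective Φ := by
    rintro ⟨s, a⟩ ⟨s', a'⟩ he
    simp only [hΦ, Prod.mk.injEq] at he
    obtain ⟨h1, h2⟩ := he
    have hs : s = s' := mul_right_cancel₀ hl.ne' h1
    subst hs
    rw [(hfm (s * l)).injective h2]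
  have hΦs : ∀ q ∈ Sig l, ∃ p, Φ p = q := by
    intro q hq
    obtain ⟨a, ha⟩ := hfs q hq
    refine ⟨(q.1 / l, a), ?_⟩
    simp only [hΦ, hf, ha]
    rw [div_mul_cancel₀ _ hl.ne', ← tv q hq]
  have hinvL : ∀ p, Fol.inv' Φ (Φ p) = p := Function.leftInverse_invFun hΦi
  have hinvR : ∀ q ∈ Sig l, Φ (Fol.inv' Φ q) = q := fun q hq => Function.invFun_eq (hΦs q hq)
  refine ⟨Φ, hΦc, hΦm, hΦi, hΦs, ?_, ?_, ?_, ?_, ?_⟩
  · -- continuity of the inverse
    intro q hq
    apply ContinuousAt.continuousWithinAt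
    have hSn := (isOpen_Sig l).mem_nhds hq
    have e1 : ∀ q ∈ Sig l, (Fol.inv' Φ q).1 = q.1 / l := by
      intro q hq
      have : (Fol.inv' Φ q).1 * l = q.1 := congrArg Prod.fst (hinvR q hq)
      rw [← this]
      field_simp
    have e2 : ∀ q ∈ Sig l, f q.1 (Fol.inv' Φ q).2 = q.2 := by
      intro q hq
      have this : f ((Fol.inv' Φ q).1 * l) (Fol.inv' Φ q).2 = q.2 :=
        congrArg Prod.snd (hinvR q hq)
      have h2 : (Fol.inv' Φ q).1 * l = q.1 := congrArg Prod.fst (hinvR q hq)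
      rw [← h2]
      exact this
    have c1 : ContinuousAt (fun q => (Fol.inv' Φ q).1) q := by
      have : (fun q : ℝ × ℝ => q.1 / l) =ᶠ[𝓝 q] fun q => (Fol.inv' Φ q).1 := by
        filter_upwards [hSn] with z hz
        exact (e1 z hz).symm
      exact ContinuousAt.congr (by fun_prop) this
    have c2 : ContinuousAt (fun q => (Fol.inv' Φ q).2) q := by
      apply continuousAt_root (F := fun (q : ℝ × ℝ) a => f q.1 a - q.2)
      · intro a
        have : Continuous fun q : ℝ × ℝ => f q.1 a - q.2 := by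
          have h1 : Continuous fun x => f x a := tc _ (hb a)
          fun_prop
        exact this.continuousAt
      · exact Eventually.of_forall fun z a b hab => by
          have := hfm z.1 hab
          simp only at this ⊢
          linarith
      · filter_upwards [hSn] with z hz
        rw [e2 z hz, sub_self]
      · intro a b hab
        have := hfm q.1 hab
        simp only at this ⊢
        linarith
      · rw [e2 q hq, sub_self]
    exact c1.prodMk c2
  · intro s a
    simp only [hΦ]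
    ext
    · simp only [Prod.fst_add]; ring
    · simp only [Prod.snd_add, hf]
      rw [show (s + 1) * l = s * l + l by ring, tp _ (hb a)]
  · intro s a
    have hs := hΦm (s, a)
    have hn := hT.nx_mem hs
    have hmem := h.inv _ (tl _ (hb a)) (Φ (s, a)) rfl _ hn (hT.nx_eq hs)
    refine ⟨(Φ (s, a)).2 / l, ?_⟩
    have h2 : nx l L1 L2 (Φ (s, a)) = τ (0, l * kap a) (Φ (s, a)).2 := hmem
    simp only [TT]
    rw [h2]
    simp only [hΦ, hf]
    rw [div_mul_cancel₀ _ hl.ne']
  · intro a s t hst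
    simp only [hΦ]
    exact mul_lt_mul_of_pos_right hst hl
  · intro a s t hst
    simp only [hΦ]
    exact tm _ (hb a) (mul_lt_mul_of_pos_right hst hl)

end

end MPd2f538
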