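import Pool.Agent.Lib.MP_d2f538_an.GFol
import Pool.Agent.Lib.MP_d2f538_an.Hopf

/-!
# The Hopf inequality for continuous foliations by increasing graphs
-/

open Set Filter Topology MeasureTheory

namespace MPd2f538

/-- envelope lemma: a maximum over the second variable, attained along a continuous curve of
critical points, is differentiable with zero derivative -/
lemma hasDerivAt_env {v τ : ℝ → ℝ} {H K : ℝ × ℝ → ℝ} {U : Set (ℝ × ℝ)} (hU : IsOpen U)
    (hτ : Continuous τ) (hd : ∀ p ∈ U, HasDerivAt (fun x => H (x, p.2)) (K p) p.1)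
    (hK : ContinuousOn K U) (hK0 : ∀ x, K (x, τ x) = 0) (hτU : ∀ x, (x, τ x) ∈ U)
    (hv : ∀ x, v x = H (x, τ x)) (hmax : ∀ p ∈ U, H p ≤ v p.1) (x0 : ℝ) :
    HasDerivAt v 0 x0 := by
  rw [hasDerivAt_iff_isLittleO, Asymptotics.isLittleO_iff]
  intro c hc
  have hp0 := hτU x0
  have hKc : ContinuousAt K (x0, τ x0) := hK.continuousAt (hU.mem_nhds hp0)
  have hN : {p | p ∈ U ∧ |K p| < c} ∈ 𝓝 (x0, τ x0) := by
    have h1 : ∀ᶠ p in 𝓝 (x0, τ x0), |K p| < c :=
      hKc.abs.eventually_lt_const (by simp only [hK0, abs_zero]; exact hc)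
    filter_upwards [h1, hU.mem_nhds hp0] with p hp1 hp2
    exact ⟨hp2, hp1⟩
  obtain ⟨r, hr, hball⟩ := Metric.mem_nhds_iff.1 hN
  have hτ0 : ∀ᶠ x in 𝓝 x0, τ x ∈ Metric.ball (τ x0) r :=
    hτ.continuousAt (Metric.ball_mem_nhds _ hr)
  have key : ∀ y ∈ Metric.ball (τ x0) r, ∀ x ∈ Metric.ball x0 r,
      ‖H (x, y) - H (x0, y)‖ ≤ c * ‖x - x0‖ := by
    intro y hy x hx
    have hin : ∀ z ∈ Metric.ball x0 r, (z, y) ∈ {p | p ∈ U ∧ |K p| < c} := by
      intro z hz
      apply hball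
      rw [← ball_prod_same]
      exact ⟨hz, hy⟩
    exact (convex_ball x0 r).norm_image_sub_le_of_norm_hasDerivWithin_le
      (f := fun z => H (z, y)) (f' := fun z => K (z, y))
      (fun z hz => (hd (z, y) (hin z hz).1).hasDerivWithinAt)
      (fun z hz => (hin z hz).2.le) (Metric.mem_ball_self hr) hx
  filter_upwards [hτ0, Metric.ball_mem_nhds x0 hr] with x h1 h2
  have k1 := key (τ x) h1 x h2
  have k2 := key (τ x0) (Metric.mem_ball_self hr) x h2
  have hin : ∀ y ∈ Metric.ball (τ x0) r, ∀ z ∈ Metric.ball x0 r, (z, y) ∈ U := by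
    intro y hy z hz
    have : (z, y) ∈ {p | p ∈ U ∧ |K p| < c} := by
      apply hball
      rw [← ball_prod_same]
      exact ⟨hz, hy⟩
    exact this.1
  have m1 := hmax (x0, τ x) (hin _ h1 _ (Metric.mem_ball_self hr))
  have m2 := hmax (x, τ x0) (hin _ (Metric.mem_ball_self hr) _ h2)
  simp only at m1 m2
  rw [Real.norm_eq_abs, abs_le] at k1 k2
  rw [smul_zero, sub_zero, Real.norm_eq_abs (v x - v x0), abs_le]
  have e0 := hv x0
  have e1 := hv x
  constructor
  · linarith [k2.1]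
  · linarith [k1.2]

section
variable {l : ℝ} {L L1 L2 L11 L12 L22 : ℝ × ℝ → ℝ} {Φ : ℝ × ℝ → ℝ × ℝ}

lemma TwistGen.hasDerivAt_L_fst (h : TwistGen l L L1 L2 L11 L12 L22) {x y : ℝ}
    (hp : (x, y) ∈ Sig l) : HasDerivAt (fun x => L (x, y)) (L1 (x, y)) x := by
  have h1 := h.dL _ hp
  have h2 : HasDerivAt (fun x : ℝ => ((x, y) : ℝ × ℝ)) (1, 0) x :=
    (hasDerivAt_id x).prodMk (hasDerivAt_const x y)
  have := h1.comp_hasDerivAt x h2
  simpa [Function.comp_def] using this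

namespace GFol
open Fol (inv' sg)

section
variable (hF : GFol l L1 L2 Φ)
include hF

lemma inv'_left (p : ℝ × ℝ) : inv' Φ (Φ p) = p := Function.leftInverse_invFun hF.inj p

lemma inv'_right {q : ℝ × ℝ} (hq : q ∈ Sig l) : Φ (inv' Φ q) = q :=
  Function.invFun_eq (hF.surj q hq)

lemma inv'_shift {q : ℝ × ℝ} (hq : q ∈ Sig l) : inv' Φ (q + (l, l)) = inv' Φ q + (1, 0) := by
  obtain ⟨⟨s, a⟩, rfl⟩ := hF.surj q hq
  rw [← hF.per, hF.inv'_left, hF.inv'_left]
  simp

lemma exists_core (a1 a2 : ℝ) : ∃ δ > 0, ∀ s, ∀ a ∈ Icc a1 a2, Φ (s, a) ∈ Core l δ := by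
  by_cases ha : a1 ≤ a2
  swap
  · exact ⟨1, one_pos, fun s a h => absurd (h.1.trans h.2) ha⟩
  have hc : IsCompact (Icc (0:ℝ) 1 ×ˢ Icc a1 a2) := isCompact_Icc.prod isCompact_Icc
  have hne : (Icc (0:ℝ) 1 ×ˢ Icc a1 a2).Nonempty := ⟨(0, a1), ⟨by simp, by simp [ha]⟩⟩
  have hcont : Continuous fun p : ℝ × ℝ =>
      min ((Φ p).2 - (Φ p).1) (l - ((Φ p).2 - (Φ p).1)) := by
    have := hF.cont
    fun_prop
  obtain ⟨p0, hp0, hmin⟩ := hc.exists_isMinOn hne hcont.continuousOn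
  refine ⟨min ((Φ p0).2 - (Φ p0).1) (l - ((Φ p0).2 - (Φ p0).1)), ?_, ?_⟩
  · have := hF.maps p0
    apply lt_min
    · linarith [this.1]
    · linarith [this.2]
  · intro s a ha
    have hper : Function.Periodic (fun s : ℝ => (Φ (s, a)).2 - (Φ (s, a)).1) 1 := by
      intro s
      simp [hF.per s a]
    obtain ⟨s', hs', he⟩ := hper.exists_mem_Ico₀ one_pos s
    have hm : (s', a) ∈ Icc (0:ℝ) 1 ×ˢ Icc a1 a2 := ⟨⟨hs'.1, hs'.2.le⟩, ha⟩
    have := hmin hm
    simp only [mem_ofPred_eq] at this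
    constructor
    · rw [he]
      exact this.trans (min_le_left _ _)
    · rw [he]
      have := this.trans (min_le_right _ _)
      linarith

end

variable (h : TwistGen l L L1 L2 L11 L12 L22) (hF : GFol l L1 L2 Φ)
include hF

lemma sg_spec (s a : ℝ) : Φ (sg l L1 L2 Φ s a, a) = TT l L1 L2 (Φ (s, a)) := by
  obtain ⟨s', hs'⟩ := hF.inv s a
  rw [sg, ← hs', hF.inv'_left]

lemma inv'_T {q : ℝ × ℝ} (hq : q ∈ Sig l) :
    inv' Φ (TT l L1 L2 q) = (sg l L1 L2 Φ (inv' Φ q).1 (inv' Φ q).2, (inv' Φ q).2) := by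
  have h1 := hF.sg_spec (inv' Φ q).1 (inv' Φ q).2
  rw [Prod.mk.eta, hF.inv'_right hq] at h1
  rw [← h1, hF.inv'_left]

/-- bounded leaf index implies core -/
lemma exists_core' (n : ℝ) : ∃ δ > 0, ∀ q ∈ Sig l, q ∉ Core l δ → bump n (inv' Φ q).2 = 0 := by
  obtain ⟨δ, hδ, hc⟩ := hF.exists_core (-n) n
  refine ⟨δ, hδ, ?_⟩
  intro q hq hqc
  apply bump_zero
  by_contra hcon
  push Not at hcon
  apply hqc
  have := hc (inv' Φ q).1 (inv' Φ q).2 ⟨(abs_lt.1 hcon).1.le, (abs_lt.1 hcon).2.le⟩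
  rwa [Prod.mk.eta, hF.inv'_right hq] at this

/-- core functions of the form `g * bump` -/
lemma isCore_bump {n δ : ℝ} (hδ : ∀ q ∈ Sig l, q ∉ Core l δ → bump n (inv' Φ q).2 = 0)
    {g : ℝ × ℝ → ℝ} (hg : ContinuousOn g (Sig l)) (hper : ∀ p ∈ Sig l, g (p + (l, l)) = g p) :
    IsCore l δ (fun p => g p * bump n (inv' Φ p).2) where
  cont := hg.mul ((cont_bump n).comp_continuousOn (continuous_snd.comp_continuousOn hF.cinv))
  per p hp := by rw [hper p hp, hF.inv'_shift hp]; simp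
  zero p hp hpc := by rw [hδ p hp hpc, mul_zero]

include h

/-- The transfer identity with a cut-off in the leaf index. -/
lemma transfer_bump {n δ : ℝ} (hδ0 : 0 < δ)
    (hδ : ∀ q ∈ Sig l, q ∉ Core l δ → bump n (inv' Φ q).2 = 0)
    {g : ℝ × ℝ → ℝ} (hg : ContinuousOn g (Sig l)) (hper : ∀ p ∈ Sig l, g (p + (l, l)) = g p) :
    II l (fun p => g (TT l L1 L2 p) * bump n (inv' Φ p).2 * L12 p) =
      II l (fun p => g p * bump n (inv' Φ p).2 * L12 p) := by
  have hc := hF.isCore_bump hδ hg hper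
  rw [← h.transfer hδ0 hc.cont hc.per]
  · apply II_congr h.lpos.le
    intro p hp
    simp only [hF.inv'_T hp]
  · intro p hp hpc
    simp only [hF.inv'_T hp, hδ p hp hpc, mul_zero]

lemma isCore_bump_T {n δ : ℝ} (hδ : ∀ q ∈ Sig l, q ∉ Core l δ → bump n (inv' Φ q).2 = 0)
    {g : ℝ × ℝ → ℝ} (hg : ContinuousOn g (Sig l)) (hper : ∀ p ∈ Sig l, g (p + (l, l)) = g p) :
    IsCore l δ (fun p => g (TT l L1 L2 p) * bump n (inv' Φ p).2) := by
  apply hF.isCore_bump hδ (g := fun p => g (TT l L1 L2 p))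
  · exact hg.comp h.contOn_T fun p hp => h.T_mem hp
  · intro p hp
    rw [h.T_shift hp, hper _ (h.T_mem hp)]

lemma sg_surj (s a : ℝ) : ∃ t, sg l L1 L2 Φ t a = s := by
  obtain ⟨q, hq, hTq⟩ := h.T_surj (hF.maps (s, a))
  obtain ⟨⟨t, b⟩, rfl⟩ := hF.surj q hq
  rw [← hF.sg_spec] at hTq
  have := hF.inj hTq
  simp only [Prod.mk.injEq] at this
  obtain ⟨h1, rfl⟩ := this
  exact ⟨t, h1⟩

omit h in
lemma X_add_int (s a : ℝ) (n : ℤ) : (Φ (s + n, a)).1 = (Φ (s, a)).1 + n * l := by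
  induction n using Int.induction_on with
  | zero => simp
  | succ n ih =>
    have := hF.per (s + n) a
    push_cast at ih ⊢
    rw [← add_assoc, this, Prod.fst_add, ih]
    ring
  | pred n ih =>
    have := hF.per (s + (-n - 1)) a
    rw [show s + (-(n:ℝ) - 1) + 1 = s + -(n:ℝ) by ring] at this
    push_cast at ih ⊢
    rw [this, Prod.fst_add] at ih
    linarith

lemma X_surj (x a : ℝ) : ∃ s, (Φ (s, a)).1 = x := by
  obtain ⟨k, ⟨hk1, hk2⟩, -⟩ := existsUnique_zsmul_near_of_pos h.lpos (x - (Φ (0, a)).1)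
  have hc : Continuous fun s : ℝ => (Φ (s, a)).1 := by have := hF.cont; fun_prop
  have e1 := hF.X_add_int 0 a k
  have e2 := hF.X_add_int 0 a (k + 1)
  rw [zsmul_eq_mul] at hk1 hk2
  have hle : (0:ℝ) + (k:ℝ) ≤ 0 + ((k + 1 : ℤ) : ℝ) := by push_cast; linarith
  obtain ⟨s, -, hs⟩ := intermediate_value_Icc hle hc.continuousOn
    (show x ∈ Icc _ _ from ⟨by simp only [e1]; linarith, by simp only [e2]; linarith⟩)
  exact ⟨s, hs⟩

lemma xi_spec (x a : ℝ) : (Φ (xi Φ x a, a)).1 = x :=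
  Function.invFun_eq (f := fun s => (Φ (s, a)).1) (hF.X_surj h x a)

lemma xi_eq (s a : ℝ) : xi Φ (Φ (s, a)).1 a = s :=
  (hF.sX a).injective (hF.xi_spec h _ a)

lemma cont_xi : Continuous fun p : ℝ × ℝ => xi Φ p.1 p.2 := by
  rw [continuous_iff_continuousAt]
  rintro ⟨x0, a0⟩
  rw [ContinuousAt]
  simp only
  set s0 := xi Φ x0 a0 with hs0
  have hx0 := hF.xi_spec h x0 a0
  apply tendsto_order.2
  constructor
  · intro c hc
    have h1 : (Φ (c, a0)).1 < x0 := by
      rw [← hx0]; exact hF.sX a0 hc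
    have h2 : Continuous fun p : ℝ × ℝ => (Φ (c, p.2)).1 - p.1 := by have := hF.cont; fun_prop
    have h3 : ∀ᶠ p : ℝ × ℝ in 𝓝 (x0, a0), (Φ (c, p.2)).1 - p.1 < 0 :=
      h2.continuousAt.eventually_lt_const (by simp only; linarith)
    filter_upwards [h3] with p hp
    rw [← (hF.sX p.2).lt_iff_lt]
    simp only [hF.xi_spec h]
    linarith
  · intro c hc
    have h1 : x0 < (Φ (c, a0)).1 := by
      rw [← hx0]; exact hF.sX a0 hc
    have h2 : Continuous fun p : ℝ × ℝ => (Φ (c, p.2)).1 - p.1 := by have := hF.cont; fun_prop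
    have h3 : ∀ᶠ p : ℝ × ℝ in 𝓝 (x0, a0), 0 < (Φ (c, p.2)).1 - p.1 :=
      h2.continuousAt.eventually_const_lt (by simp only; linarith)
    filter_upwards [h3] with p hp
    rw [← (hF.sX p.2).lt_iff_lt]
    simp only [hF.xi_spec h]
    linarith

lemma xi_add (x a : ℝ) : xi Φ (x + l) a = xi Φ x a + 1 := by
  apply (hF.sX a).injective
  simp only [hF.xi_spec h, hF.per, Prod.fst_add]

lemma cont_mom : Continuous fun p : ℝ × ℝ => mom L1 Φ p.1 p.2 := by
  unfold mom
  have h1 : Continuous fun p : ℝ × ℝ => Φ (xi Φ p.1 p.2, p.2) :=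
    hF.cont.comp ((hF.cont_xi h).prodMk continuous_snd)
  exact (h.contL1.comp_continuous h1 (fun p => hF.maps _)).neg

lemma mom_add (x a : ℝ) : mom L1 Φ (x + l) a = mom L1 Φ x a := by
  unfold mom
  rw [hF.xi_add h, hF.per, h.pL1 _ (hF.maps _)]

lemma mom_fst (s a : ℝ) : mom L1 Φ (Φ (s, a)).1 a = - L1 (Φ (s, a)) := by
  unfold mom
  rw [hF.xi_eq h]

lemma mom_snd (s a : ℝ) : mom L1 Φ (Φ (s, a)).2 a = L2 (Φ (s, a)) := by
  have h1 := hF.mom_fst h (sg l L1 L2 Φ s a) a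
  rw [hF.sg_spec, TT_fst] at h1
  rw [h1]
  linarith [h.T_eq (hF.maps (s, a))]

lemma hasDerivAt_prim (x a : ℝ) :
    HasDerivAt (fun x => prim L1 Φ x a) (mom L1 Φ x a) x := by
  have hc : Continuous fun t : ℝ => mom L1 Φ t a :=
    (hF.cont_mom h).comp (continuous_id.prodMk continuous_const)
  exact intervalIntegral.integral_hasDerivAt_right (hc.intervalIntegrable _ _)
    (hc.stronglyMeasurableAtFilter _ _) hc.continuousAt

/-- maximum over the second variable -/
lemma calib_max_snd (a : ℝ) {q : ℝ × ℝ} (hq : q ∈ Sig l) :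
    L q - prim L1 Φ q.2 a ≤
      L (Φ (xi Φ q.1 a, a)) - prim L1 Φ (Φ (xi Φ q.1 a, a)).2 a := by
  obtain ⟨x, y⟩ := q
  simp only
  set P := Φ (xi Φ x a, a) with hP
  have hP1 : P.1 = x := hF.xi_spec h x a
  have hPS : P ∈ Sig l := hF.maps _
  have hPe : P = (x, P.2) := Prod.ext hP1 rfl
  rw [hPe]
  simp only
  set τ := P.2 with hτ
  have hτS : (x, τ) ∈ Sig l := by rw [← hPe]; exact hPS
  -- derivative
  have hder : ∀ c, (x, c) ∈ Sig l → HasDerivAt (fun y => L (x, y) - prim L1 Φ y a)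
      (L2 (x, c) - mom L1 Φ c a) c := fun c hc =>
    (h.hasDerivAt_L_snd hc).sub (hF.hasDerivAt_prim h c a)
  -- sign of derivative
  have hsgn : ∀ c, (x, c) ∈ Sig l → (c < τ → 0 < L2 (x, c) - mom L1 Φ c a) ∧
      (τ < c → L2 (x, c) - mom L1 Φ c a < 0) := by
    intro c hc
    -- point of the leaf with second coordinate c
    obtain ⟨t, ht⟩ := hF.sg_surj h (xi Φ c a) a
    have e1 := hF.sg_spec t a
    rw [ht] at e1
    have e2 : (Φ (t, a)).2 = c := by
      rw [← TT_fst (l := l) (L1 := L1) (L2 := L2) (Φ (t, a)), ← e1]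
      exact hF.xi_spec h c a
    have hm := hF.mom_snd h t a
    rw [e2] at hm
    rw [hm]
    have hts : (Φ (t, a)) = ((Φ (t, a)).1, c) := Prod.ext rfl e2
    have htS : ((Φ (t, a)).1, c) ∈ Sig l := by rw [← hts]; exact hF.maps _
    constructor
    · intro hlt
      have h1 : t < xi Φ x a := by
        rw [← (hF.sY a).lt_iff_lt]
        rw [e2]
        exact hlt
      have h2 := hF.sX a h1
      simp only [hF.xi_spec h] at h2
      have h3 := (h.L2_lt htS hc).2 h2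
      rw [← hts] at h3
      linarith
    · intro hlt
      have h1 : xi Φ x a < t := by
        rw [← (hF.sY a).lt_iff_lt]
        rw [e2]
        exact hlt
      have h2 := hF.sX a h1
      simp only [hF.xi_spec h] at h2
      have h3 := (h.L2_lt hc htS).2 h2
      rw [← hts] at h3
      linarith
  rcases lt_trichotomy y τ with hlt | heq | hgt
  · have hin : ∀ c ∈ Icc y τ, (x, c) ∈ Sig l := fun c hc =>
      ⟨hq.1.trans_le hc.1, hc.2.trans_lt hτS.2⟩
    obtain ⟨c, hc, he⟩ := exists_hasDerivAt_eq_slope (fun y => L (x, y) - prim L1 Φ y a)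
      (fun c => L2 (x, c) - mom L1 Φ c a) hlt
      (fun c hc => (hder c (hin c hc)).continuousAt.continuousWithinAt)
      (fun c hc => hder c (hin c ⟨hc.1.le, hc.2.le⟩))
    have h1 := (hsgn c (hin c ⟨hc.1.le, hc.2.le⟩)).1 hc.2
    rw [he, lt_div_iff₀ (by linarith)] at h1
    linarith
  · rw [heq]
  · have hin : ∀ c ∈ Icc τ y, (x, c) ∈ Sig l := fun c hc =>
      ⟨hτS.1.trans_le hc.1, hc.2.trans_lt hq.2⟩
    obtain ⟨c, hc, he⟩ := exists_hasDerivAt_eq_slope (fun y => L (x, y) - prim L1 Φ y a)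
      (fun c => L2 (x, c) - mom L1 Φ c a) hgt
      (fun c hc => (hder c (hin c hc)).continuousAt.continuousWithinAt)
      (fun c hc => hder c (hin c ⟨hc.1.le, hc.2.le⟩))
    have h1 := (hsgn c (hin c ⟨hc.1.le, hc.2.le⟩)).2 hc.1
    rw [he, div_lt_iff₀ (by linarith)] at h1
    linarith

/-- the calibration is constant along the leaf -/
lemma calib_const (a s t : ℝ) :
    L (Φ (s, a)) - prim L1 Φ (Φ (s, a)).2 a + prim L1 Φ (Φ (s, a)).1 a =
    L (Φ (t, a)) - prim L1 Φ (Φ (t, a)).2 a + prim L1 Φ (Φ (t, a)).1 a := by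
  set v : ℝ → ℝ := fun x => L (Φ (xi Φ x a, a)) - prim L1 Φ (Φ (xi Φ x a, a)).2 a +
    prim L1 Φ x a with hv
  set τ : ℝ → ℝ := fun x => (Φ (xi Φ x a, a)).2 with hτ
  have hxi : Continuous fun x => xi Φ x a := (hF.cont_xi h).comp (by fun_prop : Continuous
    fun x : ℝ => ((x, a) : ℝ × ℝ))
  have hτc : Continuous τ := by
    have := hF.cont
    fun_prop
  have hpt : ∀ x, Φ (xi Φ x a, a) = (x, τ x) := fun x => Prod.ext (hF.xi_spec h x a) rfl
  have hd : ∀ x, HasDerivAt v 0 x := by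
    intro x
    apply hasDerivAt_env (isOpen_Sig l) hτc (H := fun p => L p - prim L1 Φ p.2 a + prim L1 Φ p.1 a)
      (K := fun p => L1 p + mom L1 Φ p.1 a)
    · rintro ⟨x, y⟩ hp
      have h1 := ((h.hasDerivAt_L_fst hp).sub_const (prim L1 Φ y a)).add (hF.hasDerivAt_prim h x a)
      exact h1
    · have hm : Continuous fun p : ℝ × ℝ => mom L1 Φ p.1 a :=
        (hF.cont_mom h).comp (by fun_prop : Continuous fun p : ℝ × ℝ => ((p.1, a) : ℝ × ℝ))
      exact h.contL1.add hm.continuousOn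
    · intro x
      simp only
      rw [← hpt]
      unfold mom
      ring
    · intro x
      rw [← hpt]
      exact hF.maps _
    · intro x
      simp only [hv]
      rw [hpt]
    · intro p hp
      have := hF.calib_max_snd h a hp
      simp only [hv]
      linarith
  have hvs : ∀ s, v (Φ (s, a)).1 = L (Φ (s, a)) - prim L1 Φ (Φ (s, a)).2 a +
      prim L1 Φ (Φ (s, a)).1 a := by
    intro s
    simp only [hv]
    rw [hF.xi_eq h]
  rw [← hvs, ← hvs]
  exact is_const_of_deriv_eq_zero (fun x => (hd x).differentiableAt) (fun x => (hd x).deriv) _ _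

/-- the calibration inequality -/
lemma calib (a s : ℝ) {q : ℝ × ℝ} (hq : q ∈ Sig l) :
    L q - L (Φ (s, a)) ≤ (prim L1 Φ q.2 a - prim L1 Φ (Φ (s, a)).2 a) -
      (prim L1 Φ q.1 a - prim L1 Φ (Φ (s, a)).1 a) := by
  have h1 := hF.calib_max_snd h a hq
  have h2 := hF.calib_const h a s (xi Φ q.1 a)
  rw [hF.xi_spec h] at h2
  linarith

lemma cont_prim : Continuous fun p : ℝ × ℝ => prim L1 Φ p.1 p.2 := by
  unfold prim
  have h1 : Continuous (Function.uncurry fun (a t : ℝ) => mom L1 Φ t a) :=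
    (hF.cont_mom h).comp continuous_swap
  have h2 := intervalIntegral.continuous_parametric_primitive_of_continuous (μ := volume)
    (a₀ := 0) h1
  exact h2.comp continuous_swap

lemma prim_add (x a : ℝ) : prim L1 Φ (x + l) a = prim L1 Φ x a + prim L1 Φ l a := by
  unfold prim
  have hc : Continuous fun t : ℝ => mom L1 Φ t a :=
    (hF.cont_mom h).comp (continuous_id.prodMk continuous_const)
  have hper : Function.Periodic (fun t => mom L1 Φ t a) l := fun t => hF.mom_add h t a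
  have h1 := hper.intervalIntegral_add_eq x 0
  rw [zero_add] at h1
  rw [← h1]
  exact (intervalIntegral.integral_add_adjacent_intervals (hc.intervalIntegrable _ _)
    (hc.intervalIntegrable _ _)).symm

lemma cont_dsp {w : ℝ → ℝ} (hw : Continuous w) (e : ℝ) :
    ContinuousOn (dsp L1 Φ w e) (Sig l) := by
  unfold dsp
  have h1 : ContinuousOn (fun p => (inv' Φ p).2) (Sig l) :=
    continuous_snd.comp_continuousOn hF.cinv
  have h2 : ContinuousOn (fun p : ℝ × ℝ => p.1 + e * w p.1) (Sig l) := by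
    apply Continuous.continuousOn; fun_prop
  exact ((hF.cont_prim h).comp_continuousOn (h2.prodMk h1)).sub
    ((hF.cont_prim h).comp_continuousOn (continuousOn_fst.prodMk h1))

lemma per_dsp {w : ℝ → ℝ} (hwp : ∀ x, w (x + l) = w x) (e : ℝ) (p : ℝ × ℝ) (hp : p ∈ Sig l) :
    dsp L1 Φ w e (p + (l, l)) = dsp L1 Φ w e p := by
  unfold dsp
  rw [hF.inv'_shift hp]
  simp only [Prod.fst_add, Prod.snd_add, add_zero, hwp]
  rw [show p.1 + l + e * w p.1 = p.1 + e * w p.1 + l by ring, hF.prim_add h, hF.prim_add h]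
  ring

/-- calibration inequality in terms of `dsp` -/
lemma calib' {w : ℝ → ℝ} {e : ℝ} {p : ℝ × ℝ} (hp : p ∈ Sig l)
    (hq : p + e • ((w p.1, w p.2) : ℝ × ℝ) ∈ Sig l) :
    L (p + e • ((w p.1, w p.2) : ℝ × ℝ)) - L p ≤
      dsp L1 Φ w e (TT l L1 L2 p) - dsp L1 Φ w e p := by
  have h1 := hF.calib h (inv' Φ p).2 (inv' Φ p).1 hq
  rw [Prod.mk.eta, hF.inv'_right hp] at h1
  unfold dsp
  rw [hF.inv'_T hp, TT_fst]
  simpa [smul_eq_mul] using h1

/-- The Hopf inequality with a cut-off in the leaf index. -/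
lemma hopf_bump {w : ℝ → ℝ} (hw : Continuous w) (hwp : ∀ x, w (x + l) = w x) {n δ : ℝ}
    (hδ0 : 0 < δ) (hδ : ∀ q ∈ Sig l, q ∉ Core l δ → bump n (inv' Φ q).2 = 0) :
    II l (fun p => QQ L11 L12 L22 p (w p.1, w p.2) * bump n (inv' Φ p).2 * L12 p) ≤ 0 := by
  have hone : IsCore l δ (fun p => (1:ℝ) * bump n (inv' Φ p).2) :=
    hF.isCore_bump hδ (g := fun _ => (1:ℝ)) continuousOn_const (fun _ _ => rfl)
  have hcQ : IsCore l δ (fun p => QQ L11 L12 L22 p (w p.1, w p.2) * bump n (inv' Φ p).2) :=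
    hF.isCore_bump hδ (h.contOn_QQ hw) (h.per_QQ hwp)
  have key : ∀ ε > 0, II l (fun p => QQ L11 L12 L22 p (w p.1, w p.2) * bump n (inv' Φ p).2 *
      L12 p) ≤ ε * II l (fun p => (1:ℝ) * bump n (inv' Φ p).2 * L12 p) := by
    intro ε hε
    obtain ⟨e, he, hunif⟩ := h.exists_unif hw hδ0 hε
    set g : ℝ × ℝ → ℝ := fun p => dsp L1 Φ w e p + dsp L1 Φ w (-e) p with hg
    have hgc : ContinuousOn g (Sig l) := (hF.cont_dsp h hw e).add (hF.cont_dsp h hw (-e))
    have hgp : ∀ p ∈ Sig l, g (p + (l, l)) = g p := by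
      intro p hp
      simp only [hg, hF.per_dsp h hwp _ p hp]
    have hc1 := (hF.isCore_bump hδ hgc hgp).mul_right h.c12 h.p12
    have hc2 := (hF.isCore_bump_T h hδ hgc hgp).mul_right h.c12 h.p12
    have htr := hF.transfer_bump h hδ0 hδ hgc hgp
    have hcA := hcQ.mul_right h.c12 h.p12
    have hcB : IsCore l δ (fun p => ε * ((1:ℝ) * bump n (inv' Φ p).2 * L12 p)) :=
      (hone.mul_right h.c12 h.p12).mul_left (g := fun _ => ε) continuousOn_const (fun _ _ => rfl)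
    have hcC := hcA.sub hcB
    have hcD : IsCore l δ (fun p => e ^ 2 * (QQ L11 L12 L22 p (w p.1, w p.2) *
        bump n (inv' Φ p).2 * L12 p - ε * ((1:ℝ) * bump n (inv' Φ p).2 * L12 p))) :=
      hcC.mul_left (g := fun _ => e ^ 2) continuousOn_const (fun _ _ => rfl)
    have hnn := II_nonneg' h.lpos (f := fun p =>
      (g (TT l L1 L2 p) * bump n (inv' Φ p).2 * L12 p - g p * bump n (inv' Φ p).2 * L12 p) -
      e ^ 2 * (QQ L11 L12 L22 p (w p.1, w p.2) * bump n (inv' Φ p).2 * L12 p -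
        ε * ((1:ℝ) * bump n (inv' Φ p).2 * L12 p))) (by
      intro p hp hp1
      by_cases hpc : p ∈ Core l δ
      · have hu := hunif p hpc hp1
        have hsd := h.second_diff (p := p) (W := (w p.1, w p.2)) he
          (c := QQ L11 L12 L22 p (w p.1, w p.2) - ε) (fun t ht => (hu t ht).1)
          (fun t ht => (hu t ht).2)
        have c1 := hF.calib' h (w := w) (e := e) hp (hu e ⟨by linarith, le_rfl⟩).1
        have c2 := hF.calib' h (w := w) (e := -e) hp (hu (-e) ⟨le_rfl, by linarith⟩).1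
        have hb := bump_nonneg n (inv' Φ p).2
        have hL := h.L12_nonneg hp
        have hmain : 0 ≤ (g (TT l L1 L2 p) - g p) -
            e ^ 2 * (QQ L11 L12 L22 p (w p.1, w p.2) - ε) := by
          simp only [hg]
          linarith
        have := mul_nonneg (mul_nonneg hmain hb) hL
        linarith
      · rw [hδ p hp hpc]
        simp)
    rw [II_sub h.lpos hδ0 (hc2.sub hc1) hcD, II_sub h.lpos hδ0 hc2 hc1, htr, sub_self,
      II_const_mul, II_sub h.lpos hδ0 hcA hcB, II_const_mul] at hnn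
    have he2 : 0 < e ^ 2 := by positivity
    by_contra hcon
    push Not at hcon
    have h3 := mul_lt_mul_of_pos_left hcon he2
    linarith
  set A := II l (fun p => QQ L11 L12 L22 p (w p.1, w p.2) * bump n (inv' Φ p).2 * L12 p) with hA
  set B := II l (fun p => (1:ℝ) * bump n (inv' Φ p).2 * L12 p) with hB
  by_contra hcon
  push Not at hcon
  have hBpos : 0 < B := by
    have := key 1 one_pos
    linarith
  have := key (A / (2 * B)) (by positivity)
  have h2 : A / (2 * B) * B = A / 2 := by field_simp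
  rw [h2] at this
  linarith

end GFol

/-- **Hopf inequality** for continuous foliations by increasing invariant graphs. -/
theorem GFol.hopf (h : TwistGen l L L1 L2 L11 L12 L22) {Ψ : ℝ × ℝ → ℝ × ℝ} (hF : GFol l L1 L2 Ψ)
    {w : ℝ → ℝ} (hw : Continuous w) (hwp : ∀ x, w (x + l) = w x)
    {H : ℝ × ℝ → ℝ} (hHc : ContinuousOn H (Sig l)) (hHp : ∀ p ∈ Sig l, H (p + (l, l)) = H p)
    (hHle : ∀ p ∈ Sig l, H p ≤ QQ L11 L12 L22 p (w p.1, w p.2) * L12 p)
    (hHi : IntegrableOn (fun q : ℝ × ℝ => H (q.1, q.1 + q.2)) (Ioc (0:ℝ) l ×ˢ Ioo (0:ℝ) l)) :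
    ∫ q in Ioc (0:ℝ) l ×ˢ Ioo (0:ℝ) l, H (q.1, q.1 + q.2) ≤ 0 := by
  have hbc : ∀ n : ℝ, ContinuousOn (fun p => bump n (Fol.inv' Ψ p).2) (Sig l) := fun n =>
    (cont_bump n).comp_continuousOn (continuous_snd.comp_continuousOn hF.cinv)
  have hint : ∀ n : ℕ, IntegrableOn (fun q : ℝ × ℝ => H (q.1, q.1 + q.2) *
      bump n (Fol.inv' Ψ (q.1, q.1 + q.2)).2) (Ioc (0:ℝ) l ×ˢ Ioo (0:ℝ) l) := by
    intro n
    apply Integrable.mono hHi
    · exact (contOn_rect (hHc.mul (hbc n))).aestronglyMeasurable (measurableSet_rect l)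
    · refine Filter.Eventually.of_forall fun q => ?_
      rw [norm_mul]
      have h1 : ‖bump n (Fol.inv' Ψ (q.1, q.1 + q.2)).2‖ ≤ 1 := by
        rw [Real.norm_eq_abs, abs_of_nonneg (bump_nonneg _ _)]
        exact bump_le_one _ _
      exact mul_le_of_le_one_right (norm_nonneg _) h1
  have hle : ∀ n : ℕ, ∫ q in Ioc (0:ℝ) l ×ˢ Ioo (0:ℝ) l, H (q.1, q.1 + q.2) *
      bump n (Fol.inv' Ψ (q.1, q.1 + q.2)).2 ≤ 0 := by
    intro n
    rw [setIntegral_eq_II h.lpos (g := fun p => H p * bump n (Fol.inv' Ψ p).2) (hint n)]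
    obtain ⟨δ, hδ0, hδ⟩ := hF.exists_core' n
    have h1 := hF.hopf_bump h hw hwp hδ0 hδ
    have hcH := hF.isCore_bump hδ hHc hHp
    have hcQ := (hF.isCore_bump hδ (h.contOn_QQ hw) (h.per_QQ hwp)).mul_right h.c12 h.p12
    refine le_trans (II_mono h.lpos hδ0 hcH hcQ ?_) h1
    intro p hp
    have h2 := hHle p hp
    have h3 := bump_nonneg n (Fol.inv' Ψ p).2
    have h4 := mul_le_mul_of_nonneg_right h2 h3
    linarith
  have hlim : Tendsto (fun n : ℕ => ∫ q in Ioc (0:ℝ) l ×ˢ Ioo (0:ℝ) l, H (q.1, q.1 + q.2) *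
      bump n (Fol.inv' Ψ (q.1, q.1 + q.2)).2) atTop
      (𝓝 (∫ q in Ioc (0:ℝ) l ×ˢ Ioo (0:ℝ) l, H (q.1, q.1 + q.2))) := by
    apply tendsto_integral_of_dominated_convergence (fun q => ‖H (q.1, q.1 + q.2)‖)
    · intro n
      exact (hint n).aestronglyMeasurable
    · exact hHi.norm
    · intro n
      refine Filter.Eventually.of_forall fun q => ?_
      rw [norm_mul]
      have h1 : ‖bump n (Fol.inv' Ψ (q.1, q.1 + q.2)).2‖ ≤ 1 := by
        rw [Real.norm_eq_abs, abs_of_nonneg (bump_nonneg _ _)]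
        exact bump_le_one _ _
      exact mul_le_of_le_one_right (norm_nonneg _) h1
    · refine Filter.Eventually.of_forall fun q => ?_
      apply tendsto_const_nhds.congr'
      have hev := tendsto_natCast_atTop_atTop (R := ℝ) |>.eventually_ge_atTop
        (|(Fol.inv' Ψ (q.1, q.1 + q.2)).2| + 1)
      filter_upwards [hev] with n hn
      rw [bump_one hn, mul_one]
  exact le_of_tendsto' hlim hle

end

end MPd2f538
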