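import Pool.Agent.Lib.MP_d2f538_an.Norm

open MeasureTheory Set Real Filter Topology

namespace Pool.Agent.MP_d2f538_an

/-- A strictly convex table with a regular `C²` boundary parametrisation. -/
structure Table0 (K : Set ℂ) (ℓ : ℝ) (γ γ' γ'' : ℝ → ℂ) : Prop where
  isOpen : IsOpen K
  convex : Convex ℝ K
  bounded : Bornology.IsBounded K
  zero_mem : (0 : ℂ) ∈ K
  strict : StrictConvex ℝ (closure K)
  pos : 0 < ℓ
  d1 : ∀ x, HasDerivAt γ (γ' x) x
  d2 : ∀ x, HasDerivAt γ' (γ'' x) x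
  c2 : Continuous γ''
  ne : ∀ x, γ' x ≠ 0
  per : ∀ x, γ (x + ℓ) = γ x
  inj : ∀ x y, x < y → y < x + ℓ → γ x ≠ γ y
  bdry : range γ = frontier K

variable {K : Set ℂ} {ℓ : ℝ} {γ γ' γ'' : ℝ → ℂ}

theorem Table0.nhds (T : Table0 K ℓ γ γ' γ'') : K ∈ 𝓝 (0 : ℂ) := T.isOpen.mem_nhds T.zero_mem

theorem Table0.interior_closure (T : Table0 K ℓ γ γ' γ'') : interior (closure K) = K := by
  rw [T.convex.interior_closure_eq_interior_of_nonempty_interior, T.isOpen.interior_eq]
  rw [T.isOpen.interior_eq]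
  exact ⟨0, T.zero_mem⟩

theorem Table0.gauge_γ (T : Table0 K ℓ γ γ' γ'') (x : ℝ) : gauge K (γ x) = 1 := by
  rw [gauge_eq_one_iff_mem_frontier T.convex T.nhds, ← T.bdry]
  exact mem_range_self x

theorem Table0.γ_notMem (T : Table0 K ℓ γ γ' γ'') (x : ℝ) : γ x ∉ K := by
  intro h
  have h1 : γ x ∈ frontier K := by rw [← T.bdry]; exact mem_range_self x
  rw [T.isOpen.frontier_eq] at h1
  exact h1.2 h

theorem Table0.γ_mem_closure (T : Table0 K ℓ γ γ' γ'') (x : ℝ) : γ x ∈ closure K := by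
  have h1 : γ x ∈ frontier K := by rw [← T.bdry]; exact mem_range_self x
  exact frontier_subset_closure h1

theorem Table0.gauge_pos' (T : Table0 K ℓ γ γ' γ'') {v : ℂ} (hv : v ≠ 0) : 0 < gauge K v :=
  (gauge_pos (absorbent_nhds_zero T.nhds)
    ((NormedSpace.isVonNBounded_iff ℝ).2 T.bounded)).2 hv

theorem gauge_real_mul {r : ℝ} (hr : 0 ≤ r) (v : ℂ) : gauge K (r * v) = r * gauge K v := by
  rw [← Complex.real_smul, gauge_smul_of_nonneg hr, smul_eq_mul]

theorem Table0.cγ (T : Table0 K ℓ γ γ' γ'') : Continuous γ :=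
  continuous_iff_continuousAt.2 fun x => (T.d1 x).continuousAt

theorem Table0.cγ' (T : Table0 K ℓ γ γ' γ'') : Continuous γ' :=
  continuous_iff_continuousAt.2 fun x => (T.d2 x).continuousAt

/-- supporting functional at a boundary point -/
theorem Table0.exists_support (T : Table0 K ℓ γ γ' γ'') (x : ℝ) :
    ∃ f : StrongDual ℝ ℂ, (∀ a ∈ K, f a < f (γ x)) ∧ f (γ' x) = 0 := by
  obtain ⟨f, hf⟩ := geometric_hahn_banach_open_point T.convex T.isOpen (T.γ_notMem x)
  refine ⟨f, hf, ?_⟩
  have hcl : ∀ a ∈ closure K, f a ≤ f (γ x) := by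
    intro a ha
    have h1 : closure K ⊆ {a | f a ≤ f (γ x)} :=
      closure_minimal (fun a ha => (hf a ha).le) (isClosed_le f.continuous continuous_const)
    exact h1 ha
  have hd : HasDerivAt (fun y => f (γ y)) (f (γ' x)) x := f.hasFDerivAt.comp_hasDerivAt x (T.d1 x)
  have hmax : IsLocalMax (fun y => f (γ y)) x :=
    Eventually.of_forall fun y => hcl _ (T.γ_mem_closure y)
  exact hmax.hasDerivAt_eq_zero hd

theorem decomp (u w : ℂ) : ((Complex.normSq u : ℝ) : ℂ) * w =
    ((((starRingEnd ℂ) u * w).re : ℝ) : ℂ) * u +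
      ((((starRingEnd ℂ) u * w).im : ℝ) : ℂ) * (Complex.I * u) := by
  apply Complex.ext
  · simp only [Complex.normSq_apply, Complex.mul_re, Complex.mul_im, Complex.ofReal_re,
      Complex.ofReal_im, Complex.add_re, Complex.conj_re, Complex.conj_im, Complex.I_re,
      Complex.I_im]
    ring
  · simp only [Complex.normSq_apply, Complex.mul_re, Complex.mul_im, Complex.ofReal_re,
      Complex.ofReal_im, Complex.add_im, Complex.conj_re, Complex.conj_im, Complex.I_re,
      Complex.I_im]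
    ring

theorem decomp_apply (f : StrongDual ℝ ℂ) {u : ℂ} (hu : f u = 0) (w : ℂ) :
    Complex.normSq u * f w = ((starRingEnd ℂ) u * w).im * f (Complex.I * u) := by
  have h1 := congrArg f (decomp u w)
  rw [map_add, ← Complex.real_smul, ← Complex.real_smul, ← Complex.real_smul, map_smul, map_smul,
    map_smul, hu, smul_zero, zero_add, smul_eq_mul, smul_eq_mul] at h1
  exact h1

/-- the tangent line does not pass through the origin -/
theorem Table0.cross_ne (T : Table0 K ℓ γ γ' γ'') (x : ℝ) :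
    ((starRingEnd ℂ) (γ x) * γ' x).im ≠ 0 := by
  obtain ⟨f, hf, hf'⟩ := T.exists_support x
  have h1 := decomp_apply f hf' (γ x)
  have h2 : 0 < f (γ x) := by have := hf 0 T.zero_mem; rwa [map_zero] at this
  have h3 : 0 < Complex.normSq (γ' x) := Complex.normSq_pos.2 (T.ne x)
  intro h0
  have h4 : ((starRingEnd ℂ) (γ' x) * γ x).im = -((starRingEnd ℂ) (γ x) * γ' x).im := by
    simp only [Complex.mul_im, Complex.conj_re, Complex.conj_im]; ring
  rw [h4, h0, neg_zero, zero_mul] at h1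
  have := mul_pos h3 h2
  linarith

theorem Table0.orient_cases (T : Table0 K ℓ γ γ' γ'') :
    (∀ x, 0 < ((starRingEnd ℂ) (γ x) * γ' x).im) ∨
      ∀ x, ((starRingEnd ℂ) (γ x) * γ' x).im < 0 := by
  have hc : Continuous fun x => ((starRingEnd ℂ) (γ x) * γ' x).im :=
    Complex.continuous_im.comp ((Complex.continuous_conj.comp T.cγ).mul T.cγ')
  by_cases h : ∀ x, 0 < ((starRingEnd ℂ) (γ x) * γ' x).im
  · exact Or.inl h
  · right
    push Not at h
    obtain ⟨x0, hx0⟩ := h
    intro x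
    by_contra hcon
    push Not at hcon
    have hord := (isPreconnected_univ.image _ hc.continuousOn).ordConnected
    have : (0 : ℝ) ∈ (fun x => ((starRingEnd ℂ) (γ x) * γ' x).im) '' univ :=
      hord.out ⟨x0, mem_univ _, rfl⟩ ⟨x, mem_univ _, rfl⟩ ⟨hx0, hcon⟩
    obtain ⟨y, _, hy⟩ := this
    exact T.cross_ne y hy

/-- positively oriented tables -/
structure Table (K : Set ℂ) (ℓ : ℝ) (γ γ' γ'' : ℝ → ℂ) : Prop extends Table0 K ℓ γ γ' γ'' where
  orient : ∀ x, 0 < ((starRingEnd ℂ) (γ x) * γ' x).im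

theorem Table.convex_curve (T : Table K ℓ γ γ' γ'') (x y : ℝ) (hxy : x < y) (hyx : y < x + ℓ) :
    0 < ((starRingEnd ℂ) (γ' x) * (γ y - γ x)).im := by
  obtain ⟨f, hf, hf'⟩ := T.exists_support x
  have h3 : 0 < Complex.normSq (γ' x) := Complex.normSq_pos.2 (T.ne x)
  have h1 := decomp_apply f hf' (γ x)
  have h2 : 0 < f (γ x) := by have := hf 0 T.zero_mem; rwa [map_zero] at this
  have h4 : ((starRingEnd ℂ) (γ' x) * γ x).im = -((starRingEnd ℂ) (γ x) * γ' x).im := by
    simp only [Complex.mul_im, Complex.conj_re, Complex.conj_im]; ring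
  have h5 : f (Complex.I * γ' x) < 0 := by
    by_contra hcon
    push Not at hcon
    have a1 : 0 < Complex.normSq (γ' x) * f (γ x) := mul_pos h3 h2
    rw [h1, h4] at a1
    have a2 := mul_nonneg (T.orient x).le hcon
    linarith
  have h6 : f (γ y) < f (γ x) := by
    have hmid := T.strict (T.γ_mem_closure x) (T.γ_mem_closure y) (T.inj x y hxy hyx)
      (a := 1 / 2) (b := 1 / 2) (by norm_num) (by norm_num) (by norm_num)
    rw [T.interior_closure] at hmid
    have := hf _ hmid
    rw [map_add, map_smul, map_smul, smul_eq_mul, smul_eq_mul] at this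
    linarith
  have h7 := decomp_apply f hf' (γ y - γ x)
  rw [map_sub] at h7
  by_contra hcon
  push Not at hcon
  have a1 : Complex.normSq (γ' x) * (f (γ y) - f (γ x)) < 0 :=
    mul_neg_of_pos_of_neg h3 (by linarith)
  rw [h7] at a1
  have := mul_nonneg_of_nonpos_of_nonpos hcon h5.le
  linarith

/-- every nonzero vector is a positive multiple of a boundary point -/
theorem Table0.exists_polar (T : Table0 K ℓ γ γ' γ'') {v : ℂ} (hv : v ≠ 0) :
    ∃ t, v = (gauge K v : ℂ) * γ t := by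
  have hg := T.gauge_pos' hv
  have h1 : (((gauge K v)⁻¹ : ℝ) : ℂ) * v ∈ frontier K := by
    rw [← gauge_eq_one_iff_mem_frontier T.convex T.nhds,
      gauge_real_mul (inv_pos.2 hg).le, inv_mul_cancel₀ hg.ne']
  rw [← T.bdry] at h1
  obtain ⟨t, ht⟩ := h1
  refine ⟨t, ?_⟩
  rw [ht, ← mul_assoc, ← Complex.ofReal_mul, mul_inv_cancel₀ hg.ne', Complex.ofReal_one, one_mul]

/-- the derivative of the polar map -/
noncomputable def polarD (r : ℝ) (a b : ℂ) : ℝ × ℝ →L[ℝ] ℂ :=
  (ContinuousLinearMap.fst ℝ ℝ ℝ).smulRight a +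
    (ContinuousLinearMap.snd ℝ ℝ ℝ).smulRight ((r : ℂ) * b)

theorem polarD_injective {r : ℝ} (hr : r ≠ 0) {a b : ℂ} (hab : ((starRingEnd ℂ) a * b).im ≠ 0) :
    Function.Injective (polarD r a b) := by
  rw [injective_iff_map_eq_zero]
  rintro ⟨x, y⟩ h
  simp only [polarD, add_apply, ContinuousLinearMap.smulRight_apply,
    ContinuousLinearMap.coe_fst', ContinuousLinearMap.coe_snd', Complex.real_smul] at h
  have h1 : ((starRingEnd ℂ) a * (x * a + y * (r * b))).im =
      y * r * ((starRingEnd ℂ) a * b).im := by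
    simp only [Complex.mul_im, Complex.add_im, Complex.add_re, Complex.mul_re, Complex.conj_re,
      Complex.conj_im, Complex.ofReal_re, Complex.ofReal_im]
    ring
  rw [h, mul_zero, Complex.zero_im] at h1
  have hy : y = 0 := by
    rcases mul_eq_zero.1 h1.symm with h2 | h2
    · rcases mul_eq_zero.1 h2 with h3 | h3
      · exact h3
      · exact absurd h3 hr
    · exact absurd h2 hab
  have ha : a ≠ 0 := by
    intro h0
    rw [h0] at hab
    simp at hab
  rw [hy] at h
  simp only [Complex.ofReal_zero, zero_mul, add_zero, mul_eq_zero, Complex.ofReal_eq_zero] at h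
  rcases h with h2 | h2
  · rw [h2, hy]; rfl
  · exact absurd h2 ha

theorem Table0.contDiff_γ (T : Table0 K ℓ γ γ' γ'') : ContDiff ℝ 2 γ := by
  have h1 : deriv γ = γ' := funext fun x => (T.d1 x).deriv
  have h2 : deriv γ' = γ'' := funext fun x => (T.d2 x).deriv
  have h3 : ContDiff ℝ 1 γ' := by
    rw [contDiff_one_iff_deriv, h2]
    exact ⟨fun x => (T.d2 x).differentiableAt, T.c2⟩
  rw [show (2 : WithTop ℕ∞) = 1 + 1 from rfl, contDiff_succ_iff_deriv, h1]
  refine ⟨fun x => (T.d1 x).differentiableAt, ?_, h3⟩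
  intro h; simp at h

theorem Table0.gauge_contDiffAt (T : Table0 K ℓ γ γ' γ'') {v : ℂ} (hv : v ≠ 0) :
    ContDiffAt ℝ 2 (gauge K) v := by
  obtain ⟨t0, ht0⟩ := T.exists_polar hv
  set r0 := gauge K v with hr0
  have hr0pos : 0 < r0 := T.gauge_pos' hv
  set G : ℝ × ℝ → ℂ := fun p => (p.1 : ℂ) * γ p.2 with hG
  have hGc : ContDiff ℝ 2 G := by
    have h1 : ContDiff ℝ 2 (fun p : ℝ × ℝ => (p.1 : ℂ)) :=
      Complex.ofRealCLM.contDiff.comp contDiff_fst
    exact h1.mul (T.contDiff_γ.comp contDiff_snd)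
  have hGd : HasFDerivAt G (polarD r0 (γ t0) (γ' t0)) (r0, t0) := by
    have d1 : HasFDerivAt (fun p : ℝ × ℝ => (p.1 : ℂ))
        (Complex.ofRealCLM ∘L ContinuousLinearMap.fst ℝ ℝ ℝ) (r0, t0) :=
      (Complex.ofRealCLM.hasFDerivAt).comp (r0, t0) (hasFDerivAt_fst (𝕜 := ℝ) (p := (r0, t0)))
    have d2 : HasFDerivAt (fun p : ℝ × ℝ => γ p.2)
        ((ContinuousLinearMap.snd ℝ ℝ ℝ).smulRight (γ' t0)) (r0, t0) := by
      have := (T.d1 t0).hasFDerivAt.comp (r0, t0)
        (hasFDerivAt_snd (𝕜 := ℝ) (p := ((r0, t0) : ℝ × ℝ)))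
      refine this.congr_fderiv ?_
      ext <;> simp
    have := d1.mul d2
    refine this.congr_fderiv ?_
    ext <;> simp [polarD]
  set e : (ℝ × ℝ) ≃L[ℝ] ℂ := (LinearMap.linearEquivOfInjective
    (polarD r0 (γ t0) (γ' t0)).toLinearMap (polarD_injective hr0pos.ne' (T.cross_ne t0))
    (by simp)).toContinuousLinearEquiv with he
  have hee : (e : ℝ × ℝ →L[ℝ] ℂ) = polarD r0 (γ t0) (γ' t0) := by
    ext <;> simp [he]
  have hGd' : HasFDerivAt G (e : ℝ × ℝ →L[ℝ] ℂ) (r0, t0) := by rw [hee]; exact hGd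
  have hGa : ContDiffAt ℝ 2 G (r0, t0) := hGc.contDiffAt
  have hinv := hGa.to_localInverse hGd' (by norm_num)
  have hGv : G (r0, t0) = v := by simp only [hG]; exact ht0.symm
  rw [hGv] at hinv
  have hst := hGa.hasStrictFDerivAt' hGd' (by norm_num)
  have hright := hst.eventually_right_inverse
  rw [hGv] at hright
  have hev : ∀ᶠ w in 𝓝 v, gauge K w = (hGa.localInverse hGd' (by norm_num) w).1 := by
    have hc : Tendsto (fun w => (hGa.localInverse hGd' (by norm_num) w).1) (𝓝 v) (𝓝 r0) := by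
      have h1 := hinv.continuousAt.tendsto
      have h2 : hGa.localInverse hGd' (by norm_num) v = (r0, t0) := by
        have := hGa.localInverse_apply_image hGd' (by norm_num)
        rwa [hGv] at this
      rw [h2] at h1
      exact (continuous_fst.tendsto _).comp h1
    have hpos := hc (Ioi_mem_nhds hr0pos)
    filter_upwards [hright, hpos] with w hw1 hw2
    have hw1' : G (hGa.localInverse hGd' (by norm_num) w) = w := hw1
    have h3 : gauge K (G (hGa.localInverse hGd' (by norm_num) w)) =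
        (hGa.localInverse hGd' (by norm_num) w).1 := by
      simp only [hG]
      rw [gauge_real_mul (le_of_lt hw2), T.gauge_γ, mul_one]
    rw [hw1'] at h3
    exact h3
  have := (contDiff_fst.contDiffAt).comp v hinv
  exact this.congr_of_eventuallyEq hev

/-- the norm on unit vectors -/
noncomputable def hK (K : Set ℂ) (φ : ℝ) : ℝ := gauge K (Complex.exp (φ * Complex.I))

theorem Table0.contDiff_hK (T : Table0 K ℓ γ γ' γ'') : ContDiff ℝ 2 (hK K) := by
  rw [contDiff_iff_contDiffAt]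
  intro φ
  have h1 : ContDiff ℝ 2 (fun φ : ℝ => Complex.exp (φ * Complex.I)) :=
    ((Complex.ofRealCLM.contDiff).mul contDiff_const).cexp
  exact (T.gauge_contDiffAt (Complex.exp_ne_zero _)).comp φ h1.contDiffAt

theorem hK_add (φ : ℝ) : hK K (φ + 2 * π) = hK K φ := by
  rw [hK, hK]
  congr 1
  push_cast
  rw [add_mul, Complex.exp_add, Complex.exp_two_pi_mul_I, mul_one]

/-- strict convexity of the norm -/
theorem Table0.hK_strict (T : Table0 K ℓ γ γ' γ'') (φ : ℝ) {δ : ℝ} (hδ : 0 < δ)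
    (hδ' : δ < π / 2) : 2 * Real.cos δ * hK K φ < hK K (φ - δ) + hK K (φ + δ) := by
  set p := Complex.exp ((φ - δ : ℝ) * Complex.I) with hp
  set q := Complex.exp ((φ + δ : ℝ) * Complex.I) with hq
  set P := hK K (φ - δ) with hP
  set Q := hK K (φ + δ) with hQ
  have hP' : P = gauge K p := rfl
  have hQ' : Q = gauge K q := rfl
  have hp0 : p ≠ 0 := Complex.exp_ne_zero _
  have hq0 : q ≠ 0 := Complex.exp_ne_zero _
  have hPpos : 0 < P := T.gauge_pos' hp0
  have hQpos : 0 < Q := T.gauge_pos' hq0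
  have hsum : p + q = ((2 * Real.cos δ : ℝ) : ℂ) * Complex.exp (φ * Complex.I) := by
    have e1 : p = Complex.exp (φ * Complex.I) * Complex.exp (-δ * Complex.I) := by
      rw [hp, ← Complex.exp_add]; congr 1; push_cast; ring
    have e2 : q = Complex.exp (φ * Complex.I) * Complex.exp (δ * Complex.I) := by
      rw [hq, ← Complex.exp_add]; congr 1; push_cast; ring
    rw [e1, e2]
    push_cast
    rw [Complex.two_cos]
    ring
  have hcl : ∀ {v : ℂ}, v ≠ 0 → (((gauge K v)⁻¹ : ℝ) : ℂ) * v ∈ closure K := by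
    intro v hv
    have hg := T.gauge_pos' hv
    apply frontier_subset_closure
    rw [← gauge_eq_one_iff_mem_frontier T.convex T.nhds,
      gauge_real_mul (inv_pos.2 hg).le, inv_mul_cancel₀ hg.ne']
  have hne : ((P⁻¹ : ℝ) : ℂ) * p ≠ ((Q⁻¹ : ℝ) : ℂ) * q := by
    intro h
    have h1 := congrArg norm h
    rw [norm_mul, norm_mul, hp, hq, Complex.norm_exp_ofReal_mul_I, Complex.norm_exp_ofReal_mul_I,
      Complex.norm_real, Complex.norm_real, Real.norm_eq_abs, Real.norm_eq_abs,
      abs_of_pos (inv_pos.2 hPpos), abs_of_pos (inv_pos.2 hQpos), mul_one, mul_one] at h1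
    rw [h1] at h
    have h2 : ((Q⁻¹ : ℝ) : ℂ) ≠ 0 := Complex.ofReal_ne_zero.2 (inv_pos.2 hQpos).ne'
    have h3 : p = q := mul_left_cancel₀ h2 h
    have h4 : Complex.exp ((2 * δ : ℝ) * Complex.I) = 1 := by
      have : q = p * Complex.exp ((2 * δ : ℝ) * Complex.I) := by
        rw [hp, hq, ← Complex.exp_add]; congr 1; push_cast; ring
      rw [h3] at this
      exact (mul_eq_left₀ hq0).1 this.symm
    have h5 := congrArg Complex.im h4
    rw [Complex.exp_ofReal_mul_I_im, Complex.one_im] at h5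
    have h6 := Real.sin_pos_of_pos_of_lt_pi (x := 2 * δ) (by linarith) (by linarith)
    linarith
  have hmid := T.strict (hcl hp0) (hcl hq0) hne (a := P / (P + Q)) (b := Q / (P + Q))
    (by positivity) (by positivity) (by field_simp)
  rw [T.interior_closure] at hmid
  have h1 : (P / (P + Q)) • ((((gauge K p)⁻¹ : ℝ) : ℂ) * p) +
      (Q / (P + Q)) • ((((gauge K q)⁻¹ : ℝ) : ℂ) * q) =
      (((P + Q)⁻¹ * (2 * Real.cos δ) : ℝ) : ℂ) * Complex.exp (φ * Complex.I) := by
    rw [← hP', ← hQ', Complex.real_smul, Complex.real_smul]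
    have e1 : (P : ℂ) ≠ 0 := Complex.ofReal_ne_zero.2 hPpos.ne'
    have e2 : (Q : ℂ) ≠ 0 := Complex.ofReal_ne_zero.2 hQpos.ne'
    have e3 : ((P + Q : ℝ) : ℂ) ≠ 0 := Complex.ofReal_ne_zero.2 (by positivity)
    rw [Complex.ofReal_mul, mul_assoc, ← hsum]
    push_cast at e3 ⊢
    field_simp
  rw [h1] at hmid
  have h2 := gauge_lt_one_of_mem_of_isOpen T.isOpen hmid
  have hcos : 0 ≤ Real.cos δ := Real.cos_nonneg_of_neg_pi_div_two_le_of_le (by linarith) hδ'.le
  rw [gauge_real_mul (by positivity)] at h2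
  have h3 : gauge K (Complex.exp (φ * Complex.I)) = hK K φ := rfl
  rw [h3, mul_assoc, inv_mul_lt_iff₀ (by positivity), mul_one] at h2
  exact h2

/-- the polar description of the norm of a strictly convex `C²` table -/
theorem Table0.normData (T : Table0 K ℓ γ γ' γ'') :
    NormData (gauge K) (hK K) (deriv (hK K)) (deriv (deriv (hK K))) := by
  have hc := T.contDiff_hK
  have hc1 : ContDiff ℝ 1 (deriv (hK K)) := by
    rw [show (2 : WithTop ℕ∞) = 1 + 1 from rfl, contDiff_succ_iff_deriv] at hc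
    exact hc.2.2
  have hd1 : ∀ φ, HasDerivAt (hK K) (deriv (hK K) φ) φ := fun φ =>
    (hc.differentiable (by norm_num) φ).hasDerivAt
  have hd2 : ∀ φ, HasDerivAt (deriv (hK K)) (deriv (deriv (hK K)) φ) φ := fun φ =>
    (hc1.differentiable (by norm_num) φ).hasDerivAt
  have hc2 : Continuous (deriv (deriv (hK K))) := (contDiff_one_iff_deriv.1 hc1).2
  set h := hK K
  set h' := deriv h
  set h'' := deriv h'
  -- nonnegativity of the radius of curvature of the polar body
  have hnonneg : ∀ φ, 0 ≤ h φ + h'' φ := by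
    intro φ
    by_contra hcon
    push Not at hcon
    set w : ℝ → ℝ := fun δ => h (φ + δ) + h (φ - δ) - 2 * Real.cos δ * h φ with hw
    set w' : ℝ → ℝ := fun δ => h' (φ + δ) - h' (φ - δ) + 2 * Real.sin δ * h φ with hw'
    have e1 : ∀ δ, HasDerivAt w (w' δ) δ := by
      intro δ
      have a1 : HasDerivAt (fun δ => h (φ + δ)) (h' (φ + δ)) δ := (hd1 _).comp_const_add φ δ
      have a2 : HasDerivAt (fun δ => h (φ - δ)) (-h' (φ - δ)) δ := (hd1 _).comp_const_sub φ δ
      have a3 := (((Real.hasDerivAt_cos δ).const_mul 2).mul_const (h φ))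
      refine ((a1.fun_add a2).fun_sub a3).congr_deriv ?_
      simp only [hw']; ring
    have e2 : HasDerivAt w' (2 * (h φ + h'' φ)) 0 := by
      have a1 : HasDerivAt (fun δ => h' (φ + δ)) (h'' (φ + 0)) 0 := (hd2 _).comp_const_add φ 0
      have a2 : HasDerivAt (fun δ => h' (φ - δ)) (-h'' (φ - 0)) 0 := (hd2 _).comp_const_sub φ 0
      have a3 := (((Real.hasDerivAt_sin 0).const_mul 2).mul_const (h φ))
      refine ((a1.fun_sub a2).fun_add a3).congr_deriv ?_
      simp; ring
    have e3 : deriv w = w' := funext fun δ => (e1 δ).deriv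
    have hmax : IsLocalMax w 0 := by
      apply isLocalMax_of_deriv_deriv_neg
      · rw [e3, e2.deriv]; linarith
      · rw [e3]; simp [hw']
      · exact (e1 0).continuousAt
    have hev : ∀ᶠ δ in 𝓝[>] (0 : ℝ), w δ ≤ w 0 ∧ 0 < δ ∧ δ < π / 2 := by
      have h1 : ∀ᶠ δ in 𝓝[>] (0 : ℝ), w δ ≤ w 0 := hmax.filter_mono nhdsWithin_le_nhds
      filter_upwards [h1, Ioo_mem_nhdsGT (by positivity : (0 : ℝ) < π / 2)] with δ h2 h3
      exact ⟨h2, h3.1, h3.2⟩
    obtain ⟨δ, h1, h2, h3⟩ := hev.exists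
    have h4 := T.hK_strict φ h2 h3
    have h5 : w 0 = 0 := by simp [hw]; ring
    rw [h5] at h1
    simp only [hw] at h1
    linarith
  refine ⟨?_, hd1, hd2, hc2, fun φ => hK_add φ, hnonneg, ?_⟩
  · intro r φ hr
    rw [gauge_real_mul hr]; rfl
  · intro a b hab
    by_contra hcon
    push Not at hcon
    have hzero : ∀ c ∈ Ioo a b, h c + h'' c = 0 := fun c hc =>
      le_antisymm (hcon c hc) (hnonneg c)
    set φ := (a + b) / 2 with hφ
    set δ := min ((b - a) / 4) (π / 4) with hδ
    have hpi := pi_pos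
    have hδ0 : 0 < δ := lt_min (by linarith) (by linarith)
    have hδ1 : δ ≤ (b - a) / 4 := min_le_left _ _
    have hδ2 : δ ≤ π / 4 := min_le_right _ _
    have hsub : ∀ c ∈ Icc (φ - δ) (φ + δ), c ∈ Ioo a b := fun c hc =>
      ⟨by rw [hφ] at hc; linarith [hc.1], by rw [hφ] at hc; linarith [hc.2]⟩
    have hgd : ∀ c x, HasDerivAt (grad h h' c) (-((h x + h'' x) * Real.sin (x - c))) x := by
      intro c x
      have hs : HasDerivAt (fun x => x - c) 1 x := (hasDerivAt_id x).sub_const c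
      have h1 := ((hd1 x).mul hs.cos).sub ((hd2 x).mul hs.sin)
      refine h1.congr_deriv ?_
      ring
    have hconst : ∀ c, ∀ x ∈ Icc (φ - δ) (φ + δ), grad h h' c x = grad h h' c (φ - δ) := by
      intro c
      apply constant_of_has_deriv_right_zero
      · exact fun x _ => (hgd c x).continuousAt.continuousWithinAt
      · intro x hx
        have h1 := (hgd c x).hasDerivWithinAt (s := Ici x)
        rw [hzero x (hsub x ⟨hx.1, hx.2.le⟩), zero_mul, neg_zero] at h1
        exact h1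
    set X := grad h h' 0 (φ - δ)
    set Y := grad h h' (π / 2) (φ - δ)
    have hform : ∀ x ∈ Icc (φ - δ) (φ + δ), h x = X * Real.cos x + Y * Real.sin x := by
      intro x hx
      have h1 := hconst 0 x hx
      have h2 := hconst (π / 2) x hx
      rw [grad, sub_zero] at h1
      rw [grad, Real.cos_sub_pi_div_two, Real.sin_sub_pi_div_two] at h2
      have hs := Real.sin_sq_add_cos_sq x
      linear_combination (Real.cos x) * h1 + Real.sin x * h2 - h x * hs
    have a1 := hform φ ⟨by linarith, by linarith⟩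
    have a2 := hform (φ - δ) ⟨by linarith, by linarith⟩
    have a3 := hform (φ + δ) ⟨by linarith, by linarith⟩
    have a4 := T.hK_strict φ hδ0 (by linarith)
    have a5 : hK K φ = h φ := rfl
    have a6 : hK K (φ - δ) = h (φ - δ) := rfl
    have a7 : hK K (φ + δ) = h (φ + δ) := rfl
    rw [a5, a6, a7, a1, a2, a3, Real.cos_sub, Real.cos_add, Real.sin_sub, Real.sin_add] at a4
    nlinarith

end Pool.Agent.MP_d2f538_an
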