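import Pool.Agent.Lib.MP_d2f538_an.Norm

open MeasureTheory Set Real Filter Topology

namespace Pool.Agent.MP_d2f538_an

variable {ℓ : ℝ} {γ γ' γ'' : ℝ → ℂ} {ψ k : ℝ → ℝ} {g : ℂ → ℝ} {h h' h'' : ℝ → ℝ}

/-- the density on the space of (boundary point, direction) -/
noncomputable def PP (γ : ℝ → ℂ) (ψ k h h' h'' : ℝ → ℝ) (c x φ : ℝ) : ℝ :=
  (h φ + h'' φ) ^ 2 * (2 * c * Real.sin (φ - ψ x) ^ 2 +
      c ^ 2 * ((γ x).re * Real.cos φ + (γ x).im * Real.sin φ) * Real.sin (φ - ψ x)) -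
    k x * (h φ + h'' φ) * (h φ * Real.sin (φ - ψ x) + h' φ * Real.cos (φ - ψ x)) *
      Real.sin (φ - ψ x)

/-- the minorant -/
noncomputable def HH (γ γ' : ℝ → ℂ) (ψ k h h' h'' : ℝ → ℝ) (c : ℝ) (p : ℝ × ℝ) : ℝ :=
  PP γ ψ k h h' h'' c p.1 (ph γ γ' ψ p) * (Real.sin (al1 γ γ' ψ p) / lam γ p) +
    PP γ ψ k h h' h'' c p.2 (ph γ γ' ψ p) * (Real.sin (al γ γ' p) / lam γ p)

theorem HH_le (D : AngleData ℓ γ γ' γ'' ψ k) (c : ℝ)
    {p : ℝ × ℝ} (hp : p ∈ Sig ℓ) :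
    HH γ γ' ψ k h h' h'' c p ≤
      (genL11 γ γ' ψ k h h' h'' p + 2 * genL12 γ γ' ψ h h'' p + genL22 γ γ' ψ k h h' h'' p) *
        genL12 γ γ' ψ h h'' p := by
  have hl := D.lam_pos hp
  have hs := D.sin_al_pos hp
  have hs1 := D.sin_al1_pos hp
  have e1 : ph γ γ' ψ p - ψ p.1 = al γ γ' p := by rw [ph]; ring
  have e2 : ph γ γ' ψ p - ψ p.2 = -al1 γ γ' ψ p := by rw [al1]; ring
  have hch := D.chord_eq p
  have hre : (γ p.2).re - (γ p.1).re = lam γ p * Real.cos (ph γ γ' ψ p) := by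
    have := congrArg Complex.re hch
    rw [Complex.sub_re, Complex.re_ofReal_mul, Complex.exp_ofReal_mul_I_re] at this
    exact this
  have him : (γ p.2).im - (γ p.1).im = lam γ p * Real.sin (ph γ γ' ψ p) := by
    have := congrArg Complex.im hch
    rw [Complex.sub_im, Complex.im_ofReal_mul, Complex.exp_ofReal_mul_I_im] at this
    exact this
  simp only [HH, PP, genL11, genL12, genL22, e1, e2, Real.sin_neg, Real.cos_neg]
  set φ := ph γ γ' ψ p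
  set l := lam γ p
  set s := Real.sin (al γ γ' p)
  set s1 := Real.sin (al1 γ γ' ψ p)
  set C := Real.cos (al γ γ' p)
  set C1 := Real.cos (al1 γ γ' ψ p)
  set R := h φ + h'' φ
  have h2re : (γ p.2).re = (γ p.1).re + l * Real.cos φ := by linarith
  have h2im : (γ p.2).im = (γ p.1).im + l * Real.sin φ := by linarith
  rw [h2re, h2im]
  have hsc : Real.cos φ ^ 2 + Real.sin φ ^ 2 = 1 := by
    rw [add_comm]; exact Real.sin_sq_add_cos_sq φ
  rw [← sub_nonneg]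
  have key : (R * s * (s / l) - k p.1 * (h φ * s + h' φ * C) + 2 * (R * s * (s1 / l)) +
        (R * s1 * (s1 / l) + k p.2 * (-h φ * s1 + h' φ * C1))) * (R * s * (s1 / l)) -
      ((R ^ 2 * (2 * c * s ^ 2 + c ^ 2 * ((γ p.1).re * Real.cos φ + (γ p.1).im * Real.sin φ) * s) -
          k p.1 * R * (h φ * s + h' φ * C) * s) * (s1 / l) +
        (R ^ 2 * (2 * c * (-s1) ^ 2 + c ^ 2 * (((γ p.1).re + l * Real.cos φ) * Real.cos φ +
          ((γ p.1).im + l * Real.sin φ) * Real.sin φ) * -s1) -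
          k p.2 * R * (h φ * -s1 + h' φ * C1) * -s1) * (s / l)) =
      R ^ 2 * (s * s1 / l) * ((s + s1 - c * l) ^ 2 / l) := by
    have hl' : l ≠ 0 := hl.ne'
    have hcos : Real.cos φ ^ 2 = 1 - Real.sin φ ^ 2 := by linarith
    field_simp
    ring_nf
    rw [hcos]
    ring
  rw [key]
  positivity

/-- fibre integrals: for fixed first point -/
theorem fibre_integrable (D : AngleData ℓ γ γ' γ'' ψ k) (x : ℝ) {G : ℝ → ℝ} (hG : Continuous G) :
    IntegrableOn (fun y => Real.sin (al1 γ γ' ψ (x, y)) / lam γ (x, y) * G (ph γ γ' ψ (x, y)))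
      (Ioo x (x + ℓ)) := by
  have h1 := (integrableOn_image_iff_integrableOn_abs_deriv_smul (s := Ioo x (x + ℓ))
    (f := fun y => ph γ γ' ψ (x, y))
    (f' := fun y => Real.sin (al1 γ γ' ψ (x, y)) / lam γ (x, y)) measurableSet_Ioo
    (fun y hy => (D.hasDerivAt_ph_snd ⟨hy.1, hy.2⟩).hasDerivWithinAt)
    (D.strictMonoOn_ph x).injOn G).1 ?_
  · refine h1.congr_fun ?_ measurableSet_Ioo
    intro y hy
    simp only [smul_eq_mul]
    rw [abs_of_pos]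
    exact div_pos (D.sin_al1_pos (p := (x, y)) ⟨hy.1, hy.2⟩) (D.lam_pos (p := (x, y)) ⟨hy.1, hy.2⟩)
  · rw [D.image_ph]
    exact (hG.integrableOn_Icc (a := ψ x) (b := ψ x + π)).mono_set Ioo_subset_Icc_self

theorem fibre_integral (D : AngleData ℓ γ γ' γ'' ψ k) (x : ℝ) (G : ℝ → ℝ) :
    ∫ y in Ioo x (x + ℓ), Real.sin (al1 γ γ' ψ (x, y)) / lam γ (x, y) * G (ph γ γ' ψ (x, y)) =
      ∫ φ in (ψ x)..(ψ x + π), G φ := by
  have h1 := integral_image_eq_integral_abs_deriv_smul (s := Ioo x (x + ℓ))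
    (f := fun y => ph γ γ' ψ (x, y))
    (f' := fun y => Real.sin (al1 γ γ' ψ (x, y)) / lam γ (x, y)) measurableSet_Ioo
    (fun y hy => (D.hasDerivAt_ph_snd ⟨hy.1, hy.2⟩).hasDerivWithinAt)
    (D.strictMonoOn_ph x).injOn G
  rw [D.image_ph] at h1
  rw [intervalIntegral.integral_of_le (by linarith [pi_pos]), integral_Ioc_eq_integral_Ioo, h1]
  apply setIntegral_congr_fun measurableSet_Ioo
  intro y hy
  simp only [smul_eq_mul]
  rw [abs_of_pos]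
  exact div_pos (D.sin_al1_pos (p := (x, y)) ⟨hy.1, hy.2⟩) (D.lam_pos (p := (x, y)) ⟨hy.1, hy.2⟩)

/-- the fibre weight in the coordinates `(x, u)`, `y = x + u` -/
noncomputable def ww (γ γ' : ℝ → ℂ) (ψ : ℝ → ℝ) (q : ℝ × ℝ) : ℝ :=
  Real.sin (al1 γ γ' ψ (q.1, q.1 + q.2)) / lam γ (q.1, q.1 + q.2)

/-- the direction in the coordinates `(x, u)`, `y = x + u` -/
noncomputable def pu (γ γ' : ℝ → ℂ) (ψ : ℝ → ℝ) (q : ℝ × ℝ) : ℝ := ph γ γ' ψ (q.1, q.1 + q.2)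

theorem mem_Sig_u {x u : ℝ} (hu : u ∈ Ioo 0 ℓ) : (x, x + u) ∈ Sig ℓ :=
  ⟨by simp only; linarith [hu.1], by simp only; linarith [hu.2]⟩

theorem mapsTo_Sig_u : MapsTo (fun q : ℝ × ℝ => (q.1, q.1 + q.2)) (univ ×ˢ Ioo 0 ℓ) (Sig ℓ) :=
  fun _ hq => mem_Sig_u hq.2

theorem continuousOn_u {f : ℝ × ℝ → ℝ} (hf : ContinuousOn f (Sig ℓ)) :
    ContinuousOn (fun q : ℝ × ℝ => f (q.1, q.1 + q.2)) (univ ×ˢ Ioo 0 ℓ) :=
  hf.comp (by fun_prop) mapsTo_Sig_u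

theorem fibre_integrable_u (D : AngleData ℓ γ γ' γ'' ψ k) (x : ℝ) {G : ℝ → ℝ}
    (hG : Continuous G) :
    IntegrableOn (fun u => ww γ γ' ψ (x, u) * G (pu γ γ' ψ (x, u))) (Ioo 0 ℓ) := by
  have h1 := fibre_integrable D x hG
  have h2 : MeasurePreserving (fun u => x + u) (volume.restrict (Ioo 0 ℓ))
      (volume.restrict (Ioo x (x + ℓ))) := by
    have := (measurePreserving_add_left volume x).restrict_preimage
      (s := Ioo x (x + ℓ)) measurableSet_Ioo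
    have h3 : (fun u => x + u) ⁻¹' Ioo x (x + ℓ) = Ioo 0 ℓ := by
      ext u; simp
    rwa [h3] at this
  exact (h2.integrable_comp_emb (Homeomorph.addLeft x).measurableEmbedding).2 h1

theorem fibre_integral_u (D : AngleData ℓ γ γ' γ'' ψ k) (x : ℝ) (G : ℝ → ℝ) :
    ∫ u in Ioo 0 ℓ, ww γ γ' ψ (x, u) * G (pu γ γ' ψ (x, u)) =
      ∫ φ in (ψ x)..(ψ x + π), G φ := by
  rw [← fibre_integral D x G]
  have h2 : MeasurePreserving (fun u => x + u) (volume.restrict (Ioo 0 ℓ))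
      (volume.restrict (Ioo x (x + ℓ))) := by
    have := (measurePreserving_add_left volume x).restrict_preimage
      (s := Ioo x (x + ℓ)) measurableSet_Ioo
    have h3 : (fun u => x + u) ⁻¹' Ioo x (x + ℓ) = Ioo 0 ℓ := by
      ext u; simp
    rwa [h3] at this
  exact h2.integral_comp (Homeomorph.addLeft x).measurableEmbedding
    (fun y => Real.sin (al1 γ γ' ψ (x, y)) / lam γ (x, y) * G (ph γ γ' ψ (x, y)))

theorem ww_pos (D : AngleData ℓ γ γ' γ'' ψ k) {x u : ℝ} (hu : u ∈ Ioo 0 ℓ) :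
    0 < ww γ γ' ψ (x, u) :=
  div_pos (D.sin_al1_pos (mem_Sig_u hu)) (D.lam_pos (mem_Sig_u hu))

theorem ww_continuousOn (D : AngleData ℓ γ γ' γ'' ψ k) :
    ContinuousOn (ww γ γ' ψ) (univ ×ˢ Ioo 0 ℓ) := continuousOn_u D.csl1

theorem pu_continuousOn (D : AngleData ℓ γ γ' γ'' ψ k) :
    ContinuousOn (pu γ γ' ψ) (univ ×ˢ Ioo 0 ℓ) := continuousOn_u D.continuousOn_ph

theorem strip_subset : Ioc 0 ℓ ×ˢ Ioo 0 ℓ ⊆ (univ : Set ℝ) ×ˢ Ioo 0 ℓ :=
  prod_mono (subset_univ _) subset_rfl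

theorem aesm {f : ℝ × ℝ → ℝ} (hf : ContinuousOn f (univ ×ˢ Ioo 0 ℓ)) :
    AEStronglyMeasurable f (volume.restrict (Ioc 0 ℓ ×ˢ Ioo 0 ℓ)) :=
  (hf.mono strip_subset).aestronglyMeasurable (measurableSet_Ioc.prod measurableSet_Ioo)

theorem ww_integrable (D : AngleData ℓ γ γ' γ'' ψ k) :
    IntegrableOn (ww γ γ' ψ) (Ioc 0 ℓ ×ˢ Ioo 0 ℓ) := by
  have hm := aesm (ww_continuousOn D)
  rw [IntegrableOn, Measure.volume_eq_prod, ← Measure.prod_restrict] at *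
  rw [integrable_prod_iff hm]
  constructor
  · refine ae_of_all _ fun x => ?_
    have := fibre_integrable_u D x (G := fun _ => 1) continuous_const
    simpa [IntegrableOn] using this
  · have : ∀ x, ∫ u in Ioo 0 ℓ, ‖ww γ γ' ψ (x, u)‖ = π := by
      intro x
      have h1 := fibre_integral_u D x (fun _ => 1)
      simp only [mul_one, intervalIntegral.integral_const, add_sub_cancel_left, smul_eq_mul] at h1
      rw [← h1]
      apply setIntegral_congr_fun measurableSet_Ioo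
      intro u hu
      simp only [Real.norm_eq_abs]
      exact abs_of_pos (ww_pos D hu)
    simp_rw [this]
    exact integrable_const _

/-- a bounded continuous factor keeps integrability -/
theorem mul_ww_integrable (D : AngleData ℓ γ γ' γ'' ψ k) {f : ℝ × ℝ → ℝ}
    (hf : ContinuousOn f (univ ×ˢ Ioo 0 ℓ)) {C : ℝ}
    (hC : ∀ x ∈ Ioc 0 ℓ, ∀ u ∈ Ioo 0 ℓ, |f (x, u)| ≤ C) :
    IntegrableOn (fun q => ww γ γ' ψ q * f q) (Ioc 0 ℓ ×ˢ Ioo 0 ℓ) := by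
  have := (ww_integrable D).bdd_mul (aesm hf) (c := C) ?_
  · simpa [mul_comm, IntegrableOn] using this
  · refine (ae_restrict_iff' (measurableSet_Ioc.prod measurableSet_Ioo)).2 (ae_of_all _ ?_)
    intro q hq
    exact hC q.1 hq.1 q.2 hq.2

theorem measurePreserving_reflect :
    MeasurePreserving (fun u : ℝ => ℓ - u) (volume.restrict (Ioo 0 ℓ))
      (volume.restrict (Ioo 0 ℓ)) := by
  have := (Measure.measurePreserving_sub_left (volume : Measure ℝ) ℓ).restrict_preimage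
    (s := Ioo 0 ℓ) measurableSet_Ioo
  have h3 : (fun u => ℓ - u) ⁻¹' Ioo 0 ℓ = Ioo 0 ℓ := by
    ext u
    simp only [mem_preimage, mem_Ioo, sub_pos, sub_lt_self_iff]
    exact and_comm
  rwa [h3] at this

theorem periodic_setIntegral (hℓ : 0 < ℓ) {f : ℝ → ℝ} (hf : ∀ x, f (x + ℓ) = f x) (u : ℝ) :
    ∫ x in Ioc 0 ℓ, f (x + u) = ∫ x in Ioc 0 ℓ, f x := by
  rw [← intervalIntegral.integral_of_le hℓ.le, ← intervalIntegral.integral_of_le hℓ.le,
    intervalIntegral.integral_comp_add_right (fun x => f x)]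
  have := Function.Periodic.intervalIntegral_add_eq (f := f) (T := ℓ) hf u 0
  rw [zero_add, add_comm ℓ u, this, zero_add]

/-- shearing a function which is periodic in the first variable -/
theorem shear (hℓ : 0 < ℓ) {f : ℝ × ℝ → ℝ} (hf : ContinuousOn f (univ ×ˢ Ioo 0 ℓ))
    (hper : ∀ x, ∀ u ∈ Ioo 0 ℓ, f (x + ℓ, u) = f (x, u))
    (hint : IntegrableOn f (Ioc 0 ℓ ×ˢ Ioo 0 ℓ)) :
    IntegrableOn (fun q : ℝ × ℝ => f (q.1 + q.2, ℓ - q.2)) (Ioc 0 ℓ ×ˢ Ioo 0 ℓ) ∧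
      ∫ q in Ioc 0 ℓ ×ˢ Ioo 0 ℓ, f (q.1 + q.2, ℓ - q.2) = ∫ q in Ioc 0 ℓ ×ˢ Ioo 0 ℓ, f q := by
  have hrefl : ∀ u ∈ Ioo 0 ℓ, ℓ - u ∈ Ioo 0 ℓ := fun u hu =>
    ⟨by linarith [hu.2], by linarith [hu.1]⟩
  have hFc : ContinuousOn (fun q : ℝ × ℝ => f (q.1 + q.2, ℓ - q.2)) (univ ×ˢ Ioo 0 ℓ) :=
    hf.comp (by fun_prop) fun q hq => ⟨mem_univ _, hrefl q.2 hq.2⟩
  have hslice : ∀ u ∈ Ioo 0 ℓ, Continuous fun x => f (x, u) := by
    intro u hu
    rw [← continuousOn_univ]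
    exact hf.comp (by fun_prop) fun x _ => ⟨mem_univ _, hu⟩
  have hFm := aesm hFc
  have hfm := aesm hf
  have hIF : IntegrableOn (fun q : ℝ × ℝ => f (q.1 + q.2, ℓ - q.2)) (Ioc 0 ℓ ×ˢ Ioo 0 ℓ) := by
    rw [IntegrableOn, Measure.volume_eq_prod, ← Measure.prod_restrict] at *
    rw [integrable_prod_iff' hFm]
    constructor
    · refine (ae_restrict_iff' measurableSet_Ioo).2 (ae_of_all _ fun u hu => ?_)
      have h1 : Continuous fun x => f (x + u, ℓ - u) :=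
        (hslice _ (hrefl u hu)).comp (continuous_id.add continuous_const)
      exact (h1.integrableOn_Icc (a := 0) (b := ℓ)).mono_set Ioc_subset_Icc_self
    · rw [integrable_prod_iff' hfm] at hint
      have h2 := (measurePreserving_reflect (ℓ := ℓ)).integrable_comp_of_integrable hint.2
      refine h2.congr ?_
      refine (ae_restrict_iff' measurableSet_Ioo).2 (ae_of_all _ fun u hu => ?_)
      simp only [Function.comp]
      exact (periodic_setIntegral hℓ (f := fun x => ‖f (x, ℓ - u)‖)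
        (fun x => by simp only [hper x _ (hrefl u hu)]) u).symm
  refine ⟨hIF, ?_⟩
  rw [IntegrableOn, Measure.volume_eq_prod, ← Measure.prod_restrict] at *
  rw [integral_prod_symm _ hIF, integral_prod_symm _ hint]
  have h3 := (measurePreserving_reflect (ℓ := ℓ)).integral_comp
    (Homeomorph.subLeft ℓ).measurableEmbedding (fun u => ∫ x in Ioc 0 ℓ, f (x, u))
  rw [← h3]
  apply setIntegral_congr_fun measurableSet_Ioo
  intro u hu
  simp only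
  exact periodic_setIntegral hℓ (f := fun x => f (x, ℓ - u))
    (fun x => by simp only [hper x _ (hrefl u hu)]) u

theorem continuous_PP (D : AngleData ℓ γ γ' γ'' ψ k) (N : NormData g h h' h'') (c : ℝ) :
    Continuous fun r : ℝ × ℝ => PP γ ψ k h h' h'' c r.1 r.2 := by
  have := D.cψ
  have := D.cγ
  have := D.ck
  have := N.ch
  have := N.ch'
  have := N.c2
  unfold PP
  fun_prop

theorem PP_period (D : AngleData ℓ γ γ' γ'' ψ k) (N : NormData g h h' h'') (c x φ : ℝ) :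
    PP γ ψ k h h' h'' c x (φ + 2 * π) = PP γ ψ k h h' h'' c x φ := by
  have e : φ + 2 * π - ψ x = (φ - ψ x) + 2 * π := by ring
  simp only [PP, N.per, N.per', N.per'', e, Real.sin_add_two_pi, Real.cos_add_two_pi]

theorem PP_period' (D : AngleData ℓ γ γ' γ'' ψ k) (c x φ : ℝ) :
    PP γ ψ k h h' h'' c (x + ℓ) φ = PP γ ψ k h h' h'' c x φ := by
  have e : φ - (ψ x + 2 * π) = (φ - ψ x) - 2 * π := by ring
  simp only [PP, D.per, D.k_add, D.ψ_add, e, Real.sin_sub_two_pi, Real.cos_sub_two_pi]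

theorem PP_bound (D : AngleData ℓ γ γ' γ'' ψ k) (N : NormData g h h' h'') (c : ℝ) :
    ∃ C, ∀ x ∈ Icc 0 ℓ, ∀ φ ∈ Icc (ψ x - π) (ψ x + π), |PP γ ψ k h h' h'' c x φ| ≤ C := by
  obtain ⟨B, hB⟩ := (isCompact_Icc (a := 0) (b := ℓ)).exists_bound_of_continuousOn
    D.cψ.continuousOn
  have hK : IsCompact ((Icc 0 ℓ : Set ℝ) ×ˢ (Icc (-B - π) (B + π) : Set ℝ)) :=
    isCompact_Icc.prod isCompact_Icc
  obtain ⟨C, hC⟩ := hK.exists_bound_of_continuousOn (continuous_PP D N c).continuousOn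
  refine ⟨C, fun x hx φ hφ => ?_⟩
  have h1 := abs_le.1 (hB x hx)
  exact hC (x, φ) ⟨hx, by linarith [hφ.1, h1.1], by linarith [hφ.2, h1.2]⟩

theorem pu_mem (D : AngleData ℓ γ γ' γ'' ψ k) {x u : ℝ} (hu : u ∈ Ioo 0 ℓ) :
    pu γ γ' ψ (x, u) ∈ Ioo (ψ x) (ψ x + π) := D.ph_mem (mem_Sig_u hu)

theorem int_first (D : AngleData ℓ γ γ' γ'' ψ k) {P : ℝ → ℝ → ℝ}
    (hP : Continuous fun r : ℝ × ℝ => P r.1 r.2) {C : ℝ}
    (hC : ∀ x ∈ Icc 0 ℓ, ∀ φ ∈ Icc (ψ x - π) (ψ x + π), |P x φ| ≤ C) (a : ℝ)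
    (ha : a ∈ Icc 0 π) :
    IntegrableOn (fun q => ww γ γ' ψ q * P q.1 (pu γ γ' ψ q - a)) (Ioc 0 ℓ ×ˢ Ioo 0 ℓ) ∧
      ∫ q in Ioc 0 ℓ ×ˢ Ioo 0 ℓ, ww γ γ' ψ q * P q.1 (pu γ γ' ψ q - a) =
        ∫ x in (0 : ℝ)..ℓ, ∫ φ in (ψ x - a)..(ψ x + π - a), P x φ := by
  have hcont : ContinuousOn (fun q : ℝ × ℝ => P q.1 (pu γ γ' ψ q - a)) (univ ×ˢ Ioo 0 ℓ) :=
    hP.comp_continuousOn
      (continuous_fst.continuousOn.prodMk ((pu_continuousOn D).sub continuousOn_const))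
  have hI : IntegrableOn (fun q => ww γ γ' ψ q * P q.1 (pu γ γ' ψ q - a))
        (Ioc 0 ℓ ×ˢ Ioo 0 ℓ) := by
    apply mul_ww_integrable D hcont (C := C)
    intro x hx u hu
    have := pu_mem D (x := x) hu
    exact hC x (Ioc_subset_Icc_self hx) _
      ⟨by linarith [this.1, ha.2], by linarith [this.2, ha.1]⟩
  refine ⟨hI, ?_⟩
  rw [Measure.volume_eq_prod] at hI ⊢
  rw [setIntegral_prod _ hI, intervalIntegral.integral_of_le D.pos.le]
  apply setIntegral_congr_fun measurableSet_Ioc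
  intro x _
  simp only
  rw [fibre_integral_u D x (fun φ => P x (φ - a))]
  exact intervalIntegral.integral_comp_sub_right (fun φ => P x φ) a

theorem two_parts (hℓ : 0 < ℓ) {F G1 G2 : ℝ × ℝ → ℝ}
    (hF : ∀ x, ∀ u ∈ Ioo 0 ℓ, F (x, u) = G1 (x, u) + G2 (x + u, ℓ - u))
    (i1 : IntegrableOn G1 (Ioc 0 ℓ ×ˢ Ioo 0 ℓ)) (i2 : IntegrableOn G2 (Ioc 0 ℓ ×ˢ Ioo 0 ℓ))
    (c2 : ContinuousOn G2 (univ ×ˢ Ioo 0 ℓ))
    (p2 : ∀ x, ∀ u ∈ Ioo 0 ℓ, G2 (x + ℓ, u) = G2 (x, u)) :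
    IntegrableOn F (Ioc 0 ℓ ×ˢ Ioo 0 ℓ) ∧
      ∫ q in Ioc 0 ℓ ×ˢ Ioo 0 ℓ, F q =
        (∫ q in Ioc 0 ℓ ×ˢ Ioo 0 ℓ, G1 q) + ∫ q in Ioc 0 ℓ ×ˢ Ioo 0 ℓ, G2 q := by
  obtain ⟨i3, v3⟩ := shear hℓ c2 p2 i2
  have hcongr : EqOn F (fun q => G1 q + G2 (q.1 + q.2, ℓ - q.2)) (Ioc 0 ℓ ×ˢ Ioo 0 ℓ) :=
    fun q hq => hF q.1 q.2 hq.2
  have hms : MeasurableSet ((Ioc 0 ℓ : Set ℝ) ×ˢ (Ioo 0 ℓ : Set ℝ)) :=
    measurableSet_Ioc.prod measurableSet_Ioo
  refine ⟨(i1.add i3).congr_fun hcongr.symm hms, ?_⟩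
  rw [setIntegral_congr_fun hms hcongr, integral_add i1 i3, v3]

theorem add_halves {P : ℝ → ℝ → ℝ} (hP : Continuous fun r : ℝ × ℝ => P r.1 r.2)
    (hper : ∀ x φ, P x (φ + 2 * π) = P x φ) (hψ : Continuous ψ) :
    (∫ x in (0 : ℝ)..ℓ, ∫ φ in (ψ x - 0)..(ψ x + π - 0), P x φ) +
      (∫ x in (0 : ℝ)..ℓ, ∫ φ in (ψ x - π)..(ψ x + π - π), P x φ) =
      ∫ x in (0 : ℝ)..ℓ, ∫ φ in (0 : ℝ)..(2 * π), P x φ := by
  have hcP : ∀ x, Continuous fun φ => P x φ := fun x =>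
    hP.comp (continuous_const.prodMk continuous_id)
  have cont_int : ∀ a b : ℝ, Continuous fun x : ℝ =>
      ∫ φ in (ψ x + a)..(ψ x + b), P x φ := by
    intro a b
    have h1 : ∀ x, ∫ φ in (ψ x + a)..(ψ x + b), P x φ = ∫ φ in a..b, P x (φ + ψ x) := by
      intro x
      rw [intervalIntegral.integral_comp_add_right (fun φ => P x φ)]
      congr 1 <;> ring
    simp_rw [h1]
    apply intervalIntegral.continuous_parametric_intervalIntegral_of_continuous' (μ := volume)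
    exact hP.comp (continuous_fst.prodMk (continuous_snd.add (hψ.comp continuous_fst)))
  have j1 : IntervalIntegrable (fun x => ∫ φ in (ψ x - 0)..(ψ x + π - 0), P x φ)
      volume 0 ℓ := by
    have := (cont_int 0 π).intervalIntegrable (μ := volume) 0 ℓ
    simpa using this
  have j2 : IntervalIntegrable (fun x => ∫ φ in (ψ x - π)..(ψ x + π - π), P x φ)
      volume 0 ℓ := by
    have := (cont_int (-π) 0).intervalIntegrable (μ := volume) 0 ℓ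
    simpa [sub_eq_add_neg] using this
  rw [← intervalIntegral.integral_add j1 j2]
  apply intervalIntegral.integral_congr
  intro x _
  simp only
  rw [add_comm, sub_zero, sub_zero, add_sub_cancel_right,
    intervalIntegral.integral_add_adjacent_intervals ((hcP x).intervalIntegrable _ _)
      ((hcP x).intervalIntegrable _ _)]
  have h2 := Function.Periodic.intervalIntegral_add_eq (f := fun φ => P x φ)
    (T := 2 * π) (fun φ => hper x φ) (ψ x - π) 0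
  rw [zero_add] at h2
  rw [← h2]
  congr 1
  ring

/-- the second part of `HH` in sheared coordinates -/
theorem HH_eq (D : AngleData ℓ γ γ' γ'' ψ k) (c : ℝ) {x u : ℝ} (hu : u ∈ Ioo 0 ℓ) :
    HH γ γ' ψ k h h' h'' c (x, x + u) =
      ww γ γ' ψ (x, u) * PP γ ψ k h h' h'' c x (pu γ γ' ψ (x, u) - 0) +
      ww γ γ' ψ (x + u, ℓ - u) *
        PP γ ψ k h h' h'' c (x + u) (pu γ γ' ψ (x + u, ℓ - u) - π) := by
  have hp := mem_Sig_u (x := x) hu
  have e1 : x + u + (ℓ - u) = x + ℓ := by ring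
  simp only [HH, ww, pu, e1, sub_zero]
  rw [D.al1_swap hp, D.lam_swap, D.ph_swap hp, Real.sin_pi_sub, add_sub_cancel_right]
  ring

theorem F2_period (D : AngleData ℓ γ γ' γ'' ψ k) (N : NormData g h h' h'') (c x u : ℝ) :
    ww γ γ' ψ (x + ℓ, u) * PP γ ψ k h h' h'' c (x + ℓ) (pu γ γ' ψ (x + ℓ, u) - π) =
      ww γ γ' ψ (x, u) * PP γ ψ k h h' h'' c x (pu γ γ' ψ (x, u) - π) := by
  have e1 : (x + ℓ, x + ℓ + u) = (x, x + u) + (ℓ, ℓ) := by
    simp only [Prod.mk_add_mk]; ring_nf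
  simp only [ww, pu, e1, D.al1_add, D.lam_add, D.ph_add]
  rw [PP_period' D]
  have e2 : ph γ γ' ψ (x, x + u) + 2 * π - π = (ph γ γ' ψ (x, x + u) - π) + 2 * π := by ring
  rw [e2, PP_period D N]

attribute [local irreducible] PP HH ww pu in
theorem HH_integral (D : AngleData ℓ γ γ' γ'' ψ k) (N : NormData g h h' h'') (c : ℝ) :
    IntegrableOn (fun q : ℝ × ℝ => HH γ γ' ψ k h h' h'' c (q.1, q.1 + q.2))
        (Ioc 0 ℓ ×ˢ Ioo 0 ℓ) ∧
      ∫ q in Ioc 0 ℓ ×ˢ Ioo 0 ℓ, HH γ γ' ψ k h h' h'' c (q.1, q.1 + q.2) =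
        ∫ x in (0 : ℝ)..ℓ, ∫ φ in (0 : ℝ)..(2 * π), PP γ ψ k h h' h'' c x φ := by
  have hpi := pi_pos
  have hcP := continuous_PP D N c
  obtain ⟨C, hC⟩ := PP_bound D N c
  obtain ⟨i1, v1⟩ := int_first D hcP hC 0 ⟨le_rfl, hpi.le⟩
  obtain ⟨i2, v2⟩ := int_first D hcP hC π ⟨hpi.le, le_rfl⟩
  have hcont2 : ContinuousOn (fun q : ℝ × ℝ =>
      ww γ γ' ψ q * PP γ ψ k h h' h'' c q.1 (pu γ γ' ψ q - π)) (univ ×ˢ Ioo 0 ℓ) :=
    (ww_continuousOn D).mul (hcP.comp_continuousOn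
      (continuous_fst.continuousOn.prodMk ((pu_continuousOn D).sub continuousOn_const)))
  have h3 := two_parts D.pos
    (F := fun q : ℝ × ℝ => HH γ γ' ψ k h h' h'' c (q.1, q.1 + q.2))
    (fun x u hu => HH_eq D c hu) i1 i2 hcont2 (fun x u _ => F2_period D N c x u)
  refine ⟨h3.1, ?_⟩
  rw [h3.2, v1, v2]
  exact add_halves hcP (fun x φ => PP_period D N c x φ) D.cψ

end Pool.Agent.MP_d2f538_an
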