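import Pool.Agent.Lib.MP_d2f538_an.Angle

/-!
# Rotational curves and charts of a foliation
-/

open Set Filter Topology MeasureTheory

namespace MPd2f538

/-- A parametrised rotational curve (lift to the strip). -/
structure Rot (l : ℝ) (c : ℝ → ℝ × ℝ) : Prop where
  cont : Continuous c
  inj : Function.Injective c
  per : ∀ s, c (s + 1) = c s + (l, l)

lemma exists_bound_periodic {f : ℝ → ℝ} (hf : Continuous f) (hp : Function.Periodic f 1) :
    ∃ M, ∀ s, |f s| ≤ M := by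
  obtain ⟨M, hM⟩ := isCompact_Icc.exists_bound_of_continuousOn (hf.continuousOn (s := Icc (0:ℝ) 1))
  refine ⟨M, fun s => ?_⟩
  obtain ⟨s', hs', he⟩ := hp.exists_mem_Ico₀ one_pos s
  rw [he]
  exact hM s' ⟨hs'.1, hs'.2.le⟩

section
variable {l : ℝ} {c : ℝ → ℝ × ℝ}

lemma Rot.exists_drift (hc : Rot l c) : ∃ M, ∀ s, |(c s).1 - s * l| ≤ M := by
  apply exists_bound_periodic
  · have := hc.cont; fun_prop
  · intro s
    simp only [hc.per, Prod.fst_add]
    ring

lemma Rot.emb (hl : 0 < l) (hc : Rot l c) (s0 : ℝ) {ε : ℝ} (hε : 0 < ε) :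
    ∃ δ > 0, ∀ s, dist (c s) (c s0) < δ → |s - s0| < ε := by
  obtain ⟨M, hM⟩ := hc.exists_drift
  have hM0 : 0 ≤ M := (abs_nonneg _).trans (hM 0)
  set R := ε + (2 * M + 1) / l with hR
  have hRε : ε ≤ R := by
    have : 0 ≤ (2 * M + 1) / l := by positivity
    linarith
  have hK : IsCompact {s : ℝ | ε ≤ |s - s0| ∧ |s - s0| ≤ R} := by
    have hsub : {s : ℝ | ε ≤ |s - s0| ∧ |s - s0| ≤ R} ⊆ Icc (s0 - R) (s0 + R) := by
      rintro s ⟨-, h2⟩
      rw [abs_le] at h2
      exact ⟨by linarith, by linarith⟩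
    apply isCompact_Icc.of_isClosed_subset _ hsub
    have hcont : Continuous fun s : ℝ => |s - s0| := by fun_prop
    exact (isClosed_le continuous_const hcont).inter (isClosed_le hcont continuous_const)
  have hne : {s : ℝ | ε ≤ |s - s0| ∧ |s - s0| ≤ R}.Nonempty := by
    refine ⟨s0 + R, ?_⟩
    have : |s0 + R - s0| = R := by
      rw [add_sub_cancel_left, abs_of_nonneg (hε.le.trans hRε)]
    exact ⟨by rw [this]; exact hRε, this.le⟩
  have hdc : Continuous fun s : ℝ => dist (c s) (c s0) := by have := hc.cont; fun_prop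
  obtain ⟨s1, hs1, hmin⟩ := hK.exists_isMinOn hne hdc.continuousOn
  have hpos : 0 < dist (c s1) (c s0) := by
    rw [dist_pos]
    intro h
    have := hc.inj h
    rw [this, mem_ofPred_eq, sub_self, abs_zero] at hs1
    linarith [hs1.1]
  refine ⟨min (dist (c s1) (c s0)) 1, lt_min hpos one_pos, ?_⟩
  intro s hs
  by_contra hcon
  push Not at hcon
  by_cases h2 : |s - s0| ≤ R
  · have := hmin ⟨hcon, h2⟩
    simp only [mem_ofPred_eq] at this
    have := hs.trans_le (min_le_left _ _)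
    linarith
  · push Not at h2
    have h3 := hM s
    have h4 := hM s0
    have h5 : |(c s).1 - (c s0).1| ≤ dist (c s) (c s0) := by
      rw [← Real.dist_eq, Prod.dist_eq]
      exact le_max_left _ _
    have h6 : |(s - s0) * l| ≤ |(c s).1 - (c s0).1| + 2 * M := by
      have : (s - s0) * l = ((c s).1 - (c s0).1) - ((c s).1 - s * l) + ((c s0).1 - s0 * l) := by ring
      rw [this]
      calc |((c s).1 - (c s0).1) - ((c s).1 - s * l) + ((c s0).1 - s0 * l)|
          ≤ |((c s).1 - (c s0).1) - ((c s).1 - s * l)| + |((c s0).1 - s0 * l)| := abs_add_le _ _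
        _ ≤ |(c s).1 - (c s0).1| + |(c s).1 - s * l| + |((c s0).1 - s0 * l)| := by
            gcongr; exact abs_sub _ _
        _ ≤ _ := by linarith
    rw [abs_mul, abs_of_pos hl] at h6
    have h7 := hs.trans_le (min_le_right _ _)
    have h8 : R * l < |s - s0| * l := mul_lt_mul_of_pos_right h2 hl
    have h9 : R * l = ε * l + (2 * M + 1) := by
      rw [hR]; field_simp
    have : 0 < ε * l := by positivity
    linarith

/-- inverse of the parametrisation -/
noncomputable def cinv (c : ℝ → ℝ × ℝ) : ℝ × ℝ → ℝ := Function.invFun c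

lemma Rot.cinv_left (hc : Rot l c) (s : ℝ) : cinv c (c s) = s := Function.leftInverse_invFun hc.inj s

lemma Rot.contOn_cinv (hl : 0 < l) (hc : Rot l c) : ContinuousOn (cinv c) (range c) := by
  rw [Metric.continuousOn_iff]
  rintro _ ⟨s0, rfl⟩ ε hε
  obtain ⟨δ, hδ, h⟩ := hc.emb hl s0 hε
  refine ⟨δ, hδ, ?_⟩
  rintro _ ⟨s, rfl⟩ hs
  rw [hc.cinv_left, hc.cinv_left, Real.dist_eq]
  exact h s hs

/-- A rotational curve has empty interior. -/
lemma Rot.no_ball (hl : 0 < l) (hc : Rot l c) (q : ℝ × ℝ) {r : ℝ} (hr : 0 < r) :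
    ¬ Metric.ball q r ⊆ range c := by
  intro hsub
  set z : ℝ → ℝ × ℝ := fun θ => (q.1 + r / 2 * Real.cos θ, q.2 + r / 2 * Real.sin θ) with hz
  have hzc : Continuous z := by fun_prop
  have hzm : ∀ θ, z θ ∈ range c := by
    intro θ
    apply hsub
    rw [Metric.mem_ball, Prod.dist_eq, max_lt_iff, Real.dist_eq, Real.dist_eq]
    simp only [hz, add_sub_cancel_left]
    rw [abs_mul, abs_mul, abs_of_pos (by positivity : 0 < r / 2)]
    have h1 := Real.abs_cos_le_one θ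
    have h2 := Real.abs_sin_le_one θ
    constructor <;> nlinarith
  set f : ℝ → ℝ := fun θ => cinv c (z θ) with hf
  have hfc : Continuous f := (hc.contOn_cinv hl).comp_continuous hzc hzm
  set d : ℝ → ℝ := fun θ => f θ - f (θ + Real.pi) with hd
  have hdc : Continuous d := by fun_prop
  have hz2 : ∀ θ, z (θ + Real.pi + Real.pi) = z θ := by
    intro θ
    simp only [hz]
    rw [show θ + Real.pi + Real.pi = θ + 2 * Real.pi by ring, Real.cos_add_two_pi,
      Real.sin_add_two_pi]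
  have hd2 : d (0 + Real.pi) = - d 0 := by
    simp only [hd, hf]
    rw [hz2]
    ring
  have hex : ∃ θ, d θ = 0 := by
    rcases le_total (d 0) 0 with h0 | h0
    · have h1 : 0 ≤ d (0 + Real.pi) := by rw [hd2]; linarith
      obtain ⟨θ, -, hθ⟩ := intermediate_value_Icc (by linarith [Real.pi_pos] : (0:ℝ) ≤ 0 + Real.pi)
        hdc.continuousOn (show (0:ℝ) ∈ Icc _ _ from ⟨h0, h1⟩)
      exact ⟨θ, hθ⟩
    · have h1 : d (0 + Real.pi) ≤ 0 := by rw [hd2]; linarith
      obtain ⟨θ, -, hθ⟩ := intermediate_value_Icc' (by linarith [Real.pi_pos] : (0:ℝ) ≤ 0 + Real.pi)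
        hdc.continuousOn (show (0:ℝ) ∈ Icc _ _ from ⟨h1, h0⟩)
      exact ⟨θ, hθ⟩
  obtain ⟨θ, hθ⟩ := hex
  have h1 : f θ = f (θ + Real.pi) := by simp only [hd] at hθ; linarith
  obtain ⟨s, hs⟩ := hzm θ
  obtain ⟨t, ht⟩ := hzm (θ + Real.pi)
  simp only [hf, ← hs, ← ht, hc.cinv_left] at h1
  rw [h1, ht] at hs
  have e1 := congrArg Prod.fst hs
  have e2 := congrArg Prod.snd hs
  simp only [hz, Real.cos_add_pi, Real.sin_add_pi] at e1 e2
  have h3 := Real.sin_sq_add_cos_sq θ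
  have c0 : Real.cos θ = 0 := by nlinarith
  have s0 : Real.sin θ = 0 := by nlinarith
  rw [c0, s0] at h3
  norm_num at h3

/-- A first integral of a chart is locally constant along a leaf. -/
lemma Rot.const_of_level (hl : 0 < l) (hc : Rot l c) {F : ℝ × ℝ → ℝ} {U : Set (ℝ × ℝ)}
    (hU : IsOpen U) (hF : ContinuousOn F U)
    (hlev : ∀ q ∈ U, ∀ q' ∈ U, F q = F q' → q ∈ range c → q' ∈ range c) {a b : ℝ}
    (hab : ∀ s ∈ Icc a b, c s ∈ U) {s t : ℝ} (hs : s ∈ Icc a b) (ht : t ∈ Icc a b) :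
    F (c s) = F (c t) := by
  by_contra hne
  have hcont : ContinuousOn (fun s => F (c s)) (Icc a b) :=
    hF.comp hc.cont.continuousOn hab
  have hoc : ((fun s => F (c s)) '' (Icc a b)).OrdConnected :=
    (isPreconnected_Icc.image _ hcont).ordConnected
  have key : ∀ v w, v ∈ (fun s => F (c s)) '' (Icc a b) → w ∈ (fun s => F (c s)) '' (Icc a b) →
      v < w → False := by
    intro v w hv hw hvw
    obtain ⟨x, hx1, hx2⟩ := exists_between hvw
    obtain ⟨s2, hs2, he⟩ := hoc.out hv hw ⟨hx1.le, hx2.le⟩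
    simp only at he
    have hnb : U ∩ {q | F q ∈ Ioo v w} ∈ 𝓝 (c s2) := by
      apply inter_mem (hU.mem_nhds (hab s2 hs2))
      have := hF.continuousAt (hU.mem_nhds (hab s2 hs2))
      apply this
      rw [he]
      exact Ioo_mem_nhds hx1 hx2
    obtain ⟨r, hr, hball⟩ := Metric.mem_nhds_iff.1 hnb
    apply hc.no_ball hl (c s2) hr
    intro q hq
    have hq' := hball hq
    obtain ⟨s3, hs3, he3⟩ := hoc.out hv hw ⟨hq'.2.1.le, hq'.2.2.le⟩
    exact hlev (c s3) (hab s3 hs3) q hq'.1 he3 (mem_range_self _)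
  rcases lt_or_gt_of_ne hne with h | h
  · exact key _ _ (mem_image_of_mem _ hs) (mem_image_of_mem _ ht) h
  · exact key _ _ (mem_image_of_mem _ ht) (mem_image_of_mem _ hs) h

end

/-- A `C¹` foliation of the strip by rotational curves, invariant under the map. -/
structure IsRotationalFoliation (l : ℝ) (L1 L2 : ℝ × ℝ → ℝ) (leaves : Set (Set (ℝ × ℝ))) :
    Prop where
  subset : ∀ C ∈ leaves, C ⊆ Sig l
  partition : ∀ p ∈ Sig l, ∃! C, C ∈ leaves ∧ p ∈ C
  rotational : ∀ C ∈ leaves, ∃ c : ℝ → ℝ × ℝ, Continuous c ∧ Function.Injective c ∧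
    (∀ s, c (s + 1) = c s + (l, l)) ∧ range c = C
  chart : ∀ p ∈ Sig l, ∃ F : ℝ × ℝ → ℝ, ∃ U ∈ 𝓝 p, ContDiffOn ℝ 1 F U ∧ fderiv ℝ F p ≠ 0 ∧
    ∀ q ∈ U, ∀ q' ∈ U, F q = F q' → ∀ C ∈ leaves, q ∈ C → q' ∈ C
  inv : ∀ C ∈ leaves, ∀ p ∈ C, ∀ z, (p.2, z) ∈ Sig l → L2 p + L1 (p.2, z) = 0 → (p.2, z) ∈ C

/-- A chart on an open convex set. -/
structure IsChart (l : ℝ) (leaves : Set (Set (ℝ × ℝ))) (F : ℝ × ℝ → ℝ) (U : Set (ℝ × ℝ)) :
    Prop where
  op : IsOpen U
  conv : Convex ℝ U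
  sub : U ⊆ Sig l
  cd : ContDiffOn ℝ 1 F U
  ne : ∀ q ∈ U, fderiv ℝ F q ≠ 0
  lev : ∀ q ∈ U, ∀ q' ∈ U, F q = F q' → ∀ C ∈ leaves, q ∈ C → q' ∈ C

/-- gradient as a complex number -/
noncomputable def gr (F : ℝ × ℝ → ℝ) (q : ℝ × ℝ) : ℂ := ⟨fderiv ℝ F q (1, 0), fderiv ℝ F q (0, 1)⟩

/-- squared unit tangent of the level set -/
noncomputable def tsq (n : ℂ) : ℂ := -(n ^ 2) / ((‖n‖ ^ 2 : ℝ) : ℂ)

lemma tsq_norm {n : ℂ} (hn : n ≠ 0) : ‖tsq n‖ = 1 := by
  have : (0:ℝ) < ‖n‖ ^ 2 := by positivity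
  rw [tsq, norm_div, norm_neg, norm_pow, Complex.norm_real, Real.norm_of_nonneg this.le,
    div_self this.ne']

/-- parallel vectors have the same `tsq` -/
lemma tsq_eq_of_cross {n m : ℂ} (hn : n ≠ 0) (hm : m ≠ 0) (h : n.re * m.im - n.im * m.re = 0) :
    tsq n = tsq m := by
  have key : n ^ 2 * ((‖m‖ ^ 2 : ℝ) : ℂ) = m ^ 2 * ((‖n‖ ^ 2 : ℝ) : ℂ) := by
    rw [← Complex.normSq_eq_norm_sq, ← Complex.normSq_eq_norm_sq, Complex.normSq_apply,
      Complex.normSq_apply]
    apply Complex.ext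
    · simp [pow_two]
      linear_combination (2 * (n.re * m.im + n.im * m.re)) * h
    · simp [pow_two]
      linear_combination (-2 * (n.re * m.re - n.im * m.im)) * h
  have h1 : ((‖n‖ ^ 2 : ℝ) : ℂ) ≠ 0 := by
    have : (0:ℝ) < ‖n‖ ^ 2 := by positivity
    exact_mod_cast this.ne'
  have h2 : ((‖m‖ ^ 2 : ℝ) : ℂ) ≠ 0 := by
    have : (0:ℝ) < ‖m‖ ^ 2 := by positivity
    exact_mod_cast this.ne'
  rw [tsq, tsq, div_eq_div_iff h1 h2]
  linear_combination -key

section chart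
variable {l : ℝ} {leaves : Set (Set (ℝ × ℝ))} {F : ℝ × ℝ → ℝ} {U : Set (ℝ × ℝ)}

lemma fderiv_eq_gr (F : ℝ × ℝ → ℝ) (q w : ℝ × ℝ) :
    fderiv ℝ F q w = (gr F q).re * w.1 + (gr F q).im * w.2 := by
  have : w = w.1 • ((1:ℝ), (0:ℝ)) + w.2 • ((0:ℝ), (1:ℝ)) := by ext <;> simp
  conv_lhs => rw [this]
  rw [map_add, map_smul, map_smul]
  simp only [gr, smul_eq_mul]
  ring

lemma IsChart.gr_ne (h : IsChart l leaves F U) {q : ℝ × ℝ} (hq : q ∈ U) : gr F q ≠ 0 := by
  intro h0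
  apply h.ne q hq
  ext
  · have := congrArg Complex.re h0
    simpa [gr] using this
  · have := congrArg Complex.im h0
    simpa [gr] using this

lemma IsChart.cont_fderiv (h : IsChart l leaves F U) : ContinuousOn (fun q => fderiv ℝ F q) U :=
  h.cd.continuousOn_fderiv_of_isOpen h.op le_rfl

lemma IsChart.cont_gr (h : IsChart l leaves F U) : ContinuousOn (gr F) U := by
  have h1 : ContinuousOn (fun q => fderiv ℝ F q (1, 0)) U :=
    h.cont_fderiv.clm_apply continuousOn_const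
  have h2 : ContinuousOn (fun q => fderiv ℝ F q (0, 1)) U :=
    h.cont_fderiv.clm_apply continuousOn_const
  have h3 : gr F = fun q => ((fderiv ℝ F q (1, 0) : ℝ) : ℂ) +
      ((fderiv ℝ F q (0, 1) : ℝ) : ℂ) * Complex.I := by
    ext q
    apply Complex.ext <;> simp [gr]
  rw [h3]
  exact (Complex.continuous_ofReal.comp_continuousOn h1).add
    ((Complex.continuous_ofReal.comp_continuousOn h2).mul continuousOn_const)

lemma IsChart.cont_tsq (h : IsChart l leaves F U) : ContinuousOn (fun q => tsq (gr F q)) U := by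
  unfold tsq
  apply ContinuousOn.div
  · exact (h.cont_gr.pow 2).neg
  · exact Complex.continuous_ofReal.comp_continuousOn (h.cont_gr.norm.pow 2)
  · intro q hq
    have := h.gr_ne hq
    have : (0:ℝ) < ‖gr F q‖ ^ 2 := by positivity
    exact_mod_cast this.ne'

lemma IsChart.cont (h : IsChart l leaves F U) : ContinuousOn F U := h.cd.continuousOn

/-- Rolle on a segment -/
lemma IsChart.rolle (h : IsChart l leaves F U) {p q : ℝ × ℝ} (hp : p ∈ U) (hq : q ∈ U)
    (he : F p = F q) : ∃ ξ ∈ segment ℝ p q,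
      (gr F ξ).re * (q.1 - p.1) + (gr F ξ).im * (q.2 - p.2) = 0 := by
  have hseg : ∀ t ∈ Icc (0:ℝ) 1, p + t • (q - p) ∈ U := by
    intro t ht
    have := h.conv hp hq (a := 1 - t) (b := t) (by linarith [ht.2]) ht.1 (by ring)
    have e : p + t • (q - p) = (1 - t) • p + t • q := by
      ext <;> simp <;> ring
    rw [e]; exact this
  have hd : ∀ t ∈ Icc (0:ℝ) 1, HasDerivAt (fun t : ℝ => F (p + t • (q - p)))
      (fderiv ℝ F (p + t • (q - p)) (q - p)) t := by
    intro t ht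
    have h1 : DifferentiableAt ℝ F (p + t • (q - p)) :=
      (h.cd.differentiableOn (by norm_num)).differentiableAt (h.op.mem_nhds (hseg t ht))
    have h2 : HasDerivAt (fun t : ℝ => p + t • (q - p)) (q - p) t := by
      simpa using ((hasDerivAt_id t).smul_const (q - p)).const_add p
    exact h1.hasFDerivAt.comp_hasDerivAt t h2
  obtain ⟨t, ht, ht0⟩ := exists_hasDerivAt_eq_zero (f := fun t : ℝ => F (p + t • (q - p)))
    (f' := fun t => fderiv ℝ F (p + t • (q - p)) (q - p)) (zero_lt_one)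
    (fun t ht => (hd t ht).continuousAt.continuousWithinAt) (by simp [he])
    (fun t ht => hd t ⟨ht.1.le, ht.2.le⟩)
  refine ⟨p + t • (q - p), ?_, ?_⟩
  · rw [segment_eq_image']
    exact ⟨t, ⟨ht.1.le, ht.2.le⟩, rfl⟩
  · rw [fderiv_eq_gr] at ht0
    simpa using ht0

end chart

section line
variable {l : ℝ} {L1 L2 : ℝ × ℝ → ℝ} {leaves : Set (Set (ℝ × ℝ))}

lemma IsRotationalFoliation.exists_rot (h : IsRotationalFoliation l L1 L2 leaves)
    {p : ℝ × ℝ} (hp : p ∈ Sig l) :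
    ∃ c, Rot l c ∧ range c ∈ leaves ∧ p ∈ range c := by
  obtain ⟨C, ⟨hC, hpC⟩, -⟩ := h.partition p hp
  obtain ⟨c, h1, h2, h3, h4⟩ := h.rotational C hC
  exact ⟨c, ⟨h1, h2, h3⟩, by rw [h4]; exact hC, by rw [h4]; exact hpC⟩

lemma IsRotationalFoliation.exists_chart (h : IsRotationalFoliation l L1 L2 leaves)
    {p : ℝ × ℝ} (hp : p ∈ Sig l) {V : Set (ℝ × ℝ)} (hV : V ∈ 𝓝 p) :
    ∃ F U, IsChart l leaves F U ∧ p ∈ U ∧ U ⊆ V := by
  obtain ⟨F, U, hU, hcd, hne, hlev⟩ := h.chart p hp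
  -- shrink to an open set where everything holds
  have hint : interior U ∈ 𝓝 p := interior_mem_nhds.2 hU
  have hcd' : ContDiffOn ℝ 1 F (interior U) := hcd.mono interior_subset
  have hcf : ContinuousOn (fun q => fderiv ℝ F q) (interior U) :=
    hcd'.continuousOn_fderiv_of_isOpen isOpen_interior le_rfl
  have hne' : ∀ᶠ q in 𝓝 p, fderiv ℝ F q ≠ 0 :=
    (hcf.continuousAt hint).eventually_ne hne
  have hall : interior U ∩ {q | fderiv ℝ F q ≠ 0} ∩ V ∩ Sig l ∈ 𝓝 p :=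
    inter_mem (inter_mem (inter_mem hint hne') hV) ((isOpen_Sig l).mem_nhds hp)
  obtain ⟨r, hr, hball⟩ := Metric.mem_nhds_iff.1 hall
  refine ⟨F, Metric.ball p r, ⟨Metric.isOpen_ball, convex_ball p r, fun q hq => (hball hq).2,
    hcd'.mono fun q hq => (hball hq).1.1.1, fun q hq => (hball hq).1.1.2, ?_⟩,
    Metric.mem_ball_self hr, fun q hq => (hball hq).1.2⟩
  intro q hq q' hq' e
  exact hlev q (interior_subset (hball hq).1.1.1) q' (interior_subset (hball hq').1.1.1) e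

/-- Two charts have parallel gradients. -/
lemma IsRotationalFoliation.cross (hl : 0 < l) (h : IsRotationalFoliation l L1 L2 leaves)
    {F F' : ℝ × ℝ → ℝ} {U U' : Set (ℝ × ℝ)} (hF : IsChart l leaves F U)
    (hF' : IsChart l leaves F' U') {q : ℝ × ℝ} (hq : q ∈ U) (hq' : q ∈ U') :
    (gr F q).re * (gr F' q).im - (gr F q).im * (gr F' q).re = 0 := by
  by_contra hne
  obtain ⟨c, hc, hcl, s0, rfl⟩ := h.exists_rot (hF.sub hq)
  have hca : ContinuousAt (fun z : (ℝ × ℝ) × (ℝ × ℝ) =>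
      (gr F z.1).re * (gr F' z.2).im - (gr F z.1).im * (gr F' z.2).re) (c s0, c s0) := by
    have h1 : ContinuousAt (fun z : (ℝ × ℝ) × (ℝ × ℝ) => gr F z.1) (c s0, c s0) :=
      ContinuousAt.comp (f := fun z : (ℝ × ℝ) × (ℝ × ℝ) => z.1)
        (hF.cont_gr.continuousAt (hF.op.mem_nhds hq)) continuousAt_fst
    have h2 : ContinuousAt (fun z : (ℝ × ℝ) × (ℝ × ℝ) => gr F' z.2) (c s0, c s0) :=
      ContinuousAt.comp (f := fun z : (ℝ × ℝ) × (ℝ × ℝ) => z.2)
        (hF'.cont_gr.continuousAt (hF'.op.mem_nhds hq')) continuousAt_snd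
    exact ((Complex.continuous_re.continuousAt.comp h1).mul
      (Complex.continuous_im.continuousAt.comp h2)).sub
      ((Complex.continuous_im.continuousAt.comp h1).mul
      (Complex.continuous_re.continuousAt.comp h2))
  have hev := hca.eventually_ne hne
  rw [nhds_prod_eq, Filter.eventually_prod_iff] at hev
  obtain ⟨P, hP, P', hP', hPP⟩ := hev
  have hN : {x | P x} ∩ {x | P' x} ∩ U ∩ U' ∈ 𝓝 (c s0) :=
    inter_mem (inter_mem (inter_mem hP hP') (hF.op.mem_nhds hq)) (hF'.op.mem_nhds hq')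
  obtain ⟨r, hr, hball⟩ := Metric.mem_nhds_iff.1 hN
  have hev2 : ∀ᶠ s in 𝓝 s0, c s ∈ Metric.ball (c s0) r :=
    hc.cont.continuousAt (Metric.ball_mem_nhds _ hr)
  obtain ⟨ε, hε, hε2⟩ := Metric.eventually_nhds_iff.1 hev2
  have hin : ∀ s ∈ Icc (s0 - ε / 2) (s0 + ε / 2), c s ∈ Metric.ball (c s0) r := by
    intro s hs
    apply hε2
    rw [Real.dist_eq, abs_lt]
    constructor <;> linarith [hs.1, hs.2]
  have hs0 : s0 ∈ Icc (s0 - ε / 2) (s0 + ε / 2) := ⟨by linarith, by linarith⟩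
  have hs1 : s0 + ε / 2 ∈ Icc (s0 - ε / 2) (s0 + ε / 2) := ⟨by linarith, by linarith⟩
  have e1 : F (c s0) = F (c (s0 + ε / 2)) := hc.const_of_level hl hF.op hF.cont
    (fun q hq q' hq' e hh => hF.lev q hq q' hq' e _ hcl hh)
    (fun s hs => (hball (hin s hs)).1.2) hs0 hs1
  have e2 : F' (c s0) = F' (c (s0 + ε / 2)) := hc.const_of_level hl hF'.op hF'.cont
    (fun q hq q' hq' e hh => hF'.lev q hq q' hq' e _ hcl hh)
    (fun s hs => (hball (hin s hs)).2) hs0 hs1
  obtain ⟨ξ, hξ, h1⟩ := hF.rolle (hball (hin _ hs0)).1.2 (hball (hin _ hs1)).1.2 e1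
  obtain ⟨ξ', hξ', h2⟩ := hF'.rolle (hball (hin _ hs0)).2 (hball (hin _ hs1)).2 e2
  have hξb := hball ((convex_ball (c s0) r).segment_subset (hin _ hs0) (hin _ hs1) hξ)
  have hξb' := hball ((convex_ball (c s0) r).segment_subset (hin _ hs0) (hin _ hs1) hξ')
  have hne2 := hPP hξb.1.1.1 hξb'.1.1.2
  simp only at hne2
  apply hne2
  set w := c (s0 + ε / 2)
  set v := c s0
  have hwv : w ≠ v := by
    intro he
    have := hc.inj he
    linarith
  by_cases hw1 : w.1 - v.1 = 0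
  · have hw2 : w.2 - v.2 ≠ 0 := by
      intro hw2
      exact hwv (Prod.ext (by linarith) (by linarith))
    rw [hw1] at h1 h2
    have i1 : (gr F ξ).im = 0 := by
      have : (gr F ξ).im * (w.2 - v.2) = 0 := by linarith
      exact (mul_eq_zero.1 this).resolve_right hw2
    have i2 : (gr F' ξ').im = 0 := by
      have : (gr F' ξ').im * (w.2 - v.2) = 0 := by linarith
      exact (mul_eq_zero.1 this).resolve_right hw2
    rw [i1, i2]; ring
  · have : (w.1 - v.1) * ((gr F ξ).re * (gr F' ξ').im - (gr F ξ).im * (gr F' ξ').re) = 0 := by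
      linear_combination (gr F' ξ').im * h1 - (gr F ξ).im * h2
    exact (mul_eq_zero.1 this).resolve_left hw1

end line

end MPd2f538
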