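import Pool.Agent.Lib.MP_d2f538_an.Transfer

/-!
# Measure argument on the whole strip
-/

open Set Filter Topology MeasureTheory
open scoped ENNReal

namespace MPd2f538

/-- lintegral over a fundamental domain -/
noncomputable def JJ (l : ℝ) (G : ℝ × ℝ → ℝ≥0∞) : ℝ≥0∞ :=
  ∫⁻ x in Ioc (0:ℝ) l, ∫⁻ u in Ioo (0:ℝ) l, G (x, x + u)

lemma per_lint {l : ℝ} (hl : 0 < l) {φ : ℝ → ℝ≥0∞} (hφ : Function.Periodic φ l) (a b : ℝ) :
    ∫⁻ x in Ioc a (a + l), φ x = ∫⁻ x in Ioc b (b + l), φ x := by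
  have : VAddInvariantMeasure (AddSubgroup.zmultiples l) ℝ volume :=
    ⟨fun c s _ => measure_preimage_add _ _ _⟩
  apply IsAddFundamentalDomain.setLIntegral_eq (G := AddSubgroup.zmultiples l)
  exacts [isAddFundamentalDomain_Ioc hl a, isAddFundamentalDomain_Ioc hl b, hφ.map_vadd_zmultiples]

lemma per_lint_sub {l : ℝ} (hl : 0 < l) {φ : ℝ → ℝ≥0∞} (hφ : Function.Periodic φ l) (u : ℝ) :
    ∫⁻ x in Ioc 0 l, φ (x - u) = ∫⁻ x in Ioc 0 l, φ x := by
  have h1 := (measurePreserving_sub_right (volume : Measure ℝ) u).setLIntegral_comp_emb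
    (MeasurableEquiv.subRight u).measurableEmbedding φ (Ioc 0 l)
  have h2 : (fun x : ℝ => x - u) '' Ioc 0 l = Ioc (-u) (-u + l) := by
    rw [image_sub_const_Ioc, zero_sub]
    congr 1
    ring
  rw [h2] at h1
  rw [h1, per_lint hl hφ (-u) 0, zero_add]

lemma JJ_swap {l : ℝ} (hl : 0 < l) {G : ℝ × ℝ → ℝ≥0∞} (hG : Measurable G)
    (hper : ∀ p, G (p + (l, l)) = G p) :
    JJ l G = ∫⁻ y in Ioc (0:ℝ) l, ∫⁻ u in Ioo (0:ℝ) l, G (y - u, y) := by
  unfold JJ
  rw [lintegral_lintegral_swap]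
  swap
  · apply Measurable.aemeasurable
    unfold Function.uncurry
    fun_prop
  have h1 : ∀ u : ℝ, ∫⁻ x in Ioc (0:ℝ) l, G (x, x + u) = ∫⁻ y in Ioc (0:ℝ) l, G (y - u, y) := by
    intro u
    have hp : Function.Periodic (fun x : ℝ => G (x, x + u)) l := by
      intro x
      have := hper (x, x + u)
      simp only [Prod.mk_add_mk] at this
      simp only
      rw [← this]
      congr 2
      ring
    have := per_lint_sub hl hp u
    simp only [sub_add_cancel] at this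
    exact this.symm
  simp_rw [h1]
  rw [lintegral_lintegral_swap]
  apply Measurable.aemeasurable
  unfold Function.uncurry
  fun_prop

section
variable {l : ℝ} {L L1 L2 L11 L12 L22 : ℝ × ℝ → ℝ} (h : TwistGen l L L1 L2 L11 L12 L22)
include h

lemma TwistGen.deriv_f1 (b : ℝ) {u : ℝ} (hu : u ∈ Ioo 0 l) :
    HasDerivAt (fun u => L2 (b - u, b)) (-L12 (b - u, b)) u := by
  have h1 := h.hasDerivAt_L2_fst (mem_Sig_sub (x := b) hu)
  have h2 : HasDerivAt (fun u : ℝ => b - u) (-1) u := by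
    simpa using (hasDerivAt_id u).const_sub b
  have := h1.comp u h2
  simpa [Function.comp_def] using this

lemma TwistGen.deriv_f2 (b : ℝ) {u : ℝ} (hu : u ∈ Ioo 0 l) :
    HasDerivAt (fun u => - L1 (b, b + u)) (-L12 (b, b + u)) u := by
  have h1 := h.hasDerivAt_L1_snd (mem_Sig_add (x := b) hu)
  have h2 : HasDerivAt (fun u : ℝ => b + u) 1 u := by
    simpa using (hasDerivAt_id u).const_add b
  have := (h1.comp u h2).neg
  simpa [Function.comp_def, Pi.neg_def] using this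

lemma TwistGen.inj_f1 (b : ℝ) : InjOn (fun u => L2 (b - u, b)) (Ioo 0 l) := by
  intro u hu v hv e
  have := h.L2_inj (mem_Sig_sub (x := b) hu) (mem_Sig_sub (x := b) hv) e
  linarith

lemma TwistGen.inj_f2 (b : ℝ) : InjOn (fun u => - L1 (b, b + u)) (Ioo 0 l) := by
  intro u hu v hv e
  have := h.L1_inj (mem_Sig_add (x := b) hu) (mem_Sig_add (x := b) hv) (neg_injective e)
  linarith

lemma TwistGen.image_f (b : ℝ) :
    (fun u => L2 (b - u, b)) '' (Ioo 0 l) = (fun u => - L1 (b, b + u)) '' (Ioo 0 l) := by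
  ext q
  constructor
  · rintro ⟨u, hu, rfl⟩
    have hs := mem_Sig_sub (x := b) hu
    have hn := h.nx_mem hs
    refine ⟨nx l L1 L2 (b - u, b) - b, ⟨by linarith [hn.1], by linarith [hn.2]⟩, ?_⟩
    have := h.nx_eq hs
    simp only at this ⊢
    rw [show b + (nx l L1 L2 (b - u, b) - b) = nx l L1 L2 (b - u, b) by ring]
    linarith
  · rintro ⟨u, hu, rfl⟩
    have hs := mem_Sig_add (x := b) hu
    obtain ⟨z, hz, e⟩ := h.ex_prev _ hs
    simp only at hz e
    refine ⟨b - z, ⟨by linarith [hz.1], by linarith [hz.2]⟩, ?_⟩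
    simp only [sub_sub_cancel]
    linarith

lemma TwistGen.transfer_lint (g : ℝ × ℝ → ℝ≥0∞) (b : ℝ) :
    ∫⁻ u in Ioo (0:ℝ) l, ENNReal.ofReal (L12 (b - u, b)) * g (TT l L1 L2 (b - u, b)) =
      ∫⁻ u in Ioo (0:ℝ) l, ENNReal.ofReal (L12 (b, b + u)) * g (b, b + u) := by
  set f2 : ℝ → ℝ := fun u => - L1 (b, b + u) with hf2
  set f1 : ℝ → ℝ := fun u => L2 (b - u, b) with hf1
  set c : ℝ → ℝ := Function.invFunOn f2 (Ioo 0 l) with hc
  have inj2 : InjOn f2 (Ioo 0 l) := h.inj_f2 b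
  have himg : f1 '' (Ioo 0 l) = f2 '' (Ioo 0 l) := h.image_f b
  have l1 := lintegral_image_eq_lintegral_abs_deriv_mul (f := f1)
    (f' := fun u => -L12 (b - u, b)) measurableSet_Ioo
    (fun u hu => (h.deriv_f1 b hu).hasDerivWithinAt) (h.inj_f1 b) (fun q => g (b, b + c q))
  have l2 := lintegral_image_eq_lintegral_abs_deriv_mul (f := f2)
    (f' := fun u => -L12 (b, b + u)) measurableSet_Ioo
    (fun u hu => (h.deriv_f2 b hu).hasDerivWithinAt) (h.inj_f2 b) (fun q => g (b, b + c q))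
  rw [himg] at l1
  have m1 : ∫⁻ u in Ioo (0:ℝ) l, ENNReal.ofReal (L12 (b - u, b)) * g (TT l L1 L2 (b - u, b)) =
      ∫⁻ u in Ioo (0:ℝ) l, ENNReal.ofReal (|-L12 (b - u, b)|) * g (b, b + c (f1 u)) := by
    apply setLIntegral_congr_fun measurableSet_Ioo
    intro u hu
    have hs := mem_Sig_sub (x := b) hu
    have hn := h.nx_mem hs
    have hmem : f1 u ∈ f2 '' (Ioo 0 l) := by rw [← himg]; exact mem_image_of_mem _ hu
    have hce : c (f1 u) = nx l L1 L2 (b - u, b) - b := by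
      apply inj2
      · exact Function.invFunOn_mem hmem
      · exact ⟨by linarith [hn.1], by linarith [hn.2]⟩
      · have e : f2 (c (f1 u)) = f1 u := Function.invFunOn_eq hmem
        rw [e]
        have := h.nx_eq hs
        simp only [hf1, hf2] at this ⊢
        rw [show b + (nx l L1 L2 (b - u, b) - b) = nx l L1 L2 (b - u, b) by ring]
        linarith
    simp only [hce, abs_neg, abs_of_nonneg (h.L12_nonneg hs)]
    rw [show b + (nx l L1 L2 (b - u, b) - b) = nx l L1 L2 (b - u, b) by ring]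
    rfl
  have m2 : ∫⁻ u in Ioo (0:ℝ) l, ENNReal.ofReal (L12 (b, b + u)) * g (b, b + u) =
      ∫⁻ u in Ioo (0:ℝ) l, ENNReal.ofReal (|-L12 (b, b + u)|) * g (b, b + c (f2 u)) := by
    apply setLIntegral_congr_fun measurableSet_Ioo
    intro u hu
    have hs := mem_Sig_add (x := b) hu
    have hce : c (f2 u) = u := inj2.leftInvOn_invFunOn hu
    simp only [hce, abs_neg, abs_of_nonneg (h.L12_nonneg hs)]
  rw [m1, m2, ← l1, ← l2]

lemma TwistGen.fibre_finite {B : ℝ} (hB : ∀ p ∈ Sig l, |L2 p| ≤ B) (b : ℝ) :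
    ∫⁻ u in Ioo (0:ℝ) l, ENNReal.ofReal (L12 (b, b + u)) ≤ ENNReal.ofReal (2 * B) := by
  have h0 := h.transfer_lint (fun _ => 1) b
  simp only [mul_one] at h0
  rw [← h0]
  have l1 := lintegral_image_eq_lintegral_abs_deriv_mul (f := fun u => L2 (b - u, b))
    (f' := fun u => -L12 (b - u, b)) measurableSet_Ioo
    (fun u hu => (h.deriv_f1 b hu).hasDerivWithinAt) (h.inj_f1 b) (fun _ => 1)
  simp only [mul_one, lintegral_one, Measure.restrict_apply_univ, abs_neg] at l1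
  have m1 : ∫⁻ u in Ioo (0:ℝ) l, ENNReal.ofReal (L12 (b - u, b)) =
      ∫⁻ u in Ioo (0:ℝ) l, ENNReal.ofReal (|L12 (b - u, b)|) := by
    apply setLIntegral_congr_fun measurableSet_Ioo
    intro u hu
    simp only [abs_of_nonneg (h.L12_nonneg (mem_Sig_sub (x := b) hu))]
  rw [m1, ← l1]
  have hsub : (fun u => L2 (b - u, b)) '' (Ioo 0 l) ⊆ Icc (-B) B := by
    rintro _ ⟨u, hu, rfl⟩
    exact abs_le.1 (hB _ (mem_Sig_sub (x := b) hu))
  refine (measure_mono hsub).trans ?_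
  rw [Real.volume_Icc]
  apply le_of_eq
  congr 1
  ring

end

lemma measurable_ind {l : ℝ} {φ : ℝ × ℝ → ℝ≥0∞} (hφ : ContinuousOn φ (Sig l)) :
    Measurable ((Sig l).indicator φ) := by
  classical
  exact ContinuousOn.measurable_piecewise (g := fun _ => (0:ℝ≥0∞)) hφ continuousOn_const
    (isOpen_Sig l).measurableSet

section
variable {l : ℝ} {L L1 L2 L11 L12 L22 : ℝ × ℝ → ℝ} (h : TwistGen l L L1 L2 L11 L12 L22)
include h

/-- Measure argument on the whole strip. -/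
lemma TwistGen.eq_of_le' {B : ℝ} (hB : ∀ p ∈ Sig l, |L2 p| ≤ B) {g : ℝ × ℝ → ℝ}
    (hg : ContinuousOn g (Sig l)) (hper : ∀ p ∈ Sig l, g (p + (l, l)) = g p)
    (h0 : ∀ p ∈ Sig l, 0 ≤ g p) (h1 : ∀ p ∈ Sig l, g p ≤ 1)
    (hle : ∀ p ∈ Sig l, g p ≤ g (TT l L1 L2 p)) {p : ℝ × ℝ} (hp : p ∈ Sig l) :
    g (TT l L1 L2 p) = g p := by
  have hl := h.lpos
  have hgT : ContinuousOn (fun p => g (TT l L1 L2 p)) (Sig l) :=
    hg.comp h.contOn_T fun p hp => h.T_mem hp
  set φ1 : ℝ × ℝ → ℝ≥0∞ := fun p => ENNReal.ofReal (L12 p) * ENNReal.ofReal (g p) with hφ1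
  set φ2 : ℝ × ℝ → ℝ≥0∞ := fun p => ENNReal.ofReal (L12 p) * ENNReal.ofReal (g (TT l L1 L2 p))
    with hφ2
  have hφ1' : φ1 = fun p => ENNReal.ofReal (L12 p) * ENNReal.ofReal (g p) := hφ1
  have cof : ∀ {F : ℝ × ℝ → ℝ}, ContinuousOn F (Sig l) →
      ContinuousOn (fun p => ENNReal.ofReal (F p)) (Sig l) := fun hF =>
    ENNReal.continuous_ofReal.comp_continuousOn hF
  have cmul : ∀ {F G : ℝ × ℝ → ℝ}, ContinuousOn F (Sig l) → ContinuousOn G (Sig l) →
      (∀ p ∈ Sig l, 0 ≤ F p) →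
      ContinuousOn (fun p => ENNReal.ofReal (F p) * ENNReal.ofReal (G p)) (Sig l) := by
    intro F G hF hG hF0
    have : ContinuousOn (fun p => ENNReal.ofReal (F p * G p)) (Sig l) := cof (hF.mul hG)
    refine this.congr fun p hp => ?_
    exact (ENNReal.ofReal_mul (hF0 p hp)).symm
  have c1 : ContinuousOn φ1 (Sig l) := cmul h.c12 hg fun p hp => h.L12_nonneg hp
  have c2 : ContinuousOn φ2 (Sig l) := cmul h.c12 hgT fun p hp => h.L12_nonneg hp
  have hm1 := measurable_ind c1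
  have hm2 := measurable_ind c2
  have p1 : ∀ p, (Sig l).indicator φ1 (p + (l, l)) = (Sig l).indicator φ1 p := by
    intro p
    by_cases hp : p ∈ Sig l
    · rw [indicator_of_mem hp, indicator_of_mem (Sig_shift.2 hp)]
      simp only [hφ1, h.p12 p hp, hper p hp]
    · rw [indicator_of_notMem hp, indicator_of_notMem (fun hc => hp (Sig_shift.1 hc))]
  have p2 : ∀ p, (Sig l).indicator φ2 (p + (l, l)) = (Sig l).indicator φ2 p := by
    intro p
    by_cases hp : p ∈ Sig l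
    · rw [indicator_of_mem hp, indicator_of_mem (Sig_shift.2 hp)]
      simp only [hφ2, h.p12 p hp, h.T_shift hp, hper _ (h.T_mem hp)]
    · rw [indicator_of_notMem hp, indicator_of_notMem (fun hc => hp (Sig_shift.1 hc))]
  -- equality of the integrals
  have hJJ : JJ l ((Sig l).indicator φ2) = JJ l ((Sig l).indicator φ1) := by
    rw [JJ_swap hl hm2 p2]
    unfold JJ
    apply setLIntegral_congr_fun measurableSet_Ioc
    intro b _
    have e2 : ∫⁻ u in Ioo (0:ℝ) l, (Sig l).indicator φ2 (b - u, b) =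
        ∫⁻ u in Ioo (0:ℝ) l, ENNReal.ofReal (L12 (b - u, b)) *
          ENNReal.ofReal (g (TT l L1 L2 (b - u, b))) := by
      apply setLIntegral_congr_fun measurableSet_Ioo
      intro u hu
      simp only [indicator_of_mem (mem_Sig_sub (x := b) hu), hφ2]
    have e1 : ∫⁻ u in Ioo (0:ℝ) l, (Sig l).indicator φ1 (b, b + u) =
        ∫⁻ u in Ioo (0:ℝ) l, ENNReal.ofReal (L12 (b, b + u)) *
          ENNReal.ofReal (g (b, b + u)) := by
      apply setLIntegral_congr_fun measurableSet_Ioo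
      intro u hu
      simp only [indicator_of_mem (mem_Sig_add (x := b) hu), hφ1]
    simp only [e1, e2]
    exact h.transfer_lint (fun p => ENNReal.ofReal (g p)) b
  -- product form
  have hprod : ∀ {G : ℝ × ℝ → ℝ≥0∞}, Measurable G →
      ∫⁻ q in Ioc (0:ℝ) l ×ˢ Ioo (0:ℝ) l, G (q.1, q.1 + q.2) = JJ l G := by
    intro G hG
    have hGm : Measurable fun q : ℝ × ℝ => G (q.1, q.1 + q.2) := by fun_prop
    rw [Measure.volume_eq_prod, ← Measure.prod_restrict, lintegral_prod _ hGm.aemeasurable]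
    rfl
  have hfin : ∫⁻ q in Ioc (0:ℝ) l ×ˢ Ioo (0:ℝ) l, (Sig l).indicator φ1 (q.1, q.1 + q.2) ≠ ∞ := by
    rw [hprod hm1]
    apply ne_of_lt
    calc JJ l ((Sig l).indicator φ1) ≤ ∫⁻ x in Ioc (0:ℝ) l, ENNReal.ofReal (2 * B) := by
          apply lintegral_mono
          intro b
          refine le_trans ?_ (h.fibre_finite hB b)
          apply setLIntegral_mono' measurableSet_Ioo
          intro u hu
          have hs := mem_Sig_add (x := b) hu
          rw [indicator_of_mem hs]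
          calc φ1 (b, b + u) ≤ ENNReal.ofReal (L12 (b, b + u)) * 1 := by
                simp only [hφ1]
                gcongr
                exact ENNReal.ofReal_le_one.2 (h1 _ hs)
            _ = _ := mul_one _
      _ < ∞ := by
          rw [lintegral_const, Measure.restrict_apply_univ, Real.volume_Ioc]
          exact ENNReal.mul_lt_top ENNReal.ofReal_lt_top ENNReal.ofReal_lt_top
  have hae : (fun q : ℝ × ℝ => (Sig l).indicator φ1 (q.1, q.1 + q.2))
      =ᵐ[volume.restrict (Ioc (0:ℝ) l ×ˢ Ioo (0:ℝ) l)]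
      fun q : ℝ × ℝ => (Sig l).indicator φ2 (q.1, q.1 + q.2) := by
    apply ae_eq_of_ae_le_of_lintegral_le
    · refine Eventually.of_forall fun q => ?_
      by_cases hq : (q.1, q.1 + q.2) ∈ Sig l
      · simp only [indicator_of_mem hq, hφ1, hφ2]
        gcongr
        exact hle _ hq
      · simp only [indicator_of_notMem hq, le_refl]
    · exact hfin
    · exact (hm2.comp (by fun_prop : Measurable fun q : ℝ × ℝ => (q.1, q.1 + q.2))).aemeasurable
    · rw [hprod hm1, hprod hm2, hJJ]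
  -- contradiction
  by_contra hne
  have hlt : g p < g (TT l L1 L2 p) := lt_of_le_of_ne (hle p hp) (Ne.symm hne)
  have hU : {q | g q < g (TT l L1 L2 q)} ∈ 𝓝 p :=
    (hg.continuousAt ((isOpen_Sig l).mem_nhds hp)).eventually_lt
      (hgT.continuousAt ((isOpen_Sig l).mem_nhds hp)) hlt
  obtain ⟨q0, ⟨hq0U, hq0S⟩, hq012⟩ := h.exists_L12_pos hp hU
  set W : Set (ℝ × ℝ) := {q | q ∈ Sig l ∧ g q < g (TT l L1 L2 q) ∧ 0 < L12 q} with hW
  have hWo : IsOpen W := by
    rw [isOpen_iff_mem_nhds]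
    rintro q ⟨hq, hq1, hq2⟩
    have n1 := (isOpen_Sig l).mem_nhds hq
    filter_upwards [n1, (hg.continuousAt n1).eventually_lt (hgT.continuousAt n1) hq1,
      (h.c12.continuousAt n1).eventually_const_lt hq2] with z hz1 hz2 hz3
    exact ⟨hz1, hz2, hz3⟩
  have hq0W : q0 ∈ W := ⟨hq0S, hq0U, hq012⟩
  have hWper : ∀ q, q + (l, l) ∈ W ↔ q ∈ W := by
    intro q
    constructor
    · rintro ⟨h1, h2, h3⟩
      have hq := Sig_shift.1 h1
      rw [hper q hq, h.T_shift hq, hper _ (h.T_mem hq)] at h2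
      rw [h.p12 q hq] at h3
      exact ⟨hq, h2, h3⟩
    · rintro ⟨hq, h2, h3⟩
      refine ⟨Sig_shift.2 hq, ?_, ?_⟩
      · rw [hper q hq, h.T_shift hq, hper _ (h.T_mem hq)]; exact h2
      · rw [h.p12 q hq]; exact h3
  set u0 := q0.2 - q0.1 with hu0
  have hu0m : u0 ∈ Ioo 0 l := ⟨by linarith [hq0S.1], by linarith [hq0S.2]⟩
  have hpr : Function.Periodic (fun x : ℝ => (x, x + u0) ∈ W) l := by
    intro x
    have := hWper (x, x + u0)
    simp only [Prod.mk_add_mk] at this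
    change ((x + l, x + l + u0) ∈ W) = ((x, x + u0) ∈ W)
    rw [show x + l + u0 = x + u0 + l by ring]
    exact propext this
  obtain ⟨x1, hx1, hx1e⟩ := hpr.exists_mem_Ico₀ hl q0.1
  have hq0e : (q0.1, q0.1 + u0) = q0 := by ext <;> simp [hu0]
  have hx1W : (x1, x1 + u0) ∈ W := by
    have : (q0.1, q0.1 + u0) ∈ W := by rw [hq0e]; exact hq0W
    rw [← hx1e]; exact this
  set W' : Set (ℝ × ℝ) := (fun q : ℝ × ℝ => (q.1, q.1 + q.2)) ⁻¹' W with hW'
  have hW'o : IsOpen W' := hWo.preimage (by fun_prop)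
  have hW'1 : (x1, u0) ∈ W' := hx1W
  -- move slightly to the right
  have hxc : Continuous fun x : ℝ => ((x, u0) : ℝ × ℝ) := by fun_prop
  have hev : ∀ᶠ x in 𝓝 x1, (x, u0) ∈ W' ∧ x < l :=
    (hxc.continuousAt.eventually (hW'o.mem_nhds hW'1)).and (Iio_mem_nhds hx1.2)
  have hev' : ∀ᶠ x in 𝓝[>] x1, ((x, u0) ∈ W' ∧ x < l) ∧ x1 < x :=
    (hev.filter_mono nhdsWithin_le_nhds).and self_mem_nhdsWithin
  obtain ⟨x2, ⟨hx2W, hx2l⟩, hx2⟩ := hev'.exists
  set O : Set (ℝ × ℝ) := W' ∩ (Ioo 0 l ×ˢ Ioo 0 l) with hO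
  have hOo : IsOpen O := hW'o.inter (isOpen_Ioo.prod isOpen_Ioo)
  have hOne : O.Nonempty := ⟨(x2, u0), hx2W, ⟨lt_of_le_of_lt hx1.1 hx2, hx2l⟩, hu0m⟩
  have hOpos : 0 < volume O := hOo.measure_pos volume hOne
  have hOsub : O ⊆ Ioc (0:ℝ) l ×ˢ Ioo (0:ℝ) l := fun q hq =>
    ⟨⟨hq.2.1.1, hq.2.1.2.le⟩, hq.2.2⟩
  have hO0 : volume O = 0 := by
    have h2 : (volume.restrict (Ioc (0:ℝ) l ×ˢ Ioo (0:ℝ) l)) O = 0 := by
      apply measure_mono_null _ (ae_iff.1 hae)
      intro q hq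
      have hqW : (q.1, q.1 + q.2) ∈ W := hq.1
      obtain ⟨hq1, hq2, hq3⟩ := hqW
      simp only [mem_ofPred_eq, indicator_of_mem hq1, hφ1, hφ2]
      intro he
      have hpos : ENNReal.ofReal (L12 (q.1, q.1 + q.2)) ≠ 0 := by
        rw [Ne, ENNReal.ofReal_eq_zero, not_le]; exact hq3
      have := (ENNReal.mul_right_inj hpos ENNReal.ofReal_ne_top).1 he
      rw [ENNReal.ofReal_eq_ofReal_iff (h0 _ hq1) (h0 _ (h.T_mem hq1))] at this
      linarith
    rwa [Measure.restrict_apply hOo.measurableSet, inter_eq_left.2 hOsub] at h2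
  rw [hO0] at hOpos
  exact lt_irrefl _ hOpos

end

end MPd2f538
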