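import Pool.Agent.Lib.MP_d2f538_an.Mono2

/-!
# The leaves are increasing graphs (conclusion)
-/

open Set Filter Topology MeasureTheory

namespace MPd2f538

/-- cut-off in the leaf index -/
noncomputable def bump (n a : ℝ) : ℝ := max 0 (min 1 (n - |a|))

lemma cont_bump (n : ℝ) : Continuous (bump n) := by unfold bump; fun_prop

lemma bump_nonneg (n a : ℝ) : 0 ≤ bump n a := le_max_left _ _

lemma bump_le_one (n a : ℝ) : bump n a ≤ 1 := max_le zero_le_one (min_le_left _ _)

lemma bump_zero {n a : ℝ} (h : n ≤ |a|) : bump n a = 0 := by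
  unfold bump
  rw [max_eq_left]
  exact (min_le_right _ _).trans (by linarith)

lemma bump_pos {n a : ℝ} (h : |a| < n) : 0 < bump n a := by
  unfold bump
  exact lt_max_of_lt_right (lt_min one_pos (by linarith))

lemma bump_one {n a : ℝ} (h : |a| + 1 ≤ n) : bump n a = 1 := by
  unfold bump
  rw [min_eq_left (by linarith), max_eq_right zero_le_one]

/-- ramp function -/
noncomputable def ramp (c t : ℝ) : ℝ := max 0 (min 1 ((c - t) / (Real.pi / 2)))

lemma cont_ramp (c : ℝ) : Continuous (ramp c) := by unfold ramp; fun_prop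

lemma ramp_le_one (c t : ℝ) : ramp c t ≤ 1 := max_le zero_le_one (min_le_left _ _)

lemma ramp_nonneg (c t : ℝ) : 0 ≤ ramp c t := le_max_left _ _

lemma ramp_zero {c t : ℝ} (h : c ≤ t) : ramp c t = 0 := by
  unfold ramp
  rw [max_eq_left]
  refine (min_le_right _ _).trans ?_
  apply div_nonpos_of_nonpos_of_nonneg
  · linarith
  · have := Real.pi_pos; positivity

lemma ramp_one {c t : ℝ} (h : t ≤ c - Real.pi / 2) : ramp c t = 1 := by
  unfold ramp
  have hpi := Real.pi_pos
  have : 1 ≤ (c - t) / (Real.pi / 2) := by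
    rw [le_div_iff₀ (by positivity)]
    linarith
  rw [min_eq_left this, max_eq_right zero_le_one]

lemma ramp_lt_one {c t : ℝ} (h : c - Real.pi / 2 < t) : ramp c t < 1 := by
  unfold ramp
  have hpi := Real.pi_pos
  apply max_lt zero_lt_one
  refine lt_of_le_of_lt (min_le_right _ _) ?_
  rw [div_lt_iff₀ (by positivity)]
  linarith

section
variable {l : ℝ} {L L1 L2 L11 L12 L22 : ℝ × ℝ → ℝ} {Φ : ℝ × ℝ → ℝ × ℝ} {Θ : ℝ × ℝ × ℝ → ℝ}

namespace Fol

variable (h : TwistGen l L L1 L2 L11 L12 L22) (hF : Fol l L1 L2 Φ)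
include hF

/-- bounded leaf index implies core -/
lemma exists_core' (n : ℝ) : ∃ δ > 0, ∀ q ∈ Sig l, q ∉ Core l δ → bump n (inv' Φ q).2 = 0 := by
  obtain ⟨δ, hδ, hc⟩ := hF.exists_core (-n) n
  refine ⟨δ, hδ, ?_⟩
  intro q hq hqc
  apply bump_zero
  by_contra hcon
  push Not at hcon
  apply hqc
  have := hc (inv' Φ q).1 (inv' Φ q).2 ⟨(abs_lt.1 hcon).1.le, (abs_lt.1 hcon).2.le⟩
  rwa [Prod.mk.eta, hF.inv'_right hq] at this

/-- core functions of the form `g * bump` -/
lemma isCore_bump {n δ : ℝ} (hδ : ∀ q ∈ Sig l, q ∉ Core l δ → bump n (inv' Φ q).2 = 0)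
    {g : ℝ × ℝ → ℝ} (hg : ContinuousOn g (Sig l)) (hper : ∀ p ∈ Sig l, g (p + (l, l)) = g p) :
    IsCore l δ (fun p => g p * bump n (inv' Φ p).2) where
  cont := hg.mul ((cont_bump n).comp_continuousOn (continuous_snd.comp_continuousOn hF.contOn_inv'))
  per p hp := by rw [hper p hp, hF.inv'_shift hp]; simp
  zero p hp hpc := by rw [hδ p hp hpc, mul_zero]

include h

/-- The transfer identity with a cut-off in the leaf index. -/
lemma transfer_bump {n δ : ℝ} (hδ0 : 0 < δ)
    (hδ : ∀ q ∈ Sig l, q ∉ Core l δ → bump n (inv' Φ q).2 = 0)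
    {g : ℝ × ℝ → ℝ} (hg : ContinuousOn g (Sig l)) (hper : ∀ p ∈ Sig l, g (p + (l, l)) = g p) :
    II l (fun p => g (TT l L1 L2 p) * bump n (inv' Φ p).2 * L12 p) =
      II l (fun p => g p * bump n (inv' Φ p).2 * L12 p) := by
  have hc := hF.isCore_bump hδ hg hper
  rw [← h.transfer hδ0 hc.cont hc.per]
  · apply II_congr h.lpos.le
    intro p hp
    simp only [hF.inv'_T hp]
  · intro p hp hpc
    simp only [hF.inv'_T hp, hδ p hp hpc, mul_zero]

lemma isCore_bump_T {n δ : ℝ} (hδ : ∀ q ∈ Sig l, q ∉ Core l δ → bump n (inv' Φ q).2 = 0)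
    {g : ℝ × ℝ → ℝ} (hg : ContinuousOn g (Sig l)) (hper : ∀ p ∈ Sig l, g (p + (l, l)) = g p) :
    IsCore l δ (fun p => g (TT l L1 L2 p) * bump n (inv' Φ p).2) := by
  apply hF.isCore_bump hδ (g := fun p => g (TT l L1 L2 p))
  · exact hg.comp h.contOn_T fun p hp => h.T_mem hp
  · intro p hp
    rw [h.T_shift hp, hper _ (h.T_mem hp)]

/-- Measure argument: a continuous periodic function which does not decrease along the map is
invariant. -/
lemma eq_of_le {g : ℝ × ℝ → ℝ} (hg : ContinuousOn g (Sig l))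
    (hper : ∀ p ∈ Sig l, g (p + (l, l)) = g p)
    (hle : ∀ p ∈ Sig l, g p ≤ g (TT l L1 L2 p)) {p : ℝ × ℝ} (hp : p ∈ Sig l) :
    g (TT l L1 L2 p) = g p := by
  by_contra hne
  have hlt : g p < g (TT l L1 L2 p) := lt_of_le_of_ne (hle p hp) (Ne.symm hne)
  set n : ℝ := |(inv' Φ p).2| + 1 with hn
  obtain ⟨δ, hδ0, hδ⟩ := hF.exists_core' n
  -- the function which is positive near p
  have hcT : ContinuousOn (fun p => g (TT l L1 L2 p)) (Sig l) :=
    hg.comp h.contOn_T fun p hp => h.T_mem hp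
  have hU : {q | 0 < (g (TT l L1 L2 q) - g q) * bump n (inv' Φ q).2} ∈ 𝓝 p := by
    have hca : ContinuousAt (fun q => (g (TT l L1 L2 q) - g q) * bump n (inv' Φ q).2) p := by
      have h1 : ContinuousOn (fun q => (g (TT l L1 L2 q) - g q) * bump n (inv' Φ q).2) (Sig l) :=
        (hcT.sub hg).mul ((cont_bump n).comp_continuousOn
          (continuous_snd.comp_continuousOn hF.contOn_inv'))
      exact h1.continuousAt ((isOpen_Sig l).mem_nhds hp)
    have hpos : 0 < (g (TT l L1 L2 p) - g p) * bump n (inv' Φ p).2 :=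
      mul_pos (by linarith) (bump_pos (by linarith))
    exact hca.eventually_const_lt hpos
  obtain ⟨q, ⟨hqU, hqS⟩, hq12⟩ := h.exists_L12_pos hp hU
  have hc1 := (hF.isCore_bump hδ hg hper).mul_right h.c12 h.p12
  have hc2 := (hF.isCore_bump_T h hδ hg hper).mul_right h.c12 h.p12
  have htr := hF.transfer_bump h hδ0 hδ hg hper
  have hpos := II_pos h.lpos hδ0 (hc2.sub hc1) (fun p hp => by
    have h1 := hle p hp
    have h2 := h.L12_nonneg hp
    have h3 := bump_nonneg n (inv' Φ p).2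
    have h4 : g p * bump n (inv' Φ p).2 ≤ g (TT l L1 L2 p) * bump n (inv' Φ p).2 :=
      mul_le_mul_of_nonneg_right h1 h3
    have h5 := mul_le_mul_of_nonneg_right h4 h2
    linarith) hqS (by
    have h1 : 0 < (g (TT l L1 L2 q) - g q) * bump n (inv' Φ q).2 := hqU
    have h2 := mul_pos h1 hq12
    linarith)
  rw [II_sub h.lpos hδ0 hc2 hc1, htr, sub_self] at hpos
  exact lt_irrefl _ hpos

variable (hA : IsAngle Φ Θ)
include hA

lemma angle_avoid {c : ℝ} (hc : ∀ s a, Θ (0, s, a) < c →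
    Θ (0, sg l L1 L2 Φ s a, a) ≤ c - Real.pi / 2) (s a : ℝ) :
    Θ (0, s, a) ∉ Ioo (c - Real.pi / 2) c := by
  intro hmem
  set g : ℝ × ℝ → ℝ := fun q => ramp c (Θ (0, inv' Φ q)) with hg
  have hgc : ContinuousOn g (Sig l) := by
    apply (cont_ramp c).comp_continuousOn
    apply hA.cont.comp_continuousOn
    exact continuousOn_const.prodMk hF.contOn_inv'
  have hper : ∀ p ∈ Sig l, g (p + (l, l)) = g p := by
    intro p hp
    simp only [hg, hF.inv'_shift hp]
    congr 1
    have := hF.angle_add_one hA 0 (inv' Φ p).1 (inv' Φ p).2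
    have e : inv' Φ p + (1, 0) = ((inv' Φ p).1 + 1, (inv' Φ p).2) := by ext <;> simp
    rw [e]
    exact this
  have hle : ∀ p ∈ Sig l, g p ≤ g (TT l L1 L2 p) := by
    intro p hp
    simp only [hg, hF.inv'_T hp]
    by_cases hlt : Θ (0, inv' Φ p) < c
    · have := hc (inv' Φ p).1 (inv' Φ p).2 hlt
      rw [ramp_one this]
      exact ramp_le_one _ _
    · push Not at hlt
      rw [ramp_zero hlt]
      exact ramp_nonneg _ _
  have heq := hF.eq_of_le h hgc hper hle (hF.maps (s, a))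
  simp only [hg, hF.inv'_T (hF.maps (s, a)), hF.inv'_left] at heq
  rw [ramp_one (hc s a hmem.2)] at heq
  have := ramp_lt_one hmem.1
  linarith

omit h in
/-- at the maximum of `y - x` along a leaf -/
lemma exists_angle_le (a : ℝ) : ∃ s, Θ (0, s, a) ≤ Real.pi / 4 := by
  have hpi := Real.pi_pos
  have hcont : Continuous fun s : ℝ => (Φ (s, a)).2 - (Φ (s, a)).1 := by
    have := hF.cont; fun_prop
  have hper : Function.Periodic (fun s : ℝ => (Φ (s, a)).2 - (Φ (s, a)).1) 1 := by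
    intro s; simp [hF.per s a]
  obtain ⟨s0, hs0, hmax⟩ := isCompact_Icc.exists_isMaxOn (nonempty_Icc.2 zero_le_one)
    (hcont.continuousOn (s := Icc (0:ℝ) 1))
  have hmax' : ∀ s, (Φ (s, a)).2 - (Φ (s, a)).1 ≤ (Φ (s0, a)).2 - (Φ (s0, a)).1 := by
    intro s
    obtain ⟨s', hs', he⟩ := hper.exists_mem_Ico₀ one_pos s
    rw [he]
    exact hmax ⟨hs'.1, hs'.2.le⟩
  refine ⟨s0, ?_⟩
  by_contra hcon
  push Not at hcon
  have hc : Continuous fun u : ℝ => Θ (u, s0, a) := by have := hA.cont; fun_prop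
  obtain ⟨v, hv1, hv2⟩ := exists_between (lt_min hcon (show Real.pi / 4 < Real.pi / 2 by linarith))
  have hv3 : v < Θ (0, s0, a) := hv2.trans_le (min_le_left _ _)
  have hv4 : v < Real.pi / 2 := hv2.trans_le (min_le_right _ _)
  have hivt := intermediate_value_Icc' (zero_le_one (α := ℝ)) hc.continuousOn
  obtain ⟨u, hu, huv⟩ := hivt (show v ∈ Icc (Θ (1, s0, a)) (Θ (0, s0, a)) from
    ⟨by rw [hA.one]; exact hv1.le, hv3.le⟩)
  simp only at huv
  have hu0 : 0 < u := by
    rcases lt_or_eq_of_le hu.1 with h | h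
    · exact h
    · rw [← h] at huv; linarith
  obtain ⟨r, hr, h1, h2⟩ := hA.polar (u, s0, a)
  have e1 := hF.smul_GG u s0 a
  have a1 : u * (r * Real.cos (Θ (u, s0, a))) = (Φ (s0 + u, a)).1 - (Φ (s0, a)).1 := by
    have := congrArg Prod.fst e1
    simpa only [Prod.smul_fst, smul_eq_mul, Prod.fst_sub, h1] using this
  have a2 : u * (r * Real.sin (Θ (u, s0, a))) = (Φ (s0 + u, a)).2 - (Φ (s0, a)).2 := by
    have := congrArg Prod.snd e1
    simpa only [Prod.smul_snd, smul_eq_mul, Prod.snd_sub, h2] using this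
  have hm := hmax' (s0 + u)
  rw [huv] at a1 a2
  have hlt : Real.cos v < Real.sin v := by
    have h3 : Real.cos v < Real.cos (Real.pi / 4) :=
      Real.cos_lt_cos_of_nonneg_of_le_pi_div_two (by linarith) hv4.le hv1
    have h4 : Real.sin (Real.pi / 4) < Real.sin v :=
      Real.sin_lt_sin_of_lt_of_le_pi_div_two (by linarith) hv4.le hv1
    rw [Real.cos_pi_div_four] at h3
    rw [Real.sin_pi_div_four] at h4
    linarith
  have : 0 < u * r * (Real.sin v - Real.cos v) := by
    apply mul_pos (by positivity); linarith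
  nlinarith

omit h in
lemma exists_angle_ge (a : ℝ) : ∃ s, Real.pi / 4 ≤ Θ (0, s, a) := by
  have hpi := Real.pi_pos
  have hcont : Continuous fun s : ℝ => (Φ (s, a)).2 - (Φ (s, a)).1 := by
    have := hF.cont; fun_prop
  have hper : Function.Periodic (fun s : ℝ => (Φ (s, a)).2 - (Φ (s, a)).1) 1 := by
    intro s; simp [hF.per s a]
  obtain ⟨s0, hs0, hmin⟩ := isCompact_Icc.exists_isMinOn (nonempty_Icc.2 zero_le_one)
    (hcont.continuousOn (s := Icc (0:ℝ) 1))
  have hmin' : ∀ s, (Φ (s0, a)).2 - (Φ (s0, a)).1 ≤ (Φ (s, a)).2 - (Φ (s, a)).1 := by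
    intro s
    obtain ⟨s', hs', he⟩ := hper.exists_mem_Ico₀ one_pos s
    rw [he]
    exact hmin ⟨hs'.1, hs'.2.le⟩
  refine ⟨s0, ?_⟩
  by_contra hcon
  push Not at hcon
  have hc : Continuous fun u : ℝ => Θ (u, s0, a) := by have := hA.cont; fun_prop
  obtain ⟨v, hv1, hv2⟩ := exists_between (max_lt hcon (show (0:ℝ) < Real.pi / 4 by linarith))
  have hv3 : Θ (0, s0, a) < v := (le_max_left _ _).trans_lt hv1
  have hv4 : 0 < v := (le_max_right _ _).trans_lt hv1
  have hivt := intermediate_value_Icc (zero_le_one (α := ℝ)) hc.continuousOn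
  obtain ⟨u, hu, huv⟩ := hivt (show v ∈ Icc (Θ (0, s0, a)) (Θ (1, s0, a)) from
    ⟨hv3.le, by rw [hA.one]; exact hv2.le⟩)
  simp only at huv
  have hu0 : 0 < u := by
    rcases lt_or_eq_of_le hu.1 with h | h
    · exact h
    · rw [← h] at huv; linarith
  obtain ⟨r, hr, h1, h2⟩ := hA.polar (u, s0, a)
  have e1 := hF.smul_GG u s0 a
  have a1 : u * (r * Real.cos (Θ (u, s0, a))) = (Φ (s0 + u, a)).1 - (Φ (s0, a)).1 := by
    have := congrArg Prod.fst e1
    simpa only [Prod.smul_fst, smul_eq_mul, Prod.fst_sub, h1] using this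
  have a2 : u * (r * Real.sin (Θ (u, s0, a))) = (Φ (s0 + u, a)).2 - (Φ (s0, a)).2 := by
    have := congrArg Prod.snd e1
    simpa only [Prod.smul_snd, smul_eq_mul, Prod.snd_sub, h2] using this
  have hm := hmin' (s0 + u)
  rw [huv] at a1 a2
  have hlt : Real.sin v < Real.cos v := by
    have h3 : Real.cos (Real.pi / 4) < Real.cos v :=
      Real.cos_lt_cos_of_nonneg_of_le_pi_div_two hv4.le (by linarith) hv2
    have h4 : Real.sin v < Real.sin (Real.pi / 4) :=
      Real.sin_lt_sin_of_lt_of_le_pi_div_two (by linarith) (by linarith) hv2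
    rw [Real.cos_pi_div_four] at h3
    rw [Real.sin_pi_div_four] at h4
    linarith
  have : 0 < u * r * (Real.cos v - Real.sin v) := by
    apply mul_pos (by positivity); linarith
  nlinarith

lemma angle_mem (s a : ℝ) : Θ (0, s, a) ∈ Icc 0 (Real.pi / 2) := by
  have hpi := Real.pi_pos
  have hc : Continuous fun s : ℝ => Θ (0, s, a) := by have := hA.cont; fun_prop
  have hpre : (range fun s : ℝ => Θ (0, s, a)).OrdConnected :=
    (isPreconnected_range hc).ordConnected
  obtain ⟨s1, hs1⟩ := hF.exists_angle_le hA a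
  obtain ⟨s2, hs2⟩ := hF.exists_angle_ge hA a
  have av1 := hF.angle_avoid h hA (c := Real.pi) (fun s a => hF.angle_step_pi h hA)
  have av2 := hF.angle_avoid h hA (c := 0) (fun s a => hF.angle_step_zero h hA)
  constructor
  · by_contra hcon
    push Not at hcon
    obtain ⟨v, hv1, hv2⟩ := exists_between (max_lt hcon (show -(Real.pi / 2) < 0 by linarith))
    obtain ⟨t, ht⟩ := hpre.out (mem_range_self s) (mem_range_self s2)
      (show v ∈ Icc _ _ from ⟨((le_max_left _ _).trans_lt hv1).le, by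
        linarith⟩)
    simp only at ht
    apply av2 t a
    rw [ht]
    exact ⟨by linarith [(le_max_right (Θ (0, s, a)) (-(Real.pi / 2))).trans_lt hv1], hv2⟩
  · by_contra hcon
    push Not at hcon
    obtain ⟨v, hv1, hv2⟩ := exists_between (lt_min hcon (show Real.pi / 2 < Real.pi by linarith))
    obtain ⟨t, ht⟩ := hpre.out (mem_range_self s1) (mem_range_self s)
      (show v ∈ Icc _ _ from ⟨by linarith, (hv2.trans_le (min_le_left _ _)).le⟩)
    simp only at ht
    apply av1 t a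
    rw [ht]
    exact ⟨by linarith, hv2.trans_le (min_le_right _ _)⟩

omit hA in
lemma tan_nonneg (s a : ℝ) :
    0 ≤ (fderiv ℝ Φ (s, a) (1, 0)).1 ∧ 0 ≤ (fderiv ℝ Φ (s, a) (1, 0)).2 := by
  obtain ⟨Θ, hA⟩ := exists_isAngle h hF
  have hm := hF.angle_mem h hA s a
  obtain ⟨r, hr, h1, h2⟩ := hA.polar (0, s, a)
  rw [GG_zero] at h1 h2
  rw [h1, h2]
  have hpi := Real.pi_pos
  constructor
  · exact mul_nonneg hr.le (Real.cos_nonneg_of_mem_Icc ⟨by linarith [hm.1], hm.2⟩)
  · exact mul_nonneg hr.le (Real.sin_nonneg_of_nonneg_of_le_pi hm.1 (by linarith [hm.2]))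

end Fol
end

end MPd2f538
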