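import Pool.Agent.Lib.MP_d2f538_an.Tan
import Pool.Agent.Lib.MP_d2f538_an.Meas
import Pool.Agent.Lib.MP_d2f538_an.Mono3

/-!
# Leaves of an invariant foliation are increasing graphs
-/

open Set Filter Topology MeasureTheory

namespace MPd2f538

lemma monotone_of_right {f : ℝ → ℝ} (hf : Continuous f) (h : ∀ s, ∀ᶠ t in 𝓝[>] s, f s ≤ f t) :
    Monotone f := by
  intro a b hab
  have hcl : IsClosed ({t | f a ≤ f t} ∩ Icc a b) :=
    (isClosed_le continuous_const hf).inter isClosed_Icc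
  have := hcl.Icc_subset_of_forall_mem_nhdsWithin (show a ∈ {t | f a ≤ f t} from le_refl (f a))
    (by
      rintro x ⟨hx, -⟩
      have hx' : f a ≤ f x := hx
      filter_upwards [h x] with t ht
      exact hx'.trans ht)
  exact this ⟨hab, le_rfl⟩

section
variable {l : ℝ} {L L1 L2 L11 L12 L22 : ℝ × ℝ → ℝ} {leaves : Set (Set (ℝ × ℝ))} {A : ℝ × ℝ → ℝ}
  (hT : TwistGen l L L1 L2 L11 L12 L22) (h : IsRotationalFoliation l L1 L2 leaves)
  {B : ℝ} (hB : ∀ p ∈ Sig l, |L2 p| ≤ B)
include hT h hB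

lemma line_avoid (hA : IsLine l leaves A) (k : ℤ) {p : ℝ × ℝ} (hp : p ∈ Sig l) :
    A p ∉ Ioo (k * Real.pi - Real.pi / 2) (k * Real.pi) := by
  intro hmem
  have hg : ContinuousOn (fun p => ramp (k * Real.pi) (A p)) (Sig l) :=
    (cont_ramp _).comp_continuousOn hA.cont
  have heq := hT.eq_of_le' hB hg (fun p hp => by rw [line_shift hT h hA hp])
    (fun p _ => ramp_nonneg _ _) (fun p _ => ramp_le_one _ _) (fun p hp => by
      by_cases hlt : A p < k * Real.pi
      · rw [ramp_one (line_step hT h hA hp hlt)]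
        exact ramp_le_one _ _
      · push Not at hlt
        rw [ramp_zero hlt]
        exact ramp_nonneg _ _) hp
  rw [ramp_one (line_step hT h hA hp hmem.2)] at heq
  have := ramp_lt_one hmem.1
  linarith

lemma line_range (hA : IsLine l leaves A) :
    ∃ m : ℤ, ∀ p ∈ Sig l, A p ∈ Icc (m * Real.pi) (m * Real.pi + Real.pi / 2) := by
  have hpi := Real.pi_pos
  obtain ⟨p0, hp0⟩ := Sig_nonempty hT.lpos
  have hoc : (A '' Sig l).OrdConnected :=
    ((convex_Sig l).isPreconnected.image A hA.cont).ordConnected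
  refine ⟨⌊A p0 / Real.pi⌋, ?_⟩
  set m := ⌊A p0 / Real.pi⌋ with hm
  have h1 : (m : ℝ) * Real.pi ≤ A p0 := by
    have := Int.floor_le (A p0 / Real.pi)
    rwa [le_div_iff₀ hpi] at this
  have h2 : A p0 < (m + 1) * Real.pi := by
    have := Int.lt_floor_add_one (A p0 / Real.pi)
    rwa [div_lt_iff₀ hpi] at this
  have h3 : A p0 ≤ m * Real.pi + Real.pi / 2 := by
    by_contra hcon
    push Not at hcon
    apply line_avoid hT h hB hA (m + 1) hp0
    push_cast
    exact ⟨by linarith, h2⟩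
  intro p hp
  constructor
  · by_contra hcon
    push Not at hcon
    obtain ⟨v, hv1, hv2⟩ := exists_between (max_lt hcon
      (show (m : ℝ) * Real.pi - Real.pi / 2 < m * Real.pi by linarith))
    obtain ⟨q, hq, hqv⟩ := hoc.out (mem_image_of_mem A hp) (mem_image_of_mem A hp0)
      ⟨((le_max_left _ _).trans_lt hv1).le, (hv2.trans_le h1).le⟩
    apply line_avoid hT h hB hA m hq
    rw [hqv]
    exact ⟨(le_max_right _ _).trans_lt hv1, hv2⟩
  · by_contra hcon
    push Not at hcon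
    obtain ⟨v, hv1, hv2⟩ := exists_between (lt_min hcon
      (show (m : ℝ) * Real.pi + Real.pi / 2 < (m + 1) * Real.pi by linarith))
    obtain ⟨q, hq, hqv⟩ := hoc.out (mem_image_of_mem A hp0) (mem_image_of_mem A hp)
      ⟨(h3.trans_lt hv1).le, (hv2.trans_le (min_le_left _ _)).le⟩
    apply line_avoid hT h hB hA (m + 1) hq
    rw [hqv]
    push_cast
    exact ⟨by linarith, hv2.trans_le (min_le_right _ _)⟩

/-- leaves are monotone -/
lemma leaf_mono {c : ℝ → ℝ × ℝ} (hc : Rot l c) (hcl : range c ∈ leaves) :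
    Monotone (fun s => (c s).1) ∧ Monotone (fun s => (c s).2) := by
  have hpi := Real.pi_pos
  obtain ⟨A, hA⟩ := h.exists_line hT.lpos
  obtain ⟨m, hm⟩ := line_range hT h hB hA
  obtain ⟨Θ, hΘ⟩ := hc.exists_sec hT.lpos
  obtain ⟨n, hn⟩ := exists_tangent hT.lpos h hc hcl hΘ hA
  have hS : ∀ s, c s ∈ Sig l := fun s => h.subset _ hcl (mem_range_self _)
  have hX : Continuous fun s => (c s).1 := by have := hc.cont; fun_prop
  have hY : Continuous fun s => (c s).2 := by have := hc.cont; fun_prop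
  -- local behaviour
  have hloc : ∀ s, ∀ᶠ t in 𝓝[>] s, ∃ r > 0, ∃ θ ∈ Icc (((m + n : ℤ) : ℝ) * Real.pi)
      (((m + n : ℤ) : ℝ) * Real.pi + Real.pi / 2),
      (c t).1 - (c s).1 = r * Real.cos θ ∧ (c t).2 - (c s).2 = r * Real.sin θ := by
    intro s
    obtain ⟨ε, hε, h1⟩ := hn s
    have hI : Ioo s (s + ε) ∈ 𝓝[>] s := Ioo_mem_nhdsGT (by linarith)
    filter_upwards [hI] with t ht
    have htpos : 0 < t - s := by linarith [ht.1]
    have hv : Real.exp (Real.log (t - s)) = t - s := Real.exp_log htpos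
    obtain ⟨ξ, hξ, he⟩ := h1 s ⟨by linarith, by linarith⟩ (Real.log (t - s))
      (by rw [hv]; linarith [ht.2])
    obtain ⟨r, hr, e1, e2⟩ := hΘ.polar (Real.log (t - s)) s
    rw [hv, add_sub_cancel] at e1 e2 hξ
    have hξS : ξ ∈ Sig l := (convex_Sig l).segment_subset (hS s) (hS t) hξ
    have hAξ := hm ξ hξS
    refine ⟨r, hr, Θ (Real.log (t - s), s), ?_, e1, e2⟩
    rw [he]
    push_cast
    constructor
    · linarith [hAξ.1]
    · linarith [hAξ.2]
  rcases Int.even_or_odd (m + n) with he | ho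
  · obtain ⟨k, hk⟩ := he
    have hkr : ((m + n : ℤ) : ℝ) = k + k := by rw [hk]; push_cast; ring
    have hsign : ∀ θ ∈ Icc (((m + n : ℤ) : ℝ) * Real.pi)
        (((m + n : ℤ) : ℝ) * Real.pi + Real.pi / 2), 0 ≤ Real.cos θ ∧ 0 ≤ Real.sin θ := by
      intro θ hθ
      rw [hkr] at hθ
      have e1 : Real.sin θ = Real.sin (θ - k * (2 * Real.pi)) := by
        rw [Real.sin_sub_int_mul_two_pi]
      have e2 : Real.cos θ = Real.cos (θ - k * (2 * Real.pi)) := by
        rw [Real.cos_sub_int_mul_two_pi]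
      rw [e1, e2]
      constructor
      · apply Real.cos_nonneg_of_mem_Icc
        constructor <;> linarith [hθ.1, hθ.2]
      · apply Real.sin_nonneg_of_nonneg_of_le_pi <;> linarith [hθ.1, hθ.2]
    constructor
    · apply monotone_of_right hX
      intro s
      filter_upwards [hloc s] with t ⟨r, hr, θ, hθ, e1, e2⟩
      have := mul_nonneg hr.le (hsign θ hθ).1
      linarith
    · apply monotone_of_right hY
      intro s
      filter_upwards [hloc s] with t ⟨r, hr, θ, hθ, e1, e2⟩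
      have := mul_nonneg hr.le (hsign θ hθ).2
      linarith
  · exfalso
    obtain ⟨k, hk⟩ := ho
    have hkr : ((m + n : ℤ) : ℝ) = 2 * k + 1 := by rw [hk]; push_cast; ring
    have hsign : ∀ θ ∈ Icc (((m + n : ℤ) : ℝ) * Real.pi)
        (((m + n : ℤ) : ℝ) * Real.pi + Real.pi / 2), Real.cos θ ≤ 0 := by
      intro θ hθ
      rw [hkr] at hθ
      have e2 : Real.cos θ = Real.cos (θ - k * (2 * Real.pi)) := by
        rw [Real.cos_sub_int_mul_two_pi]
      rw [e2]
      apply Real.cos_nonpos_of_pi_div_two_le_of_le <;> linarith [hθ.1, hθ.2]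
    have hmono : Monotone fun s => -(c s).1 := by
      apply monotone_of_right hX.neg
      intro s
      filter_upwards [hloc s] with t ⟨r, hr, θ, hθ, e1, e2⟩
      have := mul_nonpos_of_nonneg_of_nonpos hr.le (hsign θ hθ)
      simp only [Pi.neg_apply]
      linarith
    have h1 := hmono (show (0:ℝ) ≤ 0 + 1 by norm_num)
    simp only [hc.per, Prod.fst_add] at h1
    linarith [hT.lpos]

omit hB in
/-- the leaf map is onto -/
lemma leafMap_surj {c : ℝ → ℝ × ℝ} {σ : ℝ → ℝ} (hc : Rot l c) (hcl : range c ∈ leaves)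
    (hσ : IsLeafMap l L1 L2 c σ) (s : ℝ) : ∃ t, σ t = s := by
  have hS : c s ∈ Sig l := h.subset _ hcl (mem_range_self _)
  obtain ⟨q, hq, hTq⟩ := hT.T_surj hS
  obtain ⟨C, ⟨hC, hqC⟩, -⟩ := h.partition q hq
  have hTC : TT l L1 L2 q ∈ C := h.inv C hC q hqC (nx l L1 L2 q) (hT.nx_mem hq) (hT.nx_eq hq)
  rw [hTq] at hTC
  have hu := (h.partition (c s) hS).unique ⟨hC, hTC⟩ ⟨hcl, mem_range_self _⟩
  rw [hu] at hqC
  obtain ⟨t, rfl⟩ := hqC
  refine ⟨t, hc.inj ?_⟩
  rw [hσ.spec, hTq]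

/-- leaves are strictly monotone -/
lemma leaf_strictMono {c : ℝ → ℝ × ℝ} (hc : Rot l c) (hcl : range c ∈ leaves) :
    StrictMono (fun s => (c s).1) ∧ StrictMono (fun s => (c s).2) := by
  obtain ⟨hX, hY⟩ := leaf_mono hT h hB hc hcl
  have hS : ∀ s, c s ∈ Sig l := fun s => h.subset _ hcl (mem_range_self _)
  obtain ⟨σ, hσ⟩ := exists_leafMap hT hc hS (fun s =>
    h.inv _ hcl (c s) (mem_range_self _) (nx l L1 L2 (c s)) (hT.nx_mem (hS s)) (hT.nx_eq (hS s)))
  have hXs : StrictMono (fun s => (c s).1) := by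
    intro s1 s2 hlt
    refine lt_of_le_of_ne (hX hlt.le) ?_
    intro he
    simp only at he
    have hYlt : (c s1).2 < (c s2).2 := by
      refine lt_of_le_of_ne (hY hlt.le) ?_
      intro he2
      have := hc.inj (Prod.ext he he2)
      linarith
    obtain ⟨t1, ht1⟩ := leafMap_surj hT h hc hcl hσ s1
    obtain ⟨t2, ht2⟩ := leafMap_surj hT h hc hcl hσ s2
    have ht : t1 < t2 := by
      rw [← hσ.mono.lt_iff_lt, ht1, ht2]
      exact hlt
    have e1 := hσ.spec t1
    have e2 := hσ.spec t2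
    rw [ht1] at e1
    rw [ht2] at e2
    have m1 := hS t1
    have m2 := hS t2
    have n1 := hS s1
    have n2 := hS s2
    have q1 := hT.T_eq m1
    have q2 := hT.T_eq m2
    rw [← e1] at q1
    rw [← e2] at q2
    have hx1 : (c s1).1 = (c t1).2 := by rw [e1]; rfl
    have hx2 : (c s2).1 = (c t2).2 := by rw [e2]; rfl
    have hL1 : L1 (c s1) < L1 (c s2) := by
      have h1 : ((c s1).1, (c s1).2) ∈ Sig l := n1
      have h2 : ((c s1).1, (c s2).2) ∈ Sig l := by rw [he]; exact n2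
      have := (hT.L1_lt h1 h2).2 hYlt
      have e3 : ((c s1).1, (c s2).2) = c s2 := by rw [he]
      rw [e3] at this
      exact this
    have hL2 : L2 (c t2) < L2 (c t1) := by linarith
    have hYt : (c t1).2 = (c t2).2 := by rw [← hx1, ← hx2, he]
    have h1 : ((c t1).1, (c t2).2) ∈ Sig l := by rw [← hYt]; exact m1
    have h2 : ((c t2).1, (c t2).2) ∈ Sig l := m2
    have e3 : ((c t1).1, (c t2).2) = c t1 := by rw [← hYt]
    have h3 := (hT.L2_lt h2 h1).1 (by rw [e3]; exact hL2)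
    have := hX ht.le
    simp only at this
    linarith
  refine ⟨hXs, ?_⟩
  intro s1 s2 hlt
  have h1 := hXs (hσ.mono hlt)
  simp only [hσ.spec, TT_fst] at h1
  exact h1

end

end MPd2f538
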