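import Pool.Agent.Lib.MP_d2f538_an.Assemble

open MeasureTheory Set Real Filter Topology

namespace Pool.Agent.MP_d2f538_an

theorem IsRotationalFoliation.map {ℓ ℓ' : ℝ} {leaves : Set (Set (ℝ × ℝ))}
    (hF : IsRotationalFoliation ℓ leaves) {W W' : ℝ × ℝ → ℝ × ℝ} (hW : ContDiff ℝ 1 W)
    (hW' : ContDiff ℝ 1 W') (h1 : ∀ p, W' (W p) = p) (h2 : ∀ p, W (W' p) = p)
    (hS : ∀ p, W p ∈ Chords ℓ' ↔ p ∈ Chords ℓ)
    (hper : (∀ p, W (p + (ℓ, ℓ)) = W p + (ℓ', ℓ')) ∨ ∀ p, W (p + (ℓ, ℓ)) = W p - (ℓ', ℓ')) :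
    IsRotationalFoliation ℓ' ((fun C => W '' C) '' leaves) where
  subset := by
    rintro _ ⟨C, hC, rfl⟩ _ ⟨p, hp, rfl⟩
    exact (hS p).2 (hF.subset C hC hp)
  partition := by
    intro q hq
    have hq' : W' q ∈ Chords ℓ := by rw [← hS, h2]; exact hq
    obtain ⟨C, ⟨hC, hqC⟩, huniq⟩ := hF.partition _ hq'
    refine ⟨W '' C, ⟨⟨C, hC, rfl⟩, ⟨W' q, hqC, h2 q⟩⟩, ?_⟩
    rintro _ ⟨⟨C', hC', rfl⟩, ⟨p, hp, hpq⟩⟩
    have : W' q = p := by rw [← hpq, h1]
    have := huniq C' ⟨hC', by rw [this]; exact hp⟩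
    rw [this]
  rotational := by
    rintro _ ⟨C, hC, rfl⟩
    obtain ⟨c, hc, hinj, hcper, hrange⟩ := hF.rotational C hC
    have hWinj : Function.Injective W := fun p q h => by rw [← h1 p, ← h1 q, h]
    rcases hper with hper | hper
    · refine ⟨W ∘ c, hW.continuous.comp hc, hWinj.comp hinj, ?_, ?_⟩
      · intro s
        simp only [Function.comp, hcper, hper]
      · rw [range_comp, hrange]
    · refine ⟨fun s => W (c (-s)), hW.continuous.comp (hc.comp continuous_neg),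
        fun s t h => neg_injective (hinj (hWinj h)), ?_, ?_⟩
      · intro s
        have e1 : c (-s) = c (-(s + 1)) + (ℓ, ℓ) := by
          rw [← hcper]; congr 1; ring
        show W (c (-(s + 1))) = W (c (-s)) + (ℓ', ℓ')
        rw [e1, hper]
        simp
      · rw [← hrange]
        ext q
        constructor
        · rintro ⟨s, rfl⟩; exact ⟨c (-s), ⟨-s, rfl⟩, rfl⟩
        · rintro ⟨_, ⟨s, rfl⟩, rfl⟩; exact ⟨-s, by simp⟩
  chart := by
    intro q hq
    have hq' : W' q ∈ Chords ℓ := by rw [← hS, h2]; exact hq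
    obtain ⟨F, U, hU, hFc, hFd, hlev⟩ := hF.chart _ hq'
    refine ⟨F ∘ W', W' ⁻¹' U, hW'.continuous.continuousAt.preimage_mem_nhds hU,
      hFc.comp hW'.contDiffOn fun _ h => h, ?_, ?_⟩
    · intro h0
      have dF : HasFDerivAt F (fderiv ℝ F (W' q)) (W' q) :=
        ((hFc.contDiffAt hU).differentiableAt (by norm_num)).hasFDerivAt
      have dW' : HasFDerivAt W' (fderiv ℝ W' q) q :=
        (hW'.differentiable (by norm_num) q).hasFDerivAt
      have dW : HasFDerivAt W (fderiv ℝ W (W' q)) (W' q) :=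
        (hW.differentiable (by norm_num) _).hasFDerivAt
      have e1 := (dF.comp q dW').fderiv
      have e2 : (fderiv ℝ F (W' q)).comp (fderiv ℝ W' q) = 0 := by rw [← e1]; exact h0
      have dcomp : HasFDerivAt (W' ∘ W) ((fderiv ℝ W' q).comp (fderiv ℝ W (W' q))) (W' q) := by
        have dW'' : HasFDerivAt W' (fderiv ℝ W' q) (W (W' q)) := by rw [h2]; exact dW'
        exact dW''.comp (W' q) dW
      have e3 : W' ∘ W = id := funext h1
      rw [e3] at dcomp
      have e4 := dcomp.unique (hasFDerivAt_id (W' q))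
      apply hFd
      calc fderiv ℝ F (W' q) = (fderiv ℝ F (W' q)).comp
            ((fderiv ℝ W' q).comp (fderiv ℝ W (W' q))) := by
              rw [e4, ContinuousLinearMap.comp_id]
        _ = ((fderiv ℝ F (W' q)).comp (fderiv ℝ W' q)).comp (fderiv ℝ W (W' q)) := by
              rw [ContinuousLinearMap.comp_assoc]
        _ = 0 := by rw [e2, ContinuousLinearMap.zero_comp]
    · rintro p hp p' hp' hpp' _ ⟨C, hC, rfl⟩ ⟨r, hr, hrp⟩
      have e1 : W' p = r := by rw [← hrp, h1]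
      have := hlev (W' p) hp (W' p') hp' hpp' C hC (by rw [e1]; exact hr)
      exact ⟨W' p', this, h2 p'⟩

variable {K : Set ℂ} {ℓ : ℝ} {γ γ' γ'' : ℝ → ℂ}

/-- invariance of the leaves under the billiard map -/
def LeafInv (K : Set ℂ) (γ : ℝ → ℂ) (ℓ : ℝ) (leaves : Set (Set (ℝ × ℝ))) : Prop :=
  ∀ C ∈ leaves, ∀ t₀ t₁ t₂ : ℝ, (t₀, t₁) ∈ C → (t₁, t₂) ∈ Chords ℓ →
      Reflects K γ t₀ t₁ t₂ → (t₁, t₂) ∈ C

/-- the reversed curve -/
theorem Table0.reverse (T : Table0 K ℓ γ γ' γ'')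
    (ho : ∀ x, ((starRingEnd ℂ) (γ x) * γ' x).im < 0) :
    Table K ℓ (fun t => γ (-t)) (fun t => -γ' (-t)) (fun t => γ'' (-t)) where
  isOpen := T.isOpen
  convex := T.convex
  bounded := T.bounded
  zero_mem := T.zero_mem
  strict := T.strict
  pos := T.pos
  d1 x := by
    have := (T.d1 (-x)).scomp x (hasDerivAt_neg x)
    simpa [Function.comp_def] using this
  d2 x := by
    have := ((T.d2 (-x)).scomp x (hasDerivAt_neg x)).fun_neg
    simpa [Function.comp_def] using this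
  c2 := T.c2.comp continuous_neg
  ne x := neg_ne_zero.2 (T.ne _)
  per x := by
    have := T.per (-(x + ℓ))
    rw [← this]; congr 1; ring
  inj x y hxy hyx := by
    have h1 := T.inj (-y) (-x) (by linarith) (by linarith)
    exact fun h => h1 h.symm
  bdry := by
    rw [← T.bdry]
    ext z
    constructor
    · rintro ⟨x, rfl⟩; exact ⟨-x, rfl⟩
    · rintro ⟨x, rfl⟩; exact ⟨-x, by simp⟩
  orient x := by
    have := ho (-x)
    simp only [mul_neg, Complex.neg_im]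
    linarith

theorem Function.Periodic.deriv' {f : ℝ → ℝ} {c : ℝ} (hf : ∀ x, f (x + c) = f x) (x : ℝ) :
    deriv f (x + c) = deriv f x := by
  have h1 : (fun x => f (x + c)) = f := funext hf
  have h2 := deriv_comp_add_const f c x
  rw [h1] at h2
  exact h2.symm

/-- the reflection law of the reversed curve -/
theorem reflects_reverse (hper : ∀ x, γ (x + ℓ) = γ x) (t₀ t₁ t₂ : ℝ) :
    Reflects K (fun t => γ (-t)) t₀ t₁ t₂ ↔ Reflects K γ (-t₀) (ℓ - t₁) (2 * ℓ - t₂) := by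
  have hp1 : ∀ t, γ (t - ℓ) = γ t := fun t => by rw [← hper (t - ℓ), sub_add_cancel]
  have e1 : deriv (fun t => chordLength K (fun t => γ (-t)) t₀ t) t₁ =
      -deriv (fun t => chordLength K γ (-t₀) t) (ℓ - t₁) := by
    have h1 : (fun t => chordLength K (fun t => γ (-t)) t₀ t) =
        fun t => (fun t => chordLength K γ (-t₀) t) (-t) := by
      funext t; simp only [chordLength]
    rw [h1, deriv_comp_neg]
    have h2 := Function.Periodic.deriv' (f := fun t => chordLength K γ (-t₀) t) (c := ℓ)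
      (fun x => by simp only [chordLength, hper]) (-t₁)
    rw [← h2]
    congr 2; ring
  have e2 : deriv (fun t => chordLength K (fun t => γ (-t)) t t₂) t₁ =
      -deriv (fun t => chordLength K γ t (2 * ℓ - t₂)) (ℓ - t₁) := by
    have h1 : (fun t => chordLength K (fun t => γ (-t)) t t₂) =
        fun t => (fun t => chordLength K γ t (2 * ℓ - t₂)) (-t) := by
      funext t
      simp only [chordLength]
      have : γ (2 * ℓ - t₂) = γ (-t₂) := by
        rw [← hper (-t₂), ← hper (-t₂ + ℓ)]; congr 1; ring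
      rw [this]
    rw [h1, deriv_comp_neg (fun t => chordLength K γ t (2 * ℓ - t₂))]
    have h2 := Function.Periodic.deriv' (f := fun t => chordLength K γ t (2 * ℓ - t₂)) (c := ℓ)
      (fun x => by simp only [chordLength, hper]) (-t₁)
    rw [← h2]
    congr 2; ring
  rw [Reflects, Reflects, e1, e2]
  constructor
  · intro h; linarith
  · intro h; linarith

/-- the reversal of the phase cylinder -/
def rev (ℓ : ℝ) (p : ℝ × ℝ) : ℝ × ℝ := (-p.1, ℓ - p.2)

theorem rev_rev (p : ℝ × ℝ) : rev ℓ (rev ℓ p) = p := by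
  simp [rev]

theorem contDiff_rev : ContDiff ℝ 1 (rev ℓ) :=
  (contDiff_fst.neg).prodMk (contDiff_const.sub contDiff_snd)

theorem rev_mem (p : ℝ × ℝ) : rev ℓ p ∈ Chords ℓ ↔ p ∈ Chords ℓ := by
  simp only [rev, Chords, mem_ofPred_eq]
  constructor
  · rintro ⟨h1, h2⟩; exact ⟨by linarith, by linarith⟩
  · rintro ⟨h1, h2⟩; exact ⟨by linarith, by linarith⟩

theorem Chords_add {p : ℝ × ℝ} : p + (ℓ, ℓ) ∈ Chords ℓ ↔ p ∈ Chords ℓ := by
  simp only [Chords, mem_ofPred_eq, Prod.fst_add, Prod.snd_add]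
  constructor
  · rintro ⟨h1, h2⟩; exact ⟨by linarith, by linarith⟩
  · rintro ⟨h1, h2⟩; exact ⟨by linarith, by linarith⟩

theorem IsRotationalFoliation.add_mem {leaves : Set (Set (ℝ × ℝ))}
    (hF : IsRotationalFoliation ℓ leaves) {C : Set (ℝ × ℝ)} (hC : C ∈ leaves) {p : ℝ × ℝ}
    (hp : p ∈ C) : p + (ℓ, ℓ) ∈ C := by
  obtain ⟨c, hc, hinj, hcper, hrange⟩ := hF.rotational C hC
  rw [← hrange] at hp ⊢
  obtain ⟨s, rfl⟩ := hp
  exact ⟨s + 1, hcper s⟩

theorem IsRotationalFoliation.sub_mem {leaves : Set (Set (ℝ × ℝ))}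
    (hF : IsRotationalFoliation ℓ leaves) {C : Set (ℝ × ℝ)} (hC : C ∈ leaves) {p : ℝ × ℝ}
    (hp : p ∈ C) : p - (ℓ, ℓ) ∈ C := by
  obtain ⟨c, hc, hinj, hcper, hrange⟩ := hF.rotational C hC
  rw [← hrange] at hp ⊢
  obtain ⟨s, rfl⟩ := hp
  refine ⟨s - 1, ?_⟩
  rw [eq_sub_iff_add_eq, ← hcper, sub_add_cancel]

theorem leafInv_reverse (hper : ∀ x, γ (x + ℓ) = γ x) {leaves : Set (Set (ℝ × ℝ))}
    (hF : IsRotationalFoliation ℓ leaves) (hI : LeafInv K γ ℓ leaves) :
    LeafInv K (fun t => γ (-t)) ℓ ((fun C => rev ℓ '' C) '' leaves) := by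
  rintro _ ⟨C, hC, rfl⟩ t₀ t₁ t₂ ⟨p, hp, hpe⟩ h12 hR
  rw [reflects_reverse hper] at hR
  have hp1 : p.1 = -t₀ := by
    have := congrArg Prod.fst hpe; simp only [rev] at this; linarith
  have hp2 : p.2 = ℓ - t₁ := by
    have := congrArg Prod.snd hpe; simp only [rev] at this; linarith
  have hpp : (-t₀, ℓ - t₁) ∈ C := by
    have : p = (-t₀, ℓ - t₁) := Prod.ext hp1 hp2
    rwa [← this]
  have h3 : (ℓ - t₁, 2 * ℓ - t₂) ∈ Chords ℓ := by
    simp only [Chords, mem_ofPred_eq] at h12 ⊢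
    exact ⟨by linarith [h12.2], by linarith [h12.1]⟩
  have h4 := hI C hC _ _ _ hpp h3 hR
  have h5 := hF.sub_mem hC h4
  refine ⟨_, h5, ?_⟩
  simp only [rev, Prod.fst_sub, Prod.snd_sub]
  ext <;> simp <;> ring

/-- transfer to arclength of the linear image -/
theorem leafInv_setup {S : ℂ ≃L[ℝ] ℂ} {ℓ' : ℝ} {σ τ n : ℝ → ℝ} {Γ Γ' Γ'' : ℝ → ℂ}
    {ψ k h h' h'' : ℝ → ℝ} (U : Setup K ℓ γ S ℓ' σ τ n Γ Γ' Γ'' ψ k h h' h'')
    {leaves : Set (Set (ℝ × ℝ))}
    (hF : IsRotationalFoliation ℓ leaves) (hI : LeafInv K γ ℓ leaves) :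
    IsRotationalFoliation ℓ' ((fun C => prodMap2 σ '' C) '' leaves) ∧
      ∀ C ∈ ((fun C => prodMap2 σ '' C) '' leaves), ∀ p ∈ C, ∀ z, (p.2, z) ∈ Chords ℓ' →
        genL2 Γ Γ' ψ h h' p + genL1 Γ Γ' ψ h h' (p.2, z) = 0 → (p.2, z) ∈ C := by
  have hσ : ContDiff ℝ 1 σ := by
    rw [contDiff_one_iff_deriv, show deriv σ = n from funext fun t => (U.R.dσ t).deriv]
    exact ⟨fun t => (U.R.dσ t).differentiableAt, U.R.cn⟩
  have hτ : ContDiff ℝ 1 τ := by
    rw [contDiff_one_iff_deriv, show deriv τ = fun x => (n (τ x))⁻¹ from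
      funext fun t => (U.R.dτ t).deriv]
    exact ⟨fun t => (U.R.dτ t).differentiableAt,
      (U.R.cn.comp U.R.cτ).inv₀ fun x => (U.R.pos _).ne'⟩
  constructor
  · apply hF.map (W := prodMap2 σ) (W' := prodMap2 τ)
    · exact (hσ.comp contDiff_fst).prodMk (hσ.comp contDiff_snd)
    · exact (hτ.comp contDiff_fst).prodMk (hτ.comp contDiff_snd)
    · intro p; simp only [prodMap2, U.R.τσ]
    · intro p; simp only [prodMap2, U.R.στ]
    · intro p; exact U.R.mem_Sig
    · left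
      intro p
      simp only [prodMap2, Prod.fst_add, Prod.snd_add, U.R.add]
      rfl
  · rintro _ ⟨C, hC, rfl⟩ _ ⟨p, hp, rfl⟩ z hz hrel
    have hpS : (p.1, p.2) ∈ Sig ℓ := hF.subset C hC hp
    have e1 : z = σ (τ z) := (U.R.στ z).symm
    simp only [prodMap2] at hz hrel ⊢
    rw [e1] at hz hrel
    have hS : (p.2, τ z) ∈ Sig ℓ := U.R.mem_Sig.1 hz
    have hR := (U.reflects_iff hpS hS).2 hrel
    have := hI C hC p.1 p.2 (τ z) hp hS hR
    exact ⟨_, this, by simp only [prodMap2, U.R.στ]⟩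

end Pool.Agent.MP_d2f538_an
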