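import Pool.Agent.Lib.MP_d2f538_an.Leaf

/-!
# Global lift of the tangent line field of a foliation
-/

open Set Filter Topology MeasureTheory

namespace MPd2f538

lemma convex_Sig (l : ℝ) : Convex ℝ (Sig l) := by
  intro p hp q hq a b ha hb hab
  have hb' : b = 1 - a := by linarith
  subst hb'
  constructor
  · simp only [Prod.fst_add, Prod.smul_fst, Prod.snd_add, Prod.smul_snd, smul_eq_mul]
    rcases eq_or_lt_of_le ha with h | h
    · rw [← h]; have := hq.1; simp; exact this
    · have h1 := mul_lt_mul_of_pos_left hp.1 h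
      have h2 := mul_le_mul_of_nonneg_left hq.1.le hb
      linarith
  · simp only [Prod.fst_add, Prod.smul_fst, Prod.snd_add, Prod.smul_snd, smul_eq_mul]
    rcases eq_or_lt_of_le ha with h | h
    · rw [← h]; have := hq.2; simp; exact this
    · have h1 := mul_lt_mul_of_pos_left hp.2 h
      have h2 := mul_le_mul_of_nonneg_left hq.2.le hb
      linarith

lemma Sig_nonempty {l : ℝ} (hl : 0 < l) : (Sig l).Nonempty :=
  ⟨(0, l / 2), by simp only; linarith, by simp only; linarith⟩

lemma isSimplyConnected_Sig {l : ℝ} (hl : 0 < l) : IsSimplyConnected (Sig l) := by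
  have h : ContractibleSpace (Sig l) := (convex_Sig l).contractibleSpace (Sig_nonempty hl)
  show SimplyConnectedSpace (Sig l)
  infer_instance

/-- A lifted angle of the tangent line field of the foliation. -/
structure IsLine (l : ℝ) (leaves : Set (Set (ℝ × ℝ))) (A : ℝ × ℝ → ℝ) : Prop where
  cont : ContinuousOn A (Sig l)
  tan : ∀ F U, IsChart l leaves F U → ∀ q ∈ U,
    tsq (gr F q) = Complex.exp ((2 * A q : ℝ) * Complex.I)

section
variable {l : ℝ} {L1 L2 : ℝ × ℝ → ℝ} {leaves : Set (Set (ℝ × ℝ))}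

lemma IsRotationalFoliation.exists_line (hl : 0 < l)
    (h : IsRotationalFoliation l L1 L2 leaves) : ∃ A, IsLine l leaves A := by
  classical
  have hch : ∀ p : Sig l, ∃ F U, IsChart l leaves F U ∧ (p : ℝ × ℝ) ∈ U := by
    intro p
    obtain ⟨F, U, h1, h2, -⟩ := h.exists_chart p.2 univ_mem
    exact ⟨F, U, h1, h2⟩
  choose F U hC hm using hch
  set g : ℝ × ℝ → ℂ := fun p => if hp : p ∈ Sig l then tsq (gr (F ⟨p, hp⟩) p) else 1 with hg
  have key : ∀ F' U', IsChart l leaves F' U' → ∀ q ∈ U', g q = tsq (gr F' q) := by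
    intro F' U' hC' q hq
    have hqS := hC'.sub hq
    simp only [hg, dif_pos hqS]
    exact tsq_eq_of_cross ((hC ⟨q, hqS⟩).gr_ne (hm ⟨q, hqS⟩)) (hC'.gr_ne hq)
      (h.cross hl (hC ⟨q, hqS⟩) hC' (hm ⟨q, hqS⟩) hq)
  have hgc : ContinuousOn g (Sig l) := by
    intro p hp
    apply ContinuousAt.continuousWithinAt
    have hU : U ⟨p, hp⟩ ∈ 𝓝 p := (hC ⟨p, hp⟩).op.mem_nhds (hm ⟨p, hp⟩)
    have h1 : ContinuousAt (fun q => tsq (gr (F ⟨p, hp⟩) q)) p :=
      (hC ⟨p, hp⟩).cont_tsq.continuousAt hU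
    apply h1.congr
    filter_upwards [hU] with q hq
    exact (key _ _ (hC ⟨p, hp⟩) q hq).symm
  have hgn : ∀ p ∈ Sig l, ‖g p‖ = 1 := by
    intro p hp
    rw [key _ _ (hC ⟨p, hp⟩) p (hm ⟨p, hp⟩)]
    exact tsq_norm ((hC ⟨p, hp⟩).gr_ne (hm ⟨p, hp⟩))
  have hg0 : (0 : ℂ) ∉ g '' (Sig l) := by
    rintro ⟨p, hp, h0⟩
    have := hgn p hp
    rw [h0, norm_zero] at this
    exact zero_ne_one this
  obtain ⟨f, hfc, hf⟩ := Complex.exists_continuousOn_eqOn_exp_comp (isSimplyConnected_Sig hl)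
    (isOpen_Sig l) hgc hg0
  refine ⟨fun p => (f p).im / 2, ?_, ?_⟩
  · exact (Complex.continuous_im.comp_continuousOn hfc).div_const 2
  · intro F' U' hC' q hq
    have hqS := hC'.sub hq
    rw [← key F' U' hC' q hq]
    have h1 := hf hqS
    simp only [Function.comp_apply] at h1
    have h2 := hgn q hqS
    rw [← h1, Complex.norm_exp] at h2
    have h3 : (f q).re = 0 := by rwa [Real.exp_eq_one_iff] at h2
    rw [← h1]
    congr 1
    apply Complex.ext
    · simp [h3]
    · simp; ring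

/-- relation between secants and the line field -/
lemma IsLine.angle {A : ℝ × ℝ → ℝ} (hA : IsLine l leaves A) {F : ℝ × ℝ → ℝ} {U : Set (ℝ × ℝ)}
    (hC : IsChart l leaves F U) {ξ : ℝ × ℝ} (hξ : ξ ∈ U) {θ : ℝ}
    (h0 : (gr F ξ).re * Real.cos θ + (gr F ξ).im * Real.sin θ = 0) :
    ∃ k : ℤ, θ = A ξ + k * Real.pi := by
  have hn := hC.gr_ne hξ
  set n := gr F ξ with hndef
  set μ : ℝ := -n.re * Real.sin θ + n.im * Real.cos θ with hμ
  have hs := Real.sin_sq_add_cos_sq θ
  have e1 : n.re = -μ * Real.sin θ := by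
    rw [hμ]
    linear_combination (-n.re) * hs + Real.cos θ * h0
  have e2 : n.im = μ * Real.cos θ := by
    rw [hμ]
    linear_combination (-n.im) * hs + Real.sin θ * h0
  have hn2 : n = (μ : ℂ) * Complex.I * Complex.exp (θ * Complex.I) := by
    have hcr := Complex.exp_ofReal_mul_I_re θ
    have hci := Complex.exp_ofReal_mul_I_im θ
    apply Complex.ext
    · simp only [Complex.mul_re, Complex.mul_im, hcr, hci, Complex.ofReal_re, Complex.ofReal_im,
        Complex.I_re, Complex.I_im]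
      linarith
    · simp only [Complex.mul_re, Complex.mul_im, hcr, hci, Complex.ofReal_re, Complex.ofReal_im,
        Complex.I_re, Complex.I_im]
      linarith
  have hμ0 : μ ≠ 0 := by
    intro h
    apply hn
    rw [hn2, h]
    simp
  have hnn : ‖n‖ = |μ| := by
    rw [hn2, norm_mul, norm_mul, Complex.norm_real, Complex.norm_I, Complex.norm_exp_ofReal_mul_I]
    simp
  have ht : tsq n = Complex.exp ((2 * θ : ℝ) * Complex.I) := by
    rw [tsq, hnn, sq_abs, hn2]
    have h3 : Complex.exp ((2 * θ : ℝ) * Complex.I) = Complex.exp (θ * Complex.I) ^ 2 := by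
      rw [← Complex.exp_nat_mul]
      congr 1
      push_cast
      ring
    rw [h3]
    have h4 : ((μ ^ 2 : ℝ) : ℂ) ≠ 0 := by
      exact_mod_cast pow_ne_zero 2 hμ0
    rw [div_eq_iff h4]
    push_cast
    linear_combination (-(μ : ℂ) ^ 2 * Complex.exp (θ * Complex.I) ^ 2) * Complex.I_sq
  rw [hA.tan F U hC ξ hξ, Complex.exp_eq_exp_iff_exists_int] at ht
  obtain ⟨k, hk⟩ := ht
  refine ⟨-k, ?_⟩
  have h5 : ((2 * A ξ : ℝ) : ℂ) * Complex.I = ((2 * θ + k * (2 * Real.pi) : ℝ) : ℂ) * Complex.I := by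
    rw [hk]; push_cast; ring
  have h6 := mul_right_cancel₀ Complex.I_ne_zero h5
  have h7 : 2 * A ξ = 2 * θ + k * (2 * Real.pi) := by exact_mod_cast h6
  push_cast
  linarith

end

end MPd2f538
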