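import Pool.Agent.Lib.MP_d2f538_an.GHopf

/-!
# The Hopf inequality for `C¹` foliations in the textbook sense
-/

open Set Filter Topology MeasureTheory

namespace MPd2f538

/-- **Hopf inequality**, for a foliation of the phase cylinder by rotational invariant curves in
the textbook sense (leaves, flow-box charts of class `C¹`), with a weight `w` and a minorant `H`. -/
theorem hopf_ineq' {l : ℝ} {L L1 L2 L11 L12 L22 : ℝ × ℝ → ℝ} {leaves : Set (Set (ℝ × ℝ))}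
    (h : TwistGen l L L1 L2 L11 L12 L22) (hF : IsRotationalFoliation l L1 L2 leaves)
    (hB : ∃ B, ∀ p ∈ Sig l, |L2 p| ≤ B)
    {w : ℝ → ℝ} (hw : Continuous w) (hwp : ∀ x, w (x + l) = w x)
    {H : ℝ × ℝ → ℝ} (hHc : ContinuousOn H (Sig l)) (hHp : ∀ p ∈ Sig l, H (p + (l, l)) = H p)
    (hHle : ∀ p ∈ Sig l, H p ≤ QQ L11 L12 L22 p (w p.1, w p.2) * L12 p)
    (hHi : IntegrableOn (fun q : ℝ × ℝ => H (q.1, q.1 + q.2)) (Ioc (0:ℝ) l ×ˢ Ioo (0:ℝ) l)) :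
    ∫ q in Ioc (0:ℝ) l ×ˢ Ioo (0:ℝ) l, H (q.1, q.1 + q.2) ≤ 0 := by
  obtain ⟨B, hB⟩ := hB
  obtain ⟨Φ, hΦ⟩ := exists_GFol h hF hB
  exact hΦ.hopf h hw hwp hHc hHp hHle hHi

end MPd2f538
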