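import Pool.Agent.Lib.MP_d2f538_an.Leaves
import Pool.Agent.Lib.MP_d2f538_an.Textbook

open MeasureTheory Set Real Filter Topology

namespace Pool.Agent.MP_d2f538_an

variable {K : Set ℂ} {ℓ : ℝ} {γ γ' γ'' : ℝ → ℂ} {ψ k : ℝ → ℝ} {g : ℂ → ℝ} {h h' h'' : ℝ → ℝ}

theorem bound_genL2 (N : NormData g h h' h'') :
    ∃ B, ∀ p ∈ MPd2f538.Sig ℓ, |genL2 γ γ' ψ h h' p| ≤ B := by
  have hb : ∀ {f : ℝ → ℝ}, Continuous f → (∀ x, f (x + 2 * π) = f x) → ∃ C, ∀ x, |f x| ≤ C := by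
    intro f hf hper
    obtain ⟨C, hC⟩ := (isCompact_Icc (a := (0 : ℝ)) (b := 2 * π)).exists_bound_of_continuousOn
      hf.continuousOn
    refine ⟨C, fun x => ?_⟩
    have hp : Function.Periodic f (2 * π) := hper
    obtain ⟨y, hy, hyx⟩ := hp.exists_mem_Ico₀ (by positivity) x
    rw [hyx]
    exact hC y (Ico_subset_Icc_self hy)
  obtain ⟨C, hC⟩ := hb N.ch N.per
  obtain ⟨C', hC'⟩ := hb N.ch' N.per'
  refine ⟨C + C', fun p _ => ?_⟩
  rw [genL2]
  refine (abs_add_le _ _).trans (add_le_add ?_ ?_)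
  · rw [abs_mul]
    calc _ ≤ |h (ph γ γ' ψ p)| * 1 := mul_le_mul_of_nonneg_left (Real.abs_cos_le_one _) (abs_nonneg _)
      _ ≤ C := by rw [mul_one]; exact hC _
  · rw [abs_mul]
    calc _ ≤ |h' (ph γ γ' ψ p)| * 1 := mul_le_mul_of_nonneg_left (Real.abs_sin_le_one _) (abs_nonneg _)
      _ ≤ C' := by rw [mul_one]; exact hC' _

/-- circle from a foliation, in normalised position -/
theorem circle_of_leaves (D : AngleData ℓ γ γ' γ'' ψ k) (N : NormData g h h' h'')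
    (hg : ∀ x, g (γ x) = 1) (hiso : ∫ x in (0 : ℝ)..ℓ, (γ' x) ^ 2 = 0) (hA : 0 < area2 ℓ γ γ')
    {leaves : Set (Set (ℝ × ℝ))} (hF : IsRotationalFoliation ℓ leaves)
    (hI : ∀ C ∈ leaves, ∀ p ∈ C, ∀ z, (p.2, z) ∈ Chords ℓ →
        genL2 γ γ' ψ h h' p + genL1 γ γ' ψ h h' (p.2, z) = 0 → (p.2, z) ∈ C) :
    ∃ r : ℝ, 0 < r ∧ range γ = Metric.sphere 0 r := by
  have hF' : MPd2f538.IsRotationalFoliation ℓ (genL1 γ γ' ψ h h') (genL2 γ γ' ψ h h') leaves :=
    ⟨hF.subset, hF.partition, hF.rotational, hF.chart, hI⟩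
  apply circle_of_ineq D N hg hiso hA
  intro c
  refine MPd2f538.hopf_ineq' (twistGen D N) hF' (bound_genL2 N) (w := fun _ => 1)
    continuous_const
    (fun _ => rfl) (continuousOn_HH D N c) (fun p _ => HH_add D N c p) ?_
    (HH_integral D N c).1
  intro p hp
  refine (HH_le D c hp).trans (le_of_eq ?_)
  simp only [MPd2f538.QQ]
  ring

/-- positively oriented case -/
theorem ellipse_pos_leaves (T : Table K ℓ γ γ' γ'') {leaves : Set (Set (ℝ × ℝ))}
    (hF : IsRotationalFoliation ℓ leaves) (hI : LeafInv K γ ℓ leaves) :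
    ∃ (S : ℂ ≃L[ℝ] ℂ) (r : ℝ), 0 < r ∧ S '' range γ = Metric.sphere 0 r := by
  obtain ⟨S, ℓ', σ, τ, n, Γ, Γ', Γ'', ψ, k, h, h', h'', U⟩ := exists_setup T
  obtain ⟨hF', hI'⟩ := leafInv_setup U hF hI
  obtain ⟨r, hr, hrange⟩ := circle_of_leaves U.D U.N U.g1 U.iso U.area hF' hI'
  refine ⟨S, r, hr, ?_⟩
  rw [← hrange]
  ext z
  constructor
  · rintro ⟨_, ⟨t, rfl⟩, rfl⟩
    exact ⟨σ t, U.eq t⟩
  · rintro ⟨x, rfl⟩
    refine ⟨γ (τ x), ⟨τ x, rfl⟩, ?_⟩
    rw [← U.eq, U.R.στ]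

theorem ellipse_leaves (T : Table0 K ℓ γ γ' γ'') {leaves : Set (Set (ℝ × ℝ))}
    (hF : IsRotationalFoliation ℓ leaves) (hI : LeafInv K γ ℓ leaves) :
    ∃ (S : ℂ ≃L[ℝ] ℂ) (r : ℝ), 0 < r ∧ S '' range γ = Metric.sphere 0 r := by
  rcases T.orient_cases with ho | ho
  · exact ellipse_pos_leaves ⟨T, ho⟩ hF hI
  · have h1 := hF.map (W := rev ℓ) (W' := rev ℓ) (ℓ' := ℓ) contDiff_rev contDiff_rev rev_rev
      rev_rev rev_mem (Or.inr fun p => by
        simp only [rev, Prod.fst_add, Prod.snd_add]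
        ext <;> simp <;> ring)
    obtain ⟨S, r, hr, hS⟩ := ellipse_pos_leaves (T.reverse ho) h1
      (leafInv_reverse T.per hF hI)
    refine ⟨S, r, hr, ?_⟩
    rw [← hS]
    congr 1
    ext z
    constructor
    · rintro ⟨x, rfl⟩; exact ⟨-x, by simp⟩
    · rintro ⟨x, rfl⟩; exact ⟨-x, rfl⟩

theorem IsTable.table0 (hK : IsTable K γ ℓ) : Table0 K ℓ γ (deriv γ) (deriv (deriv γ)) where
  isOpen := hK.isOpen
  convex := hK.convex
  bounded := hK.isBounded
  zero_mem := hK.zero_mem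
  strict := hK.strictConvex
  pos := hK.period_pos
  d1 x := (hK.contDiff.differentiable (by norm_num) x).hasDerivAt
  d2 x := by
    have hc := hK.contDiff
    rw [show (2 : WithTop ℕ∞) = 1 + 1 from rfl, contDiff_succ_iff_deriv] at hc
    exact (hc.2.2.differentiable (by norm_num) x).hasDerivAt
  c2 := by
    have hc := hK.contDiff
    rw [show (2 : WithTop ℕ∞) = 1 + 1 from rfl, contDiff_succ_iff_deriv] at hc
    exact (contDiff_one_iff_deriv.1 hc.2.2).2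
  ne x h0 := by
    have := hK.arclength x
    rw [h0, gauge_zero] at this
    exact zero_ne_one this
  per := hK.periodic
  inj x y hxy hyx h0 := by
    -- reduce to `Ico 0 ℓ`
    set m : ℤ := ⌊x / ℓ⌋ with hm
    have hℓ := hK.period_pos
    have h1 : (m : ℝ) * ℓ ≤ x := by
      have := Int.floor_le (x / ℓ)
      rwa [le_div_iff₀ hℓ] at this
    have h2 : x < (m + 1 : ℝ) * ℓ := by
      have := Int.lt_floor_add_one (x / ℓ)
      rwa [div_lt_iff₀ hℓ] at this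
    have hx : γ (x - m * ℓ) = γ x := by
      have := hK.periodic.int_mul m (x - m * ℓ)
      rw [← this]; congr 1; ring
    have hy : ∀ j : ℤ, γ (y - j * ℓ) = γ y := by
      intro j
      have := hK.periodic.int_mul j (y - j * ℓ)
      rw [← this]; congr 1; ring
    by_cases hc : y < (m + 1 : ℝ) * ℓ
    · have h3 : x - m * ℓ = y - m * ℓ := hK.simple ⟨by linarith, by linarith⟩
        ⟨by linarith, by linarith⟩ (by rw [hx, hy, h0])
      linarith
    · push Not at hc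
      have h3 : x - m * ℓ = y - ((m + 1 : ℤ) : ℝ) * ℓ := hK.simple
        ⟨by linarith, by linarith⟩
        ⟨by push_cast; linarith, by push_cast; linarith⟩ (by rw [hx, hy, h0])
      push_cast at h3
      linarith
  bdry := hK.boundary

theorem main (hK : IsTable K γ ℓ) (hT : TotallyIntegrable K γ ℓ) :
    ∃ A : ℂ ≃L[ℝ] ℂ, range γ = A '' Metric.sphere 0 1 := by
  obtain ⟨leaves, hF, hI⟩ := hT
  obtain ⟨S, r, hr, hS⟩ := ellipse_leaves hK.table0 hF hI
  set A : ℂ ≃L[ℝ] ℂ := (ContinuousLinearEquiv.smulLeft (Units.mk0 r hr.ne')).trans S.symm with hA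
  refine ⟨A, ?_⟩
  have h1 : range γ = S.symm '' (Metric.sphere 0 r) := by
    rw [← hS, ← image_comp]
    simp
  rw [h1]
  ext z
  constructor
  · rintro ⟨w, hw, rfl⟩
    refine ⟨r⁻¹ • w, ?_, ?_⟩
    · rw [mem_sphere_zero_iff_norm] at hw ⊢
      rw [norm_smul, hw, norm_inv, Real.norm_eq_abs, abs_of_pos hr, inv_mul_cancel₀ hr.ne']
    · simp [hA, Units.smul_def, smul_smul, hr.ne']
  · rintro ⟨w, hw, rfl⟩
    refine ⟨r • w, ?_, ?_⟩
    · rw [mem_sphere_zero_iff_norm] at hw ⊢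
      rw [norm_smul, hw, Real.norm_eq_abs, abs_of_pos hr, mul_one]
    · simp [hA, Units.smul_def]

end Pool.Agent.MP_d2f538_an
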