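import Pool.Agent.Lib.MP_d2f538_an.Angle

/-!
# The leaves are increasing graphs
-/

open Set Filter Topology MeasureTheory

namespace MPd2f538

lemma avoid_Ioo {D : ℝ → ℝ} (hD : Continuous D) {I : Set ℝ} (hI : I.OrdConnected) {x0 : ℝ}
    (hx0 : x0 ∈ I) {c d : ℝ} (h0 : D x0 ∈ Ioo c d) (hav : ∀ x ∈ I, D x ≠ c ∧ D x ≠ d) :
    ∀ x ∈ I, D x ∈ Ioo c d := by
  have hpre : (D '' I).OrdConnected :=
    (hI.isPreconnected.image D hD.continuousOn).ordConnected
  intro x hx
  by_contra hcon
  rw [mem_Ioo, not_and_or, not_lt, not_lt] at hcon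
  rcases hcon with hc | hc
  · obtain ⟨y, hy, hyc⟩ := hpre.out (mem_image_of_mem D hx) (mem_image_of_mem D hx0)
      ⟨hc, h0.1.le⟩
    exact (hav y hy).1 hyc
  · obtain ⟨y, hy, hyc⟩ := hpre.out (mem_image_of_mem D hx0) (mem_image_of_mem D hx)
      ⟨h0.2.le, hc⟩
    exact (hav y hy).2 hyc

/-! ### core functions -/

/-- continuous periodic functions on the strip vanishing near its boundary -/
structure IsCore (l δ : ℝ) (g : ℝ × ℝ → ℝ) : Prop where
  cont : ContinuousOn g (Sig l)
  per : ∀ p ∈ Sig l, g (p + (l, l)) = g p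
  zero : ∀ p ∈ Sig l, p ∉ Core l δ → g p = 0

namespace IsCore
variable {l δ : ℝ} {f g : ℝ × ℝ → ℝ}

lemma sub (hf : IsCore l δ f) (hg : IsCore l δ g) : IsCore l δ (fun p => f p - g p) where
  cont := hf.cont.sub hg.cont
  per p hp := by rw [hf.per p hp, hg.per p hp]
  zero p hp hpc := by rw [hf.zero p hp hpc, hg.zero p hp hpc, sub_zero]

lemma add (hf : IsCore l δ f) (hg : IsCore l δ g) : IsCore l δ (fun p => f p + g p) where
  cont := hf.cont.add hg.cont
  per p hp := by rw [hf.per p hp, hg.per p hp]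
  zero p hp hpc := by rw [hf.zero p hp hpc, hg.zero p hp hpc, add_zero]

lemma mul_right (hf : IsCore l δ f) (hg : ContinuousOn g (Sig l))
    (hper : ∀ p ∈ Sig l, g (p + (l, l)) = g p) : IsCore l δ (fun p => f p * g p) where
  cont := hf.cont.mul hg
  per p hp := by rw [hf.per p hp, hper p hp]
  zero p hp hpc := by rw [hf.zero p hp hpc, zero_mul]

lemma mul_left (hf : IsCore l δ f) (hg : ContinuousOn g (Sig l))
    (hper : ∀ p ∈ Sig l, g (p + (l, l)) = g p) : IsCore l δ (fun p => g p * f p) where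
  cont := hg.mul hf.cont
  per p hp := by rw [hf.per p hp, hper p hp]
  zero p hp hpc := by rw [hf.zero p hp hpc, mul_zero]

lemma cont_ind (hδ : 0 < δ) (hf : IsCore l δ f) : Continuous ((Sig l).indicator f) :=
  continuous_ind hδ hf.cont hf.zero

lemma per_ind (hf : IsCore l δ f) (p : ℝ × ℝ) :
    (Sig l).indicator f (p + (l, l)) = (Sig l).indicator f p := by
  by_cases hp : p ∈ Sig l
  · rw [indicator_of_mem hp, indicator_of_mem (Sig_shift.2 hp), hf.per p hp]
  · rw [indicator_of_notMem hp, indicator_of_notMem (fun hc => hp (Sig_shift.1 hc))]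

end IsCore

lemma II_sub_aux {l : ℝ} {f g : ℝ × ℝ → ℝ} (hf : Continuous f) (hg : Continuous g) :
    II l (fun p => f p - g p) = II l f - II l g := by
  unfold II
  have h1 : ∀ x : ℝ, ∫ u in (0:ℝ)..l, (f (x, x + u) - g (x, x + u)) =
      (∫ u in (0:ℝ)..l, f (x, x + u)) - ∫ u in (0:ℝ)..l, g (x, x + u) := by
    intro x
    apply intervalIntegral.integral_sub
    · apply Continuous.intervalIntegrable; fun_prop
    · apply Continuous.intervalIntegrable; fun_prop
  simp_rw [h1]
  apply intervalIntegral.integral_sub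
  · apply Continuous.intervalIntegrable
    apply intervalIntegral.continuous_parametric_intervalIntegral_of_continuous'
    unfold Function.uncurry; fun_prop
  · apply Continuous.intervalIntegrable
    apply intervalIntegral.continuous_parametric_intervalIntegral_of_continuous'
    unfold Function.uncurry; fun_prop

lemma II_sub {l δ : ℝ} (hl : 0 < l) (hδ : 0 < δ) {f g : ℝ × ℝ → ℝ} (hf : IsCore l δ f)
    (hg : IsCore l δ g) : II l (fun p => f p - g p) = II l f - II l g := by
  rw [II_congr hl.le (f := f) (g := (Sig l).indicator f)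
      (fun p hp => (indicator_of_mem hp f).symm),
    II_congr hl.le (f := g) (g := (Sig l).indicator g)
      (fun p hp => (indicator_of_mem hp g).symm),
    ← II_sub_aux (hf.cont_ind hδ) (hg.cont_ind hδ)]
  apply II_congr hl.le
  intro p hp
  rw [indicator_of_mem hp, indicator_of_mem hp]

lemma II_pos_aux {l : ℝ} (hl : 0 < l) {f : ℝ × ℝ → ℝ} (hf : Continuous f)
    (hper : ∀ p, f (p + (l, l)) = f p) (h0 : ∀ p, 0 ≤ f p) {p : ℝ × ℝ} (hp : p ∈ Sig l)
    (hpos : 0 < f p) : 0 < II l f := by
  obtain ⟨x, y⟩ := p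
  set u := y - x with hu
  have hk : Function.Periodic (fun t : ℝ => f (t, t + u)) l := by
    intro t
    have := hper (t, t + u)
    simp only [Prod.mk_add_mk] at this
    simp only
    rw [← this]
    congr 2
    ring
  obtain ⟨x', hx', he⟩ := hk.exists_mem_Ico₀ hl x
  have hxy : (x, x + u) = (x, y) := by simp [hu]
  simp only [hxy] at he
  rw [he] at hpos
  have hu0 : 0 < u := by have := hp.1; simp only at this; linarith
  have hul : u < l := by have := hp.2; simp only at this; linarith
  unfold II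
  have hcin : Continuous fun x : ℝ => ∫ u in (0:ℝ)..l, f (x, x + u) := by
    apply intervalIntegral.continuous_parametric_intervalIntegral_of_continuous'
    unfold Function.uncurry; fun_prop
  apply intervalIntegral.integral_pos hl hcin.continuousOn
  · intro t _
    apply intervalIntegral.integral_nonneg hl.le
    intro v _
    exact h0 _
  · refine ⟨x', ⟨hx'.1, hx'.2.le⟩, ?_⟩
    apply intervalIntegral.integral_pos hl
    · apply Continuous.continuousOn; fun_prop
    · intro v _
      exact h0 _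
    · exact ⟨u, ⟨hu0.le, hul.le⟩, hpos⟩

lemma II_pos {l δ : ℝ} (hl : 0 < l) (hδ : 0 < δ) {f : ℝ × ℝ → ℝ} (hf : IsCore l δ f)
    (h0 : ∀ p ∈ Sig l, 0 ≤ f p) {p : ℝ × ℝ} (hp : p ∈ Sig l) (hpos : 0 < f p) :
    0 < II l f := by
  rw [II_congr hl.le (f := f) (g := (Sig l).indicator f)
      (fun p hp => (indicator_of_mem hp f).symm)]
  apply II_pos_aux hl (hf.cont_ind hδ) hf.per_ind _ hp
  · rwa [indicator_of_mem hp]
  · intro q
    by_cases hq : q ∈ Sig l
    · rw [indicator_of_mem hq]; exact h0 q hq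
    · rw [indicator_of_notMem hq]

lemma II_nonneg {l : ℝ} (hl : 0 < l) {f : ℝ × ℝ → ℝ} (h0 : ∀ p ∈ Sig l, 0 ≤ f p) :
    0 ≤ II l f := by
  rw [II_congr hl.le (f := f) (g := (Sig l).indicator f)
      (fun p hp => (indicator_of_mem hp f).symm)]
  unfold II
  apply intervalIntegral.integral_nonneg hl.le
  intro x _
  apply intervalIntegral.integral_nonneg hl.le
  intro u _
  by_cases hq : (x, x + u) ∈ Sig l
  · rw [indicator_of_mem hq]; exact h0 _ hq
  · rw [indicator_of_notMem hq]

lemma II_mono {l δ : ℝ} (hl : 0 < l) (hδ : 0 < δ) {f g : ℝ × ℝ → ℝ} (hf : IsCore l δ f)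
    (hg : IsCore l δ g) (hfg : ∀ p ∈ Sig l, f p ≤ g p) : II l f ≤ II l g := by
  have := II_nonneg hl (f := fun p => g p - f p) (fun p hp => sub_nonneg.2 (hfg p hp))
  rw [II_sub hl hδ hg hf] at this
  linarith

end MPd2f538
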