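import Pool.Agent.Lib.MP_d2f538_an.Mono

/-!
# The leaves are increasing graphs (angle argument)
-/

open Set Filter Topology MeasureTheory

namespace MPd2f538

section
variable {l : ℝ} {L L1 L2 L11 L12 L22 : ℝ × ℝ → ℝ} {Φ : ℝ × ℝ → ℝ × ℝ} {Θ : ℝ × ℝ × ℝ → ℝ}

namespace Fol

variable (h : TwistGen l L L1 L2 L11 L12 L22) (hF : Fol l L1 L2 Φ) (hA : IsAngle Φ Θ)
include h hF hA

omit hA in
/-- the new increment -/
lemma incr_pos {s a u : ℝ} (hu : 0 < u) :
    0 < sg l L1 L2 Φ (s + u) a - sg l L1 L2 Φ s a := by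
  have := hF.sg_mono h a (show s < s + u by linarith)
  simp only at this
  linarith

/-- secants and their images -/
lemma secant {s a u : ℝ} (hu : 0 < u) : ∃ r > 0, ∃ r' > 0,
    r' * Real.cos (Θ (sg l L1 L2 Φ (s + u) a - sg l L1 L2 Φ s a, sg l L1 L2 Φ s a, a)) =
      r * Real.sin (Θ (u, s, a)) ∧
    (Real.sin (Θ (u, s, a)) = 0 → Real.cos (Θ (u, s, a)) *
      Real.sin (Θ (sg l L1 L2 Φ (s + u) a - sg l L1 L2 Φ s a, sg l L1 L2 Φ s a, a)) < 0) := by
  set u' := sg l L1 L2 Φ (s + u) a - sg l L1 L2 Φ s a with hu'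
  have hu'pos : 0 < u' := hF.incr_pos h hu
  obtain ⟨r, hr, hr1, hr2⟩ := hA.polar (u, s, a)
  obtain ⟨r', hr', hr'1, hr'2⟩ := hA.polar (u', sg l L1 L2 Φ s a, a)
  have e1 := hF.smul_GG u s a
  have e2 := hF.smul_GG u' (sg l L1 L2 Φ s a) a
  have e3 : sg l L1 L2 Φ s a + u' = sg l L1 L2 Φ (s + u) a := by rw [hu']; ring
  rw [e3, hF.sg_spec, hF.sg_spec] at e2
  set θ := Θ (u, s, a)
  set θ' := Θ (u', sg l L1 L2 Φ s a, a)
  set P := Φ (s, a) with hP
  set P' := Φ (s + u, a) with hP'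
  have hPm : P ∈ Sig l := hF.maps _
  have hP'm : P' ∈ Sig l := hF.maps _
  have a1 : u * (r * Real.cos θ) = P'.1 - P.1 := by
    have := congrArg Prod.fst e1
    simp only [Prod.smul_fst, smul_eq_mul, Prod.fst_sub, hr1] at this
    exact this
  have a2 : u * (r * Real.sin θ) = P'.2 - P.2 := by
    have := congrArg Prod.snd e1
    simp only [Prod.smul_snd, smul_eq_mul, Prod.snd_sub, hr2] at this
    exact this
  have b1 : u' * (r' * Real.cos θ') = P'.2 - P.2 := by
    have := congrArg Prod.fst e2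
    simp only [Prod.smul_fst, smul_eq_mul, Prod.fst_sub, hr'1, TT_fst] at this
    exact this
  have b2 : u' * (r' * Real.sin θ') = nx l L1 L2 P' - nx l L1 L2 P := by
    have := congrArg Prod.snd e2
    simp only [Prod.smul_snd, smul_eq_mul, Prod.snd_sub, hr'2, TT] at this
    exact this
  refine ⟨u * r, by positivity, u' * r', by positivity, by linarith, ?_⟩
  intro hs
  have hy : P'.2 = P.2 := by rw [hs] at a2; linarith
  have hne : P'.1 ≠ P.1 := by
    intro hx
    have : P' = P := Prod.ext hx hy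
    have := hF.inj this
    simp only [Prod.mk.injEq, and_true] at this
    linarith
  have hn := h.nx_mem hPm
  have hn' := h.nx_mem hP'm
  have q := h.nx_eq hPm
  have q' := h.nx_eq hP'm
  rw [hy] at hn' q'
  have hPe : (P.1, P.2) ∈ Sig l := hPm
  have hP'e : (P'.1, P.2) ∈ Sig l := by rw [← hy]; exact hP'm
  have hP'eq : P' = (P'.1, P.2) := Prod.ext rfl hy
  have hk1 : P.1 < P'.1 ↔ nx l L1 L2 P' < nx l L1 L2 P := by
    rw [← h.L2_lt hPe hP'e, ← h.L1_lt hn' hn, ← hP'eq]
    change L2 P < L2 P' ↔ _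
    constructor <;> intro _ <;> linarith
  have hk2 : P'.1 < P.1 ↔ nx l L1 L2 P < nx l L1 L2 P' := by
    rw [← h.L2_lt hP'e hPe, ← h.L1_lt hn hn', ← hP'eq]
    change L2 P' < L2 P ↔ _
    constructor <;> intro _ <;> linarith
  have hprod : (u * r * Real.cos θ) * (u' * r' * Real.sin θ') < 0 := by
    rw [show u * r * Real.cos θ = P'.1 - P.1 by linarith,
      show u' * r' * Real.sin θ' = nx l L1 L2 P' - nx l L1 L2 P by linarith]
    rcases lt_or_gt_of_ne hne with hlt | hgt
    · have := hk2.1 hlt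
      exact mul_neg_of_neg_of_pos (by linarith) (by linarith)
    · have := hk1.1 hgt
      exact mul_neg_of_pos_of_neg (by linarith) (by linarith)
  have hc : 0 < u * r * (u' * r') := by positivity
  by_contra hcon
  push Not at hcon
  have : 0 ≤ (u * r * (u' * r')) * (Real.cos θ * Real.sin θ') := mul_nonneg hc.le hcon
  nlinarith

/-- the function comparing the lifted angles -/
lemma cont_diff_angle (s a : ℝ) : Continuous fun u : ℝ =>
    Θ (sg l L1 L2 Φ (s + u) a - sg l L1 L2 Φ s a, sg l L1 L2 Φ s a, a) - Θ (u, s, a) := by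
  have h1 := hA.cont
  have h2 : Continuous fun u : ℝ => sg l L1 L2 Φ (s + u) a :=
    (hF.cont_sg h).comp (by fun_prop : Continuous fun u : ℝ => ((s + u, a) : ℝ × ℝ))
  fun_prop

lemma diff_angle_mem {s a u : ℝ} (hu : 0 < u) :
    Θ (sg l L1 L2 Φ (s + u) a - sg l L1 L2 Φ s a, sg l L1 L2 Φ s a, a) - Θ (u, s, a) ∈
      Ioo (-(3 * Real.pi / 2)) (Real.pi / 2) := by
  refine avoid_Ioo (hF.cont_diff_angle h hA s a) (I := Ioi 0) ordConnected_Ioi (x0 := 1)
    (by norm_num) ?_ ?_ u hu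
  · rw [hF.sg_add_one h, add_sub_cancel_left, hA.one, hA.one, sub_self]
    constructor <;> linarith [Real.pi_pos]
  · intro u hu
    obtain ⟨r, hr, r', hr', e1, e2⟩ := hF.secant h hA (s := s) (a := a) (mem_Ioi.1 hu)
    set θ := Θ (u, s, a)
    set θ' := Θ (sg l L1 L2 Φ (s + u) a - sg l L1 L2 Φ s a, sg l L1 L2 Φ s a, a)
    have key : Real.cos θ' = - Real.sin θ → Real.sin θ' = Real.cos θ → False := by
      intro hc hs
      rw [hc] at e1
      have h0 : Real.sin θ = 0 := by
        have : (r + r') * Real.sin θ = 0 := by linarith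
        rcases mul_eq_zero.1 this with h | h
        · linarith
        · exact h
      have := e2 h0
      rw [hs] at this
      nlinarith
    constructor
    · intro hc
      have he : θ' = θ + Real.pi / 2 - 2 * Real.pi := by linarith
      apply key
      · rw [he, Real.cos_sub_two_pi, Real.cos_add_pi_div_two]
      · rw [he, Real.sin_sub_two_pi, Real.sin_add_pi_div_two]
    · intro hc
      have he : θ' = θ + Real.pi / 2 := by linarith
      apply key
      · rw [he, Real.cos_add_pi_div_two]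
      · rw [he, Real.sin_add_pi_div_two]

lemma diff_tan_mem (s a : ℝ) :
    Θ (0, sg l L1 L2 Φ s a, a) - Θ (0, s, a) ∈ Icc (-(3 * Real.pi / 2)) (Real.pi / 2) := by
  have h1 := hF.cont_diff_angle h hA s a
  have h0 : (0:ℝ) ∈ closure (Ioi (0:ℝ)) := by rw [closure_Ioi]; exact mem_Ici.2 le_rfl
  have := map_mem_closure h1 h0 (t := Icc (-(3 * Real.pi / 2)) (Real.pi / 2))
    (fun u hu => Ioo_subset_Icc_self (hF.diff_angle_mem h hA (mem_Ioi.1 hu)))
  rw [isClosed_Icc.closure_eq] at this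
  simpa using this

lemma cos_nonneg_of_sin_pos {s a : ℝ} (hs : 0 < Real.sin (Θ (0, s, a))) :
    0 ≤ Real.cos (Θ (0, sg l L1 L2 Φ s a, a)) := by
  have h1 := hF.cont_diff_angle h hA s a
  have hc1 : Continuous fun u : ℝ => Real.sin (Θ (u, s, a)) := by
    have := hA.cont; fun_prop
  have hc2 : Continuous fun u : ℝ =>
      Real.cos (Θ (sg l L1 L2 Φ (s + u) a - sg l L1 L2 Φ s a, sg l L1 L2 Φ s a, a)) := by
    have h1 := hA.cont
    have h2 : Continuous fun u : ℝ => sg l L1 L2 Φ (s + u) a :=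
      (hF.cont_sg h).comp (by fun_prop : Continuous fun u : ℝ => ((s + u, a) : ℝ × ℝ))
    fun_prop
  have hev : ∀ᶠ u in 𝓝[>] (0:ℝ), 0 ≤
      Real.cos (Θ (sg l L1 L2 Φ (s + u) a - sg l L1 L2 Φ s a, sg l L1 L2 Φ s a, a)) := by
    have hev1 : ∀ᶠ u in 𝓝[>] (0:ℝ), 0 < Real.sin (Θ (u, s, a)) :=
      (hc1.continuousAt.eventually_const_lt hs).filter_mono nhdsWithin_le_nhds
    filter_upwards [hev1, self_mem_nhdsWithin] with u hu1 hu2
    obtain ⟨r, hr, r', hr', e1, -⟩ := hF.secant h hA (s := s) (a := a) (mem_Ioi.1 hu2)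
    by_contra hcon
    push Not at hcon
    have := mul_neg_of_pos_of_neg hr' hcon
    have := mul_pos hr hu1
    linarith
  have ht : Tendsto (fun u : ℝ =>
      Real.cos (Θ (sg l L1 L2 Φ (s + u) a - sg l L1 L2 Φ s a, sg l L1 L2 Φ s a, a)))
      (𝓝[>] 0) (𝓝 (Real.cos (Θ (0, sg l L1 L2 Φ s a, a)))) := by
    have := hc2.tendsto 0
    simp only [add_zero, sub_self] at this
    exact this.mono_left nhdsWithin_le_nhds
  exact ge_of_tendsto ht hev

lemma cos_nonpos_of_sin_neg {s a : ℝ} (hs : Real.sin (Θ (0, s, a)) < 0) :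
    Real.cos (Θ (0, sg l L1 L2 Φ s a, a)) ≤ 0 := by
  have h1 := hF.cont_diff_angle h hA s a
  have hc1 : Continuous fun u : ℝ => Real.sin (Θ (u, s, a)) := by
    have := hA.cont; fun_prop
  have hc2 : Continuous fun u : ℝ =>
      Real.cos (Θ (sg l L1 L2 Φ (s + u) a - sg l L1 L2 Φ s a, sg l L1 L2 Φ s a, a)) := by
    have h1 := hA.cont
    have h2 : Continuous fun u : ℝ => sg l L1 L2 Φ (s + u) a :=
      (hF.cont_sg h).comp (by fun_prop : Continuous fun u : ℝ => ((s + u, a) : ℝ × ℝ))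
    fun_prop
  have hev : ∀ᶠ u in 𝓝[>] (0:ℝ),
      Real.cos (Θ (sg l L1 L2 Φ (s + u) a - sg l L1 L2 Φ s a, sg l L1 L2 Φ s a, a)) ≤ 0 := by
    have hev1 : ∀ᶠ u in 𝓝[>] (0:ℝ), Real.sin (Θ (u, s, a)) < 0 :=
      (hc1.continuousAt.eventually_lt_const hs).filter_mono nhdsWithin_le_nhds
    filter_upwards [hev1, self_mem_nhdsWithin] with u hu1 hu2
    obtain ⟨r, hr, r', hr', e1, -⟩ := hF.secant h hA (s := s) (a := a) (mem_Ioi.1 hu2)
    by_contra hcon
    push Not at hcon
    have := mul_pos hr' hcon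
    have := mul_neg_of_pos_of_neg hr hu1
    linarith
  have ht : Tendsto (fun u : ℝ =>
      Real.cos (Θ (sg l L1 L2 Φ (s + u) a - sg l L1 L2 Φ s a, sg l L1 L2 Φ s a, a)))
      (𝓝[>] 0) (𝓝 (Real.cos (Θ (0, sg l L1 L2 Φ s a, a)))) := by
    have := hc2.tendsto 0
    simp only [add_zero, sub_self] at this
    exact this.mono_left nhdsWithin_le_nhds
  exact le_of_tendsto ht hev

lemma angle_step_pi {s a : ℝ} (hs : Θ (0, s, a) < Real.pi) :
    Θ (0, sg l L1 L2 Φ s a, a) ≤ Real.pi - Real.pi / 2 := by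
  have hd := hF.diff_tan_mem h hA s a
  have hpi := Real.pi_pos
  by_cases h0 : Θ (0, s, a) ≤ 0
  · linarith [hd.2]
  · push Not at h0
    have hsin := Real.sin_pos_of_pos_of_lt_pi h0 hs
    have hcos := hF.cos_nonneg_of_sin_pos h hA hsin
    by_contra hcon
    push Not at hcon
    have := Real.cos_neg_of_pi_div_two_lt_of_lt (x := Θ (0, sg l L1 L2 Φ s a, a))
      (by linarith) (by linarith [hd.2])
    linarith

lemma angle_step_zero {s a : ℝ} (hs : Θ (0, s, a) < 0) :
    Θ (0, sg l L1 L2 Φ s a, a) ≤ 0 - Real.pi / 2 := by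
  have hd := hF.diff_tan_mem h hA s a
  have hpi := Real.pi_pos
  by_cases h0 : Θ (0, s, a) ≤ -Real.pi
  · linarith [hd.2]
  · push Not at h0
    have hsin := Real.sin_neg_of_neg_of_neg_pi_lt hs h0
    have hcos := hF.cos_nonpos_of_sin_neg h hA hsin
    by_contra hcon
    push Not at hcon
    have := Real.cos_pos_of_mem_Ioo (x := Θ (0, sg l L1 L2 Φ s a, a))
      ⟨by linarith, by linarith [hd.2]⟩
    linarith

omit h in
lemma angle_add_one (u s a : ℝ) : Θ (u, s + 1, a) = Θ (u, s, a) := by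
  have hpi := Real.pi_pos
  have hc : Continuous fun u : ℝ => Θ (u, s + 1, a) - Θ (u, s, a) := by
    have := hA.cont
    fun_prop
  have key : ∀ u : ℝ, Real.cos (Θ (u, s + 1, a) - Θ (u, s, a)) = 1 := by
    intro u
    obtain ⟨r, hr, h1, h2⟩ := hA.polar (u, s + 1, a)
    obtain ⟨r', hr', h1', h2'⟩ := hA.polar (u, s, a)
    rw [hF.GG_add_one] at h1 h2
    rw [h1'] at h1
    rw [h2'] at h2
    have hs1 := Real.sin_sq_add_cos_sq (Θ (u, s + 1, a))
    have hs2 := Real.sin_sq_add_cos_sq (Θ (u, s, a))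
    set c := Real.cos (Θ (u, s + 1, a))
    set d := Real.sin (Θ (u, s + 1, a))
    set c' := Real.cos (Θ (u, s, a))
    set d' := Real.sin (Θ (u, s, a))
    have hrr : r = r' := by
      have : r ^ 2 = r' ^ 2 := by
        calc r ^ 2 = (r * d) ^ 2 + (r * c) ^ 2 := by nlinarith
          _ = (r' * d') ^ 2 + (r' * c') ^ 2 := by rw [← h1, ← h2]
          _ = r' ^ 2 := by nlinarith
      exact (pow_left_inj₀ hr.le hr'.le two_ne_zero).1 this
    rw [hrr] at h1 h2
    have e1 := mul_left_cancel₀ hr'.ne' h1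
    have e2 := mul_left_cancel₀ hr'.ne' h2
    rw [Real.cos_sub]
    change c * c' + d * d' = 1
    rw [← e1, ← e2]
    nlinarith
  have hmem := avoid_Ioo hc (I := univ) ordConnected_univ (x0 := 1) (mem_univ _)
    (c := -Real.pi) (d := Real.pi) (by
      simp only [hA.one, sub_self]
      constructor <;> linarith) (by
      intro x _
      constructor
      · intro hx
        have := key x
        rw [hx, Real.cos_neg, Real.cos_pi] at this
        norm_num at this
      · intro hx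
        have := key x
        rw [hx, Real.cos_pi] at this
        norm_num at this) u (mem_univ _)
  have h3 := key u
  have h4 : Θ (u, s + 1, a) - Θ (u, s, a) = 0 := by
    have := Real.cos_eq_one_iff_of_lt_of_lt (x := Θ (u, s + 1, a) - Θ (u, s, a))
      (by linarith [hmem.1]) (by linarith [hmem.2])
    exact this.1 h3
  linarith

end Fol
end

end MPd2f538
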