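import Pool.Agent.Lib.MP_d2f538_an.Curve

open MeasureTheory Set Real Filter Topology

namespace Pool.Agent.MP_d2f538_an

/-- Polar description of a `C²` Minkowski norm `g` in the plane: `g (r e^{iφ}) = r h(φ)`. -/
structure NormData (g : ℂ → ℝ) (h h' h'' : ℝ → ℝ) : Prop where
  hom : ∀ r φ : ℝ, 0 ≤ r → g (r * Complex.exp (φ * Complex.I)) = r * h φ
  d1 : ∀ φ, HasDerivAt h (h' φ) φ
  d2 : ∀ φ, HasDerivAt h' (h'' φ) φ
  c2 : Continuous h''
  per : ∀ φ, h (φ + 2 * π) = h φ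
  nonneg : ∀ φ, 0 ≤ h φ + h'' φ
  dense : ∀ a b, a < b → ∃ c ∈ Ioo a b, 0 < h c + h'' c

section

variable {g : ℂ → ℝ} {h h' h'' : ℝ → ℝ}

theorem NormData.ch (N : NormData g h h' h'') : Continuous h :=
  continuous_iff_continuousAt.2 fun x => (N.d1 x).continuousAt

theorem NormData.ch' (N : NormData g h h' h'') : Continuous h' :=
  continuous_iff_continuousAt.2 fun x => (N.d2 x).continuousAt

theorem NormData.per' (N : NormData g h h' h'') (φ : ℝ) : h' (φ + 2 * π) = h' φ := by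
  have h1 : HasDerivAt (fun x => h (x + 2 * π)) (h' (φ + 2 * π)) φ :=
    (N.d1 (φ + 2 * π)).comp_add_const φ (2 * π)
  have h2 : (fun x => h (x + 2 * π)) = h := funext N.per
  rw [h2] at h1
  exact h1.unique (N.d1 φ)

theorem NormData.per'' (N : NormData g h h' h'') (φ : ℝ) : h'' (φ + 2 * π) = h'' φ := by
  have h1 : HasDerivAt (fun x => h' (x + 2 * π)) (h'' (φ + 2 * π)) φ :=
    (N.d2 (φ + 2 * π)).comp_add_const φ (2 * π)
  have h2 : (fun x => h' (x + 2 * π)) = h' := funext N.per'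
  rw [h2] at h1
  exact h1.unique (N.d2 φ)

/-- derivative of the norm at direction `φ` evaluated on the unit vector of direction `c` -/
noncomputable def grad (h h' : ℝ → ℝ) (c φ : ℝ) : ℝ :=
  h φ * Real.cos (φ - c) - h' φ * Real.sin (φ - c)

theorem NormData.hasDerivAt_grad (N : NormData g h h' h'') (c φ : ℝ) :
    HasDerivAt (grad h h' c) (-((h φ + h'' φ) * Real.sin (φ - c))) φ := by
  have hs : HasDerivAt (fun φ => φ - c) 1 φ := (hasDerivAt_id φ).sub_const c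
  have h1 := ((N.d1 φ).mul hs.cos).sub ((N.d2 φ).mul hs.sin)
  refine h1.congr_deriv ?_
  ring

theorem NormData.continuous_grad (N : NormData g h h' h'') (c : ℝ) : Continuous (grad h h' c) :=
  continuous_iff_continuousAt.2 fun x => (N.hasDerivAt_grad c x).continuousAt

/-- A function with nonnegative derivative, positive on a dense set, is strictly monotone. -/
theorem strictMonoOn_of_dense {f f' : ℝ → ℝ} {a b : ℝ}
    (hf : ContinuousOn f (Icc a b)) (hd : ∀ x ∈ Ioo a b, HasDerivAt f (f' x) x)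
    (h0 : ∀ x ∈ Ioo a b, 0 ≤ f' x)
    (hdense : ∀ x y, a < x → x < y → y < b → ∃ c ∈ Ioo x y, 0 < f' c) :
    StrictMonoOn f (Icc a b) := by
  have hmono : MonotoneOn f (Icc a b) := by
    apply monotoneOn_of_deriv_nonneg (convex_Icc _ _) hf
    · rw [interior_Icc]; exact fun x hx => (hd x hx).differentiableAt.differentiableWithinAt
    · rw [interior_Icc]; intro x hx; rw [(hd x hx).deriv]; exact h0 x hx
  intro x hx y hy hxy
  rcases lt_or_eq_of_le (hmono hx hy hxy.le) with h1 | h1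
  · exact h1
  · exfalso
    set x' := (2 * x + y) / 3 with hx'
    set y' := (x + 2 * y) / 3 with hy'
    have e1 : x < x' := by rw [hx']; linarith
    have e2 : x' < y' := by rw [hx', hy']; linarith
    have e3 : y' < y := by rw [hy']; linarith
    obtain ⟨c, hc, hcpos⟩ := hdense x' y' (lt_of_le_of_lt hx.1 e1) e2 (lt_of_lt_of_le e3 hy.2)
    have hcI : c ∈ Ioo a b := ⟨by linarith [hx.1, hc.1], by linarith [hy.2, hc.2]⟩
    have hev : f =ᶠ[𝓝 c] fun _ => f x := by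
      have : Ioo x y ∈ 𝓝 c := Ioo_mem_nhds (by linarith [hc.1]) (by linarith [hc.2])
      filter_upwards [this] with z hz
      have hz' : z ∈ Icc a b := ⟨by linarith [hx.1, hz.1], by linarith [hy.2, hz.2]⟩
      have a1 := hmono hx hz' hz.1.le
      have a2 := hmono hz' hy hz.2.le
      exact le_antisymm (by linarith) a1
    have h2 : HasDerivAt f 0 c := (hasDerivAt_const c (f x)).congr_of_eventuallyEq hev
    have := (hd c hcI).unique h2
    linarith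

theorem NormData.strictAnti_grad (N : NormData g h h' h'') (c : ℝ) :
    StrictAntiOn (grad h h' c) (Icc c (c + π)) := by
  have h1 : StrictMonoOn (fun φ => -grad h h' c φ) (Icc c (c + π)) := by
    apply strictMonoOn_of_dense (f' := fun φ => (h φ + h'' φ) * Real.sin (φ - c))
    · exact (N.continuous_grad c).neg.continuousOn
    · intro x _
      have := (N.hasDerivAt_grad c x).neg
      rwa [neg_neg] at this
    · intro x hx
      apply mul_nonneg (N.nonneg x)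
      exact (Real.sin_pos_of_pos_of_lt_pi (by linarith [hx.1]) (by linarith [hx.2])).le
    · intro x y hx hxy hy
      obtain ⟨d, hd, hdpos⟩ := N.dense x y hxy
      exact ⟨d, hd, mul_pos hdpos
        (Real.sin_pos_of_pos_of_lt_pi (by linarith [hd.1]) (by linarith [hd.2]))⟩
  intro x hx y hy hxy
  have := h1 hx hy hxy
  simp only at this
  linarith

theorem NormData.strictMono_grad (N : NormData g h h' h'') (c : ℝ) :
    StrictMonoOn (grad h h' c) (Icc (c - π) c) := by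
  apply strictMonoOn_of_dense (f' := fun φ => -((h φ + h'' φ) * Real.sin (φ - c)))
  · exact (N.continuous_grad c).continuousOn
  · intro x _
    exact N.hasDerivAt_grad c x
  · intro x hx
    have := Real.sin_neg_of_neg_of_neg_pi_lt (x := x - c) (by linarith [hx.2])
      (by linarith [hx.1])
    have h1 := N.nonneg x
    nlinarith
  · intro x y hx hxy hy
    obtain ⟨d, hd, hdpos⟩ := N.dense x y hxy
    refine ⟨d, hd, ?_⟩
    have := Real.sin_neg_of_neg_of_neg_pi_lt (x := d - c) (by linarith [hd.2])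
      (by linarith [hd.1])
    nlinarith

theorem NormData.grad_period (N : NormData g h h' h'') (c : ℝ) :
    grad h h' c (c + π) = grad h h' c (c - π) := by
  have e1 : h (c + π) = h (c - π) := by
    rw [← N.per (c - π)]; congr 1; ring
  have e2 : h' (c + π) = h' (c - π) := by
    rw [← N.per' (c - π)]; congr 1; ring
  rw [grad, grad, e1, e2]
  simp

/-- the two directions with the same value of the gradient on the unit vector of angle `c` -/
theorem NormData.exists_right (N : NormData g h h' h'') {c φ : ℝ} (hφ : φ ∈ Ioo (c - π) c) :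
    ∃ φ' ∈ Ioo c (c + π), grad h h' c φ' = grad h h' c φ := by
  have hpi := pi_pos
  have h1 : grad h h' c (c - π) < grad h h' c φ :=
    N.strictMono_grad c (left_mem_Icc.2 (by linarith)) ⟨hφ.1.le, hφ.2.le⟩ hφ.1
  have h2 : grad h h' c φ < grad h h' c c :=
    N.strictMono_grad c ⟨hφ.1.le, hφ.2.le⟩ (right_mem_Icc.2 (by linarith)) hφ.2
  rw [← N.grad_period] at h1
  have h3 := intermediate_value_Ioo' (by linarith : c ≤ c + π)
    ((N.continuous_grad c).continuousOn (s := Icc c (c + π)))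
  obtain ⟨φ', hφ', he⟩ := h3 ⟨h1, h2⟩
  exact ⟨φ', hφ', he⟩

theorem NormData.exists_left (N : NormData g h h' h'') {c φ : ℝ} (hφ : φ ∈ Ioo c (c + π)) :
    ∃ φ' ∈ Ioo (c - π) c, grad h h' c φ' = grad h h' c φ := by
  have hpi := pi_pos
  have h1 : grad h h' c (c + π) < grad h h' c φ :=
    N.strictAnti_grad c ⟨hφ.1.le, hφ.2.le⟩ (right_mem_Icc.2 (by linarith)) hφ.2
  have h2 : grad h h' c φ < grad h h' c c :=
    N.strictAnti_grad c (left_mem_Icc.2 (by linarith)) ⟨hφ.1.le, hφ.2.le⟩ hφ.1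
  rw [N.grad_period] at h1
  have h3 := intermediate_value_Ioo (by linarith : c - π ≤ c)
    ((N.continuous_grad c).continuousOn (s := Icc (c - π) c))
  obtain ⟨φ', hφ', he⟩ := h3 ⟨h1, h2⟩
  exact ⟨φ', hφ', he⟩

end

section gen

variable {ℓ : ℝ} {γ γ' γ'' : ℝ → ℂ} {ψ k : ℝ → ℝ} {g : ℂ → ℝ} {h h' h'' : ℝ → ℝ}

noncomputable def genL (γ γ' : ℝ → ℂ) (ψ h : ℝ → ℝ) (p : ℝ × ℝ) : ℝ :=
  lam γ p * h (ph γ γ' ψ p)

noncomputable def genL1 (γ γ' : ℝ → ℂ) (ψ h h' : ℝ → ℝ) (p : ℝ × ℝ) : ℝ :=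
  -h (ph γ γ' ψ p) * Real.cos (al γ γ' p) + h' (ph γ γ' ψ p) * Real.sin (al γ γ' p)

noncomputable def genL2 (γ γ' : ℝ → ℂ) (ψ h h' : ℝ → ℝ) (p : ℝ × ℝ) : ℝ :=
  h (ph γ γ' ψ p) * Real.cos (al1 γ γ' ψ p) + h' (ph γ γ' ψ p) * Real.sin (al1 γ γ' ψ p)

noncomputable def genL11 (γ γ' : ℝ → ℂ) (ψ k h h' h'' : ℝ → ℝ) (p : ℝ × ℝ) : ℝ :=
  (h (ph γ γ' ψ p) + h'' (ph γ γ' ψ p)) * Real.sin (al γ γ' p) *
      (Real.sin (al γ γ' p) / lam γ p) -
    k p.1 * (h (ph γ γ' ψ p) * Real.sin (al γ γ' p) + h' (ph γ γ' ψ p) * Real.cos (al γ γ' p))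

noncomputable def genL12 (γ γ' : ℝ → ℂ) (ψ h h'' : ℝ → ℝ) (p : ℝ × ℝ) : ℝ :=
  (h (ph γ γ' ψ p) + h'' (ph γ γ' ψ p)) * Real.sin (al γ γ' p) *
      (Real.sin (al1 γ γ' ψ p) / lam γ p)

noncomputable def genL22 (γ γ' : ℝ → ℂ) (ψ k h h' h'' : ℝ → ℝ) (p : ℝ × ℝ) : ℝ :=
  (h (ph γ γ' ψ p) + h'' (ph γ γ' ψ p)) * Real.sin (al1 γ γ' ψ p) *
      (Real.sin (al1 γ γ' ψ p) / lam γ p) +
    k p.2 * (-h (ph γ γ' ψ p) * Real.sin (al1 γ γ' ψ p) +
      h' (ph γ γ' ψ p) * Real.cos (al1 γ γ' ψ p))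

theorem gen_eq (D : AngleData ℓ γ γ' γ'' ψ k) (N : NormData g h h' h'') (p : ℝ × ℝ) :
    genL γ γ' ψ h p = g (γ p.2 - γ p.1) := by
  have hl : 0 ≤ lam γ p := norm_nonneg _
  rw [D.chord_eq p, N.hom _ _ hl, genL]

theorem hasFDerivAt_genL (D : AngleData ℓ γ γ' γ'' ψ k) (N : NormData g h h' h'')
    {p : ℝ × ℝ} (hp : p ∈ Sig ℓ) :
    HasFDerivAt (genL γ γ' ψ h)
      (genL1 γ γ' ψ h h' p • ContinuousLinearMap.fst ℝ ℝ ℝ +
        genL2 γ γ' ψ h h' p • ContinuousLinearMap.snd ℝ ℝ ℝ) p := by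
  have hl := D.lam_pos hp
  have h1 := (D.hasFDerivAt_lam hp).mul ((N.d1 _).comp_hasFDerivAt p (D.hasFDerivAt_ph hp))
  refine h1.congr_fderiv ?_
  ext
  · simp [genL1]
    field_simp
    ring
  · simp [genL2]
    field_simp
    ring

theorem hasFDerivAt_al (D : AngleData ℓ γ γ' γ'' ψ k)
    {p : ℝ × ℝ} (hp : p ∈ Sig ℓ) :
    HasFDerivAt (al γ γ')
      ((Real.sin (al γ γ' p) / lam γ p - k p.1) • ContinuousLinearMap.fst ℝ ℝ ℝ +
        (Real.sin (al1 γ γ' ψ p) / lam γ p) • ContinuousLinearMap.snd ℝ ℝ ℝ) p := by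
  have h1 : HasFDerivAt (fun p : ℝ × ℝ => ψ p.1) ((k p.1) • ContinuousLinearMap.fst ℝ ℝ ℝ) p := by
    have := (D.dψ p.1).hasFDerivAt.comp p (hasFDerivAt_fst (𝕜 := ℝ) (p := p))
    refine this.congr_fderiv ?_
    ext <;> simp
  have h2 := (D.hasFDerivAt_ph hp).sub h1
  have h3 : (ph γ γ' ψ - fun p : ℝ × ℝ => ψ p.1) = al γ γ' := by
    funext p; simp [ph]
  rw [h3] at h2
  refine h2.congr_fderiv ?_
  ext <;> simp

theorem hasFDerivAt_al1 (D : AngleData ℓ γ γ' γ'' ψ k)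
    {p : ℝ × ℝ} (hp : p ∈ Sig ℓ) :
    HasFDerivAt (al1 γ γ' ψ)
      ((-(Real.sin (al γ γ' p) / lam γ p)) • ContinuousLinearMap.fst ℝ ℝ ℝ +
        (k p.2 - Real.sin (al1 γ γ' ψ p) / lam γ p) • ContinuousLinearMap.snd ℝ ℝ ℝ) p := by
  have h1 : HasFDerivAt (fun p : ℝ × ℝ => ψ p.2) ((k p.2) • ContinuousLinearMap.snd ℝ ℝ ℝ) p := by
    have := (D.dψ p.2).hasFDerivAt.comp p (hasFDerivAt_snd (𝕜 := ℝ) (p := p))
    refine this.congr_fderiv ?_
    ext <;> simp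
  have h2 := h1.sub (D.hasFDerivAt_ph hp)
  have h3 : ((fun p : ℝ × ℝ => ψ p.2) - ph γ γ' ψ) = al1 γ γ' ψ := by
    funext p; simp [al1]
  rw [h3] at h2
  refine h2.congr_fderiv ?_
  ext <;> simp

theorem hasFDerivAt_genL1 (D : AngleData ℓ γ γ' γ'' ψ k) (N : NormData g h h' h'')
    {p : ℝ × ℝ} (hp : p ∈ Sig ℓ) :
    HasFDerivAt (genL1 γ γ' ψ h h')
      (genL11 γ γ' ψ k h h' h'' p • ContinuousLinearMap.fst ℝ ℝ ℝ +
        genL12 γ γ' ψ h h'' p • ContinuousLinearMap.snd ℝ ℝ ℝ) p := by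
  have hl := D.lam_pos hp
  have a1 := (N.d1 _).comp_hasFDerivAt p (D.hasFDerivAt_ph hp)
  have a2 := (N.d2 _).comp_hasFDerivAt p (D.hasFDerivAt_ph hp)
  have h1 := (a1.neg.mul (hasFDerivAt_al D hp).cos).add (a2.mul (hasFDerivAt_al D hp).sin)
  refine h1.congr_fderiv ?_
  ext
  · simp [genL11]
    ring
  · simp [genL12]
    ring

theorem hasFDerivAt_genL2 (D : AngleData ℓ γ γ' γ'' ψ k) (N : NormData g h h' h'')
    {p : ℝ × ℝ} (hp : p ∈ Sig ℓ) :
    HasFDerivAt (genL2 γ γ' ψ h h')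
      (genL12 γ γ' ψ h h'' p • ContinuousLinearMap.fst ℝ ℝ ℝ +
        genL22 γ γ' ψ k h h' h'' p • ContinuousLinearMap.snd ℝ ℝ ℝ) p := by
  have hl := D.lam_pos hp
  have a1 := (N.d1 _).comp_hasFDerivAt p (D.hasFDerivAt_ph hp)
  have a2 := (N.d2 _).comp_hasFDerivAt p (D.hasFDerivAt_ph hp)
  have h1 := (a1.mul (hasFDerivAt_al1 D hp).cos).add (a2.mul (hasFDerivAt_al1 D hp).sin)
  refine h1.congr_fderiv ?_
  ext
  · simp [genL12]
    ring
  · simp [genL22]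
    ring

theorem genL1_eq (p : ℝ × ℝ) :
    genL1 γ γ' ψ h h' p = -grad h h' (ψ p.1) (ph γ γ' ψ p) := by
  rw [genL1, grad]
  have : ph γ γ' ψ p - ψ p.1 = al γ γ' p := by rw [ph]; ring
  rw [this]; ring

theorem genL2_eq (p : ℝ × ℝ) :
    genL2 γ γ' ψ h h' p = grad h h' (ψ p.2) (ph γ γ' ψ p) := by
  rw [genL2, grad]
  have : ph γ γ' ψ p - ψ p.2 = -al1 γ γ' ψ p := by rw [al1]; ring
  rw [this, Real.cos_neg, Real.sin_neg]; ring

theorem strictMonoOn_genL1 (D : AngleData ℓ γ γ' γ'' ψ k) (N : NormData g h h' h'') (x : ℝ) :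
    StrictMonoOn (fun y => genL1 γ γ' ψ h h' (x, y)) (Ioo x (x + ℓ)) := by
  intro y hy z hz hyz
  simp only [genL1_eq]
  have h1 := D.strictMonoOn_ph x hy hz hyz
  have my := D.ph_mem (p := (x, y)) ⟨hy.1, hy.2⟩
  have mz := D.ph_mem (p := (x, z)) ⟨hz.1, hz.2⟩
  have := N.strictAnti_grad (ψ x) ⟨my.1.le, my.2.le⟩ ⟨mz.1.le, mz.2.le⟩ h1
  linarith

theorem AngleData.strictMonoOn_ph_fst (D : AngleData ℓ γ γ' γ'' ψ k) (y : ℝ) :
    StrictMonoOn (fun x => ph γ γ' ψ (x, y)) (Ioo (y - ℓ) y) := by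
  apply strictMonoOn_of_deriv_pos (convex_Ioo _ _)
  · exact fun x hx =>
      (D.hasDerivAt_ph_fst ⟨hx.2, by simp only; linarith [hx.1]⟩).continuousAt.continuousWithinAt
  · intro x hx
    rw [interior_Ioo] at hx
    have hp : (x, y) ∈ Sig ℓ := ⟨hx.2, by simp only; linarith [hx.1]⟩
    rw [(D.hasDerivAt_ph_fst hp).deriv]
    exact div_pos (D.sin_al_pos hp) (D.lam_pos hp)

theorem strictMonoOn_genL2 (D : AngleData ℓ γ γ' γ'' ψ k) (N : NormData g h h' h'') (y : ℝ) :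
    StrictMonoOn (fun x => genL2 γ γ' ψ h h' (x, y)) (Ioo (y - ℓ) y) := by
  intro x hx z hz hxz
  simp only [genL2_eq]
  have h1 := D.strictMonoOn_ph_fst y hx hz hxz
  have mx := D.ph_mem' (p := (x, y)) ⟨hx.2, by simp only; linarith [hx.1]⟩
  have mz := D.ph_mem' (p := (z, y)) ⟨hz.2, by simp only; linarith [hz.1]⟩
  exact N.strictMono_grad (ψ y) ⟨mx.1.le, mx.2.le⟩ ⟨mz.1.le, mz.2.le⟩ h1

theorem exists_next (D : AngleData ℓ γ γ' γ'' ψ k) (N : NormData g h h' h'') {p : ℝ × ℝ}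
    (hp : p ∈ Sig ℓ) :
    ∃ z, (p.2, z) ∈ Sig ℓ ∧ genL2 γ γ' ψ h h' p + genL1 γ γ' ψ h h' (p.2, z) = 0 := by
  obtain ⟨φ', hφ', he⟩ := N.exists_right (D.ph_mem' hp)
  rw [← D.image_ph p.2] at hφ'
  obtain ⟨z, hz, rfl⟩ := hφ'
  refine ⟨z, ⟨hz.1, hz.2⟩, ?_⟩
  rw [genL1_eq, genL2_eq]
  simp only at he ⊢
  rw [he]; ring

theorem exists_prev (D : AngleData ℓ γ γ' γ'' ψ k) (N : NormData g h h' h'') {p : ℝ × ℝ}
    (hp : p ∈ Sig ℓ) :
    ∃ z, (z, p.1) ∈ Sig ℓ ∧ genL2 γ γ' ψ h h' (z, p.1) + genL1 γ γ' ψ h h' p = 0 := by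
  obtain ⟨φ', hφ', he⟩ := N.exists_left (D.ph_mem hp)
  have h1 : φ' + π ∈ Ioo (ψ p.1) (ψ p.1 + π) := ⟨by linarith [hφ'.1], by linarith [hφ'.2]⟩
  rw [← D.image_ph p.1] at h1
  obtain ⟨z, hz, hz'⟩ := h1
  have hS : (z - ℓ, p.1) ∈ Sig ℓ := ⟨by simp only; linarith [hz.2], by simp only; linarith [hz.1]⟩
  have h2 := D.ph_swap hS
  rw [sub_add_cancel] at h2
  simp only at hz'
  rw [hz'] at h2
  have h3 : ph γ γ' ψ (z - ℓ, p.1) = φ' := by linarith
  refine ⟨z - ℓ, hS, ?_⟩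
  rw [genL1_eq, genL2_eq]
  simp only
  rw [h3, he]; ring

theorem AngleData.k_add (D : AngleData ℓ γ γ' γ'' ψ k) (x : ℝ) : k (x + ℓ) = k x := by
  have h1 : HasDerivAt (fun x => ψ (x + ℓ)) (k (x + ℓ)) x := (D.dψ (x + ℓ)).comp_add_const x ℓ
  have h2 : (fun x => ψ (x + ℓ)) = fun x => ψ x + 2 * π := funext D.ψ_add
  rw [h2] at h1
  exact h1.unique ((D.dψ x).add_const _)

theorem AngleData.al_add (D : AngleData ℓ γ γ' γ'' ψ k) (p : ℝ × ℝ) :
    al γ γ' (p + (ℓ, ℓ)) = al γ γ' p := by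
  simp only [al, wch, Prod.fst_add, Prod.snd_add, D.per', D.per]

theorem AngleData.lam_add (D : AngleData ℓ γ γ' γ'' ψ k) (p : ℝ × ℝ) :
    lam γ (p + (ℓ, ℓ)) = lam γ p := by
  simp only [lam, Prod.fst_add, Prod.snd_add, D.per]

theorem AngleData.ph_add (D : AngleData ℓ γ γ' γ'' ψ k) (p : ℝ × ℝ) :
    ph γ γ' ψ (p + (ℓ, ℓ)) = ph γ γ' ψ p + 2 * π := by
  simp only [ph, D.al_add, Prod.fst_add, D.ψ_add]; ring

theorem AngleData.al1_add (D : AngleData ℓ γ γ' γ'' ψ k) (p : ℝ × ℝ) :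
    al1 γ γ' ψ (p + (ℓ, ℓ)) = al1 γ γ' ψ p := by
  simp only [al1, D.ph_add, Prod.snd_add, D.ψ_add]; ring

theorem genL_add (D : AngleData ℓ γ γ' γ'' ψ k) (N : NormData g h h' h'') (p : ℝ × ℝ) :
    genL γ γ' ψ h (p + (ℓ, ℓ)) = genL γ γ' ψ h p := by
  simp only [genL, D.lam_add, D.ph_add, N.per]

theorem genL1_add (D : AngleData ℓ γ γ' γ'' ψ k) (N : NormData g h h' h'') (p : ℝ × ℝ) :
    genL1 γ γ' ψ h h' (p + (ℓ, ℓ)) = genL1 γ γ' ψ h h' p := by
  simp only [genL1, D.al_add, D.ph_add, N.per, N.per']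

theorem genL2_add (D : AngleData ℓ γ γ' γ'' ψ k) (N : NormData g h h' h'') (p : ℝ × ℝ) :
    genL2 γ γ' ψ h h' (p + (ℓ, ℓ)) = genL2 γ γ' ψ h h' p := by
  simp only [genL2, D.al1_add, D.ph_add, N.per, N.per']

theorem genL11_add (D : AngleData ℓ γ γ' γ'' ψ k) (N : NormData g h h' h'') (p : ℝ × ℝ) :
    genL11 γ γ' ψ k h h' h'' (p + (ℓ, ℓ)) = genL11 γ γ' ψ k h h' h'' p := by
  simp only [genL11, D.al_add, D.ph_add, N.per, N.per', N.per'', D.lam_add, Prod.fst_add, D.k_add]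

theorem genL12_add (D : AngleData ℓ γ γ' γ'' ψ k) (N : NormData g h h' h'') (p : ℝ × ℝ) :
    genL12 γ γ' ψ h h'' (p + (ℓ, ℓ)) = genL12 γ γ' ψ h h'' p := by
  simp only [genL12, D.al_add, D.al1_add, D.ph_add, N.per, N.per', N.per'', D.lam_add]

theorem genL22_add (D : AngleData ℓ γ γ' γ'' ψ k) (N : NormData g h h' h'') (p : ℝ × ℝ) :
    genL22 γ γ' ψ k h h' h'' (p + (ℓ, ℓ)) = genL22 γ γ' ψ k h h' h'' p := by
  simp only [genL22, D.al1_add, D.ph_add, N.per, N.per', N.per'', D.lam_add, Prod.snd_add, D.k_add]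

theorem genL12_nonneg (D : AngleData ℓ γ γ' γ'' ψ k) (N : NormData g h h' h'') {p : ℝ × ℝ}
    (hp : p ∈ Sig ℓ) : 0 ≤ genL12 γ γ' ψ h h'' p :=
  mul_nonneg (mul_nonneg (N.nonneg _) (D.sin_al_pos hp).le)
    (div_pos (D.sin_al1_pos hp) (D.lam_pos hp)).le

theorem AngleData.continuousOn_comp (D : AngleData ℓ γ γ' γ'' ψ k) {f : ℝ → ℝ}
    (hf : Continuous f) : ContinuousOn (fun p => f (ph γ γ' ψ p)) (Sig ℓ) :=
  hf.comp_continuousOn D.continuousOn_ph

theorem AngleData.cs (D : AngleData ℓ γ γ' γ'' ψ k) :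
    ContinuousOn (fun p => Real.sin (al γ γ' p)) (Sig ℓ) :=
  Real.continuous_sin.comp_continuousOn D.continuousOn_al

theorem AngleData.cs1 (D : AngleData ℓ γ γ' γ'' ψ k) :
    ContinuousOn (fun p => Real.sin (al1 γ γ' ψ p)) (Sig ℓ) :=
  Real.continuous_sin.comp_continuousOn D.continuousOn_al1

theorem AngleData.cc (D : AngleData ℓ γ γ' γ'' ψ k) :
    ContinuousOn (fun p => Real.cos (al γ γ' p)) (Sig ℓ) :=
  Real.continuous_cos.comp_continuousOn D.continuousOn_al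

theorem AngleData.cc1 (D : AngleData ℓ γ γ' γ'' ψ k) :
    ContinuousOn (fun p => Real.cos (al1 γ γ' ψ p)) (Sig ℓ) :=
  Real.continuous_cos.comp_continuousOn D.continuousOn_al1

theorem AngleData.csl (D : AngleData ℓ γ γ' γ'' ψ k) :
    ContinuousOn (fun p => Real.sin (al γ γ' p) / lam γ p) (Sig ℓ) :=
  D.cs.div D.continuousOn_lam fun _ hp => (D.lam_pos hp).ne'

theorem AngleData.csl1 (D : AngleData ℓ γ γ' γ'' ψ k) :
    ContinuousOn (fun p => Real.sin (al1 γ γ' ψ p) / lam γ p) (Sig ℓ) :=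
  D.cs1.div D.continuousOn_lam fun _ hp => (D.lam_pos hp).ne'

theorem continuousOn_genL11 (D : AngleData ℓ γ γ' γ'' ψ k) (N : NormData g h h' h'') :
    ContinuousOn (genL11 γ γ' ψ k h h' h'') (Sig ℓ) :=
  (((D.continuousOn_comp (N.ch.add N.c2)).mul D.cs).mul D.csl).sub
    ((D.ck.comp continuous_fst).continuousOn.mul
      (((D.continuousOn_comp N.ch).mul D.cs).add ((D.continuousOn_comp N.ch').mul D.cc)))

theorem continuousOn_genL12 (D : AngleData ℓ γ γ' γ'' ψ k) (N : NormData g h h' h'') :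
    ContinuousOn (genL12 γ γ' ψ h h'') (Sig ℓ) :=
  ((D.continuousOn_comp (N.ch.add N.c2)).mul D.cs).mul D.csl1

theorem continuousOn_genL22 (D : AngleData ℓ γ γ' γ'' ψ k) (N : NormData g h h' h'') :
    ContinuousOn (genL22 γ γ' ψ k h h' h'') (Sig ℓ) :=
  (((D.continuousOn_comp (N.ch.add N.c2)).mul D.cs1).mul D.csl1).add
    ((D.ck.comp continuous_snd).continuousOn.mul
      (((D.continuousOn_comp N.ch).neg.mul D.cs1).add ((D.continuousOn_comp N.ch').mul D.cc1)))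

end gen

end Pool.Agent.MP_d2f538_an
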