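import Mathlib

open MeasureTheory Set Real Filter Topology

namespace Pool.Agent.MP_d2f538_an

/-- perimeter of the image of a curve with velocity `v` under `z ↦ √(1+|b|²) z + b z̄` -/
noncomputable def perim (ℓ : ℝ) (v : ℝ → ℂ) (b : ℂ) : ℝ :=
  ∫ t in (0 : ℝ)..ℓ, ‖(Real.sqrt (1 + ‖b‖ ^ 2) : ℂ) * v t + b * (starRingEnd ℂ) (v t)‖

theorem continuous_perim {ℓ : ℝ} {v : ℝ → ℂ} (hv : Continuous v) : Continuous (perim ℓ v) := by
  unfold perim
  apply intervalIntegral.continuous_parametric_intervalIntegral_of_continuous' (μ := volume)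
  have : Continuous fun p : ℂ × ℝ => (starRingEnd ℂ) (v p.2) :=
    Complex.continuous_conj.comp (hv.comp continuous_snd)
  simp only [Function.uncurry_def]
  fun_prop

theorem exists_sq (b : ℂ) : ∃ u : ℂ, ‖u‖ = 1 ∧ b = ‖b‖ * u ^ 2 := by
  refine ⟨Complex.exp ((Complex.arg b / 2 : ℝ) * Complex.I), Complex.norm_exp_ofReal_mul_I _, ?_⟩
  rw [← Complex.exp_nat_mul]
  have : ((2 : ℕ) : ℂ) * (((Complex.arg b / 2 : ℝ) : ℂ) * Complex.I) =
      (Complex.arg b : ℂ) * Complex.I := by push_cast; ring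
  rw [this, Complex.norm_mul_exp_arg_mul_I]

theorem perim_ge {ℓ : ℝ} (hℓ : 0 < ℓ) {v : ℝ → ℂ} (hv : Continuous v)
    (hspan : ∀ u : ℂ, ‖u‖ = 1 → ∃ t ∈ Icc 0 ℓ, ((starRingEnd ℂ) u * v t).re ≠ 0) :
    ∃ c > 0, ∀ b : ℂ, c * ‖b‖ ≤ perim ℓ v b := by
  have hcont : Continuous fun u : ℂ => ∫ t in (0 : ℝ)..ℓ, |((starRingEnd ℂ) u * v t).re| := by
    apply intervalIntegral.continuous_parametric_intervalIntegral_of_continuous' (μ := volume)
    have : Continuous fun p : ℂ × ℝ => (starRingEnd ℂ) p.1 :=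
      Complex.continuous_conj.comp continuous_fst
    simp only [Function.uncurry_def]
    fun_prop
  have hcirc : (Metric.sphere (0 : ℂ) 1).Nonempty := ⟨1, by simp⟩
  obtain ⟨u0, hu0, hmin⟩ := (isCompact_sphere (0 : ℂ) 1).exists_isMinOn hcirc hcont.continuousOn
  have hvu : ∀ u : ℂ, Continuous fun t => |((starRingEnd ℂ) u * v t).re| := by
    intro u
    fun_prop
  refine ⟨∫ t in (0 : ℝ)..ℓ, |((starRingEnd ℂ) u0 * v t).re|, ?_, ?_⟩
  · obtain ⟨t, ht, hne⟩ := hspan u0 (by simpa using hu0)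
    apply intervalIntegral.integral_pos hℓ (hvu u0).continuousOn
    · intro x _; positivity
    · exact ⟨t, ht, abs_pos.2 hne⟩
  · intro b
    obtain ⟨u, hu, hb⟩ := exists_sq b
    have h1 : (∫ t in (0 : ℝ)..ℓ, |((starRingEnd ℂ) u0 * v t).re|) ≤
        ∫ t in (0 : ℝ)..ℓ, |((starRingEnd ℂ) u * v t).re| :=
      hmin (by simpa using hu)
    have h2 : ‖b‖ * (∫ t in (0 : ℝ)..ℓ, |((starRingEnd ℂ) u * v t).re|) ≤ perim ℓ v b := by
      rw [← intervalIntegral.integral_const_mul, perim]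
      apply intervalIntegral.integral_mono_on hℓ.le
      · exact (continuous_const.mul (hvu u)).intervalIntegrable _ _
      · apply Continuous.intervalIntegrable
        have : Continuous fun t => (starRingEnd ℂ) (v t) := Complex.continuous_conj.comp hv
        fun_prop
      · intro t _
        set a := Real.sqrt (1 + ‖b‖ ^ 2) with ha
        have ha' : ‖b‖ ≤ a := by
          rw [ha]; apply Real.le_sqrt_of_sq_le; linarith
        set w := (starRingEnd ℂ) u * v t with hw
        have huu : u * (starRingEnd ℂ) u = 1 := by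
          rw [Complex.mul_conj, Complex.normSq_eq_norm_sq, hu]; simp
        have h3 : (a : ℂ) * v t + b * (starRingEnd ℂ) (v t) =
            u * ((a : ℂ) * w + ‖b‖ * (starRingEnd ℂ) w) := by
          rw [hw, map_mul, Complex.conj_conj]
          nth_rewrite 1 [hb]
          have : (a : ℂ) * v t = (u * (starRingEnd ℂ) u) * ((a : ℂ) * v t) := by
            rw [huu, one_mul]
          rw [this]
          ring
        rw [h3, norm_mul, hu, one_mul]
        have h4 : ((a : ℂ) * w + ‖b‖ * (starRingEnd ℂ) w).re = (a + ‖b‖) * w.re := by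
          simp only [Complex.add_re, Complex.re_ofReal_mul, Complex.conj_re]; ring
        calc ‖b‖ * |w.re| ≤ (a + ‖b‖) * |w.re| := by
              apply mul_le_mul_of_nonneg_right _ (abs_nonneg _)
              have := norm_nonneg b
              linarith
          _ = |((a : ℂ) * w + ‖b‖ * (starRingEnd ℂ) w).re| := by
              have h5 : |a + ‖b‖| = a + ‖b‖ :=
                abs_of_nonneg (add_nonneg (Real.sqrt_nonneg _) (norm_nonneg _))
              rw [h4, abs_mul, h5]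
          _ ≤ _ := Complex.abs_re_le_norm _
    calc _ ≤ (∫ t in (0 : ℝ)..ℓ, |((starRingEnd ℂ) u * v t).re|) * ‖b‖ :=
          mul_le_mul_of_nonneg_right h1 (norm_nonneg _)
      _ ≤ _ := by rw [mul_comm]; exact h2

theorem exists_min_perim {ℓ : ℝ} (hℓ : 0 < ℓ) {v : ℝ → ℂ} (hv : Continuous v)
    (hspan : ∀ u : ℂ, ‖u‖ = 1 → ∃ t ∈ Icc 0 ℓ, ((starRingEnd ℂ) u * v t).re ≠ 0) :
    ∃ b0 : ℂ, ∀ b, perim ℓ v b0 ≤ perim ℓ v b := by
  obtain ⟨c, hc, hge⟩ := perim_ge hℓ hv hspan
  apply (continuous_perim hv).exists_forall_le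
  have h1 : Tendsto (fun b : ℂ => c * ‖b‖) (cocompact ℂ) atTop :=
    (tendsto_norm_cocompact_atTop).const_mul_atTop hc
  exact tendsto_atTop_mono hge h1

theorem min_perim_general {ℓ : ℝ} {v : ℝ → ℂ} {b0 : ℂ}
    (hmin : ∀ b, perim ℓ v b0 ≤ perim ℓ v b) (A B : ℂ) (hAB : ‖B‖ < ‖A‖) :
    Real.sqrt (‖A‖ ^ 2 - ‖B‖ ^ 2) * perim ℓ v b0 ≤
      ∫ t in (0 : ℝ)..ℓ, ‖A * v t + B * (starRingEnd ℂ) (v t)‖ := by
  set δ := Real.sqrt (‖A‖ ^ 2 - ‖B‖ ^ 2) with hδ
  have hpos : 0 < ‖A‖ ^ 2 - ‖B‖ ^ 2 := by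
    have := norm_nonneg B
    nlinarith
  have hδpos : 0 < δ := Real.sqrt_pos.2 hpos
  have hδsq : δ ^ 2 = ‖A‖ ^ 2 - ‖B‖ ^ 2 := Real.sq_sqrt hpos.le
  have hA : 0 < ‖A‖ := lt_of_le_of_lt (norm_nonneg _) hAB
  have hA0 : (‖A‖ : ℂ) ≠ 0 := by exact_mod_cast hA.ne'
  have hδ0 : (δ : ℂ) ≠ 0 := by exact_mod_cast hδpos.ne'
  set ζ : ℂ := A / ‖A‖ with hζ
  have hζn : ‖ζ‖ = 1 := by
    rw [hζ, norm_div, Complex.norm_real, norm_norm, div_self hA.ne']
  have hζA : A = ‖A‖ * ζ := by rw [hζ]; field_simp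
  have hζζ : ζ * (starRingEnd ℂ) ζ = 1 := by
    rw [Complex.mul_conj, Complex.normSq_eq_norm_sq, hζn]; simp
  set b1 : ℂ := (starRingEnd ℂ) ζ * B / δ with hb1
  have hb1n : ‖b1‖ = ‖B‖ / δ := by
    rw [hb1, norm_div, norm_mul, RCLike.norm_conj, hζn, one_mul, Complex.norm_real,
      Real.norm_eq_abs, abs_of_pos hδpos]
  have hsq : Real.sqrt (1 + ‖b1‖ ^ 2) = ‖A‖ / δ := by
    rw [hb1n]
    have : 1 + (‖B‖ / δ) ^ 2 = (‖A‖ / δ) ^ 2 := by
      field_simp
      linarith
    rw [this, Real.sqrt_sq (by positivity)]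
  have h1 := mul_le_mul_of_nonneg_left (hmin b1) hδpos.le
  refine h1.trans (le_of_eq ?_)
  rw [perim, ← intervalIntegral.integral_const_mul]
  apply intervalIntegral.integral_congr
  intro t _
  simp only
  rw [hsq]
  have h2 : A * v t + B * (starRingEnd ℂ) (v t) =
      (δ * ζ) * (((‖A‖ / δ : ℝ) : ℂ) * v t + b1 * (starRingEnd ℂ) (v t)) := by
    have e1 : B = ζ * (starRingEnd ℂ) ζ * B := by rw [hζζ, one_mul]
    rw [hb1]
    nth_rewrite 1 [e1]
    nth_rewrite 1 [hζA]
    push_cast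
    field_simp
  rw [h2, norm_mul, norm_mul, hζn, mul_one, Complex.norm_real, Real.norm_eq_abs,
    abs_of_pos hδpos]

/-- Existence of the isotropic position. -/
theorem exists_isotropic {ℓ : ℝ} (hℓ : 0 < ℓ) {v : ℝ → ℂ} (hv : Continuous v)
    (hv0 : ∀ t, v t ≠ 0)
    (hspan : ∀ u : ℂ, ‖u‖ = 1 → ∃ t ∈ Icc 0 ℓ, ((starRingEnd ℂ) u * v t).re ≠ 0) :
    ∃ (a : ℝ) (b : ℂ), 0 < a ∧ a ^ 2 = 1 + ‖b‖ ^ 2 ∧
      ∫ t in (0 : ℝ)..ℓ, (a * v t + b * (starRingEnd ℂ) (v t)) ^ 2 /
        (‖a * v t + b * (starRingEnd ℂ) (v t)‖ : ℂ) = 0 := by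
  obtain ⟨b0, hmin⟩ := exists_min_perim hℓ hv hspan
  set a := Real.sqrt (1 + ‖b0‖ ^ 2) with ha
  have hapos : 0 < a := Real.sqrt_pos.2 (by positivity)
  have hasq : a ^ 2 = 1 + ‖b0‖ ^ 2 := Real.sq_sqrt (by positivity)
  refine ⟨a, b0, hapos, hasq, ?_⟩
  set V : ℝ → ℂ := fun t => a * v t + b0 * (starRingEnd ℂ) (v t) with hV
  have hcV : Continuous V := by
    have : Continuous fun t => (starRingEnd ℂ) (v t) := Complex.continuous_conj.comp hv
    fun_prop
  have hbA : ‖b0‖ < a := by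
    rw [ha]; apply Real.lt_sqrt_of_sq_lt; linarith
  have hV0 : ∀ t, V t ≠ 0 := by
    intro t h0
    have h1 : (a : ℂ) * v t = -(b0 * (starRingEnd ℂ) (v t)) := by
      rw [← add_eq_zero_iff_eq_neg]; exact h0
    have h2 := congrArg norm h1
    rw [norm_neg, norm_mul, norm_mul, RCLike.norm_conj, Complex.norm_real, Real.norm_eq_abs,
      abs_of_pos hapos] at h2
    have h3 : 0 < ‖v t‖ := norm_pos_iff.2 (hv0 t)
    have := mul_lt_mul_of_pos_right hbA h3
    linarith
  have hVn : ∀ t, 0 < ‖V t‖ := fun t => norm_pos_iff.2 (hV0 t)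
  set Z : ℂ := ∫ t in (0 : ℝ)..ℓ, V t ^ 2 / (‖V t‖ : ℂ) with hZ
  show Z = 0
  set p := perim ℓ v b0 with hp
  have hpV : p = ∫ t in (0 : ℝ)..ℓ, ‖V t‖ := rfl
  have hp0 : 0 ≤ p := by
    rw [hpV]; exact intervalIntegral.integral_nonneg hℓ.le fun t _ => norm_nonneg _
  have hcq : Continuous fun t => V t ^ 2 / (‖V t‖ : ℂ) := by
    apply Continuous.div (hcV.pow 2) (Complex.continuous_ofReal.comp hcV.norm)
    intro t; exact Complex.ofReal_ne_zero.2 (hVn t).ne'
  -- the key inequality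
  have key : ∀ e : ℂ, ‖e‖ = 1 → ∀ s : ℝ, |s| < 1 →
      -(3 / 2) * s ^ 2 * p ≤ s * ((starRingEnd ℂ) e * Z).re := by
    intro e he s hs
    have hse : ‖(s : ℂ) * e‖ < 1 := by
      rw [norm_mul, he, mul_one, Complex.norm_real, Real.norm_eq_abs]; exact hs
    -- transformed coefficients
    set A : ℂ := a + s * e * (starRingEnd ℂ) b0 with hA
    set B : ℂ := b0 + s * e * a with hB
    have hdiff : ‖A‖ ^ 2 - ‖B‖ ^ 2 = 1 - s ^ 2 := by
      have he2 : e.re * e.re + e.im * e.im = 1 := by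
        have := Complex.normSq_eq_norm_sq e
        rw [he, Complex.normSq_apply] at this
        linarith
      have hb2 : ‖b0‖ ^ 2 = b0.re * b0.re + b0.im * b0.im := by
        rw [← Complex.normSq_eq_norm_sq, Complex.normSq_apply]
      have hasq' : a * a = 1 + (b0.re * b0.re + b0.im * b0.im) := by
        rw [← hb2, ← hasq]; ring
      rw [← Complex.normSq_eq_norm_sq, ← Complex.normSq_eq_norm_sq, Complex.normSq_apply,
        Complex.normSq_apply, hA, hB]
      simp only [Complex.add_re, Complex.add_im, Complex.mul_re, Complex.mul_im,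
        Complex.ofReal_re, Complex.ofReal_im, Complex.conj_re, Complex.conj_im]
      have : e.im * e.im = 1 - e.re * e.re := by linarith
      linear_combination (1 - s ^ 2 * (e.re * e.re + e.im * e.im)) * hasq' - s ^ 2 * he2
    have hs2 : s ^ 2 < 1 := by
      rw [← sq_abs]; nlinarith [abs_nonneg s]
    have hBA : ‖B‖ < ‖A‖ := by
      have h1 : ‖B‖ ^ 2 < ‖A‖ ^ 2 := by linarith
      exact lt_of_pow_lt_pow_left₀ 2 (norm_nonneg _) h1
    have h1 := min_perim_general hmin A B hBA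
    rw [hdiff] at h1
    have h2 : (1 - s ^ 2) * p ≤ Real.sqrt (1 - s ^ 2) * p := by
      apply mul_le_mul_of_nonneg_right _ hp0
      apply Real.le_sqrt_of_sq_le
      nlinarith [sq_nonneg s]
    have hAB : ∀ t, A * v t + B * (starRingEnd ℂ) (v t) = V t + s * e * (starRingEnd ℂ) (V t) := by
      intro t
      simp only [hV, hA, hB, map_add, map_mul, Complex.conj_conj, Complex.conj_ofReal]
      ring
    have h3 : ∫ t in (0 : ℝ)..ℓ, ‖A * v t + B * (starRingEnd ℂ) (v t)‖ ≤
        ∫ t in (0 : ℝ)..ℓ, ((1 + s ^ 2 / 2) * ‖V t‖ +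
          s * ((starRingEnd ℂ) e * (V t ^ 2 / (‖V t‖ : ℂ))).re) := by
      apply intervalIntegral.integral_mono_on hℓ.le
      · apply Continuous.intervalIntegrable
        have : Continuous fun t => (starRingEnd ℂ) (v t) := Complex.continuous_conj.comp hv
        fun_prop
      · apply Continuous.intervalIntegrable
        exact (continuous_const.mul hcV.norm).add
          (continuous_const.mul (Complex.continuous_re.comp (continuous_const.mul hcq)))
      · intro t _
        rw [hAB]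
        have hn := hVn t
        have e1 : ‖V t + s * e * (starRingEnd ℂ) (V t)‖ ^ 2 =
            (1 + s ^ 2) * ‖V t‖ ^ 2 + 2 * s * ((starRingEnd ℂ) e * V t ^ 2).re := by
          have he2 : e.re * e.re + e.im * e.im = 1 := by
            have := Complex.normSq_eq_norm_sq e
            rw [he, Complex.normSq_apply] at this
            linarith
          rw [← Complex.normSq_eq_norm_sq, ← Complex.normSq_eq_norm_sq, Complex.normSq_apply,
            Complex.normSq_apply]
          simp only [Complex.add_re, Complex.add_im, Complex.mul_re, Complex.mul_im,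
            Complex.ofReal_re, Complex.ofReal_im, Complex.conj_re, Complex.conj_im, pow_two]
          linear_combination (s ^ 2 * ((V t).re * (V t).re + (V t).im * (V t).im)) * he2
        have e2 : ((starRingEnd ℂ) e * (V t ^ 2 / (‖V t‖ : ℂ))).re =
            ((starRingEnd ℂ) e * V t ^ 2).re / ‖V t‖ := by
          rw [← mul_div_assoc, Complex.div_ofReal_re]
        rw [e2]
        have e3 : (1 + s ^ 2 / 2) * ‖V t‖ + s * (((starRingEnd ℂ) e * V t ^ 2).re / ‖V t‖) =
            (‖V t + s * e * (starRingEnd ℂ) (V t)‖ ^ 2 + ‖V t‖ ^ 2) / (2 * ‖V t‖) := by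
          rw [e1]; field_simp; ring
        rw [e3, le_div_iff₀ (by positivity)]
        nlinarith [sq_nonneg (‖V t + s * e * (starRingEnd ℂ) (V t)‖ - ‖V t‖)]
    have h4 : ∫ t in (0 : ℝ)..ℓ, ((1 + s ^ 2 / 2) * ‖V t‖ +
          s * ((starRingEnd ℂ) e * (V t ^ 2 / (‖V t‖ : ℂ))).re) =
        (1 + s ^ 2 / 2) * p + s * ((starRingEnd ℂ) e * Z).re := by
      rw [intervalIntegral.integral_add, intervalIntegral.integral_const_mul,
        intervalIntegral.integral_const_mul, ← hpV]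
      · congr 2
        have h5 := Complex.reCLM.intervalIntegral_comp_comm
          ((continuous_const.mul hcq).intervalIntegrable (μ := volume) 0 ℓ
            (u := fun t => (starRingEnd ℂ) e * (V t ^ 2 / (‖V t‖ : ℂ))))
        simp only [Complex.reCLM_apply] at h5
        rw [h5, intervalIntegral.integral_const_mul]
      · exact (continuous_const.mul hcV.norm).intervalIntegrable _ _
      · exact (continuous_const.mul (Complex.continuous_re.comp
          (continuous_const.mul hcq))).intervalIntegrable _ _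
    rw [h4] at h3
    have h6 : (1 - s ^ 2) * p ≤ (1 + s ^ 2 / 2) * p + s * ((starRingEnd ℂ) e * Z).re :=
      h2.trans (h1.trans h3)
    linarith
  have hzero : ∀ e : ℂ, ‖e‖ = 1 → ((starRingEnd ℂ) e * Z).re = 0 := by
    intro e he
    set y := ((starRingEnd ℂ) e * Z).re with hy
    have hge : ∀ s : ℝ, 0 < s → s < 1 → -(3 / 2) * s * p ≤ y := by
      intro s hs hs1
      have h1 := key e he s (by rw [abs_of_pos hs]; exact hs1)
      rw [← hy] at h1
      have h2 : s * (-(3 / 2) * s * p) ≤ s * y := by nlinarith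
      exact le_of_mul_le_mul_left h2 hs
    have hle : ∀ s : ℝ, 0 < s → s < 1 → y ≤ (3 / 2) * s * p := by
      intro s hs hs1
      have h1 := key e he (-s) (by rw [abs_neg, abs_of_pos hs]; exact hs1)
      rw [← hy] at h1
      have h2 : s * y ≤ s * ((3 / 2) * s * p) := by nlinarith
      exact le_of_mul_le_mul_left h2 hs
    have hlim1 : Tendsto (fun s : ℝ => -(3 / 2) * s * p) (𝓝[>] 0) (𝓝 0) := by
      have : Tendsto (fun s : ℝ => -(3 / 2) * s * p) (𝓝 0) (𝓝 (-(3 / 2) * 0 * p)) := by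
        apply Continuous.tendsto; fun_prop
      rw [mul_zero, zero_mul] at this
      exact this.mono_left nhdsWithin_le_nhds
    have hlim2 : Tendsto (fun s : ℝ => (3 / 2) * s * p) (𝓝[>] 0) (𝓝 0) := by
      have : Tendsto (fun s : ℝ => (3 / 2) * s * p) (𝓝 0) (𝓝 ((3 / 2) * 0 * p)) := by
        apply Continuous.tendsto; fun_prop
      rw [mul_zero, zero_mul] at this
      exact this.mono_left nhdsWithin_le_nhds
    have hev : ∀ᶠ s : ℝ in 𝓝[>] 0, 0 < s ∧ s < 1 := by
      filter_upwards [Ioo_mem_nhdsGT (zero_lt_one' ℝ)] with s hs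
      exact ⟨hs.1, hs.2⟩
    have a1 : 0 ≤ y := le_of_tendsto hlim1 (hev.mono fun s hs => hge s hs.1 hs.2)
    have a2 : y ≤ 0 := ge_of_tendsto hlim2 (hev.mono fun s hs => hle s hs.1 hs.2)
    linarith
  apply Complex.ext
  · have := hzero 1 (by simp)
    simpa using this
  · have := hzero Complex.I (by simp)
    simpa using this

end Pool.Agent.MP_d2f538_an
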