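import Pool.Agent.Lib.MP_d2f538_an.Gauge
import Pool.Agent.Lib.MP_d2f538_an.Position

open MeasureTheory Set Real Filter Topology

namespace Pool.Agent.MP_d2f538_an

/-- the real linear map `z ↦ a z + b z̄` of determinant one -/
noncomputable def SL (a : ℝ) (b : ℂ) (hab : a ^ 2 = 1 + ‖b‖ ^ 2) : ℂ ≃L[ℝ] ℂ where
  toFun z := a * z + b * (starRingEnd ℂ) z
  map_add' z w := by simp only [map_add]; ring
  map_smul' r z := by
    simp only [Complex.real_smul, map_mul, Complex.conj_ofReal, RingHom.id_apply]; ring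
  invFun z := a * z - b * (starRingEnd ℂ) z
  left_inv z := by
    have h1 : (a : ℂ) ^ 2 = 1 + b * (starRingEnd ℂ) b := by
      rw [Complex.mul_conj, Complex.normSq_eq_norm_sq]; exact_mod_cast hab
    simp only [map_add, map_mul, Complex.conj_ofReal, Complex.conj_conj]
    linear_combination z * h1
  right_inv z := by
    have h1 : (a : ℂ) ^ 2 = 1 + b * (starRingEnd ℂ) b := by
      rw [Complex.mul_conj, Complex.normSq_eq_norm_sq]; exact_mod_cast hab
    simp only [map_sub, map_mul, Complex.conj_ofReal, Complex.conj_conj]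
    linear_combination z * h1
  continuous_toFun := (continuous_const.mul continuous_id).add
    (continuous_const.mul Complex.continuous_conj)
  continuous_invFun := (continuous_const.mul continuous_id).sub
    (continuous_const.mul Complex.continuous_conj)

theorem SL_apply {a : ℝ} {b : ℂ} (hab : a ^ 2 = 1 + ‖b‖ ^ 2) (z : ℂ) :
    SL a b hab z = a * z + b * (starRingEnd ℂ) z := rfl

theorem SL_cross {a : ℝ} {b : ℂ} (hab : a ^ 2 = 1 + ‖b‖ ^ 2) (z w : ℂ) :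
    ((starRingEnd ℂ) (SL a b hab z) * SL a b hab w).im = ((starRingEnd ℂ) z * w).im := by
  have h1 : a * a = 1 + (b.re * b.re + b.im * b.im) := by
    rw [← Complex.normSq_apply, Complex.normSq_eq_norm_sq, ← hab]; ring
  simp only [SL_apply, Complex.mul_im, Complex.add_im, Complex.add_re, Complex.mul_re,
    Complex.conj_re, Complex.conj_im, Complex.ofReal_re, Complex.ofReal_im]
  linear_combination (z.re * w.im - z.im * w.re) * h1

theorem gauge_image (S : ℂ ≃L[ℝ] ℂ) (K : Set ℂ) (v : ℂ) : gauge (S '' K) (S v) = gauge K v := by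
  rw [gauge_def', gauge_def']
  congr 1
  ext r
  simp only [mem_ofPred_eq, ← map_smul]
  rw [S.injective.mem_set_image]

variable {K : Set ℂ} {ℓ : ℝ} {γ γ' γ'' : ℝ → ℂ}

/-- linear images of tables -/
theorem Table.image (T : Table K ℓ γ γ' γ'') {a : ℝ} {b : ℂ} (hab : a ^ 2 = 1 + ‖b‖ ^ 2) :
    Table (SL a b hab '' K) ℓ (fun t => SL a b hab (γ t)) (fun t => SL a b hab (γ' t))
      (fun t => SL a b hab (γ'' t)) := by
  set S := SL a b hab with hS
  refine ⟨⟨?_, ?_, ?_, ?_, ?_, T.pos, ?_, ?_, ?_, ?_, ?_, ?_, ?_⟩, ?_⟩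
  · exact S.toHomeomorph.isOpenMap _ T.isOpen
  · exact T.convex.linear_image S.toLinearEquiv.toLinearMap
  · exact (S : ℂ →L[ℝ] ℂ).lipschitz.isBounded_image T.bounded
  · exact ⟨0, T.zero_mem, map_zero S⟩
  · have h1 : closure (S '' K) = S '' closure K := (S.toHomeomorph.image_closure K).symm
    rw [h1]
    exact T.strict.linear_image S.toLinearEquiv.toLinearMap S.toHomeomorph.isOpenMap
  · exact fun x => (S : ℂ →L[ℝ] ℂ).hasFDerivAt.comp_hasDerivAt x (T.d1 x)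
  · exact fun x => (S : ℂ →L[ℝ] ℂ).hasFDerivAt.comp_hasDerivAt x (T.d2 x)
  · exact S.continuous.comp T.c2
  · intro x h
    exact T.ne x (S.map_eq_zero_iff.1 h)
  · intro x; simp only [T.per]
  · intro x y hxy hyx h
    exact T.inj x y hxy hyx (S.injective h)
  · have h1 : frontier (S '' K) = S '' frontier K := (S.toHomeomorph.image_frontier K).symm
    rw [h1, ← T.bdry, ← range_comp]
    rfl
  · intro x
    rw [SL_cross]
    exact T.orient x

/-- a change of parameter -/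
structure Repar (ℓ ℓ' : ℝ) (σ τ n : ℝ → ℝ) : Prop where
  pos : ∀ t, 0 < n t
  dσ : ∀ t, HasDerivAt σ (n t) t
  cn : Continuous n
  στ : ∀ x, σ (τ x) = x
  τσ : ∀ t, τ (σ t) = t
  add : ∀ t, σ (t + ℓ) = σ t + ℓ'

theorem Repar.mono {ℓ ℓ' : ℝ} {σ τ n : ℝ → ℝ} (R : Repar ℓ ℓ' σ τ n) : StrictMono σ :=
  strictMono_of_deriv_pos fun t => by rw [(R.dσ t).deriv]; exact R.pos t

theorem Repar.lt_iff {ℓ ℓ' : ℝ} {σ τ n : ℝ → ℝ} (R : Repar ℓ ℓ' σ τ n) {x y : ℝ} :
    τ x < τ y ↔ x < y := by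
  rw [← R.mono.lt_iff_lt, R.στ, R.στ]

theorem Repar.add' {ℓ ℓ' : ℝ} {σ τ n : ℝ → ℝ} (R : Repar ℓ ℓ' σ τ n) (x : ℝ) :
    τ (x + ℓ') = τ x + ℓ := by
  apply R.mono.injective
  rw [R.στ, R.add, R.στ]

theorem Repar.cτ {ℓ ℓ' : ℝ} {σ τ n : ℝ → ℝ} (R : Repar ℓ ℓ' σ τ n) : Continuous τ := by
  have hm : StrictMono τ := fun x y h => R.lt_iff.2 h
  exact hm.monotone.continuous_of_surjective fun t => ⟨σ t, R.τσ t⟩

theorem Repar.dτ {ℓ ℓ' : ℝ} {σ τ n : ℝ → ℝ} (R : Repar ℓ ℓ' σ τ n) (x : ℝ) :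
    HasDerivAt τ (n (τ x))⁻¹ x :=
  HasDerivAt.of_local_left_inverse R.cτ.continuousAt (R.dσ (τ x)) (R.pos _).ne'
    (Eventually.of_forall R.στ)

theorem Repar.ℓ'_pos {ℓ ℓ' : ℝ} {σ τ n : ℝ → ℝ} (R : Repar ℓ ℓ' σ τ n) (hℓ : 0 < ℓ) : 0 < ℓ' := by
  have h1 := R.mono (show (0 : ℝ) < 0 + ℓ by linarith)
  rw [R.add] at h1
  linarith

/-- existence of the arclength parameter -/
theorem exists_repar {ℓ : ℝ} (hℓ : 0 < ℓ) {n : ℝ → ℝ} (hn : Continuous n) (hpos : ∀ t, 0 < n t)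
    (hper : ∀ t, n (t + ℓ) = n t) :
    ∃ ℓ' σ τ, Repar ℓ ℓ' σ τ n ∧ ℓ' = ∫ t in (0 : ℝ)..ℓ, n t ∧ σ 0 = 0 := by
  set σ : ℝ → ℝ := fun t => ∫ s in (0 : ℝ)..t, n s with hσ
  have dσ : ∀ t, HasDerivAt σ (n t) t := fun t =>
    intervalIntegral.integral_hasDerivAt_right (hn.intervalIntegrable _ _)
      (hn.stronglyMeasurableAtFilter _ _) hn.continuousAt
  set ℓ' := ∫ t in (0 : ℝ)..ℓ, n t with hℓ'
  have hℓ'pos : 0 < ℓ' := by
    apply intervalIntegral.intervalIntegral_pos_of_pos (hn.intervalIntegrable _ _) hpos hℓ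
  have hadd : ∀ t, σ (t + ℓ) = σ t + ℓ' := by
    intro t
    have h1 : ∫ s in t..(t + ℓ), n s = ∫ s in (0 : ℝ)..(0 + ℓ), n s :=
      Function.Periodic.intervalIntegral_add_eq (f := n) hper t 0
    simp only [hσ, hℓ']
    rw [zero_add] at h1
    rw [← h1, intervalIntegral.integral_add_adjacent_intervals (hn.intervalIntegrable _ _)
      (hn.intervalIntegrable _ _)]
  have hcσ : Continuous σ := continuous_iff_continuousAt.2 fun t => (dσ t).continuousAt
  have hmono : StrictMono σ := strictMono_of_deriv_pos fun t => by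
    rw [(dσ t).deriv]; exact hpos t
  have hnat : ∀ m : ℕ, σ (m * ℓ) = m * ℓ' := by
    intro m
    induction m with
    | zero => simp [hσ]
    | succ m ih =>
      have : ((m + 1 : ℕ) : ℝ) * ℓ = m * ℓ + ℓ := by push_cast; ring
      rw [this, hadd, ih]; push_cast; ring
  have hneg : ∀ m : ℕ, σ (-(m * ℓ)) = -(m * ℓ') := by
    intro m
    induction m with
    | zero => simp [hσ]
    | succ m ih =>
      have h1 := hadd (-(((m + 1 : ℕ) : ℝ) * ℓ))
      have : -(((m + 1 : ℕ) : ℝ) * ℓ) + ℓ = -(m * ℓ) := by push_cast; ring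
      rw [this, ih] at h1
      push_cast at h1 ⊢
      linarith
  have hsurj : Function.Surjective σ := by
    intro y
    obtain ⟨m, hm⟩ := exists_nat_gt (|y| / ℓ')
    rw [div_lt_iff₀ hℓ'pos] at hm
    have h1 : y ≤ σ (m * ℓ) := by rw [hnat]; exact (le_abs_self y).trans hm.le
    have h2 : σ (-(m * ℓ)) ≤ y := by
      rw [hneg]; have := neg_abs_le y; linarith
    have := mem_range_of_exists_le_of_exists_ge hcσ ⟨_, h2⟩ ⟨_, h1⟩
    exact this
  refine ⟨ℓ', σ, Function.surjInv hsurj, ⟨hpos, dσ, hn, Function.surjInv_eq hsurj, ?_, hadd⟩,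
    rfl, by simp [hσ]⟩
  intro t
  exact hmono.injective (Function.surjInv_eq hsurj (σ t))

/-- reparametrised tables -/
theorem Table.repar (T : Table K ℓ γ γ' γ'') {ℓ' : ℝ} {σ τ : ℝ → ℝ}
    (R : Repar ℓ ℓ' σ τ (fun t => ‖γ' t‖)) :
    ∃ Γ'' : ℝ → ℂ, Table K ℓ' (fun x => γ (τ x)) (fun x => ((‖γ' (τ x)‖⁻¹ : ℝ) : ℂ) * γ' (τ x))
      Γ'' := by
  have hn : ∀ t, 0 < ‖γ' t‖ := R.pos
  have h1 : ContDiff ℝ 1 γ' := by
    have h2 : deriv γ' = γ'' := funext fun x => (T.d2 x).deriv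
    rw [contDiff_one_iff_deriv, h2]
    exact ⟨fun x => (T.d2 x).differentiableAt, T.c2⟩
  have h2 : ContDiff ℝ 1 τ := by
    have h3 : deriv τ = fun x => ‖γ' (τ x)‖⁻¹ := funext fun x => (R.dτ x).deriv
    rw [contDiff_one_iff_deriv, h3]
    refine ⟨fun x => (R.dτ x).differentiableAt, ?_⟩
    exact (T.cγ'.norm.comp R.cτ).inv₀ fun x => (hn _).ne'
  have h3 : ContDiff ℝ 1 (fun x => ((‖γ' (τ x)‖⁻¹ : ℝ) : ℂ) * γ' (τ x)) := by
    have h4 : ContDiff ℝ 1 (fun x => ‖γ' (τ x)‖⁻¹) :=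
      ((h1.comp h2).norm ℝ fun x => T.ne _).inv fun x => (hn _).ne'
    exact (Complex.ofRealCLM.contDiff.comp h4).mul (h1.comp h2)
  refine ⟨deriv (fun x => ((‖γ' (τ x)‖⁻¹ : ℝ) : ℂ) * γ' (τ x)), ?_⟩
  refine ⟨⟨T.isOpen, T.convex, T.bounded, T.zero_mem, T.strict, R.ℓ'_pos T.pos, ?_, ?_, ?_, ?_,
    ?_, ?_, ?_⟩, ?_⟩
  · intro x
    have := (T.d1 (τ x)).scomp x (R.dτ x)
    simpa [Function.comp_def, Complex.real_smul] using this
  · exact fun x => (h3.differentiable (by norm_num) x).hasDerivAt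
  · exact (contDiff_one_iff_deriv.1 h3).2
  · intro x
    exact mul_ne_zero (Complex.ofReal_ne_zero.2 (inv_pos.2 (hn _)).ne') (T.ne _)
  · intro x
    simp only [R.add', T.per]
  · intro x y hxy hyx
    apply T.inj _ _ (R.lt_iff.2 hxy)
    rw [← R.add']
    exact R.lt_iff.2 hyx
  · rw [← T.bdry]
    ext z
    constructor
    · rintro ⟨x, rfl⟩; exact ⟨τ x, rfl⟩
    · rintro ⟨t, rfl⟩; exact ⟨σ t, by simp only [R.τσ]⟩
  · intro x
    have e1 : ((starRingEnd ℂ) (γ (τ x)) * (((‖γ' (τ x)‖⁻¹ : ℝ) : ℂ) * γ' (τ x))).im =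
        ‖γ' (τ x)‖⁻¹ * ((starRingEnd ℂ) (γ (τ x)) * γ' (τ x)).im := by
      rw [mul_left_comm, Complex.im_ofReal_mul]
    show 0 < _
    rw [e1]
    exact mul_pos (inv_pos.2 (hn _)) (T.orient _)

/-- unit speed tables carry angle data -/
theorem Table.angleData (T : Table K ℓ γ γ' γ'') (hunit : ∀ x, ‖γ' x‖ = 1) :
    ∃ ψ k, AngleData ℓ γ γ' γ'' ψ k := by
  obtain ⟨ψ, k, ck, dψ, hψ⟩ := exists_angle T.d2 T.c2 hunit
  exact ⟨ψ, k, ⟨⟨T.pos, T.d1, T.d2, T.c2, hunit, T.per, T.convex_curve⟩, ck, dψ, hψ⟩⟩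

theorem Table.γ'_per (T : Table K ℓ γ γ' γ'') (x : ℝ) : γ' (x + ℓ) = γ' x := by
  have h1 : HasDerivAt (fun x => γ (x + ℓ)) (γ' (x + ℓ)) x := (T.d1 (x + ℓ)).comp_add_const x ℓ
  have h2 : (fun x => γ (x + ℓ)) = γ := funext T.per
  rw [h2] at h1
  exact h1.unique (T.d1 x)

theorem Table.span (T : Table K ℓ γ γ' γ'') (u : ℂ) (hu : ‖u‖ = 1) :
    ∃ t ∈ Icc 0 ℓ, ((starRingEnd ℂ) u * γ' t).re ≠ 0 := by
  by_contra hcon
  push Not at hcon
  have hall : ∀ t, ((starRingEnd ℂ) u * γ' t).re = 0 := by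
    intro t
    have hp : Function.Periodic γ' ℓ := T.γ'_per
    obtain ⟨s, hs, hst⟩ := hp.exists_mem_Ico₀ T.pos t
    rw [hst]
    exact hcon s (Ico_subset_Icc_self hs)
  have hd : ∀ t, HasDerivAt (fun t => ((starRingEnd ℂ) u * γ t).re) 0 t := by
    intro t
    have h1 : HasDerivAt (fun t => (starRingEnd ℂ) u * γ t) ((starRingEnd ℂ) u * γ' t) t :=
      (T.d1 t).const_mul _
    have h2 := Complex.reCLM.hasFDerivAt.comp_hasDerivAt t h1
    simp only [Complex.reCLM_apply, hall t] at h2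
    exact h2
  have hconst : ∀ s t, ((starRingEnd ℂ) u * γ s).re = ((starRingEnd ℂ) u * γ t).re :=
    is_const_of_deriv_eq_zero (fun x => (hd x).differentiableAt) (fun x => (hd x).deriv)
  have hu0 : u ≠ 0 := by rw [← norm_ne_zero_iff, hu]; norm_num
  obtain ⟨t1, h1⟩ := T.exists_polar hu0
  obtain ⟨t2, h2⟩ := T.exists_polar (neg_ne_zero.2 hu0)
  have hg1 := T.gauge_pos' hu0
  have hg2 := T.gauge_pos' (neg_ne_zero.2 hu0)
  have huu : ((starRingEnd ℂ) u * u).re = 1 := by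
    rw [mul_comm, Complex.mul_conj, Complex.normSq_eq_norm_sq, hu]; simp
  have e1 : gauge K u * ((starRingEnd ℂ) u * γ t1).re = 1 := by
    have : (((starRingEnd ℂ) u) * ((gauge K u : ℂ) * γ t1)).re = 1 := by rw [← h1]; exact huu
    rwa [mul_left_comm, Complex.re_ofReal_mul] at this
  have e2 : gauge K (-u) * ((starRingEnd ℂ) u * γ t2).re = -1 := by
    have : (((starRingEnd ℂ) u) * ((gauge K (-u) : ℂ) * γ t2)).re = -1 := by
      rw [← h2, mul_neg, Complex.neg_re, huu]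
    rwa [mul_left_comm, Complex.re_ofReal_mul] at this
  rw [hconst t2 t1] at e2
  have a1 : 0 < ((starRingEnd ℂ) u * γ t1).re := by
    by_contra hc
    push Not at hc
    have := mul_nonpos_of_nonneg_of_nonpos hg1.le hc
    linarith
  have := mul_pos hg2 a1
  linarith

end Pool.Agent.MP_d2f538_an
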