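import Pool.Agent.Lib.MP_d2f538_an.Line
import Pool.Agent.Lib.MP_d2f538_an.Mono

/-!
# Lifted secant angles of a leaf and the twist
-/

open Set Filter Topology MeasureTheory

namespace MPd2f538

/-- lifted angles of the secants `c (s + exp v) - c s` -/
structure IsSec (c : ℝ → ℝ × ℝ) (Θ : ℝ × ℝ → ℝ) : Prop where
  cont : Continuous Θ
  zero : ∀ s, Θ (0, s) = Real.pi / 4
  polar : ∀ v s, ∃ r > 0, (c (s + Real.exp v)).1 - (c s).1 = r * Real.cos (Θ (v, s)) ∧
    (c (s + Real.exp v)).2 - (c s).2 = r * Real.sin (Θ (v, s))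

lemma Rot.exists_sec {l : ℝ} (hl : 0 < l) {c : ℝ → ℝ × ℝ} (hc : Rot l c) : ∃ Θ, IsSec c Θ := by
  set G : ℝ × ℝ × ℝ → ℝ × ℝ := fun p => c (p.2.1 + Real.exp (p.1 - 1)) - c p.2.1 with hG
  have hGc : Continuous G := by have := hc.cont; fun_prop
  have hG0 : ∀ p, G p ≠ 0 := by
    intro p h0
    have := hc.inj (sub_eq_zero.1 h0)
    have := Real.exp_pos (p.1 - 1)
    linarith
  have hG1 : ∀ q, G (1, q) = (l, l) := by
    intro q
    simp [hG, hc.per]
  obtain ⟨Θ, h1, h2, h3⟩ := exists_angle G hGc hG0 l hl hG1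
  refine ⟨fun p => Θ (p.1 + 1, p.2, 0), ?_, ?_, ?_⟩
  · fun_prop
  · intro s
    simp [h2]
  · intro v s
    obtain ⟨r, hr, e1, e2⟩ := h3 (v + 1, s, 0)
    refine ⟨r, hr, ?_, ?_⟩
    · simpa [hG] using e1
    · simpa [hG] using e2

lemma IsSec.add_one {l : ℝ} {c : ℝ → ℝ × ℝ} (hc : Rot l c) {Θ : ℝ × ℝ → ℝ} (hA : IsSec c Θ)
    (v s : ℝ) : Θ (v, s + 1) = Θ (v, s) := by
  have hpi := Real.pi_pos
  have hcont : Continuous fun v : ℝ => Θ (v, s + 1) - Θ (v, s) := by
    have := hA.cont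
    fun_prop
  have key : ∀ v : ℝ, Real.cos (Θ (v, s + 1) - Θ (v, s)) = 1 := by
    intro v
    obtain ⟨r, hr, h1, h2⟩ := hA.polar v (s + 1)
    obtain ⟨r', hr', h1', h2'⟩ := hA.polar v s
    rw [show s + 1 + Real.exp v = s + Real.exp v + 1 by ring, hc.per, hc.per] at h1 h2
    simp only [Prod.fst_add, Prod.snd_add, add_sub_add_right_eq_sub] at h1 h2
    rw [h1'] at h1
    rw [h2'] at h2
    have hs1 := Real.sin_sq_add_cos_sq (Θ (v, s + 1))
    have hs2 := Real.sin_sq_add_cos_sq (Θ (v, s))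
    set c' := Real.cos (Θ (v, s))
    set d' := Real.sin (Θ (v, s))
    set c := Real.cos (Θ (v, s + 1))
    set d := Real.sin (Θ (v, s + 1))
    have hrr : r = r' := by
      have : r ^ 2 = r' ^ 2 := by
        calc r ^ 2 = (r * d) ^ 2 + (r * c) ^ 2 := by nlinarith
          _ = (r' * d') ^ 2 + (r' * c') ^ 2 := by rw [← h1, ← h2]
          _ = r' ^ 2 := by nlinarith
      exact (pow_left_inj₀ hr.le hr'.le two_ne_zero).1 this
    rw [hrr] at h1 h2
    have e1 := mul_left_cancel₀ hr'.ne' h1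
    have e2 := mul_left_cancel₀ hr'.ne' h2
    rw [Real.cos_sub]
    change c * c' + d * d' = 1
    rw [← e1, ← e2]
    nlinarith
  have hmem := avoid_Ioo hcont (I := univ) ordConnected_univ (x0 := 0) (mem_univ _)
    (c := -Real.pi) (d := Real.pi) (by
      simp only [hA.zero, sub_self]
      constructor <;> linarith) (by
      intro x _
      constructor
      · intro hx
        have := key x
        rw [hx, Real.cos_neg, Real.cos_pi] at this
        norm_num at this
      · intro hx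
        have := key x
        rw [hx, Real.cos_pi] at this
        norm_num at this) v (mem_univ _)
  have h3 := key v
  have h4 : Θ (v, s + 1) - Θ (v, s) = 0 := by
    have := Real.cos_eq_one_iff_of_lt_of_lt (x := Θ (v, s + 1) - Θ (v, s))
      (by linarith [hmem.1]) (by linarith [hmem.2])
    exact this.1 h3
  linarith

section
variable {l : ℝ} {L L1 L2 L11 L12 L22 : ℝ × ℝ → ℝ}

/-- The twist for a pair of points. -/
lemma TwistGen.secant (h : TwistGen l L L1 L2 L11 L12 L22) {P P' : ℝ × ℝ} (hPm : P ∈ Sig l)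
    (hP'm : P' ∈ Sig l) {r r' θ θ' : ℝ} (hr : 0 < r) (hr' : 0 < r')
    (a1 : P'.1 - P.1 = r * Real.cos θ) (a2 : P'.2 - P.2 = r * Real.sin θ)
    (b1 : (TT l L1 L2 P').1 - (TT l L1 L2 P).1 = r' * Real.cos θ')
    (b2 : (TT l L1 L2 P').2 - (TT l L1 L2 P).2 = r' * Real.sin θ') :
    r' * Real.cos θ' = r * Real.sin θ ∧
    (Real.sin θ = 0 → Real.cos θ * Real.sin θ' < 0) := by
  simp only [TT_fst] at b1
  change nx l L1 L2 P' - nx l L1 L2 P = _ at b2
  refine ⟨by linarith, ?_⟩
  intro hs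
  have hy : P'.2 = P.2 := by rw [hs] at a2; linarith
  have hcos : Real.cos θ ≠ 0 := by
    intro hc
    have := Real.sin_sq_add_cos_sq θ
    rw [hs, hc] at this
    norm_num at this
  have hne : P'.1 ≠ P.1 := by
    intro hx
    rw [hx, sub_self] at a1
    rcases mul_eq_zero.1 a1.symm with h1 | h1
    · exact hr.ne' h1
    · exact hcos h1
  have hn := h.nx_mem hPm
  have hn' := h.nx_mem hP'm
  have q := h.nx_eq hPm
  have q' := h.nx_eq hP'm
  rw [hy] at hn' q'
  have hPe : (P.1, P.2) ∈ Sig l := hPm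
  have hP'e : (P'.1, P.2) ∈ Sig l := by rw [← hy]; exact hP'm
  have hP'eq : P' = (P'.1, P.2) := Prod.ext rfl hy
  have hk1 : P.1 < P'.1 ↔ nx l L1 L2 P' < nx l L1 L2 P := by
    rw [← h.L2_lt hPe hP'e, ← h.L1_lt hn' hn, ← hP'eq]
    change L2 P < L2 P' ↔ _
    constructor <;> intro _ <;> linarith
  have hk2 : P'.1 < P.1 ↔ nx l L1 L2 P < nx l L1 L2 P' := by
    rw [← h.L2_lt hP'e hPe, ← h.L1_lt hn hn', ← hP'eq]
    change L2 P' < L2 P ↔ _
    constructor <;> intro _ <;> linarith
  have hprod : (r * Real.cos θ) * (r' * Real.sin θ') < 0 := by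
    rw [← a1, ← b2]
    rcases lt_or_gt_of_ne hne with hlt | hgt
    · have := hk2.1 hlt
      exact mul_neg_of_neg_of_pos (by linarith) (by linarith)
    · have := hk1.1 hgt
      exact mul_neg_of_pos_of_neg (by linarith) (by linarith)
  have hc : 0 < r * r' := by positivity
  by_contra hcon
  push Not at hcon
  have : 0 ≤ (r * r') * (Real.cos θ * Real.sin θ') := mul_nonneg hc.le hcon
  nlinarith

/-- A leaf with its leaf map. -/
structure IsLeafMap (l : ℝ) (L1 L2 : ℝ × ℝ → ℝ) (c : ℝ → ℝ × ℝ) (σ : ℝ → ℝ) : Prop where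
  cont : Continuous σ
  mono : StrictMono σ
  add_one : ∀ s, σ (s + 1) = σ s + 1
  spec : ∀ s, c (σ s) = TT l L1 L2 (c s)

lemma exists_leafMap (h : TwistGen l L L1 L2 L11 L12 L22) {c : ℝ → ℝ × ℝ} (hc : Rot l c)
    (hS : ∀ s, c s ∈ Sig l) (hinv : ∀ s, TT l L1 L2 (c s) ∈ range c) :
    ∃ σ, IsLeafMap l L1 L2 c σ := by
  set σ : ℝ → ℝ := fun s => cinv c (TT l L1 L2 (c s)) with hσ
  have hspec : ∀ s, c (σ s) = TT l L1 L2 (c s) := by
    intro s
    obtain ⟨t, ht⟩ := hinv s
    simp only [hσ]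
    rw [← ht, hc.cinv_left]
  have hcont : Continuous σ := by
    have h1 : Continuous fun s => TT l L1 L2 (c s) := h.contOn_T.comp_continuous hc.cont hS
    exact (hc.contOn_cinv h.lpos).comp_continuous h1 hinv
  have hinj : Function.Injective σ := by
    intro s t hst
    have h1 := hspec s
    rw [hst, hspec t] at h1
    exact hc.inj (h.T_inj (hS s) (hS t) h1.symm)
  have hadd : ∀ s, σ (s + 1) = σ s + 1 := by
    intro s
    apply hc.inj
    rw [hspec, hc.per, hc.per, h.T_shift (hS s), hspec]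
  refine ⟨σ, hcont, ?_, hadd, hspec⟩
  rcases hcont.strictMono_of_inj hinj with hm | hm
  · exact hm
  · exfalso
    have := hm (show (0:ℝ) < 0 + 1 by norm_num)
    rw [hadd] at this
    linarith

/-- new logarithmic increment -/
noncomputable def lg (σ : ℝ → ℝ) (s v : ℝ) : ℝ := Real.log (σ (s + Real.exp v) - σ s)

section
variable {c : ℝ → ℝ × ℝ} {σ : ℝ → ℝ} {Θ : ℝ × ℝ → ℝ}

lemma IsLeafMap.incr_pos (hσ : IsLeafMap l L1 L2 c σ) (s v : ℝ) : 0 < σ (s + Real.exp v) - σ s := by
  have := hσ.mono (show s < s + Real.exp v by linarith [Real.exp_pos v])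
  linarith

lemma IsLeafMap.exp_lg (hσ : IsLeafMap l L1 L2 c σ) (s v : ℝ) :
    Real.exp (lg σ s v) = σ (s + Real.exp v) - σ s := Real.exp_log (hσ.incr_pos s v)

lemma IsLeafMap.cont_lg (hσ : IsLeafMap l L1 L2 c σ) (s : ℝ) : Continuous (lg σ s) := by
  unfold lg
  have := hσ.cont
  apply Continuous.log
  · fun_prop
  · intro v
    exact (hσ.incr_pos s v).ne'

lemma IsLeafMap.tendsto_lg (hσ : IsLeafMap l L1 L2 c σ) (s : ℝ) :
    Tendsto (lg σ s) atBot atBot := by
  apply Real.tendsto_log_nhdsGT_zero.comp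
  rw [tendsto_nhdsWithin_iff]
  constructor
  · have h1 : Tendsto (fun v => σ (s + Real.exp v) - σ s) atBot (𝓝 (σ (s + 0) - σ s)) := by
      apply Tendsto.sub_const
      exact (hσ.cont.tendsto _).comp (Real.tendsto_exp_atBot.const_add s)
    simpa using h1
  · exact Eventually.of_forall fun v => hσ.incr_pos s v

variable (h : TwistGen l L L1 L2 L11 L12 L22) (hc : Rot l c) (hS : ∀ s, c s ∈ Sig l)
  (hσ : IsLeafMap l L1 L2 c σ) (hA : IsSec c Θ)
include h hS hσ hA

lemma sec_twist (s v : ℝ) : ∃ r > 0, ∃ r' > 0,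
    r' * Real.cos (Θ (lg σ s v, σ s)) = r * Real.sin (Θ (v, s)) ∧
    (Real.sin (Θ (v, s)) = 0 → Real.cos (Θ (v, s)) * Real.sin (Θ (lg σ s v, σ s)) < 0) := by
  obtain ⟨r, hr, a1, a2⟩ := hA.polar v s
  obtain ⟨r', hr', b1, b2⟩ := hA.polar (lg σ s v) (σ s)
  rw [hσ.exp_lg, show σ s + (σ (s + Real.exp v) - σ s) = σ (s + Real.exp v) by ring, hσ.spec,
    hσ.spec] at b1 b2
  exact ⟨r, hr, r', hr', h.secant (hS s) (hS _) hr hr' a1 a2 b1 b2⟩

lemma sec_diff_mem (s v : ℝ) :
    Θ (lg σ s v, σ s) - Θ (v, s) ∈ Ioo (-(3 * Real.pi / 2)) (Real.pi / 2) := by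
  have hcont : Continuous fun v => Θ (lg σ s v, σ s) - Θ (v, s) := by
    have h1 := hA.cont
    have h2 := hσ.cont_lg s
    fun_prop
  refine avoid_Ioo hcont (I := univ) ordConnected_univ (x0 := 0) (mem_univ _) ?_ ?_ v (mem_univ _)
  · have : lg σ s 0 = 0 := by
      rw [lg, Real.exp_zero, hσ.add_one]
      simp
    rw [this, hA.zero, hA.zero, sub_self]
    constructor <;> linarith [Real.pi_pos]
  · intro v _
    obtain ⟨r, hr, r', hr', e1, e2⟩ := sec_twist h hS hσ hA s v
    set θ := Θ (v, s)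
    set θ' := Θ (lg σ s v, σ s)
    have key : Real.cos θ' = - Real.sin θ → Real.sin θ' = Real.cos θ → False := by
      intro hc hs
      rw [hc] at e1
      have h0 : Real.sin θ = 0 := by
        have : (r + r') * Real.sin θ = 0 := by linarith
        rcases mul_eq_zero.1 this with h | h
        · linarith
        · exact h
      have := e2 h0
      rw [hs] at this
      nlinarith
    constructor
    · intro hc
      have he : θ' = θ + Real.pi / 2 - 2 * Real.pi := by linarith
      apply key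
      · rw [he, Real.cos_sub_two_pi, Real.cos_add_pi_div_two]
      · rw [he, Real.sin_sub_two_pi, Real.sin_add_pi_div_two]
    · intro hc
      have he : θ' = θ + Real.pi / 2 := by linarith
      apply key
      · rw [he, Real.cos_add_pi_div_two]
      · rw [he, Real.sin_add_pi_div_two]

/-- consequences for the limit angles -/
lemma tan_diff_mem {s α α' : ℝ} (hα : Tendsto (fun v => Θ (v, s)) atBot (𝓝 α))
    (hα' : Tendsto (fun v => Θ (v, σ s)) atBot (𝓝 α')) :
    α' - α ∈ Icc (-(3 * Real.pi / 2)) (Real.pi / 2) := by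
  have h1 : Tendsto (fun v => Θ (lg σ s v, σ s) - Θ (v, s)) atBot (𝓝 (α' - α)) :=
    (hα'.comp (hσ.tendsto_lg s)).sub hα
  apply isClosed_Icc.mem_of_tendsto h1
  exact Eventually.of_forall fun v => Ioo_subset_Icc_self (sec_diff_mem h hS hσ hA s v)

lemma tan_cos_nonneg {s α α' : ℝ} (hα : Tendsto (fun v => Θ (v, s)) atBot (𝓝 α))
    (hα' : Tendsto (fun v => Θ (v, σ s)) atBot (𝓝 α')) (hs : 0 < Real.sin α) :
    0 ≤ Real.cos α' := by
  have h1 : Tendsto (fun v => Real.cos (Θ (lg σ s v, σ s))) atBot (𝓝 (Real.cos α')) :=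
    (Real.continuous_cos.tendsto _).comp (hα'.comp (hσ.tendsto_lg s))
  have h2 : Tendsto (fun v => Real.sin (Θ (v, s))) atBot (𝓝 (Real.sin α)) :=
    (Real.continuous_sin.tendsto _).comp hα
  apply ge_of_tendsto h1
  filter_upwards [h2.eventually_const_lt hs] with v hv
  obtain ⟨r, hr, r', hr', e1, -⟩ := sec_twist h hS hσ hA s v
  by_contra hcon
  push Not at hcon
  have := mul_neg_of_pos_of_neg hr' hcon
  have := mul_pos hr hv
  linarith

lemma tan_cos_nonpos {s α α' : ℝ} (hα : Tendsto (fun v => Θ (v, s)) atBot (𝓝 α))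
    (hα' : Tendsto (fun v => Θ (v, σ s)) atBot (𝓝 α')) (hs : Real.sin α < 0) :
    Real.cos α' ≤ 0 := by
  have h1 : Tendsto (fun v => Real.cos (Θ (lg σ s v, σ s))) atBot (𝓝 (Real.cos α')) :=
    (Real.continuous_cos.tendsto _).comp (hα'.comp (hσ.tendsto_lg s))
  have h2 : Tendsto (fun v => Real.sin (Θ (v, s))) atBot (𝓝 (Real.sin α)) :=
    (Real.continuous_sin.tendsto _).comp hα
  apply le_of_tendsto h1
  filter_upwards [h2.eventually_lt_const hs] with v hv
  obtain ⟨r, hr, r', hr', e1, -⟩ := sec_twist h hS hσ hA s v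
  by_contra hcon
  push Not at hcon
  have := mul_pos hr' hcon
  have := mul_neg_of_pos_of_neg hr hv
  linarith

/-- The basic implication, at all integer levels. -/
lemma tan_step {s α α' : ℝ} (hα : Tendsto (fun v => Θ (v, s)) atBot (𝓝 α))
    (hα' : Tendsto (fun v => Θ (v, σ s)) atBot (𝓝 α')) {k : ℤ} (hk : α < k * Real.pi) :
    α' ≤ k * Real.pi - Real.pi / 2 := by
  have hd := tan_diff_mem h hS hσ hA hα hα'
  have hpi := Real.pi_pos
  by_cases h0 : α ≤ (k - 1) * Real.pi
  · linarith [hd.2]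
  · push Not at h0
    by_contra hcon
    push Not at hcon
    have hlt : α' < k * Real.pi + Real.pi / 2 := by linarith [hd.2]
    -- reduce to the parity of `k`
    rcases Int.even_or_odd k with he | ho
    · obtain ⟨m, hm⟩ := he
      have e1 : Real.sin α = Real.sin (α - m * (2 * Real.pi)) := by
        rw [Real.sin_sub_int_mul_two_pi]
      have e2 : Real.cos α' = Real.cos (α' - m * (2 * Real.pi)) := by
        rw [Real.cos_sub_int_mul_two_pi]
      have hkm : (k : ℝ) = m + m := by rw [hm]; push_cast; ring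
      rw [hkm] at h0 hk hcon hlt
      have hs : Real.sin α < 0 := by
        rw [e1]
        apply Real.sin_neg_of_neg_of_neg_pi_lt <;> linarith
      have hcos := tan_cos_nonpos h hS hσ hA hα hα' hs
      rw [e2] at hcos
      have := Real.cos_pos_of_mem_Ioo (x := α' - m * (2 * Real.pi)) ⟨by linarith, by linarith⟩
      linarith
    · obtain ⟨m, hm⟩ := ho
      have e1 : Real.sin α = Real.sin (α - m * (2 * Real.pi)) := by
        rw [Real.sin_sub_int_mul_two_pi]
      have e2 : Real.cos α' = Real.cos (α' - m * (2 * Real.pi)) := by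
        rw [Real.cos_sub_int_mul_two_pi]
      have hkm : (k : ℝ) = 2 * m + 1 := by rw [hm]; push_cast; ring
      rw [hkm] at h0 hk hcon hlt
      have hs : 0 < Real.sin α := by
        rw [e1]
        apply Real.sin_pos_of_pos_of_lt_pi <;> linarith
      have hcos := tan_cos_nonneg h hS hσ hA hα hα' hs
      rw [e2] at hcos
      have := Real.cos_neg_of_pi_div_two_lt_of_lt (x := α' - m * (2 * Real.pi)) (by linarith)
        (by linarith)
      linarith

end
end

end MPd2f538
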