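import Pool.Agent.Lib.MP_d2f538_an.Sec

/-!
# Secant angles converge to the line field
-/

open Set Filter Topology MeasureTheory

namespace MPd2f538

/-- near `s0` the secant angle is the lifted angle of the line field plus `n π` -/
def NearTan (c : ℝ → ℝ × ℝ) (Θ A : ℝ × ℝ → ℝ) (n : ℤ) (s0 : ℝ) : Prop :=
  ∃ ε > 0, ∀ s ∈ Ioo (s0 - ε) (s0 + ε), ∀ v, Real.exp v < ε →
    ∃ ξ ∈ segment ℝ (c s) (c (s + Real.exp v)), Θ (v, s) = A ξ + n * Real.pi

section
variable {l : ℝ} {L1 L2 : ℝ × ℝ → ℝ} {leaves : Set (Set (ℝ × ℝ))} {c : ℝ → ℝ × ℝ}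
  {Θ A : ℝ × ℝ → ℝ}

lemma NearTan.of_near {n : ℤ} {s0 : ℝ} (h : NearTan c Θ A n s0) :
    ∀ᶠ s in 𝓝 s0, NearTan c Θ A n s := by
  obtain ⟨ε, hε, h1⟩ := h
  have hI : Ioo (s0 - ε / 2) (s0 + ε / 2) ∈ 𝓝 s0 := Ioo_mem_nhds (by linarith) (by linarith)
  filter_upwards [hI] with s1 hs1
  refine ⟨ε / 2, by positivity, ?_⟩
  intro s hs v hv
  exact h1 s ⟨by linarith [hs.1, hs1.1], by linarith [hs.2, hs1.2]⟩ v (by linarith)

/-- small secants near `s0` stay in a given neighbourhood -/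
lemma Rot.eventually_ball (hc : Rot l c) (s0 : ℝ) {r : ℝ} (hr : 0 < r) :
    ∃ ε > 0, ∀ s, |s - s0| < ε → c s ∈ Metric.ball (c s0) r := by
  have hev : ∀ᶠ s in 𝓝 s0, c s ∈ Metric.ball (c s0) r :=
    hc.cont.continuousAt (Metric.ball_mem_nhds _ hr)
  obtain ⟨ε, hε, h⟩ := Metric.eventually_nhds_iff.1 hev
  exact ⟨ε, hε, fun s hs => h (by rwa [Real.dist_eq])⟩

variable (hl : 0 < l) (h : IsRotationalFoliation l L1 L2 leaves) (hc : Rot l c)
  (hcl : range c ∈ leaves) (hΘ : IsSec c Θ) (hA : IsLine l leaves A)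
include hl h hc hcl hA

omit hl hc in
lemma exists_ball_A (s0 : ℝ) {η : ℝ} (hη : 0 < η) :
    ∃ r > 0, ∀ q ∈ Metric.ball (c s0) r, |A q - A (c s0)| < η := by
  have hS : c s0 ∈ Sig l := h.subset _ hcl (mem_range_self _)
  have hca := hA.cont.continuousAt ((isOpen_Sig l).mem_nhds hS)
  obtain ⟨r, hr, h1⟩ := Metric.continuousAt_iff.1 hca η hη
  exact ⟨r, hr, fun q hq => by
    have := h1 (Metric.mem_ball.1 hq)
    rwa [Real.dist_eq] at this⟩

include hΘ

lemma exists_nearTan (s0 : ℝ) : ∃ n : ℤ, NearTan c Θ A n s0 := by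
  have hpi := Real.pi_pos
  have hS : c s0 ∈ Sig l := h.subset _ hcl (mem_range_self _)
  obtain ⟨r, hr, hrA⟩ := exists_ball_A h hcl hA s0 (η := Real.pi / 4) (by positivity)
  obtain ⟨F, U, hC, hpU, hUV⟩ := h.exists_chart hS (Metric.ball_mem_nhds (c s0) hr)
  obtain ⟨r', hr', hball⟩ := Metric.mem_nhds_iff.1 (hC.op.mem_nhds hpU)
  obtain ⟨ε0, hε0, hin⟩ := hc.eventually_ball s0 hr'
  set ε := ε0 / 2 with hε
  have hεpos : 0 < ε := by positivity
  have key : ∀ s ∈ Ioo (s0 - ε) (s0 + ε), ∀ v, Real.exp v < ε → ∃ k : ℤ,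
      ∃ ξ ∈ segment ℝ (c s) (c (s + Real.exp v)), Θ (v, s) = A ξ + k * Real.pi ∧
        |A ξ - A (c s0)| < Real.pi / 4 := by
    intro s hs v hv
    have hexp := Real.exp_pos v
    have hIcc : ∀ t ∈ Icc s (s + Real.exp v), c t ∈ U := by
      intro t ht
      apply hball
      apply hin
      rw [abs_lt]
      constructor <;> linarith [hs.1, hs.2, ht.1, ht.2]
    have hs1 : s ∈ Icc s (s + Real.exp v) := ⟨le_rfl, by linarith⟩
    have hs2 : s + Real.exp v ∈ Icc s (s + Real.exp v) := ⟨by linarith, le_rfl⟩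
    have heq : F (c s) = F (c (s + Real.exp v)) := hc.const_of_level hl hC.op hC.cont
      (fun q hq q' hq' e hh => hC.lev q hq q' hq' e _ hcl hh) hIcc hs1 hs2
    obtain ⟨ξ, hξ, h0⟩ := hC.rolle (hIcc s hs1) (hIcc _ hs2) heq
    have hξU : ξ ∈ U := hC.conv.segment_subset (hIcc s hs1) (hIcc _ hs2) hξ
    obtain ⟨ρ, hρ, e1, e2⟩ := hΘ.polar v s
    rw [e1, e2] at h0
    have h1 : (gr F ξ).re * Real.cos (Θ (v, s)) + (gr F ξ).im * Real.sin (Θ (v, s)) = 0 := by
      have : ρ * ((gr F ξ).re * Real.cos (Θ (v, s)) + (gr F ξ).im * Real.sin (Θ (v, s))) = 0 := by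
        linarith
      exact (mul_eq_zero.1 this).resolve_left hρ.ne'
    obtain ⟨k, hk⟩ := hA.angle hC hξU h1
    exact ⟨k, ξ, hξ, hk, hrA ξ (hUV hξU)⟩
  -- the integer does not depend on the secant
  set R : Set (ℝ × ℝ) := Iio (Real.log ε) ×ˢ Ioo (s0 - ε) (s0 + ε) with hR
  have hRc : IsPreconnected R := ((convex_Iio _).prod (convex_Ioo _ _)).isPreconnected
  have hEc : Continuous fun p : ℝ × ℝ => Θ p - A (c s0) := by have := hΘ.cont; fun_prop
  have hoc : ((fun p : ℝ × ℝ => Θ p - A (c s0)) '' R).OrdConnected :=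
    (hRc.image _ hEc.continuousOn).ordConnected
  have hkey2 : ∀ p ∈ R, ∃ k : ℤ, |Θ p - A (c s0) - k * Real.pi| < Real.pi / 4 := by
    rintro ⟨v, s⟩ ⟨hv, hs⟩
    have hv' : Real.exp v < ε := by
      rw [← Real.exp_log hεpos]; exact Real.exp_lt_exp.2 hv
    obtain ⟨k, ξ, -, h1, h2⟩ := key s hs v hv'
    refine ⟨k, ?_⟩
    rw [h1]
    convert h2 using 2
    ring
  have hno : ∀ m : ℤ, (m : ℝ) * Real.pi + Real.pi / 2 ∉ (fun p : ℝ × ℝ => Θ p - A (c s0)) '' R := by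
    rintro m ⟨p, hp, he⟩
    obtain ⟨k, hk⟩ := hkey2 p hp
    simp only at he
    rw [he, abs_lt] at hk
    have h1 : ((m : ℝ) - k) * Real.pi < -(1/4) * Real.pi := by linarith [hk.2]
    have h2 : -(3/4) * Real.pi < ((m : ℝ) - k) * Real.pi := by linarith [hk.1]
    have h3 := lt_of_mul_lt_mul_right h1 hpi.le
    have h4 := lt_of_mul_lt_mul_right h2 hpi.le
    have h5 : (m : ℝ) < k := by linarith
    have h6 : (m : ℝ) + 1 > k := by linarith
    have h7 : m < k := by exact_mod_cast h5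
    have h8 : k < m + 1 := by exact_mod_cast h6
    omega
  have hbase : (Real.log ε - 1, s0) ∈ R := ⟨by simp, by constructor <;> linarith⟩
  obtain ⟨n, hn⟩ := hkey2 _ hbase
  refine ⟨n, ε, hεpos, ?_⟩
  intro s hs v hv
  obtain ⟨k, ξ, hξ, h1, h2⟩ := key s hs v hv
  have hvR : (v, s) ∈ R := by
    refine ⟨?_, hs⟩
    rw [mem_Iio, Real.lt_log_iff_exp_lt hεpos]
    exact hv
  have hkn : k = n := by
    have hk : |Θ (v, s) - A (c s0) - k * Real.pi| < Real.pi / 4 := by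
      rw [h1]
      convert h2 using 2
      ring
    rw [abs_lt] at hk hn
    rcases lt_trichotomy k n with hlt | heq | hgt
    · exfalso
      have : (k : ℝ) + 1 ≤ n := by exact_mod_cast hlt
      have h3 : ((k : ℝ) + 1) * Real.pi ≤ n * Real.pi := mul_le_mul_of_nonneg_right this hpi.le
      exact hno k (hoc.out (mem_image_of_mem _ hvR) (mem_image_of_mem _ hbase)
        ⟨by linarith [hk.2], by linarith [hn.1]⟩)
    · exact heq
    · exfalso
      have : (n : ℝ) + 1 ≤ k := by exact_mod_cast hgt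
      have h3 : ((n : ℝ) + 1) * Real.pi ≤ k * Real.pi := mul_le_mul_of_nonneg_right this hpi.le
      exact hno n (hoc.out (mem_image_of_mem _ hbase) (mem_image_of_mem _ hvR)
        ⟨by linarith [hn.2], by linarith [hk.1]⟩)
  exact ⟨ξ, hξ, by rw [h1, hkn]⟩

omit hΘ in
lemma NearTan.tendsto {n : ℤ} {s : ℝ} (hn : NearTan c Θ A n s) :
    Tendsto (fun v => Θ (v, s)) atBot (𝓝 (A (c s) + n * Real.pi)) := by
  obtain ⟨ε, hε, h1⟩ := hn
  rw [Metric.tendsto_nhds]
  intro η hη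
  obtain ⟨r, hr, hrA⟩ := exists_ball_A h hcl hA s hη
  obtain ⟨ε', hε', hin⟩ := hc.eventually_ball s hr
  have hev : ∀ᶠ v in atBot, Real.exp v < min ε ε' :=
    Real.tendsto_exp_atBot.eventually_lt_const (lt_min hε hε')
  filter_upwards [hev] with v hv
  have hexp := Real.exp_pos v
  obtain ⟨ξ, hξ, he⟩ := h1 s ⟨by linarith, by linarith⟩ v (hv.trans_le (min_le_left _ _))
  have hb : ξ ∈ Metric.ball (c s) r := by
    apply (convex_ball (c s) r).segment_subset (Metric.mem_ball_self hr) _ hξ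
    apply hin
    rw [add_sub_cancel_left, abs_of_pos hexp]
    exact hv.trans_le (min_le_right _ _)
  rw [he, Real.dist_eq]
  convert hrA ξ hb using 2
  ring

lemma exists_tangent : ∃ n : ℤ, ∀ s, NearTan c Θ A n s := by
  have hpi := Real.pi_pos
  choose n hn using exists_nearTan hl h hc hcl hΘ hA
  have huniq : ∀ s m, NearTan c Θ A m s → m = n s := by
    intro s m hm
    have t1 := hm.tendsto hl h hc hcl hA
    have t2 := (hn s).tendsto hl h hc hcl hA
    have := tendsto_nhds_unique t1 t2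
    have h3 : (m : ℝ) * Real.pi = n s * Real.pi := by linarith
    have h4 := mul_right_cancel₀ hpi.ne' h3
    exact_mod_cast h4
  have hloc : IsLocallyConstant n := by
    rw [IsLocallyConstant.iff_eventually_eq]
    intro s
    filter_upwards [(hn s).of_near] with t ht
    exact (huniq t _ ht).symm
  refine ⟨n 0, fun s => ?_⟩
  have : n s = n 0 := hloc.apply_eq_of_preconnectedSpace s 0
  rw [← this]
  exact hn s

end

section
variable {l : ℝ} {L L1 L2 L11 L12 L22 : ℝ × ℝ → ℝ} {leaves : Set (Set (ℝ × ℝ))} {A : ℝ × ℝ → ℝ}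

/-- Data for a leaf through a point. -/
lemma exists_leaf_data (hT : TwistGen l L L1 L2 L11 L12 L22)
    (h : IsRotationalFoliation l L1 L2 leaves) (hA : IsLine l leaves A) {p : ℝ × ℝ}
    (hp : p ∈ Sig l) : ∃ c σ Θ, ∃ n : ℤ, Rot l c ∧ range c ∈ leaves ∧ (∀ s, c s ∈ Sig l) ∧
      IsLeafMap l L1 L2 c σ ∧ IsSec c Θ ∧ (∀ s, NearTan c Θ A n s) ∧ p ∈ range c := by
  obtain ⟨c, hc, hcl, hpc⟩ := h.exists_rot hp
  have hS : ∀ s, c s ∈ Sig l := fun s => h.subset _ hcl (mem_range_self _)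
  obtain ⟨σ, hσ⟩ := exists_leafMap hT hc hS (fun s => by
    have := h.inv _ hcl (c s) (mem_range_self _) (nx l L1 L2 (c s)) (hT.nx_mem (hS s))
      (hT.nx_eq (hS s))
    exact this)
  obtain ⟨Θ, hΘ⟩ := hc.exists_sec hT.lpos
  obtain ⟨n, hn⟩ := exists_tangent hT.lpos h hc hcl hΘ hA
  exact ⟨c, σ, Θ, n, hc, hcl, hS, hσ, hΘ, hn, hpc⟩

lemma line_shift (hT : TwistGen l L L1 L2 L11 L12 L22)
    (h : IsRotationalFoliation l L1 L2 leaves) (hA : IsLine l leaves A) {p : ℝ × ℝ}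
    (hp : p ∈ Sig l) : A (p + (l, l)) = A p := by
  obtain ⟨c, σ, Θ, n, hc, hcl, hS, hσ, hΘ, hn, s, rfl⟩ := exists_leaf_data hT h hA hp
  have t1 := (hn s).tendsto hT.lpos h hc hcl hA
  have t2 := (hn (s + 1)).tendsto hT.lpos h hc hcl hA
  simp only [hΘ.add_one hc] at t2
  have := tendsto_nhds_unique t1 t2
  rw [hc.per] at this
  linarith

lemma line_step (hT : TwistGen l L L1 L2 L11 L12 L22)
    (h : IsRotationalFoliation l L1 L2 leaves) (hA : IsLine l leaves A) {p : ℝ × ℝ}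
    (hp : p ∈ Sig l) {k : ℤ} (hk : A p < k * Real.pi) :
    A (TT l L1 L2 p) ≤ k * Real.pi - Real.pi / 2 := by
  obtain ⟨c, σ, Θ, n, hc, hcl, hS, hσ, hΘ, hn, s, rfl⟩ := exists_leaf_data hT h hA hp
  have t1 := (hn s).tendsto hT.lpos h hc hcl hA
  have t2 := (hn (σ s)).tendsto hT.lpos h hc hcl hA
  have := tan_step hT hS hσ hΘ t1 t2 (k := k + n) (by push_cast; linarith)
  rw [hσ.spec] at this
  push_cast at this
  linarith

end

end MPd2f538
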