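import Pool.Agent.Lib.MP_d2f538_an.Integral

open MeasureTheory Set Real Filter Topology

namespace Pool.Agent.MP_d2f538_an

variable {ℓ : ℝ} {γ γ' γ'' : ℝ → ℂ} {ψ k : ℝ → ℝ} {g : ℂ → ℝ} {h h' h'' : ℝ → ℝ}

theorem interval_swap {P : ℝ → ℝ → ℝ} (hP : Continuous fun r : ℝ × ℝ => P r.1 r.2)
    {a b c d : ℝ} (hab : a ≤ b) (hcd : c ≤ d) :
    ∫ x in a..b, ∫ y in c..d, P x y = ∫ y in c..d, ∫ x in a..b, P x y := by
  simp only [intervalIntegral.integral_of_le hab, intervalIntegral.integral_of_le hcd]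
  apply integral_integral_swap
  have h1 : IntegrableOn (fun r : ℝ × ℝ => P r.1 r.2) (Icc a b ×ˢ Icc c d) :=
    hP.continuousOn.integrableOn_compact (isCompact_Icc.prod isCompact_Icc)
  have h2 := h1.mono_set (prod_mono Ioc_subset_Icc_self Ioc_subset_Icc_self :
    Ioc a b ×ˢ Ioc c d ⊆ Icc a b ×ˢ Icc c d)
  rw [IntegrableOn, Measure.volume_eq_prod, ← Measure.prod_restrict] at h2
  exact h2

/-- twice the enclosed area -/
noncomputable def area2 (ℓ : ℝ) (γ γ' : ℝ → ℂ) : ℝ :=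
  ∫ x in (0 : ℝ)..ℓ, ((starRingEnd ℂ) (γ x) * γ' x).im

section inner

variable (D : AngleData ℓ γ γ' γ'' ψ k)

include D

theorem γ'_re (x : ℝ) : (γ' x).re = Real.cos (ψ x) := by
  rw [D.hψ, Complex.exp_ofReal_mul_I_re]

theorem γ'_im (x : ℝ) : (γ' x).im = Real.sin (ψ x) := by
  rw [D.hψ, Complex.exp_ofReal_mul_I_im]

theorem ψ_end : ψ ℓ = ψ 0 + 2 * π := by
  have := D.ψ_add 0
  rwa [zero_add] at this

theorem γ_end : γ ℓ = γ 0 := by
  have := D.per 0
  rwa [zero_add] at this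

theorem hre (x : ℝ) : HasDerivAt (fun x => (γ x).re) (Real.cos (ψ x)) x := by
  rw [← γ'_re D]
  exact Complex.reCLM.hasFDerivAt.comp_hasDerivAt x (D.d1 x)

theorem him (x : ℝ) : HasDerivAt (fun x => (γ x).im) (Real.sin (ψ x)) x := by
  rw [← γ'_im D]
  exact Complex.imCLM.hasFDerivAt.comp_hasDerivAt x (D.d1 x)

theorem int_k_sin_sq (φ : ℝ) : ∫ x in (0 : ℝ)..ℓ, k x * Real.sin (φ - ψ x) ^ 2 = π := by
  have hd : ∀ x, HasDerivAt (fun x => ψ x / 2 + Real.sin (2 * (φ - ψ x)) / 4)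
      (k x * Real.sin (φ - ψ x) ^ 2) x := by
    intro x
    have h1 : HasDerivAt (fun x => 2 * (φ - ψ x)) (2 * (0 - k x)) x :=
      ((hasDerivAt_const x φ).sub (D.dψ x)).const_mul 2
    have h2 := ((D.dψ x).div_const 2).add (h1.sin.div_const 4)
    refine h2.congr_deriv ?_
    have h3 : Real.cos (2 * (φ - ψ x)) = 1 - 2 * Real.sin (φ - ψ x) ^ 2 := by
      rw [Real.cos_two_mul, Real.cos_sq']; ring
    rw [h3]; ring
  rw [intervalIntegral.integral_eq_sub_of_hasDerivAt (fun x _ => hd x)]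
  · rw [ψ_end D]
    have : 2 * (φ - (ψ 0 + 2 * π)) = 2 * (φ - ψ 0) - 2 * π - 2 * π := by ring
    rw [this, Real.sin_sub_two_pi, Real.sin_sub_two_pi]; ring
  · have := D.cψ
    have := D.ck
    exact Continuous.intervalIntegrable (by fun_prop) _ _

theorem int_k_sin_cos (φ : ℝ) :
    ∫ x in (0 : ℝ)..ℓ, k x * (Real.sin (φ - ψ x) * Real.cos (φ - ψ x)) = 0 := by
  have hd : ∀ x, HasDerivAt (fun x => -(Real.sin (φ - ψ x) ^ 2) / 2)
      (k x * (Real.sin (φ - ψ x) * Real.cos (φ - ψ x))) x := by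
    intro x
    have h1 : HasDerivAt (fun x => φ - ψ x) (0 - k x) x :=
      (hasDerivAt_const x φ).sub (D.dψ x)
    have h2 := ((h1.sin.fun_pow 2).fun_neg).div_const 2
    refine h2.congr_deriv ?_
    push_cast
    ring
  rw [intervalIntegral.integral_eq_sub_of_hasDerivAt (fun x _ => hd x)]
  · rw [ψ_end D]
    have : φ - (ψ 0 + 2 * π) = φ - ψ 0 - 2 * π := by ring
    rw [this, Real.sin_sub_two_pi]; ring
  · have := D.cψ
    have := D.ck
    exact Continuous.intervalIntegrable (by fun_prop) _ _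

theorem int_a_sin (φ : ℝ) :
    ∫ x in (0 : ℝ)..ℓ, ((γ x).re * Real.cos φ + (γ x).im * Real.sin φ) * Real.sin (φ - ψ x) =
      -(area2 ℓ γ γ' / 2) := by
  have hd : ∀ x, HasDerivAt (fun x => Real.cos φ * Real.sin φ * (((γ x).re ^ 2 - (γ x).im ^ 2) / 2)
      - (Real.cos φ ^ 2 - 1 / 2) * ((γ x).re * (γ x).im))
      (((γ x).re * Real.cos φ + (γ x).im * Real.sin φ) * Real.sin (φ - ψ x) +
        ((starRingEnd ℂ) (γ x) * γ' x).im / 2) x := by
    intro x
    have h1 := hre D x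
    have h2 := him D x
    have h3 := ((((h1.fun_pow 2).fun_sub (h2.fun_pow 2)).div_const 2).const_mul
      (Real.cos φ * Real.sin φ)).fun_sub ((h1.fun_mul h2).const_mul (Real.cos φ ^ 2 - 1 / 2))
    refine h3.congr_deriv ?_
    rw [Real.sin_sub]
    simp only [Complex.mul_im, Complex.conj_re, Complex.conj_im, γ'_re D, γ'_im D]
    have hs := Real.sin_sq_add_cos_sq φ
    have hs' : Real.sin φ ^ 2 = 1 - Real.cos φ ^ 2 := by linarith
    push_cast
    ring_nf
    rw [hs']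
    ring
  have hcγ := D.cγ
  have hcγ' := D.cγ'
  have hcψ := D.cψ
  have hA : Continuous fun x => ((starRingEnd ℂ) (γ x) * γ' x).im :=
    Complex.continuous_im.comp ((Complex.continuous_conj.comp hcγ).mul hcγ')
  have hB : Continuous fun x =>
      ((γ x).re * Real.cos φ + (γ x).im * Real.sin φ) * Real.sin (φ - ψ x) := by fun_prop
  have h0 := intervalIntegral.integral_eq_sub_of_hasDerivAt (a := 0) (b := ℓ) (fun x _ => hd x)
    ((hB.add (hA.div_const 2)).intervalIntegrable _ _)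
  rw [γ_end D, sub_self, intervalIntegral.integral_add (hB.intervalIntegrable _ _)
    ((hA.div_const 2).intervalIntegrable _ _), intervalIntegral.integral_div] at h0
  rw [area2]
  linarith

theorem int_sin_sq (hiso : ∫ x in (0 : ℝ)..ℓ, (γ' x) ^ 2 = 0) (φ : ℝ) :
    ∫ x in (0 : ℝ)..ℓ, Real.sin (φ - ψ x) ^ 2 = ℓ / 2 := by
  have hcψ := D.cψ
  have hcγ' := D.cγ'
  have hsq : ∀ x, (γ' x) ^ 2 = Complex.exp ((2 * ψ x : ℝ) * Complex.I) := by
    intro x
    rw [D.hψ, ← Complex.exp_nat_mul]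
    congr 1
    push_cast; ring
  have hc : ∫ x in (0 : ℝ)..ℓ, Real.cos (2 * ψ x) = 0 := by
    have h1 := congrArg Complex.re hiso
    have h2 := Complex.reCLM.intervalIntegral_comp_comm
      ((hcγ'.pow 2).intervalIntegrable (μ := volume) 0 ℓ)
    simp only [Complex.reCLM_apply, Pi.pow_apply] at h2
    rw [← h2, Complex.zero_re] at h1
    refine Eq.trans ?_ h1
    apply intervalIntegral.integral_congr
    intro x _
    simp only [hsq, Complex.exp_ofReal_mul_I_re]
  have hs : ∫ x in (0 : ℝ)..ℓ, Real.sin (2 * ψ x) = 0 := by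
    have h1 := congrArg Complex.im hiso
    have h2 := Complex.imCLM.intervalIntegral_comp_comm
      ((hcγ'.pow 2).intervalIntegrable (μ := volume) 0 ℓ)
    simp only [Complex.imCLM_apply, Pi.pow_apply] at h2
    rw [← h2, Complex.zero_im] at h1
    refine Eq.trans ?_ h1
    apply intervalIntegral.integral_congr
    intro x _
    simp only [hsq, Complex.exp_ofReal_mul_I_im]
  have he : ∀ x, Real.sin (φ - ψ x) ^ 2 = 1 / 2 - (Real.cos (2 * φ) / 2) * Real.cos (2 * ψ x) -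
      (Real.sin (2 * φ) / 2) * Real.sin (2 * ψ x) := by
    intro x
    have h1 : Real.cos (2 * φ - 2 * ψ x) = 1 - 2 * Real.sin (φ - ψ x) ^ 2 := by
      rw [← mul_sub, Real.cos_two_mul, Real.cos_sq']; ring
    rw [Real.cos_sub] at h1
    linarith
  simp_rw [he]
  rw [intervalIntegral.integral_sub, intervalIntegral.integral_sub,
    intervalIntegral.integral_const_mul, intervalIntegral.integral_const_mul, hc, hs]
  · simp; ring
  all_goals exact Continuous.intervalIntegrable (by fun_prop) _ _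

theorem PP_inner (hiso : ∫ x in (0 : ℝ)..ℓ, (γ' x) ^ 2 = 0) (c φ : ℝ) :
    ∫ x in (0 : ℝ)..ℓ, PP γ ψ k h h' h'' c x φ =
      (c * ℓ - c ^ 2 * (area2 ℓ γ γ' / 2)) * (h φ + h'' φ) ^ 2 -
        π * (h φ * (h φ + h'' φ)) := by
  have hcγ := D.cγ
  have hcγ' := D.cγ'
  have hcψ := D.cψ
  have hck := D.ck
  have he : ∀ x, PP γ ψ k h h' h'' c x φ =
      (h φ + h'' φ) ^ 2 * (2 * c) * Real.sin (φ - ψ x) ^ 2 +
      (h φ + h'' φ) ^ 2 * c ^ 2 *
        (((γ x).re * Real.cos φ + (γ x).im * Real.sin φ) * Real.sin (φ - ψ x)) -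
      (h φ + h'' φ) * h φ * (k x * Real.sin (φ - ψ x) ^ 2) -
      (h φ + h'' φ) * h' φ * (k x * (Real.sin (φ - ψ x) * Real.cos (φ - ψ x))) := by
    intro x
    rw [PP]; ring
  simp_rw [he]
  rw [intervalIntegral.integral_sub, intervalIntegral.integral_sub, intervalIntegral.integral_add,
    intervalIntegral.integral_const_mul, intervalIntegral.integral_const_mul,
    intervalIntegral.integral_const_mul, intervalIntegral.integral_const_mul,
    int_k_sin_sq D, int_k_sin_cos D, int_a_sin D, int_sin_sq D hiso]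
  · ring
  all_goals exact Continuous.intervalIntegrable (by fun_prop) _ _

end inner

theorem PP_total (D : AngleData ℓ γ γ' γ'' ψ k) (N : NormData g h h' h'')
    (hiso : ∫ x in (0 : ℝ)..ℓ, (γ' x) ^ 2 = 0) (c : ℝ) :
    ∫ x in (0 : ℝ)..ℓ, ∫ φ in (0 : ℝ)..(2 * π), PP γ ψ k h h' h'' c x φ =
      (c * ℓ - c ^ 2 * (area2 ℓ γ γ' / 2)) * (∫ φ in (0 : ℝ)..(2 * π), (h φ + h'' φ) ^ 2) -
        π * ∫ φ in (0 : ℝ)..(2 * π), h φ * (h φ + h'' φ) := by
  have hch := N.ch
  have hch'' := N.c2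
  rw [interval_swap (continuous_PP D N c) D.pos.le (by positivity)]
  simp_rw [PP_inner D hiso c]
  rw [intervalIntegral.integral_sub, intervalIntegral.integral_const_mul,
    intervalIntegral.integral_const_mul]
  all_goals exact Continuous.intervalIntegrable (by fun_prop) _ _

end Pool.Agent.MP_d2f538_an
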