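import Pool.Agent.Lib.MP_d2f538_an.Twist

/-!
# Invariance of the measure `L12 dx dy` under the twist map, tested on continuous functions
-/

open Set Filter Topology MeasureTheory

namespace MPd2f538

/-- closed core of the strip -/
def Core (l δ : ℝ) : Set (ℝ × ℝ) := {p | δ ≤ p.2 - p.1 ∧ p.2 - p.1 ≤ l - δ}

lemma Core_subset {l δ : ℝ} (hδ : 0 < δ) : Core l δ ⊆ Sig l := by
  intro p hp
  exact ⟨by linarith [hp.1], by linarith [hp.2]⟩

lemma isClosed_Core (l δ : ℝ) : IsClosed (Core l δ) := by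
  apply IsClosed.inter
  · exact isClosed_le continuous_const (continuous_snd.sub continuous_fst)
  · exact isClosed_le (continuous_snd.sub continuous_fst) continuous_const

/-- Extension by zero of a function on the strip which vanishes outside a core. -/
lemma continuous_ind {l δ : ℝ} (hδ : 0 < δ) {g : ℝ × ℝ → ℝ} (hg : ContinuousOn g (Sig l))
    (h0 : ∀ p ∈ Sig l, p ∉ Core l δ → g p = 0) : Continuous ((Sig l).indicator g) := by
  rw [continuous_iff_continuousAt]
  intro p
  by_cases hp : p ∈ Sig l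
  · have h1 : (Sig l).indicator g =ᶠ[𝓝 p] g := by
      filter_upwards [(isOpen_Sig l).mem_nhds hp] with q hq
      exact indicator_of_mem hq g
    exact (hg.continuousAt ((isOpen_Sig l).mem_nhds hp)).congr h1.symm
  · have hpc : p ∉ Core l δ := fun hc => hp (Core_subset hδ hc)
    have h1 : (Sig l).indicator g =ᶠ[𝓝 p] fun _ => 0 := by
      filter_upwards [(isClosed_Core l δ).isOpen_compl.mem_nhds hpc] with q hq
      by_cases hq' : q ∈ Sig l
      · rw [indicator_of_mem hq', h0 q hq' hq]
      · rw [indicator_of_notMem hq']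
    exact continuousAt_const.congr h1.symm

lemma integrableOn_rect {F : ℝ → ℝ → ℝ} (hF : Continuous (Function.uncurry F)) (a b c d : ℝ) :
    IntegrableOn (Function.uncurry F) (uIoc a b ×ˢ uIoc c d) := by
  have h1 : IntegrableOn (Function.uncurry F) (uIcc a b ×ˢ uIcc c d) :=
    hF.continuousOn.integrableOn_compact (isCompact_uIcc.prod isCompact_uIcc)
  exact h1.mono_set (prod_mono uIoc_subset_uIcc uIoc_subset_uIcc)

/-- integral over a fundamental domain -/
noncomputable def II (l : ℝ) (g : ℝ × ℝ → ℝ) : ℝ := ∫ x in (0:ℝ)..l, ∫ u in (0:ℝ)..l, g (x, x + u)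

lemma II_swap {l : ℝ} {g : ℝ × ℝ → ℝ} (hg : Continuous g) (hper : ∀ p, g (p + (l, l)) = g p) :
    II l g = ∫ y in (0:ℝ)..l, ∫ u in (0:ℝ)..l, g (y - u, y) := by
  rw [II, intervalIntegral_intervalIntegral_swap]
  · have h1 : ∀ u : ℝ, ∫ x in (0:ℝ)..l, g (x, x + u) = ∫ y in (0:ℝ)..l, g (y - u, y) := by
      intro u
      have hp : Function.Periodic (fun x : ℝ => g (x, x + u)) l := by
        intro x
        have := hper (x, x + u)
        simp only [Prod.mk_add_mk] at this
        simp only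
        rw [← this]
        congr 2
        ring
      have h2 := hp.intervalIntegral_add_eq (-u) 0
      rw [zero_add] at h2
      rw [← h2]
      have h3 := intervalIntegral.integral_comp_sub_right (a := 0) (b := l)
        (fun x : ℝ => g (x, x + u)) u
      simp only [sub_add_cancel, zero_sub] at h3
      rw [h3]
      congr 1
      ring
    simp_rw [h1]
    rw [intervalIntegral_intervalIntegral_swap]
    apply integrableOn_rect
    unfold Function.uncurry; fun_prop
  · apply integrableOn_rect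
    unfold Function.uncurry; fun_prop

/-- one-dimensional change of variables for a fixed middle point -/
lemma TwistGen.transfer1 {l : ℝ} {L L1 L2 L11 L12 L22 : ℝ × ℝ → ℝ}
    (h : TwistGen l L L1 L2 L11 L12 L22) (g : ℝ × ℝ → ℝ) (b : ℝ) :
    ∫ u in (0:ℝ)..l, g (TT l L1 L2 (b - u, b)) * L12 (b - u, b) =
      ∫ u in (0:ℝ)..l, g (b, b + u) * L12 (b, b + u) := by
  have hl := h.lpos
  have e1 : ∫ u in (0:ℝ)..l, g (TT l L1 L2 (b - u, b)) * L12 (b - u, b) =
      ∫ a in Ioo (b - l) b, g (TT l L1 L2 (a, b)) * L12 (a, b) := by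
    have := intervalIntegral.integral_comp_sub_left (a := 0) (b := l)
      (fun a : ℝ => g (TT l L1 L2 (a, b)) * L12 (a, b)) b
    simp only [sub_zero] at this
    rw [this, intervalIntegral.integral_of_le (by linarith), integral_Ioc_eq_integral_Ioo]
  have e2 : ∫ u in (0:ℝ)..l, g (b, b + u) * L12 (b, b + u) =
      ∫ c in Ioo b (b + l), g (b, c) * L12 (b, c) := by
    have := intervalIntegral.integral_comp_add_left (a := 0) (b := l)
      (fun a : ℝ => g (b, a) * L12 (b, a)) b
    simp only [add_zero] at this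
    rw [this, intervalIntegral.integral_of_le (by linarith), integral_Ioc_eq_integral_Ioo]
  rw [e1, e2]
  have sigL : ∀ a ∈ Ioo (b - l) b, (a, b) ∈ Sig l := fun a ha => ⟨ha.2, by
    simp only; linarith [ha.1]⟩
  have sigR : ∀ c ∈ Ioo b (b + l), (b, c) ∈ Sig l := fun c hc => hc
  set f1 : ℝ → ℝ := fun a => L2 (a, b) with hf1
  set f2 : ℝ → ℝ := fun c => - L1 (b, c) with hf2
  have inj1 : InjOn f1 (Ioo (b - l) b) := (h.mono2 b).injOn
  have inj2 : InjOn f2 (Ioo b (b + l)) := fun c hc c' hc' e =>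
    (h.mono1 b).injOn hc hc' (neg_injective e)
  set c : ℝ → ℝ := Function.invFunOn f2 (Ioo b (b + l)) with hc
  have himg : f1 '' Ioo (b - l) b = f2 '' Ioo b (b + l) := by
    ext q
    constructor
    · rintro ⟨a, ha, rfl⟩
      refine ⟨nx l L1 L2 (a, b), h.nx_mem (sigL a ha), ?_⟩
      have := h.nx_eq (sigL a ha)
      simp only [hf1, hf2] at this ⊢
      linarith
    · rintro ⟨c, hc, rfl⟩
      obtain ⟨z, hz, e⟩ := h.ex_prev (b, c) (sigR c hc)
      refine ⟨z, mem_Ioo_of_Sig' hz, ?_⟩
      simp only [hf1, hf2] at e ⊢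
      linarith
  have l1 := integral_image_eq_integral_abs_deriv_smul (f := f1) (f' := fun a => L12 (a, b))
    measurableSet_Ioo (fun a ha => (h.hasDerivAt_L2_fst (sigL a ha)).hasDerivWithinAt) inj1
    (fun q => g (b, c q))
  have l2 := integral_image_eq_integral_abs_deriv_smul (f := f2) (f' := fun c => - L12 (b, c))
    measurableSet_Ioo (fun a ha => (h.hasDerivAt_L1_snd (sigR a ha)).neg.hasDerivWithinAt) inj2
    (fun q => g (b, c q))
  rw [himg] at l1
  have m1 : ∫ a in Ioo (b - l) b, g (TT l L1 L2 (a, b)) * L12 (a, b) =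
      ∫ a in Ioo (b - l) b, |L12 (a, b)| • g (b, c (f1 a)) := by
    apply setIntegral_congr_fun measurableSet_Ioo
    intro a ha
    have hs := sigL a ha
    have hn := h.nx_mem hs
    have hce : c (f1 a) = nx l L1 L2 (a, b) := by
      apply inj2
      · apply Function.invFunOn_mem
        rw [← mem_image, ← himg]
        exact mem_image_of_mem _ ha
      · exact hn
      · have e : f2 (c (f1 a)) = f1 a := by
          apply Function.invFunOn_eq
          rw [← mem_image, ← himg]
          exact mem_image_of_mem _ ha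
        rw [e]
        have := h.nx_eq hs
        simp only [hf1, hf2] at this ⊢
        linarith
    simp only [hce, abs_of_nonneg (h.L12_nonneg hs), smul_eq_mul]
    rw [mul_comm]
    rfl
  have m2 : ∫ a in Ioo b (b + l), g (b, a) * L12 (b, a) =
      ∫ a in Ioo b (b + l), |(- L12 (b, a))| • g (b, c (f2 a)) := by
    apply setIntegral_congr_fun measurableSet_Ioo
    intro a ha
    have hs := sigR a ha
    have hce : c (f2 a) = a := inj2.leftInvOn_invFunOn ha
    simp only [hce, abs_neg, abs_of_nonneg (h.L12_nonneg hs), smul_eq_mul]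
    rw [mul_comm]
  rw [m1, m2, ← l1, ← l2]

lemma integral_congr_Ioo' {a b : ℝ} (hab : a ≤ b) {f g : ℝ → ℝ} (hfg : ∀ x ∈ Ioo a b, f x = g x) :
    ∫ x in a..b, f x = ∫ x in a..b, g x := by
  rw [intervalIntegral.integral_of_le hab, intervalIntegral.integral_of_le hab,
    integral_Ioc_eq_integral_Ioo, integral_Ioc_eq_integral_Ioo]
  exact setIntegral_congr_fun measurableSet_Ioo hfg

lemma mem_Sig_add {l x u : ℝ} (hu : u ∈ Ioo 0 l) : (x, x + u) ∈ Sig l :=
  ⟨by simp only; linarith [hu.1], by simp only; linarith [hu.2]⟩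

lemma mem_Sig_sub {l x u : ℝ} (hu : u ∈ Ioo 0 l) : (x - u, x) ∈ Sig l :=
  ⟨by simp only; linarith [hu.1], by simp only; linarith [hu.2]⟩

lemma II_congr {l : ℝ} (hl : 0 ≤ l) {f g : ℝ × ℝ → ℝ} (hfg : ∀ p ∈ Sig l, f p = g p) :
    II l f = II l g := by
  unfold II
  congr 1
  ext x
  exact integral_congr_Ioo' hl fun u hu => hfg _ (mem_Sig_add hu)

lemma II_swap' {l : ℝ} (hl : 0 < l) {δ : ℝ} (hδ : 0 < δ) {g : ℝ × ℝ → ℝ}
    (hg : ContinuousOn g (Sig l)) (hper : ∀ p ∈ Sig l, g (p + (l, l)) = g p)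
    (h0 : ∀ p ∈ Sig l, p ∉ Core l δ → g p = 0) :
    II l g = ∫ y in (0:ℝ)..l, ∫ u in (0:ℝ)..l, g (y - u, y) := by
  have h1 : II l g = II l ((Sig l).indicator g) :=
    II_congr hl.le fun p hp => (indicator_of_mem hp g).symm
  rw [h1, II_swap (continuous_ind hδ hg h0)]
  · congr 1
    ext y
    exact integral_congr_Ioo' hl.le fun u hu => indicator_of_mem (mem_Sig_sub hu) g
  · intro p
    by_cases hp : p ∈ Sig l
    · rw [indicator_of_mem hp, indicator_of_mem (Sig_shift.2 hp), hper p hp]
    · rw [indicator_of_notMem hp, indicator_of_notMem (fun hc => hp (Sig_shift.1 hc))]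

/-- `T`-invariance of `L12 dx dy` on the quotient cylinder. -/
lemma TwistGen.transfer {l : ℝ} {L L1 L2 L11 L12 L22 : ℝ × ℝ → ℝ}
    (h : TwistGen l L L1 L2 L11 L12 L22) {δ : ℝ} (hδ : 0 < δ) {g : ℝ × ℝ → ℝ}
    (hg : ContinuousOn g (Sig l)) (hper : ∀ p ∈ Sig l, g (p + (l, l)) = g p)
    (h0 : ∀ p ∈ Sig l, p ∉ Core l δ → g (TT l L1 L2 p) = 0) :
    II l (fun p => g (TT l L1 L2 p) * L12 p) = II l (fun p => g p * L12 p) := by
  rw [II_swap' h.lpos hδ]
  · unfold II
    congr 1
    ext y
    exact h.transfer1 g y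
  · exact (hg.comp h.contOn_T fun p hp => h.T_mem hp).mul h.c12
  · intro p hp
    rw [h.T_shift hp, hper _ (h.T_mem hp), h.p12 p hp]
  · intro p hp hpc
    rw [h0 p hp hpc, zero_mul]

end MPd2f538
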