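import Mathlib

/-!
# Twist generating functions on the strip (piece A of MP_d2f538_an)
-/

open Set Filter Topology MeasureTheory

namespace MPd2f538

/-- The universal cover of the open phase cylinder. -/
def Sig (l : ℝ) : Set (ℝ × ℝ) := {p | p.1 < p.2 ∧ p.2 < p.1 + l}

/-- A (weak) twist generating function on the strip `Sig l`, with its first and second
derivatives. -/
structure TwistGen (l : ℝ) (L L1 L2 L11 L12 L22 : ℝ × ℝ → ℝ) : Prop where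
  lpos : 0 < l
  dL : ∀ p ∈ Sig l, HasFDerivAt L
    (L1 p • ContinuousLinearMap.fst ℝ ℝ ℝ + L2 p • ContinuousLinearMap.snd ℝ ℝ ℝ) p
  dL1 : ∀ p ∈ Sig l, HasFDerivAt L1
    (L11 p • ContinuousLinearMap.fst ℝ ℝ ℝ + L12 p • ContinuousLinearMap.snd ℝ ℝ ℝ) p
  dL2 : ∀ p ∈ Sig l, HasFDerivAt L2
    (L12 p • ContinuousLinearMap.fst ℝ ℝ ℝ + L22 p • ContinuousLinearMap.snd ℝ ℝ ℝ) p
  c11 : ContinuousOn L11 (Sig l)
  c12 : ContinuousOn L12 (Sig l)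
  c22 : ContinuousOn L22 (Sig l)
  pL : ∀ p ∈ Sig l, L (p + (l, l)) = L p
  pL1 : ∀ p ∈ Sig l, L1 (p + (l, l)) = L1 p
  pL2 : ∀ p ∈ Sig l, L2 (p + (l, l)) = L2 p
  p11 : ∀ p ∈ Sig l, L11 (p + (l, l)) = L11 p
  p12 : ∀ p ∈ Sig l, L12 (p + (l, l)) = L12 p
  p22 : ∀ p ∈ Sig l, L22 (p + (l, l)) = L22 p
  mono1 : ∀ x, StrictMonoOn (fun y => L1 (x, y)) (Ioo x (x + l))
  mono2 : ∀ y, StrictMonoOn (fun x => L2 (x, y)) (Ioo (y - l) y)
  ex_next : ∀ p ∈ Sig l, ∃ z, (p.2, z) ∈ Sig l ∧ L2 p + L1 (p.2, z) = 0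
  ex_prev : ∀ p ∈ Sig l, ∃ z, (z, p.1) ∈ Sig l ∧ L2 (z, p.1) + L1 p = 0

/-- A `C¹` foliation of the strip `Sig l` by invariant curves. -/
structure InvFol (l : ℝ) (L1 L2 : ℝ × ℝ → ℝ) (Φ : ℝ × ℝ → ℝ × ℝ) : Prop where
  cd : ContDiffOn ℝ 1 Φ (univ ×ˢ Ioo 0 1)
  det : ∀ p ∈ (univ : Set ℝ) ×ˢ Ioo (0 : ℝ) 1, (fderiv ℝ Φ p).det ≠ 0
  bij : BijOn Φ (univ ×ˢ Ioo 0 1) (Sig l)
  per : ∀ s, ∀ a ∈ Ioo (0 : ℝ) 1, Φ (s + 1, a) = Φ (s, a) + (l, l)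
  inv : ∀ s, ∀ a ∈ Ioo (0 : ℝ) 1, ∀ z, (Φ (s, a)).2 < z → z < (Φ (s, a)).2 + l →
    L2 (Φ (s, a)) + L1 ((Φ (s, a)).2, z) = 0 → ∃ s', Φ (s', a) = ((Φ (s, a)).2, z)

lemma isOpen_Sig (l : ℝ) : IsOpen (Sig l) := by
  apply IsOpen.inter
  · exact isOpen_lt continuous_fst continuous_snd
  · exact isOpen_lt continuous_snd (continuous_fst.add continuous_const)

lemma Sig_shift {l : ℝ} {p : ℝ × ℝ} : p + (l, l) ∈ Sig l ↔ p ∈ Sig l := by
  simp [Sig]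

/-- the next point -/
noncomputable def nx (l : ℝ) (L1 L2 : ℝ × ℝ → ℝ) (p : ℝ × ℝ) : ℝ :=
  open Classical in
  if h : ∃ z, (p.2, z) ∈ Sig l ∧ L2 p + L1 (p.2, z) = 0 then Classical.choose h else 0

/-- the billiard map -/
noncomputable def TT (l : ℝ) (L1 L2 : ℝ × ℝ → ℝ) (p : ℝ × ℝ) : ℝ × ℝ := (p.2, nx l L1 L2 p)

@[simp] lemma TT_fst {l : ℝ} {L1 L2 : ℝ × ℝ → ℝ} (p : ℝ × ℝ) :
    (TT l L1 L2 p).1 = p.2 := rfl

lemma mem_Ioo_of_Sig {l : ℝ} {p : ℝ × ℝ} (hp : p ∈ Sig l) :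
    p.2 ∈ Ioo p.1 (p.1 + l) := hp

lemma mem_Ioo_of_Sig' {l : ℝ} {p : ℝ × ℝ} (hp : p ∈ Sig l) :
    p.1 ∈ Ioo (p.2 - l) p.2 := ⟨by linarith [hp.2], hp.1⟩

section
variable {l : ℝ} {L L1 L2 L11 L12 L22 : ℝ × ℝ → ℝ} (h : TwistGen l L L1 L2 L11 L12 L22)
include h

namespace TwistGen

lemma nx_mem {p : ℝ × ℝ} (hp : p ∈ Sig l) : (p.2, nx l L1 L2 p) ∈ Sig l := by
  have := h.ex_next p hp
  rw [nx, dif_pos this]
  exact (Classical.choose_spec this).1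

lemma nx_eq {p : ℝ × ℝ} (hp : p ∈ Sig l) : L2 p + L1 (p.2, nx l L1 L2 p) = 0 := by
  have := h.ex_next p hp
  rw [nx, dif_pos this]
  exact (Classical.choose_spec this).2

lemma T_mem {p : ℝ × ℝ} (hp : p ∈ Sig l) : TT l L1 L2 p ∈ Sig l := h.nx_mem hp

lemma T_eq {p : ℝ × ℝ} (hp : p ∈ Sig l) : L2 p + L1 (TT l L1 L2 p) = 0 := h.nx_eq hp

lemma L1_inj {x y z : ℝ} (hy : (x, y) ∈ Sig l) (hz : (x, z) ∈ Sig l) (e : L1 (x, y) = L1 (x, z)) :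
    y = z := (h.mono1 x).injOn hy hz e

lemma L2_inj {x x' y : ℝ} (hy : (x, y) ∈ Sig l) (hz : (x', y) ∈ Sig l)
    (e : L2 (x, y) = L2 (x', y)) : x = x' :=
  (h.mono2 y).injOn (mem_Ioo_of_Sig' hy) (mem_Ioo_of_Sig' hz) e

lemma L1_lt {x y z : ℝ} (hy : (x, y) ∈ Sig l) (hz : (x, z) ∈ Sig l) :
    L1 (x, y) < L1 (x, z) ↔ y < z := (h.mono1 x).lt_iff_lt hy hz

lemma L2_lt {x x' y : ℝ} (hy : (x, y) ∈ Sig l) (hz : (x', y) ∈ Sig l) :
    L2 (x, y) < L2 (x', y) ↔ x < x' :=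
  (h.mono2 y).lt_iff_lt (mem_Ioo_of_Sig' hy) (mem_Ioo_of_Sig' hz)

lemma nx_unique {p : ℝ × ℝ} (hp : p ∈ Sig l) {z : ℝ} (hz : (p.2, z) ∈ Sig l)
    (e : L2 p + L1 (p.2, z) = 0) : nx l L1 L2 p = z :=
  h.L1_inj (h.nx_mem hp) hz (by linarith [h.nx_eq hp])

lemma T_unique {p q : ℝ × ℝ} (hp : p ∈ Sig l) (hq : q ∈ Sig l) (hpq : q.1 = p.2)
    (e : L2 p + L1 q = 0) : TT l L1 L2 p = q := by
  ext
  · simp [hpq]
  · have : q = (p.2, q.2) := by ext <;> simp [hpq]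
    rw [this] at hq e
    exact h.nx_unique hp hq e

lemma T_inj {p q : ℝ × ℝ} (hp : p ∈ Sig l) (hq : q ∈ Sig l) (e : TT l L1 L2 p = TT l L1 L2 q) :
    p = q := by
  have h2 : p.2 = q.2 := congrArg Prod.fst e
  have h1 : L2 p = L2 q := by
    have := h.T_eq hp; have := h.T_eq hq
    rw [e] at *; linarith
  have hp' : (p.1, p.2) ∈ Sig l := hp
  have hq' : (q.1, p.2) ∈ Sig l := by rw [h2]; exact hq
  have := h.L2_inj hp' hq' (by rw [Prod.mk.eta]; rw [h1, h2])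
  exact Prod.ext this h2

lemma T_surj {q : ℝ × ℝ} (hq : q ∈ Sig l) : ∃ p ∈ Sig l, TT l L1 L2 p = q := by
  obtain ⟨z, hz, e⟩ := h.ex_prev q hq
  exact ⟨(z, q.1), hz, h.T_unique hz hq rfl e⟩

lemma T_shift {p : ℝ × ℝ} (hp : p ∈ Sig l) : TT l L1 L2 (p + (l, l)) = TT l L1 L2 p + (l, l) := by
  apply h.T_unique (Sig_shift.2 hp) (Sig_shift.2 (h.T_mem hp))
  · simp
  · rw [h.pL2 p hp, h.pL1 _ (h.T_mem hp)]
    exact h.T_eq hp

lemma contL1 : ContinuousOn L1 (Sig l) := fun p hp => (h.dL1 p hp).continuousAt.continuousWithinAt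

lemma contL2 : ContinuousOn L2 (Sig l) := fun p hp => (h.dL2 p hp).continuousAt.continuousWithinAt

lemma contL : ContinuousOn L (Sig l) := fun p hp => (h.dL p hp).continuousAt.continuousWithinAt

lemma contAt_nx {p : ℝ × ℝ} (hp : p ∈ Sig l) : ContinuousAt (nx l L1 L2) p := by
  have hn := h.nx_mem hp
  have he := h.nx_eq hp
  set z := nx l L1 L2 p with hz
  have key : ∀ c, (p.2, c) ∈ Sig l → ContinuousAt (fun q : ℝ × ℝ => L2 q + L1 (q.2, c)) p := by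
    intro c hc
    apply ContinuousAt.add (h.dL2 p hp).continuousAt
    have : ContinuousAt L1 (p.2, c) := (h.dL1 _ hc).continuousAt
    exact ContinuousAt.comp (f := fun q : ℝ × ℝ => ((q.2, c) : ℝ × ℝ)) this (by fun_prop)
  have key2 : ∀ c, (p.2, c) ∈ Sig l → ∀ᶠ q in 𝓝 p, (q.2, c) ∈ Sig l := by
    intro c hc
    have hcont : ContinuousAt (fun q : ℝ × ℝ => ((q.2, c) : ℝ × ℝ)) p := by fun_prop
    exact hcont ((isOpen_Sig l).mem_nhds hc)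
  have hsig : ∀ᶠ q in 𝓝 p, q ∈ Sig l := (isOpen_Sig l).mem_nhds hp
  have hn1 : p.2 < z := hn.1
  have hn2 : z < p.2 + l := hn.2
  rw [ContinuousAt, ← hz]
  apply tendsto_order.2
  constructor
  · intro a ha
    obtain ⟨c, hc1, hc2⟩ := exists_between (max_lt ha hn1)
    have hac : a < c := lt_of_le_of_lt (le_max_left _ _) hc1
    have hpc : (p.2, c) ∈ Sig l := ⟨lt_of_le_of_lt (le_max_right _ _) hc1, hc2.trans hn2⟩
    have hlt : L2 p + L1 (p.2, c) < 0 := by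
      have := (h.L1_lt hpc hn).2 hc2
      linarith
    filter_upwards [(key c hpc).eventually_lt_const hlt, key2 c hpc, hsig] with q hq1 hq2 hq3
    have h1 := h.nx_eq hq3
    have h2 := h.nx_mem hq3
    have : L1 (q.2, c) < L1 (q.2, nx l L1 L2 q) := by linarith
    exact hac.trans ((h.L1_lt hq2 h2).1 this)
  · intro a ha
    obtain ⟨c, hc1, hc2⟩ := exists_between (lt_min ha hn2)
    have hac : c < a := lt_of_lt_of_le hc2 (min_le_left _ _)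
    have hpc : (p.2, c) ∈ Sig l := ⟨hn1.trans hc1, lt_of_lt_of_le hc2 (min_le_right _ _)⟩
    have hlt : 0 < L2 p + L1 (p.2, c) := by
      have := (h.L1_lt hn hpc).2 hc1
      linarith
    filter_upwards [(key c hpc).eventually_const_lt hlt, key2 c hpc, hsig] with q hq1 hq2 hq3
    have h1 := h.nx_eq hq3
    have h2 := h.nx_mem hq3
    have : L1 (q.2, nx l L1 L2 q) < L1 (q.2, c) := by linarith
    exact ((h.L1_lt h2 hq2).1 this).trans hac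

lemma contAt_T {p : ℝ × ℝ} (hp : p ∈ Sig l) : ContinuousAt (TT l L1 L2) p :=
  continuousAt_snd.prodMk (h.contAt_nx hp)

lemma contOn_T : ContinuousOn (TT l L1 L2) (Sig l) :=
  fun _ hp => (h.contAt_T hp).continuousWithinAt

lemma hasDerivAt_L1_snd {x y : ℝ} (hp : (x, y) ∈ Sig l) :
    HasDerivAt (fun y => L1 (x, y)) (L12 (x, y)) y := by
  have h1 := h.dL1 _ hp
  have h2 : HasDerivAt (fun y : ℝ => ((x, y) : ℝ × ℝ)) (0, 1) y :=
    (hasDerivAt_const y x).prodMk (hasDerivAt_id y)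
  have := h1.comp_hasDerivAt y h2
  simpa [Function.comp_def] using this

lemma hasDerivAt_L2_fst {x y : ℝ} (hp : (x, y) ∈ Sig l) :
    HasDerivAt (fun x => L2 (x, y)) (L12 (x, y)) x := by
  have h1 := h.dL2 _ hp
  have h2 : HasDerivAt (fun x : ℝ => ((x, y) : ℝ × ℝ)) (1, 0) x :=
    (hasDerivAt_id x).prodMk (hasDerivAt_const x y)
  have := h1.comp_hasDerivAt x h2
  simpa [Function.comp_def] using this

lemma hasDerivAt_L_snd {x y : ℝ} (hp : (x, y) ∈ Sig l) :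
    HasDerivAt (fun y => L (x, y)) (L2 (x, y)) y := by
  have h1 := h.dL _ hp
  have h2 : HasDerivAt (fun y : ℝ => ((x, y) : ℝ × ℝ)) (0, 1) y :=
    (hasDerivAt_const y x).prodMk (hasDerivAt_id y)
  have := h1.comp_hasDerivAt y h2
  simpa [Function.comp_def] using this

lemma L12_nonneg {p : ℝ × ℝ} (hp : p ∈ Sig l) : 0 ≤ L12 p := by
  have hd := h.hasDerivAt_L1_snd (x := p.1) (y := p.2) hp
  have hm : MonotoneOn (fun y => L1 (p.1, y)) (Ioo p.1 (p.1 + l)) := (h.mono1 p.1).monotoneOn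
  have hw : HasDerivWithinAt (fun y => L1 (p.1, y)) (L12 p) (Ioo p.1 (p.1 + l)) p.2 :=
    hd.hasDerivWithinAt
  have hacc : AccPt p.2 (𝓟 (Ioo p.1 (p.1 + l))) := by
    have : UniqueDiffWithinAt ℝ (Ioo p.1 (p.1 + l)) p.2 := isOpen_Ioo.uniqueDiffWithinAt hp
    exact uniqueDiffWithinAt_iff_accPt.1 this
  exact hw.nonneg_of_monotoneOn hacc hm

/-- the set `L12 > 0` is dense -/
lemma exists_L12_pos {p : ℝ × ℝ} (hp : p ∈ Sig l) {U : Set (ℝ × ℝ)} (hU : U ∈ 𝓝 p) :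
    ∃ q ∈ U ∩ Sig l, 0 < L12 q := by
  by_contra hcon
  push Not at hcon
  have hUS : U ∩ Sig l ∈ 𝓝 p := inter_mem hU ((isOpen_Sig l).mem_nhds hp)
  have hcont : ContinuousAt (fun y : ℝ => ((p.1, y) : ℝ × ℝ)) p.2 := by fun_prop
  have hev : ∀ᶠ y in 𝓝 p.2, (p.1, y) ∈ U ∩ Sig l := hcont hUS
  obtain ⟨ε, hε, hball⟩ := Metric.eventually_nhds_iff.1 hev
  have hz : ∀ y ∈ Ioo (p.2 - ε) (p.2 + ε), (p.1, y) ∈ U ∩ Sig l := by
    intro y hy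
    apply hball
    rw [Real.dist_eq, abs_lt]
    constructor <;> linarith [hy.1, hy.2]
  have h1 : p.2 - ε / 2 ∈ Ioo (p.2 - ε) (p.2 + ε) := ⟨by linarith, by linarith⟩
  have h2 : p.2 + ε / 2 ∈ Ioo (p.2 - ε) (p.2 + ε) := ⟨by linarith, by linarith⟩
  have hlt : L1 (p.1, p.2 - ε / 2) < L1 (p.1, p.2 + ε / 2) :=
    (h.L1_lt (hz _ h1).2 (hz _ h2).2).2 (by linarith)
  have hab : p.2 - ε / 2 < p.2 + ε / 2 := by linarith
  obtain ⟨c, hc, hceq⟩ := exists_hasDerivAt_eq_slope (fun y => L1 (p.1, y))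
    (fun y => L12 (p.1, y)) hab
    (fun y hy => (h.hasDerivAt_L1_snd (hz y ⟨by linarith [hy.1], by linarith [hy.2]⟩).2).continuousAt.continuousWithinAt)
    (fun y hy => h.hasDerivAt_L1_snd (hz y ⟨by linarith [hy.1], by linarith [hy.2]⟩).2)
  have hc' := hcon (p.1, c) (hz c ⟨by linarith [hc.1], by linarith [hc.2]⟩)
  have : 0 < L12 (p.1, c) := by
    rw [hceq]
    apply div_pos <;> linarith
  linarith

end TwistGen
end

end MPd2f538
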