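import Mathlib

open MeasureTheory Set Real

namespace Pool.Agent.MP_d2f538_an

/-- Wirtinger's inequality for mean-zero functions with equal end values. -/
theorem wirtinger {a b : ℝ} (hab : a < b) {f f' : ℝ → ℂ}
    (hf : ∀ x, HasDerivAt f (f' x) x) (hf' : Continuous f') (hper : f b = f a)
    (hmean : ∫ x in a..b, f x = 0) :
    ∫ x in a..b, ‖f x‖ ^ 2 ≤ ((b - a) / (2 * π)) ^ 2 * ∫ x in a..b, ‖f' x‖ ^ 2 := by
  have hcf : Continuous f := continuous_iff_continuousAt.2 fun x => (hf x).continuousAt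
  have hba : 0 < b - a := by linarith
  have memlp : ∀ g : ℝ → ℂ, Continuous g → MemLp g 2 (volume.restrict (Ioc a b)) := by
    intro g hg
    obtain ⟨C, hC⟩ := (isCompact_Icc (a := a) (b := b)).exists_bound_of_continuousOn
      (f := g) hg.continuousOn
    refine MemLp.of_bound hg.aestronglyMeasurable C ?_
    exact (ae_restrict_iff' measurableSet_Ioc).2
      (Filter.Eventually.of_forall fun x hx => hC x (Ioc_subset_Icc_self hx))
  have h1 := hasSum_sq_fourierCoeffOn hab (memlp f hcf)
  have h2 := hasSum_sq_fourierCoeffOn hab (memlp f' hf')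
  have key : ∀ n : ℤ, ‖fourierCoeffOn hab f n‖ ^ 2 ≤
      ((b - a) / (2 * π)) ^ 2 * ‖fourierCoeffOn hab f' n‖ ^ 2 := by
    intro n
    by_cases hn : n = 0
    · subst hn
      have : fourierCoeffOn hab f 0 = 0 := by
        rw [fourierCoeffOn_eq_integral]
        simp [hmean]
      rw [this, norm_zero, zero_pow two_ne_zero]
      positivity
    · rw [fourierCoeffOn_of_hasDerivAt hab hn (fun x _ => hf x) (hf'.intervalIntegrable _ _)]
      rw [hper, sub_self, mul_zero, zero_sub]
      rw [norm_mul, norm_neg, norm_mul, norm_div, norm_one]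
      have e1 : ‖(-2 * (π : ℂ) * Complex.I * (n : ℂ))‖ = 2 * π * |(n : ℝ)| := by
        simp [abs_of_pos pi_pos]
      have e2 : ‖((b : ℂ) - (a : ℂ))‖ = b - a := by
        rw [← Complex.ofReal_sub, Complex.norm_real, Real.norm_eq_abs, abs_of_pos hba]
      rw [e1, e2]
      have hn1 : (1 : ℝ) ≤ |(n : ℝ)| := by
        have : (1 : ℤ) ≤ |n| := Int.one_le_abs hn
        exact_mod_cast this
      have : 1 / (2 * π * |(n : ℝ)|) ≤ 1 / (2 * π) := by
        apply one_div_le_one_div_of_le (by positivity)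
        nlinarith [pi_pos]
      calc (1 / (2 * π * |(n : ℝ)|) * ((b - a) * ‖fourierCoeffOn hab f' n‖)) ^ 2
          ≤ (1 / (2 * π) * ((b - a) * ‖fourierCoeffOn hab f' n‖)) ^ 2 := by
            apply pow_le_pow_left₀ (by positivity)
            apply mul_le_mul_of_nonneg_right this (by positivity)
        _ = _ := by ring
  have h3 := hasSum_le key h1 (h2.mul_left _)
  simp only [smul_eq_mul] at h3
  have h4 : (b - a)⁻¹ * ∫ x in a..b, ‖f x‖ ^ 2 ≤
      (b - a)⁻¹ * (((b - a) / (2 * π)) ^ 2 * ∫ x in a..b, ‖f' x‖ ^ 2) := by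
    calc _ ≤ _ := h3
      _ = _ := by ring
  exact le_of_mul_le_mul_left h4 (inv_pos.2 hba)

end Pool.Agent.MP_d2f538_an
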